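import Mathlib

/-!
Common tools for the spaces `C_p(X)` and `L_p(X)`.
-/

namespace Pool.Agent.Work.MP_f50f0f_gt

open Set Filter Topology TopologicalSpace

variable {X : Type*} [TopologicalSpace X]

/-- `C_p(X)`. -/
abbrev Cp (X : Type*) [TopologicalSpace X] := ↥{f : X → ℝ | Continuous f}

/-- `L_p(X)`. -/
abbrev Lp (X : Type*) [TopologicalSpace X] :=
  ↥(Set.range (fun a : X →₀ ℝ => fun f : C(X, ℝ) => a.sum (fun x r => r * f x)))

/-- Every closed subspace of `C_p(X)` is separable. -/
abbrev Hyp (X : Type*) [TopologicalSpace X] : Prop :=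
  ∀ S : Set (Cp X), IsClosed S → SeparableSpace ↥S

lemma continuous_evalCp (x : X) : Continuous fun h : Cp X => h.1 x :=
  (continuous_apply x).comp continuous_subtype_val

lemma continuous_evalLp (f : C(X, ℝ)) : Continuous fun ψ : Lp X => ψ.1 f :=
  (continuous_apply f).comp continuous_subtype_val

lemma exists_dense (H : Hyp X) {S : Set (Cp X)} (hS : IsClosed S) :
    ∃ D : Set (Cp X), D.Countable ∧ D ⊆ S ∧
      ∀ h ∈ S, ∀ U : Set (Cp X), IsOpen U → h ∈ U → ∃ d ∈ D, d ∈ U := by
  have := H S hS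
  obtain ⟨t, ht, hd⟩ := exists_countable_dense ↥S
  refine ⟨Subtype.val '' t, ht.image _, fun _ ⟨y, _, hy⟩ => hy ▸ y.2, fun h hh U hU hhU => ?_⟩
  obtain ⟨y, hy1, hy2⟩ := hd.inter_open_nonempty (Subtype.val ⁻¹' U)
    (hU.preimage continuous_subtype_val) ⟨⟨h, hh⟩, hhU⟩
  exact ⟨y.1, mem_image_of_mem _ hy2, hy1⟩

/-- A functional of `L_p(X)` applied to a family of functions depending pointwise continuously on
a parameter is continuous in the parameter. -/
lemma continuous_apply_family {Z : Type*} [TopologicalSpace Z] (ψ : Lp X) (G : Z → C(X, ℝ))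
    (hG : ∀ x, Continuous fun z => G z x) : Continuous fun z => ψ.1 (G z) := by
  obtain ⟨_, a, rfl⟩ := ψ
  simp only [Finsupp.sum]
  exact continuous_finsetSum _ fun x _ => continuous_const.mul (hG x)

end Pool.Agent.Work.MP_f50f0f_gt
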