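import Pool.Agent.Work.MP_f50f0f_gt.CBas
import Mathlib.Algebra.Module.Submodule.Basic

/-! Averages over the levels of the binary tree and the median of three vertices. -/

namespace Pool.Agent.Work.MP_f50f0f_gt
open Function Set Filter Topology

/-- The average over level `j`. -/
noncomputable def av {M : Type*} [AddCommGroup M] [Module ℝ M] : ℕ → (G2 → M) → M
  | 0, F => F a0
  | j + 1, F => (1 / 2 : ℝ) • (av j (fun a => F (update a j false)) +
      av j fun a => F (update a j true))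

theorem cav_nrm_update {j : ℕ} {a : G2} (h : nrm j a) (b : Bool) : nrm (j + 1) (update a j b) :=
  fun n hn => by
    rw [update_of_ne (by omega)]
    exact h n (by omega)

section av
variable {M N : Type*} [AddCommGroup M] [Module ℝ M] [AddCommGroup N] [Module ℝ N]

theorem av_congr {j : ℕ} {F G : G2 → M} (h : ∀ a, nrm j a → F a = G a) : av j F = av j G := by
  induction j generalizing F G with
  | zero => exact h _ (nrm_a0 0)
  | succ j ih =>
    simp only [av]
    rw [ih fun a ha => h _ (cav_nrm_update ha false), ih fun a ha => h _ (cav_nrm_update ha true)]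

theorem av_map (f : M →ₗ[ℝ] N) (j : ℕ) (F : G2 → M) : f (av j F) = av j fun a => f (F a) := by
  induction j generalizing F with
  | zero => rfl
  | succ j ih => simp only [av, map_smul, map_add, ih]

theorem av_mem (S : Submodule ℝ M) {j : ℕ} {F : G2 → M} (h : ∀ a, nrm j a → F a ∈ S) :
    av j F ∈ S := by
  induction j generalizing F with
  | zero => exact h _ (nrm_a0 0)
  | succ j ih =>
    exact S.smul_mem _ (S.add_mem (ih fun a ha => h _ (cav_nrm_update ha false))
      (ih fun a ha => h _ (cav_nrm_update ha true)))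

theorem av_add (j : ℕ) (F G : G2 → M) : av j (fun a => F a + G a) = av j F + av j G := by
  induction j generalizing F G with
  | zero => rfl
  | succ j ih =>
    simp only [av, ih, smul_add]
    abel

theorem av_smul (j : ℕ) (c : ℝ) (F : G2 → M) : av j (fun a => c • F a) = c • av j F := by
  induction j generalizing F with
  | zero => rfl
  | succ j ih => simp only [av, ih, smul_add, smul_comm c]

theorem av_const (j : ℕ) (c : M) : av j (fun _ => c) = c := by
  induction j with
  | zero => rfl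
  | succ j ih =>
    simp only [av, ih]
    rw [← two_smul ℝ c, smul_smul]
    norm_num

theorem av_mono {j : ℕ} {F G : G2 → ℝ} (h : ∀ a, nrm j a → F a ≤ G a) : av j F ≤ av j G := by
  induction j generalizing F G with
  | zero => exact h _ (nrm_a0 0)
  | succ j ih =>
    have h1 := ih fun a ha => h _ (cav_nrm_update ha false)
    have h2 := ih fun a ha => h _ (cav_nrm_update ha true)
    simp only [av, smul_eq_mul]
    linarith

end av

open Classical in
/-- The indicator function. -/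
noncomputable def ind (A : G2 → Prop) (a : G2) : ℝ := if A a then 1 else 0

theorem cav_ind_pos {A : G2 → Prop} {a : G2} (h : A a) : ind A a = 1 := if_pos h
theorem cav_ind_neg {A : G2 → Prop} {a : G2} (h : ¬ A a) : ind A a = 0 := if_neg h

theorem cav_ind_congr {A B : G2 → Prop} {a b : G2} (h : A a ↔ B b) : ind A a = ind B b := by
  by_cases ha : A a
  · rw [cav_ind_pos ha, cav_ind_pos (h.1 ha)]
  · rw [cav_ind_neg ha, cav_ind_neg fun hb => ha (h.2 hb)]

theorem cav_ag_update {K j : ℕ} (h : K ≤ j) (a₁ a : G2) (b : Bool) :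
    ag K a₁ (update a j b) ↔ ag K a₁ a :=
  forall₂_congr fun n hn => by rw [update_of_ne (by omega)]

theorem cav_ag_succ (j : ℕ) (a₁ a : G2) (b : Bool) :
    ag (j + 1) a₁ (update a j b) ↔ ag j a₁ a ∧ a₁ j = b := by
  constructor
  · intro h
    exact ⟨(cav_ag_update le_rfl a₁ a b).1 (h.mono j.le_succ), by simpa using h j j.lt_succ_self⟩
  · rintro ⟨h1, h2⟩ n hn
    rcases Nat.lt_succ_iff_lt_or_eq.1 hn with h | rfl
    · rw [update_of_ne h.ne]
      exact h1 n h
    · simpa using h2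

theorem cav_mul (j : ℕ) (c : ℝ) (F : G2 → ℝ) : av j (fun a => c * F a) = c * av j F :=
  av_smul j c F

theorem av_cone {K j : ℕ} (h : K ≤ j) (a₁ : G2) : av j (ind fun a => ag K a₁ a) = (1 / 2) ^ K := by
  induction j generalizing K with
  | zero =>
    obtain rfl : K = 0 := by omega
    exact (cav_ind_pos fun n hn => absurd hn (Nat.not_lt_zero n)).trans (pow_zero _).symm
  | succ j ih =>
    rcases Nat.le_succ_iff.1 h with h | rfl
    · have e : ∀ b, (fun a => ind (fun a => ag K a₁ a) (update a j b)) =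
          ind fun a => ag K a₁ a := fun b => funext fun a => cav_ind_congr (cav_ag_update h a₁ a b)
      simp only [av, e, ih h, smul_eq_mul]
      ring
    · have e1 : ∀ b, a₁ j = b → (fun a => ind (fun a => ag (j + 1) a₁ a) (update a j b)) =
          ind fun a => ag j a₁ a := fun b hb => funext fun a =>
        cav_ind_congr ((cav_ag_succ j a₁ a b).trans (and_iff_left hb))
      have e2 : ∀ b, a₁ j ≠ b → (fun a => ind (fun a => ag (j + 1) a₁ a) (update a j b)) =
          fun _ => 0 := fun b hb => funext fun a =>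
        cav_ind_neg fun h => hb ((cav_ag_succ j a₁ a b).1 h).2
      simp only [av]
      cases hb : a₁ j
      · rw [e1 false hb, e2 true (by simp [hb]), ih le_rfl, av_const, smul_eq_mul, pow_succ]
        ring
      · rw [e1 true hb, e2 false (by simp [hb]), ih le_rfl, av_const, smul_eq_mul, pow_succ]
        ring

/-- The sign of a node of level `j`. -/
def sg (j : ℕ) (a : G2) : ℝ := if a (j - 1) then 1 else -1

theorem cav_sg_true (j : ℕ) (a : G2) : sg (j + 1) (update a j true) = 1 := by simp [sg]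
theorem cav_sg_false (j : ℕ) (a : G2) : sg (j + 1) (update a j false) = -1 := by simp [sg]
theorem cav_sg (j : ℕ) (a : G2) : sg j a = 1 ∨ sg j a = -1 := by
  unfold sg
  split_ifs
  · exact Or.inl rfl
  · exact Or.inr rfl

/-- A function that almost does not depend on the last bit has a small signed average. -/
theorem av_sg_small {j : ℕ} {F : G2 → ℝ} {c : ℝ}
    (h : ∀ a a', nrm (j + 1) a → nrm (j + 1) a' → ag j a a' → |F a - F a'| ≤ c) :
    |av (j + 1) fun a => sg (j + 1) a * F a| ≤ c := by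
  have hc : 0 ≤ c := (abs_nonneg _).trans (h a0 a0 (nrm_a0 _) (nrm_a0 _) (ag.refl _ _))
  have h1 : ∀ a, nrm j a → |F (update a j true) - F (update a j false)| ≤ c := fun a ha =>
    h _ _ (cav_nrm_update ha _) (cav_nrm_update ha _) fun n hn => by
      rw [update_of_ne hn.ne, update_of_ne hn.ne]
  simp only [av, cav_sg_true, cav_sg_false, ← av_add, smul_eq_mul]
  have h2 := av_mono (j := j) (G := fun _ => c)
    (F := fun a => -1 * F (update a j false) + 1 * F (update a j true))
    fun a ha => by linarith [(abs_le.1 (h1 a ha)).2]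
  have h3 := av_mono (j := j) (F := fun _ => -c)
    (G := fun a => -1 * F (update a j false) + 1 * F (update a j true))
    fun a ha => by linarith [(abs_le.1 (h1 a ha)).1]
  rw [av_const] at h2 h3
  rw [abs_le]
  constructor <;> linarith

/-- The constraint on level `j`: one of the two signed averages is large. -/
def Con (j : ℕ) (f : G2 → D) : Prop :=
  1 / 20 < |av j fun a => sg j a * ((f a).1 : ℝ)| ∨ 1 / 20 < |av j fun a => sg j a * ((f a).2 : ℝ)|

theorem Con.congr {j : ℕ} {f g : G2 → D} (h : Con j f) (h' : ∀ a, nrm j a → f a = g a) :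
    Con j g := by
  unfold Con at h ⊢
  rwa [av_congr (G := fun a => sg j a * ((f a).1 : ℝ)) fun a ha => by rw [h' a ha],
    av_congr (F := fun a => sg j a * ((g a).2 : ℝ)) (G := fun a => sg j a * ((f a).2 : ℝ))
      fun a ha => by rw [h' a ha]]

/-- The default values on level `j`. -/
def dfl (j : ℕ) (a : G2) : D := if a (j - 1) then (1, 0) else (0, 0)

theorem con_dfl {j : ℕ} (hj : 1 ≤ j) : Con j (dfl j) := by
  obtain ⟨i, rfl⟩ := Nat.exists_eq_add_of_le' hj
  left
  have e1 : ∀ a, dfl (i + 1) (update a i true) = (1, 0) := fun a => by simp [dfl]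
  have e2 : ∀ a, dfl (i + 1) (update a i false) = (0, 0) := fun a => by simp [dfl]
  simp only [av, cav_sg_true, cav_sg_false, e1, e2, av_const]
  norm_num

theorem cav_cell (j : ℕ) (nf : G2 → Prop) (u w : G2 → D) (hnf : av j (ind nf) ≤ 1 / 50)
    (π : D → ℝ) (hπ : ∀ d, 0 ≤ π d ∧ π d ≤ 1)
    (hX : 49 / 100 ≤ av j (ind fun a => ¬ nf a ∧ 9 / 20 ≤ |π (u a) - π (w a)|)) :
    ∃ c : G2 → D, (∀ a, c a = u a ∨ c a = w a) ∧
      ∀ f : G2 → D, (∀ a, ¬ nf a → f a = c a) → 1 / 20 < |av j fun a => sg j a * π (f a)| := by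
  classical
  let c₁ : G2 → D := fun a => if sg j a * π (u a) ≤ sg j a * π (w a) then w a else u a
  let c₂ : G2 → D := fun a => if sg j a * π (u a) ≤ sg j a * π (w a) then u a else w a
  let g : (G2 → D) → G2 → ℝ := fun c a => if nf a then 0 else sg j a * π (c a)
  have h1 : ∀ a, g c₂ a + 9 / 20 * ind (fun a => ¬ nf a ∧ 9 / 20 ≤ |π (u a) - π (w a)|) a ≤
      g c₁ a := by
    intro a
    by_cases ha : nf a
    · rw [cav_ind_neg fun h => h.1 ha]
      simp [g, ha]
    · simp only [g, if_neg ha, c₁, c₂]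
      by_cases hb : 9 / 20 ≤ |π (u a) - π (w a)|
      · rw [cav_ind_pos (A := fun a => ¬ nf a ∧ 9 / 20 ≤ |π (u a) - π (w a)|) ⟨ha, hb⟩]
        rcases le_abs.1 hb with hb | hb <;> rcases cav_sg j a with h | h <;> rw [h] <;>
          split_ifs <;> linarith
      · rw [cav_ind_neg (A := fun a => ¬ nf a ∧ 9 / 20 ≤ |π (u a) - π (w a)|) fun h => hb h.2]
        split_ifs <;> linarith
  have h2 := av_mono (j := j) fun a _ => h1 a
  rw [av_add, cav_mul] at h2
  have h3 : ∀ c f : G2 → D, (∀ a, ¬ nf a → f a = c a) → ∀ a,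
      g c a ≤ sg j a * π (f a) + ind nf a ∧ sg j a * π (f a) ≤ g c a + ind nf a := by
    intro c f hf a
    by_cases ha : nf a
    · rw [cav_ind_pos ha]
      simp only [g, if_pos ha]
      obtain ⟨h4, h5⟩ := hπ (f a)
      rcases cav_sg j a with h | h <;> rw [h] <;> constructor <;> linarith
    · rw [cav_ind_neg ha, hf a ha]
      simp [g, ha]
  rcases le_total (1 / 10) (av j (g c₁)) with h | h
  · refine ⟨c₁, fun a => ?_, fun f hf => ?_⟩
    · simp only [c₁]
      split_ifs
      · exact Or.inr rfl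
      · exact Or.inl rfl
    · have h4 := av_mono (j := j) fun a _ => (h3 c₁ f hf a).1
      rw [av_add] at h4
      exact lt_abs.2 (Or.inl (by linarith))
  · refine ⟨c₂, fun a => ?_, fun f hf => ?_⟩
    · simp only [c₂]
      split_ifs
      · exact Or.inl rfl
      · exact Or.inr rfl
    · have h4 := av_mono (j := j) fun a _ => (h3 c₂ f hf a).2
      rw [av_add] at h4
      exact lt_abs.2 (Or.inr (by linarith))

/-- Two distant options at most nodes allow to satisfy the constraint. -/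
theorem cell_lemma (j : ℕ) (nf : G2 → Prop) (u w : G2 → D) (hnf : av j (ind nf) ≤ 1 / 50)
    (hfar : ∀ a, ¬ nf a →
      9 / 20 ≤ |((u a).1 : ℝ) - (w a).1| ∨ 9 / 20 ≤ |((u a).2 : ℝ) - (w a).2|) :
    ∃ c : G2 → D, (∀ a, c a = u a ∨ c a = w a) ∧
      ∀ f : G2 → D, (∀ a, ¬ nf a → f a = c a) → Con j f := by
  have h1 : ∀ a, (1 : ℝ) ≤ ind nf a +
      (ind (fun a => ¬ nf a ∧ 9 / 20 ≤ |((u a).1 : ℝ) - (w a).1|) a +
        ind (fun a => ¬ nf a ∧ 9 / 20 ≤ |((u a).2 : ℝ) - (w a).2|) a) := by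
    intro a
    have h0 : ∀ A : G2 → Prop, 0 ≤ ind A a := fun A => by
      unfold ind
      split_ifs <;> norm_num
    by_cases ha : nf a
    · rw [cav_ind_pos ha]
      exact le_add_of_nonneg_right (add_nonneg (h0 _) (h0 _))
    · rcases hfar a ha with h | h
      · rw [cav_ind_pos (A := fun a => ¬ nf a ∧ 9 / 20 ≤ |((u a).1 : ℝ) - (w a).1|) ⟨ha, h⟩]
        linarith [h0 nf, h0 fun a => ¬ nf a ∧ 9 / 20 ≤ |((u a).2 : ℝ) - (w a).2|]
      · rw [cav_ind_pos (A := fun a => ¬ nf a ∧ 9 / 20 ≤ |((u a).2 : ℝ) - (w a).2|) ⟨ha, h⟩]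
        linarith [h0 nf, h0 fun a => ¬ nf a ∧ 9 / 20 ≤ |((u a).1 : ℝ) - (w a).1|]
  have h2 := av_mono (j := j) fun a _ => h1 a
  rw [av_const, av_add, av_add] at h2
  rcases le_total (49 / 100)
    (av j (ind fun a => ¬ nf a ∧ 9 / 20 ≤ |((u a).1 : ℝ) - (w a).1|)) with h | h
  · obtain ⟨c, hc, hf⟩ := cav_cell j nf u w hnf (fun d => d.1) (fun d => d.1.2) h
    exact ⟨c, hc, fun f h' => Or.inl (hf f h')⟩
  · obtain ⟨c, hc, hf⟩ := cav_cell j nf u w hnf (fun d => d.2) (fun d => d.2.2) (by linarith)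
    exact ⟨c, hc, fun f h' => Or.inr (hf f h')⟩

theorem isRat_dfl (j : ℕ) (a : G2) : IsRat (dfl j a) := by
  unfold dfl
  split_ifs
  · exact ⟨1, 0, by simp, by simp⟩
  · exact ⟨0, 0, by simp, by simp⟩

/-- The median of the values at three vertices, on the diagonal. -/
noncomputable def med (Φ : Th → ℝ) : ℝ :=
  max (min (Φ fun _ => (1, 0)) (Φ fun _ => (0, 1)))
    (min (max (Φ fun _ => (1, 0)) (Φ fun _ => (0, 1))) (Φ fun _ => (0, 0)))

theorem med_lip {Φ Φ' : Th → ℝ} {c : ℝ} (h : ∀ θ, |Φ θ - Φ' θ| ≤ c) : |med Φ - med Φ'| ≤ c := by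
  have h1 : ∀ a b a' b' : ℝ, |a - a'| ≤ c → |b - b'| ≤ c → |max a b - max a' b'| ≤ c :=
    fun a b a' b' ha hb => (abs_max_sub_max_le_max a b a' b').trans (max_le ha hb)
  have h2 : ∀ a b a' b' : ℝ, |a - a'| ≤ c → |b - b'| ≤ c → |min a b - min a' b'| ≤ c :=
    fun a b a' b' ha hb => (abs_min_sub_min_le_max a b a' b').trans (max_le ha hb)
  exact h1 _ _ _ _ (h2 _ _ _ _ (h _) (h _)) (h2 _ _ _ _ (h1 _ _ _ _ (h _) (h _)) (h _))

theorem med_cont {X : Type*} [TopologicalSpace X] {Φ : X → Th → ℝ} (h : Continuous (uncurry Φ)) :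
    Continuous fun x => med (Φ x) := by
  have h1 : ∀ θ, Continuous fun x => Φ x θ := fun θ => h.comp (continuous_id.prodMk continuous_const)
  exact ((h1 _).min (h1 _)).max (((h1 _).max (h1 _)).min (h1 _))

theorem cav_med (a b c : ℝ) : (max (min a b) (min (max a b) c) = a ∧ a ∈ uIcc c b) ∨
    (max (min a b) (min (max a b) c) = b ∧ b ∈ uIcc c a) ∨
    (max (min a b) (min (max a b) c) = c ∧ c ∈ uIcc b a) := by
  simp only [mem_uIcc]
  rcases le_total a b with h1 | h1 <;> rcases le_total b c with h2 | h2 <;>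
    rcases le_total a c with h3 | h3 <;> simp [h1, h2, h3]

theorem med_rng (Φ : Th → ℝ) : ∃ θ, Φ θ = med Φ := by
  rcases cav_med (Φ fun _ => (1, 0)) (Φ fun _ => (0, 1)) (Φ fun _ => (0, 0)) with h | h | h <;>
    exact ⟨_, h.1.symm⟩

theorem cav_ivt {f : unitInterval → ℝ} (hf : Continuous f) {m : ℝ} (h : m ∈ uIcc (f 0) (f 1)) :
    ∃ t, f t = m := by
  rcases mem_uIcc.1 h with h | h
  · exact intermediate_value_univ 0 1 hf h
  · exact intermediate_value_univ 1 0 hf h

theorem cav_far {ψ : D → ℝ} (h : Continuous ψ) {η m : ℝ} (hη : 0 < η) {v e : D} (hv : IsRat v)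
    (h1 : ψ v = m) (h2 : ψ e = m)
    (h3 : 1 / 2 ≤ |(v.1 : ℝ) - e.1| ∨ 1 / 2 ≤ |(v.2 : ℝ) - e.2|) :
    ∃ u w : D, IsRat u ∧ IsRat w ∧ |ψ u - m| < η ∧ |ψ w - m| < η ∧
      (9 / 20 ≤ |(u.1 : ℝ) - w.1| ∨ 9 / 20 ≤ |(u.2 : ℝ) - w.2|) := by
  obtain ⟨δ, hδ, hc⟩ := Metric.continuousAt_iff.1 (h.continuousAt (x := e)) η hη
  obtain ⟨w, hw, hd⟩ := exists_isRat e (lt_min hδ (by norm_num : (0 : ℝ) < 1 / 20))
  refine ⟨v, w, hv, hw, by simpa [h1] using hη, ?_, ?_⟩
  · rw [← h2, ← Real.dist_eq]
    exact hc (by rw [dist_comm]; exact hd.trans_le (min_le_left _ _))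
  · have h4 := hd.trans_le (min_le_right _ _)
    rw [Prod.dist_eq, max_lt_iff, Subtype.dist_eq, Subtype.dist_eq, Real.dist_eq, Real.dist_eq,
      abs_lt, abs_lt] at h4
    refine h3.imp (fun h5 => ?_) fun h5 => ?_ <;> rw [le_abs] at h5 ⊢ <;>
      refine h5.imp (fun h6 => ?_) fun h6 => ?_ <;> linarith [h4.1.1, h4.1.2, h4.2.1, h4.2.2]

/-- The level set of the median contains two distant points. -/
theorem med_far {Φ : Th → ℝ} (h : Continuous Φ) {η : ℝ} (hη : 0 < η) :
    ∃ u w : D, IsRat u ∧ IsRat w ∧ |Φ (fun _ => u) - med Φ| < η ∧ |Φ (fun _ => w) - med Φ| < η ∧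
      (9 / 20 ≤ |(u.1 : ℝ) - w.1| ∨ 9 / 20 ≤ |(u.2 : ℝ) - w.2|) := by
  have hψ : Continuous fun d : D => Φ fun _ => d := h.comp (continuous_pi fun _ => continuous_id)
  rcases cav_med (Φ fun _ => (1, 0)) (Φ fun _ => (0, 1)) (Φ fun _ => (0, 0)) with h1 | h1 | h1
  · obtain ⟨t, ht⟩ := cav_ivt (f := fun t => Φ fun _ => (0, t))
      (hψ.comp (continuous_const.prodMk continuous_id)) h1.2
    exact cav_far hψ hη (v := (1, 0)) (e := (0, t)) ⟨1, 0, by simp, by simp⟩ h1.1.symm
      (ht.trans h1.1.symm) (Or.inl (by norm_num))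
  · obtain ⟨t, ht⟩ := cav_ivt (f := fun t => Φ fun _ => (t, 0))
      (hψ.comp (continuous_id.prodMk continuous_const)) h1.2
    exact cav_far hψ hη (v := (0, 1)) (e := (t, 0)) ⟨0, 1, by simp, by simp⟩ h1.1.symm
      (ht.trans h1.1.symm) (Or.inr (by norm_num))
  · obtain ⟨t, ht⟩ := cav_ivt (f := fun t => Φ fun _ => (t, unitInterval.symm t))
      (hψ.comp (continuous_id.prodMk unitInterval.continuous_symm))
      (by simpa using h1.2)
    refine cav_far hψ hη (v := (0, 0)) (e := (t, unitInterval.symm t)) isRat_zero h1.1.symm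
      (ht.trans h1.1.symm) ?_
    rcases le_total (1 / 2 : ℝ) t with h2 | h2
    · exact Or.inl (le_abs.2 (Or.inr (by simpa using h2)))
    · refine Or.inr (le_abs.2 (Or.inr ?_))
      simp only [unitInterval.coe_symm_eq, Icc.coe_zero]
      linarith

end Pool.Agent.Work.MP_f50f0f_gt
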