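import Mathlib.Topology.UnitInterval
import Mathlib.Topology.MetricSpace.Pseudo.Constructions
import Mathlib.Topology.Instances.Discrete
import Mathlib.Topology.Order.IntermediateValue
import Mathlib.Topology.ContinuousMap.Compact
import Mathlib.Topology.ContinuousMap.SecondCountableSpace

/-! Sequences, rational points, boxes in products and countable colourings. -/

namespace Pool.Agent.Work.MP_f50f0f_gt
open Function Set Filter Topology

abbrev G2 : Type := ℕ → Bool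
abbrev Lb : Type := ℕ → ℕ
abbrev D : Type := unitInterval × unitInterval
abbrev Th : Type := ℕ → D

/-- Agreement below `K`. -/
def ag {α : Type*} (K : ℕ) (f g : ℕ → α) : Prop := ∀ n < K, f n = g n

theorem ag.refl {α : Type*} (K : ℕ) (f : ℕ → α) : ag K f f := fun _ _ => rfl
theorem ag.symm {α : Type*} {K : ℕ} {f g : ℕ → α} (h : ag K f g) : ag K g f :=
  fun n hn => (h n hn).symm
theorem ag.trans {α : Type*} {K : ℕ} {f g k : ℕ → α} (h : ag K f g) (h' : ag K g k) : ag K f k :=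
  fun n hn => (h n hn).trans (h' n hn)
theorem ag.mono {α : Type*} {K K' : ℕ} {f g : ℕ → α} (h : ag K f g) (hK : K' ≤ K) : ag K' f g :=
  fun n hn => h n (hn.trans_le hK)

theorem exists_not_ag {α : Type*} {f g : ℕ → α} (h : f ≠ g) : ∃ K, ∀ K' ≥ K, ¬ ag K' f g := by
  obtain ⟨n, hn⟩ := Function.ne_iff.1 h
  exact ⟨n + 1, fun K' hK h' => hn (h' n hK)⟩

/-- A finite set of sequences is separated from `f` by an initial segment. -/
theorem exists_sep {α : Type*} {X : Set (ℕ → α)} (hX : X.Finite) (f : ℕ → α) :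
    ∃ K, ∀ K' ≥ K, ∀ g ∈ X, ag K' f g → g = f := by
  refine eventually_atTop.1 ((eventually_all_finite hX).2 fun g _ => ?_)
  by_cases h : f = g
  · exact Eventually.of_forall fun _ _ => h.symm
  · exact (eventually_atTop.2 (exists_not_ag h)).mono fun _ a b => (a b).elim

/-- A cylinder contains a smaller cylinder that avoids a finite set. -/
theorem exists_avoid {X : Set Lb} (hX : X.Finite) (g : Lb) (K : ℕ) :
    ∃ g', ag K g g' ∧ ∀ c ∈ X, ¬ ag (K + 1) g' c := by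
  obtain ⟨M, hM⟩ := (hX.image fun c => c K).bddAbove
  refine ⟨update g K (M + 1), fun n hn => (update_of_ne hn.ne _ _).symm, fun c hc h => ?_⟩
  have h1 := h K (Nat.lt_succ_self K)
  have h2 : c K ≤ M := hM ⟨c, hc, rfl⟩
  rw [update_self] at h1
  omega

/-- The nodes of level `j`. -/
def nrm (j : ℕ) (a : G2) : Prop := ∀ n, j ≤ n → a n = false

def a0 : G2 := fun _ => false

theorem nrm_a0 (j : ℕ) : nrm j a0 := fun _ _ => rfl

theorem nrm_zero {a : G2} (h : nrm 0 a) : a = a0 := funext fun n => h n (Nat.zero_le n)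

theorem finite_nrm (j : ℕ) : {a | nrm j a}.Finite := by
  refine (finite_range fun (t : Fin j → Bool) (n : ℕ) =>
    if h : n < j then t ⟨n, h⟩ else false).subset fun a ha => ⟨fun i => a i, funext fun n => ?_⟩
  by_cases h : n < j
  · simp only [dif_pos h]
  · simp only [dif_neg h, ha n (not_lt.1 h)]

/-- Truncation of a sequence. -/
def trn {α : Type*} (z : α) (K : ℕ) (a : ℕ → α) : ℕ → α := fun n => if n < K then a n else z

theorem ag_trn {α : Type*} (z : α) (K : ℕ) (a : ℕ → α) : ag K a (trn z K a) :=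
  fun _ hn => (if_pos hn).symm

theorem trn_congr {α : Type*} (z : α) {K : ℕ} {a b : ℕ → α} (h : ag K a b) :
    trn z K a = trn z K b := by
  funext n
  by_cases hn : n < K
  · simp only [trn, if_pos hn, h n hn]
  · simp only [trn, if_neg hn]

theorem nrm_trn (K : ℕ) (a : G2) : nrm K (trn false K a) := fun _ hn => if_neg (not_lt.2 hn)

/-- The eventually constant sequences with values in a countable set. -/
theorem countable_trn {α : Type*} {S : Set α} (hS : S.Countable) (z : α) :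
    {f : ℕ → α | ∃ K, (∀ n < K, f n ∈ S) ∧ ∀ n, K ≤ n → f n = z}.Countable := by
  have := hS.to_subtype
  refine (countable_iUnion fun K : ℕ => countable_range fun (t : Fin K → S) (n : ℕ) =>
    if h : n < K then (t ⟨n, h⟩ : α) else z).mono ?_
  rintro f ⟨K, h1, h2⟩
  refine mem_iUnion.2 ⟨K, fun i => ⟨f i, h1 i i.2⟩, funext fun n => ?_⟩
  by_cases h : n < K
  · simp only [dif_pos h]
  · simp only [dif_neg h, h2 n (not_lt.1 h)]

/-- Rational points of the square. -/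
def IsRat (d : D) : Prop := ∃ p q : ℚ, (d.1 : ℝ) = p ∧ (d.2 : ℝ) = q

theorem countable_isRat : {d | IsRat d}.Countable := by
  refine ((countable_range fun p : ℚ × ℚ => ((p.1 : ℝ), (p.2 : ℝ))).preimage
    (f := fun d : D => ((d.1 : ℝ), (d.2 : ℝ))) fun d d' h => ?_).mono ?_
  · exact Prod.ext (Subtype.ext (congrArg Prod.fst h)) (Subtype.ext (congrArg Prod.snd h))
  · rintro d ⟨p, q, h1, h2⟩
    exact ⟨(p, q), Prod.ext h1.symm h2.symm⟩

theorem isRat_zero : IsRat 0 := ⟨0, 0, by simp, by simp⟩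

theorem exists_isRat (d : D) {η : ℝ} (hη : 0 < η) : ∃ d', IsRat d' ∧ dist d d' < η := by
  have key : ∀ x : unitInterval, ∃ y : unitInterval, (∃ p : ℚ, (y : ℝ) = p) ∧ dist x y < η := by
    intro x
    obtain ⟨p, h1, h2⟩ := exists_rat_btwn (show max 0 ((x : ℝ) - η) < min 1 (x + η) from
      max_lt (lt_min one_pos (by linarith [x.2.1])) (lt_min (by linarith [x.2.2]) (by linarith)))
    rw [max_lt_iff] at h1
    rw [lt_min_iff] at h2
    refine ⟨⟨p, h1.1.le, h2.1.le⟩, ⟨p, rfl⟩, ?_⟩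
    rw [Subtype.dist_eq, Real.dist_eq, abs_lt]
    constructor <;> linarith [h1.2, h2.2]
  obtain ⟨y, ⟨p, hp⟩, h1⟩ := key d.1
  obtain ⟨z, ⟨q, hq⟩, h2⟩ := key d.2
  exact ⟨(y, z), ⟨p, q, hp, hq⟩, max_lt h1 h2⟩

/-- `f'` is in the box of resolution `K` around `f`. -/
def box {ι : Type*} (K : ℕ) (J : Set ι) (f f' : ι → D) : Prop :=
  ∀ i ∈ J, dist (f i) (f' i) < 1 / ((K : ℝ) + 1)

theorem CBas_iio {J : Set ℕ} (hJ : J.Finite) : ∀ᶠ K in atTop, J ⊆ Iio K :=
  (eventually_all_finite hJ).2 fun i _ => eventually_gt_atTop i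

theorem CBas_sat {α : Type*} [TopologicalSpace α] {a : ℕ → α} {u : Set (ℕ → α)} (h : u ∈ 𝓝 a) :
    ∃ v ∈ 𝓝 a, ∀ᶠ K in atTop, ∀ b ∈ v, ∀ b', ag K b b' → b' ∈ u := by
  rw [nhds_pi] at h ⊢
  obtain ⟨J, hJ, t, ht, e⟩ := Filter.mem_pi.1 h
  refine ⟨J.pi t, pi_mem_pi hJ fun i _ => ht i, (CBas_iio hJ).mono fun K hK b hb b' h' => ?_⟩
  exact e fun i hi => h' i (hK hi) ▸ hb i hi

theorem CBas_ag {α : Type*} [TopologicalSpace α] {a : ℕ → α} {u : Set (ℕ → α)} (h : u ∈ 𝓝 a) :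
    ∀ᶠ K in atTop, ∀ b, ag K a b → b ∈ u :=
  let ⟨_, hv, e⟩ := CBas_sat h
  e.mono fun _ hK => hK a (mem_of_mem_nhds hv)

theorem CBas_box {ι : Type*} {f : ι → D} {u : Set (ι → D)} (h : u ∈ 𝓝 f) :
    ∃ J : Set ι, J.Finite ∧ ∀ᶠ K in atTop, ∀ f', box K J f f' → f' ∈ u := by
  rw [nhds_pi] at h
  obtain ⟨J, hJ, t, ht, e⟩ := Filter.mem_pi.1 h
  have key : ∀ i ∈ J, ∀ᶠ K : ℕ in atTop, ∀ d, dist (f i) d < 1 / ((K : ℝ) + 1) → d ∈ t i := by
    intro i _
    obtain ⟨ε, hε, h1⟩ := Metric.mem_nhds_iff.1 (ht i)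
    obtain ⟨n, hn⟩ := exists_nat_one_div_lt hε
    refine (eventually_ge_atTop n).mono fun K hK d hd => h1 ?_
    rw [Metric.mem_ball']
    exact hd.trans ((Nat.one_div_le_one_div hK).trans_lt hn)
  exact ⟨J, hJ, ((eventually_all_finite hJ).2 key).mono fun K hK f' h' =>
    e fun i hi => hK i hi _ (h' i hi)⟩

theorem CBas_unif {Z : Type*} [TopologicalSpace Z] [CompactSpace Z] {P : ℕ → Z → Prop}
    (h : ∀ z, ∃ v ∈ 𝓝 z, ∀ᶠ K in atTop, ∀ z' ∈ v, P K z') : ∃ K, ∀ z, P K z := by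
  choose v hv e using h
  obtain ⟨t, -, ht⟩ := isCompact_univ.elim_nhds_subcover v fun z _ => hv z
  obtain ⟨K, hK⟩ := ((eventually_all_finset t).2 fun z _ => e z).exists
  refine ⟨K, fun z => ?_⟩
  obtain ⟨w, hw, hz⟩ := mem_iUnion₂.1 (ht (mem_univ z))
  exact hK w hw z hz

theorem nhds_box {ι : Type*} {x : G2 × (ι → D)} {s : Set (G2 × (ι → D))} (h : s ∈ 𝓝 x) :
    ∃ (K : ℕ) (J : Set ι), J.Finite ∧ ∀ y : G2 × (ι → D), ag K x.1 y.1 → box K J x.2 y.2 → y ∈ s := by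
  obtain ⟨u, hu, v, hv, e⟩ := mem_nhds_prod_iff.1 h
  obtain ⟨J, hJ, h2⟩ := CBas_box hv
  obtain ⟨K, a, b⟩ := ((CBas_ag hu).and h2).exists
  exact ⟨K, J, hJ, fun y p q => e ⟨a _ p, b _ q⟩⟩

theorem isOpen_box {ι : Type*} (K : ℕ) {J : Set ι} (hJ : J.Finite) (x : G2 × (ι → D)) :
    IsOpen {y : G2 × (ι → D) | ag K x.1 y.1 ∧ box K J x.2 y.2} := by
  refine IsOpen.inter (s := {y : G2 × (ι → D) | ag K x.1 y.1})
    (t := {y : G2 × (ι → D) | box K J x.2 y.2}) ?_ ?_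
  · have := (finite_lt_nat K).isOpen_biInter
      (f := fun n => (fun y : G2 × (ι → D) => y.1 n) ⁻¹' {b | x.1 n = b})
      fun n _ => (isOpen_discrete _).preimage (by fun_prop)
    convert this using 1
    ext y
    simp only [ag, mem_iInter, mem_ofPred_eq, mem_preimage]
  · have := hJ.isOpen_biInter
      (f := fun i => {y : G2 × (ι → D) | dist (x.2 i) (y.2 i) < 1 / ((K : ℝ) + 1)})
      fun i _ => isOpen_lt (by fun_prop) continuous_const
    convert this using 1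
    ext y
    simp only [box, mem_iInter, mem_ofPred_eq]

theorem nhds_box' {x : G2 × Th} {s : Set (G2 × Th)} (h : s ∈ 𝓝 x) :
    ∃ K₀ : ℕ, ∀ K ≥ K₀, ∀ y : G2 × Th, ag K x.1 y.1 → box K (Iio K) x.2 y.2 → y ∈ s := by
  obtain ⟨u, hu, v, hv, e⟩ := mem_nhds_prod_iff.1 h
  obtain ⟨J, hJ, h2⟩ := CBas_box hv
  refine eventually_atTop.1 ?_
  filter_upwards [CBas_ag hu, h2, CBas_iio hJ] with K a b c y p q
  exact e ⟨a _ p, b _ fun i hi => q i (c hi)⟩

theorem nhds_boxT {x : Th} {s : Set Th} (h : s ∈ 𝓝 x) :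
    ∃ K₀ : ℕ, ∀ K ≥ K₀, ∀ y : Th, box K (Iio K) x y → y ∈ s := by
  obtain ⟨J, hJ, h2⟩ := CBas_box h
  refine eventually_atTop.1 ?_
  filter_upwards [h2, CBas_iio hJ] with K b c y q
  exact b _ fun i hi => q i (c hi)

/-- Uniform continuity on the Cantor space. -/
theorem unif_G2 {φ : G2 → ℝ} (h : Continuous φ) {η : ℝ} (hη : 0 < η) :
    ∃ K, ∀ a a', ag K a a' → |φ a - φ a'| ≤ η := by
  refine CBas_unif fun a => ?_
  have hu := h.continuousAt.eventually (Metric.ball_mem_nhds (φ a) (half_pos hη))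
  obtain ⟨v, hv, e⟩ := CBas_sat hu
  refine ⟨v, hv, e.mono fun K hK b hb b' h' => ?_⟩
  have h1 : dist (φ b) (φ a) < η / 2 := hK b hb b (ag.refl _ _)
  have h2 : dist (φ b') (φ a) < η / 2 := hK b hb b' h'
  rw [← Real.dist_eq]
  linarith [dist_triangle_right (φ b) (φ b') (φ a)]

/-- A countable family of continuous functions of finitely many coordinates that approximates
every continuous function. -/
theorem exists_dense_fam : ∃ 𝒮 : Set (ℕ × (G2 × Th → Th → ℝ)), 𝒮.Countable ∧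
    (∀ p ∈ 𝒮, Continuous (uncurry p.2) ∧ ∀ x θ θ', ag p.1 θ θ' → p.2 x θ = p.2 x θ') ∧
    ∀ φ : G2 × Th → Th → ℝ, Continuous (uncurry φ) → ∀ η : ℝ, 0 < η →
      ∃ p ∈ 𝒮, ∀ x θ, |p.2 x θ - φ x θ| ≤ η := by
  obtain ⟨T, hT, hd⟩ := TopologicalSpace.exists_countable_dense C((G2 × Th) × Th, ℝ)
  refine ⟨(fun q : ℕ × C((G2 × Th) × Th, ℝ) => (q.1, fun x θ => q.2 (x, trn 0 q.1 θ))) ''
    (univ ×ˢ T), (countable_univ.prod hT).image _, ?_, fun φ hφ η hη => ?_⟩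
  · rintro _ ⟨⟨k, g⟩, -, rfl⟩
    refine ⟨g.continuous.comp (continuous_fst.prodMk (continuous_pi fun n => ?_)),
      fun x θ θ' h => by simp only [trn_congr 0 h]⟩
    by_cases hn : n < k
    · simp only [trn, if_pos hn]
      fun_prop
    · simp only [trn, if_neg hn]
      fun_prop
  · obtain ⟨k, hk⟩ := CBas_unif (P := fun k (z : (G2 × Th) × Th) =>
      dist (φ z.1 (trn 0 k z.2)) (φ z.1 z.2) < η / 2) fun z => by
      obtain ⟨u, hu, v, hv, e⟩ := mem_nhds_prod_iff.1 (hφ.continuousAt (x := z).eventually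
        (Metric.ball_mem_nhds (uncurry φ z) (half_pos (half_pos hη))))
      obtain ⟨w, hw, e'⟩ := CBas_sat hv
      refine ⟨u ×ˢ w, prod_mem_nhds hu hw, e'.mono fun K hK b hb => ?_⟩
      have h1 : dist (φ b.1 b.2) (uncurry φ z) < η / 2 / 2 :=
        e (a := b) ⟨hb.1, hK _ hb.2 _ (ag.refl _ _)⟩
      have h2 : dist (φ b.1 (trn 0 K b.2)) (uncurry φ z) < η / 2 / 2 :=
        e (a := (b.1, trn 0 K b.2)) ⟨hb.1, hK _ hb.2 _ (ag_trn _ _ _)⟩
      linarith [dist_triangle_right (φ b.1 (trn 0 K b.2)) (φ b.1 b.2) (uncurry φ z)]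
    obtain ⟨g, hg, e⟩ := hd.exists_dist_lt ⟨uncurry φ, hφ⟩ (half_pos hη)
    refine ⟨_, ⟨(k, g), ⟨mem_univ _, hg⟩, rfl⟩, fun x θ => ?_⟩
    have h1 : dist (φ x (trn 0 k θ)) (g (x, trn 0 k θ)) < η / 2 :=
      (ContinuousMap.dist_apply_le_dist (f := ⟨uncurry φ, hφ⟩) (x, trn 0 k θ)).trans_lt e
    have h2 : dist (φ x (trn 0 k θ)) (φ x θ) < η / 2 := hk (x, θ)
    rw [← Real.dist_eq]
    linarith [dist_triangle_left (g (x, trn 0 k θ)) (φ x θ) (φ x (trn 0 k θ))]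

/-- The relation `R` holds between points of `S` with the same colour, for a countable colouring. -/
def CC {A : Type*} (S : Set A) (R : A → A → Prop) : Prop :=
  ∃ c : A → ℕ, ∀ x ∈ S, ∀ y ∈ S, c x = c y → R x y

section cc
variable {A : Type*} {S : Set A}

theorem CC.mono {R R' : A → A → Prop} (h : CC S R) (h' : ∀ x ∈ S, ∀ y ∈ S, R x y → R' x y) :
    CC S R' := by
  obtain ⟨c, hc⟩ := h
  exact ⟨c, fun x hx y hy e => h' x hx y hy (hc x hx y hy e)⟩

theorem CC.and {R R' : A → A → Prop} (h : CC S R) (h' : CC S R') :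
    CC S fun x y => R x y ∧ R' x y := by
  obtain ⟨c, hc⟩ := h
  obtain ⟨c', hc'⟩ := h'
  exact ⟨fun x => Nat.pair (c x) (c' x), fun x hx y hy e =>
    ⟨hc x hx y hy (Nat.pair_eq_pair.1 e).1, hc' x hx y hy (Nat.pair_eq_pair.1 e).2⟩⟩

theorem CC.finite {ι : Type*} {J : Set ι} (hJ : J.Finite) {R : ι → A → A → Prop}
    (h : ∀ i ∈ J, CC S (R i)) : CC S fun x y => ∀ i ∈ J, R i x y := by
  induction J, hJ using Set.Finite.induction_on with
  | empty => exact ⟨fun _ => 0, fun _ _ _ _ _ _ hi => hi.elim⟩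
  | insert _ _ ih =>
    refine ((h _ (mem_insert _ _)).and (ih fun i hi => h i (mem_insert_of_mem _ hi))).mono ?_
    rintro x - y - ⟨a, b⟩ i (rfl | hi)
    exacts [a, b i hi]

theorem CC.eq {B : Type*} {T : Set B} (hT : T.Countable) (f : A → B) (h : ∀ x ∈ S, f x ∈ T) :
    CC S fun x y => f x = f y := by
  obtain ⟨g, hg⟩ := countable_iff_exists_injOn.1 hT
  exact ⟨fun x => g (f x), fun x hx y hy e => hg (h x hx) (h y hy) e⟩

theorem CC.real (f : A → ℝ) {δ : ℝ} (hδ : 0 < δ) : CC S fun x y => |f x - f y| < δ := by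
  refine (CC.eq countable_univ (fun x => ⌊f x / δ⌋) fun _ _ => mem_univ _).mono
    fun x _ y _ e => ?_
  have := Int.abs_sub_lt_one_of_floor_eq_floor e
  rwa [← sub_div, abs_div, abs_of_pos hδ, div_lt_one hδ] at this

theorem CC.dist (f : A → D) {δ : ℝ} (hδ : 0 < δ) : CC S fun x y => dist (f x) (f y) < δ := by
  exact ((CC.real (fun x => ((f x).1 : ℝ)) hδ).and (CC.real (fun x => ((f x).2 : ℝ)) hδ)).mono
    fun x _ y _ e => max_lt e.1 e.2

theorem CC.ag {B : Type*} [Countable B] (K : ℕ) (f : A → ℕ → B) :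
    CC S fun x y => ag K (f x) (f y) := by
  exact CC.finite (finite_lt_nat K) (R := fun n x y => f x n = f y n)
    fun n _ => CC.eq countable_univ (fun x => f x n) fun _ _ => mem_univ _

/-- Colouring piece by piece. -/
theorem CC.sigma {B : Type*} [Countable B] (f : A → B) {R : A → A → Prop}
    (h : ∀ i, CC (S ∩ {x | f x = i}) R) : CC S fun x y => f x = f y ∧ R x y := by
  choose c hc using h
  refine ((CC.eq countable_univ f fun _ _ => mem_univ _).and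
    (CC.eq countable_univ (fun x => c (f x) x) fun _ _ => mem_univ _)).mono ?_
  rintro x hx y hy ⟨a, b⟩
  exact ⟨a, hc (f x) x ⟨hx, rfl⟩ y ⟨hy, a.symm⟩ (by rw [b, a])⟩

theorem CC.reps {R : A → A → Prop} (h : CC S R) :
    ∃ T ⊆ S, T.Countable ∧ ∀ x ∈ S, ∃ r ∈ T, R r x := by
  obtain ⟨c, hc⟩ := h
  obtain ⟨T, hT, e⟩ := exists_subset_bijOn S c
  refine ⟨T, hT, countable_of_injective_of_countable_image e.injOn (to_countable _),
    fun x hx => ?_⟩
  obtain ⟨r, hr, a⟩ := e.surjOn ⟨x, hx, rfl⟩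
  exact ⟨r, hr, hc r (hT hr) x hx a⟩

end cc

theorem CBas_close {Q : Type*} [Preorder Q] (𝓡 : Q → Set (Q → Prop))
    (hc : ∀ q, (𝓡 q).Countable) (q₀ : Q) : ∃ s : ℕ → Q, s 0 = q₀ ∧ (∀ n, s (n + 1) ≤ s n) ∧
      ∀ n, ∀ R ∈ 𝓡 (s n), (∀ m, ∃ q ≤ s m, R q) → ∃ m, R (s m) := by
  choose e he using fun q => countable_iff_exists_subset_range.1 (hc q)
  have : ∀ (R : Q → Prop) (q : Q), ∃ q' ≤ q, (∃ r ≤ q, R r) → R q' := fun R q => by
    by_cases h : ∃ r ≤ q, R r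
    · obtain ⟨r, a, b⟩ := h
      exact ⟨r, a, fun _ => b⟩
    · exact ⟨q, le_rfl, fun t => (h t).elim⟩
  choose st h1 h2 using this
  obtain ⟨s, h0, hs⟩ : ∃ s : ℕ → Q, s 0 = q₀ ∧
      ∀ t, s (t + 1) = st (e (s (Nat.unpair t).1) (Nat.unpair t).2) (s t) :=
    ⟨Nat.strongRec fun n => Nat.casesOn (motive := fun n => (∀ m < n, Q) → Q) n (fun _ => q₀)
      fun t ih => st (e (ih _ (Nat.lt_succ_of_le (Nat.unpair_left_le t))) (Nat.unpair t).2)
        (ih t (Nat.lt_succ_self t)), Nat.strongRec_eq _ _, fun _ => Nat.strongRec_eq _ _⟩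
  refine ⟨s, h0, fun n => hs n ▸ h1 _ _, fun n R hR h => ?_⟩
  obtain ⟨i, rfl⟩ := he _ hR
  refine ⟨Nat.pair n i + 1, ?_⟩
  rw [hs, Nat.unpair_pair]
  exact h2 _ _ (h _)

/-- A decreasing sequence that meets countably many dense sets. -/
theorem exists_seq {Q : Type*} [Preorder Q] {ι : Type*} [Countable ι] (R : ι → Q → Prop)
    (hR : ∀ i q, ∃ q' ≤ q, R i q') (q₀ : Q) :
    ∃ s : ℕ → Q, s 0 = q₀ ∧ (∀ n, s (n + 1) ≤ s n) ∧ ∀ i, ∃ n, R i (s n) := by
  obtain ⟨s, h0, h1, h2⟩ := CBas_close (fun _ : Q => range R) (fun _ => countable_range R) q₀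
  exact ⟨s, h0, h1, fun i => h2 0 _ ⟨i, rfl⟩ fun m => hR i _⟩

/-- Closing off. -/
theorem close_off {Q : Type*} [Preorder Q] (𝓡 : Q → Set (Q → Prop)) (hc : ∀ q, (𝓡 q).Countable)
    (q₀ : Q) : ∃ s : ℕ → Q, s 0 = q₀ ∧ (∀ n, s (n + 1) ≤ s n) ∧
      ∀ n, ∀ R ∈ 𝓡 (s n), (∃ q, (∀ m, q ≤ s m) ∧ R q) → ∃ m, R (s m) := by
  obtain ⟨s, h0, h1, h2⟩ := CBas_close 𝓡 hc q₀
  exact ⟨s, h0, h1, fun n R hR ⟨q, a, b⟩ => h2 n R hR fun m => ⟨q, a m, b⟩⟩

end Pool.Agent.Work.MP_f50f0f_gt
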