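import Pool.Agent.Work.MP_f50f0f_gt.CCoord
import Mathlib.Analysis.Convex.PartitionOfUnity

/-! Continuous functions on the generic space. -/

namespace Pool.Agent.Work.MP_f50f0f_gt
open Function Set

abbrev NN : Type := Nm St Pt

/-- A function that is computed from the condition. -/
theorem cf_local (p : St) (val : St → Pt → ℝ)
    (stab : ∀ s ≤ p, ∀ s' ≤ s, ∀ x ∈ s.Y, val s' x = val s x)
    (cont : ∀ s ≤ p, ∀ x ∈ s.Y, ∀ η : ℝ, 0 < η → ∃ (K : ℕ) (J : Set Om), J.Finite ∧ J ⊆ s.I ∧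
      ∀ s' ≤ s, ∀ y ∈ s'.Y, Nbr K J x s'.F y s'.F → |val s' y - val s' x| < η) :
    bs.CF (fun x t s => s ≤ p ∧ x ∈ s.Y ∧ t = val s x) p := by
  refine ⟨?_, fun s hs x hx => ⟨s, le_rfl, _, hs, hx, rfl⟩, ?_, ?_⟩
  · rintro x t s s' ⟨a, b, rfl⟩ h
    exact ⟨h.trans a, St.Le.Y h b, (stab s a s' h x b).symm⟩
  · rintro s - x t t' ⟨-, -, rfl⟩ ⟨-, -, rfl⟩
    rfl
  · rintro s hs x t hx ⟨-, -, rfl⟩ η hη
    obtain ⟨K, J, a, b, c⟩ := cont s hs x hx η hη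
    refine ⟨s, le_rfl, (K, J), ⟨hx, hx, a, b, Nbr.refl (reg_of_mem hx) _ _ _⟩, ?_⟩
    rintro s' hs' y t' ⟨-, d, -, -, f⟩ ⟨-, -, rfl⟩
    exact stab s hs s' hs' x hx ▸ c s' hs' y d f

/-- Deciding countably many values. -/
theorem decide_all {s : St} {A : Set (NN × Pt)} (hc : A.Countable)
    (h : ∀ a ∈ A, bs.CF a.1 s ∧ a.2 ∈ s.Y) : ∃ s' ≤ s, ∀ a ∈ A, ∃ t, a.1 a.2 t s' := by
  have := hc.to_subtype
  obtain ⟨q, h0, h1, h2⟩ := exists_seq (fun (a : A) (q : St) => q ≤ s → ∃ t, a.1.1 a.1.2 t q)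
    (fun a q => by
      by_cases c : q ≤ s
      · obtain ⟨q', b, d⟩ := (h a.1 a.2).1.tot q c a.1.2 (St.Le.Y c (h a.1 a.2).2)
        exact ⟨q', b, fun _ => d⟩
      · exact ⟨q, le_rfl, fun d => (c d).elim⟩) s
  obtain ⟨s', b, -⟩ := St.lim q h1
  refine ⟨s', h0 ▸ b 0, fun a ha => ?_⟩
  obtain ⟨n, c⟩ := h2 ⟨a, ha⟩
  obtain ⟨t, d⟩ := c (h0 ▸ antitone_nat_of_succ_le h1 (Nat.zero_le n))
  exact ⟨t, (h a ha).1.mono _ _ _ _ d (b n)⟩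

theorem decide_one {s : St} {e : NN} (he : bs.CF e s) {A : Set Pt} (hA : A ⊆ s.Y) :
    ∃ s' ≤ s, ∃ k : Pt → ℝ, ∀ y ∈ A, e y (k y) s' := by
  obtain ⟨s', a, b⟩ := decide_all (s := s) (A := (fun y => (e, y)) '' A)
    ((s.cY.mono hA).image _) (by rintro _ ⟨y, hy, rfl⟩; exact ⟨he, hA hy⟩)
  have c : ∀ y ∈ A, ∃ t, e y t s' := fun y hy => b _ ⟨y, hy, rfl⟩
  choose! k hk using c
  exact ⟨s', a, k, hk⟩

/-- The value at a point of the closure. -/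
theorem val_acc {s : St} {e : NN} (he : bs.CF e s) {x : Pt} (hx : x ∈ s.Y) {A : Set Pt}
    (hA : A ⊆ s.Y) (hacc : ∀ s' ≤ s, s'.Acc x A) {t : ℝ} (ht : e x t s) {k : Pt → ℝ}
    (hk : ∀ y ∈ A, e y (k y) s) {η : ℝ} (hη : 0 < η) (K : ℕ) {J : Set Om} (hJ : J.Finite)
    (hI : J ⊆ s.I) : ∃ y ∈ A, Nbr K J x s.F y s.F ∧ |k y - t| < η := by
  obtain ⟨s', a, ⟨K', J'⟩, ⟨b₁, -, b₂, b₃, -⟩, c⟩ := he.cont s le_rfl x t hx ht η hη
  obtain ⟨y, hy, d⟩ := hacc s' a (max K K') (J ∪ J') (hJ.union b₂)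
    (union_subset (hI.trans (St.Le.I a)) b₃)
  exact ⟨y, hy, (St.nbr_le a hI hx (hA hy)).1 (d.mono (le_max_left _ _) subset_union_left),
    c s' le_rfl y _ ⟨b₁, St.Le.Y a (hA hy), b₂, b₃, d.mono (le_max_right _ _) subset_union_right⟩
      (he.mono _ _ _ _ (hk y hy) a)⟩

theorem CCont_many {s : St} {es : List NN} (he : ∀ e ∈ es, bs.CF e s) {x : Pt} (hx : x ∈ s.Y)
    {η : ℝ} (hη : 0 < η) : ∃ s' ≤ s, ∃ (K : ℕ) (J : Set Om), J.Finite ∧ J ⊆ s'.I ∧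
      ∀ e ∈ es, ∃ t, e x t s' ∧ ∀ s'' ≤ s', ∀ y ∈ s''.Y, Nbr K J x s''.F y s''.F →
        ∀ t', e y t' s'' → |t' - t| < η := by
  induction es with
  | nil => exact ⟨s, le_rfl, 0, ∅, finite_empty, empty_subset _, fun _ h => by simp at h⟩
  | cons e es ih =>
    obtain ⟨s₁, a, K, J, b, c, d⟩ := ih fun e' h => he e' (List.mem_cons_of_mem _ h)
    have h := he e List.mem_cons_self
    obtain ⟨s₂, a₂, t, f⟩ := h.tot s₁ a x (St.Le.Y a hx)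
    obtain ⟨s₃, a₃, ⟨K', J'⟩, ⟨b₁, -, b₂, b₃, -⟩, i⟩ :=
      h.cont s₂ (a₂.trans a) x t (St.Le.Y (a₂.trans a) hx) f η hη
    refine ⟨s₃, a₃.trans (a₂.trans a), max K K', J ∪ J', b.union b₂,
      union_subset (c.trans (St.Le.I (a₃.trans a₂))) b₃, fun e' h' => ?_⟩
    rcases List.mem_cons.1 h' with rfl | h'
    · exact ⟨t, h.mono _ _ _ _ f a₃, fun s₄ a₄ y hy j t' l => i s₄ a₄ y t'
        ⟨St.Le.Y a₄ b₁, hy, b₂, b₃.trans (St.Le.I a₄),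
          j.mono (le_max_right _ _) subset_union_right⟩ l⟩
    · obtain ⟨t₁, j, l⟩ := d e' h'
      exact ⟨t₁, (he e' (List.mem_cons_of_mem _ h')).mono _ _ _ _ j (a₃.trans a₂),
        fun s₄ a₄ y hy m => l s₄ (a₄.trans (a₃.trans a₂)) y hy
          (m.mono (le_max_left _ _) subset_union_left)⟩

/-- A point of `A` at which finitely many functions are close to their values at `x`. -/
theorem near_many {s : St} {es : List NN} (he : ∀ e ∈ es, bs.CF e s) {x : Pt} (hx : x ∈ s.Y)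
    {A : Set Pt} (hA : A ⊆ s.Y) (hacc : ∀ s' ≤ s, s'.Acc x A) {η : ℝ} (hη : 0 < η) :
    ∃ s' ≤ s, ∃ y ∈ A, ∀ e ∈ es, ∃ t t', e x t s' ∧ e y t' s' ∧ |t - t'| < η := by
  obtain ⟨s₁, a, K, J, b, c, d⟩ := CCont_many he hx hη
  obtain ⟨y, hy, f⟩ := hacc s₁ a K J b c
  have hy' := St.Le.Y a (hA hy)
  obtain ⟨s₂, a₂, i⟩ := decide_all (s := s₁) (A := (fun e => (e, y)) '' {e | e ∈ es})
    ((List.finite_toSet es).countable.image _)
    (by rintro _ ⟨e, h, rfl⟩; exact ⟨(he e h).le a, hy'⟩)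
  refine ⟨s₂, a₂.trans a, y, hy, fun e h => ?_⟩
  obtain ⟨t, j, l⟩ := d e h
  obtain ⟨t', m⟩ := i _ ⟨e, h, rfl⟩
  exact ⟨t, t', (he e h).mono _ _ _ _ j a₂, m, abs_sub_comm t t' ▸ l s₂ a₂ y (St.Le.Y a₂ hy')
    ((St.nbr_le a₂ c (St.Le.Y a hx) hy').2 f) t' m⟩

/-- Continuity can be read off the existing coordinates. -/
theorem w0 {s : St} {e : NN} (he : bs.CF e s) {x : Pt} (hx : x ∈ s.Y) {A : Set Pt} (hA : A ⊆ s.Y)
    {k : Pt → ℝ} (hk : ∀ y ∈ A, e y (k y) s) : ∃ s' ≤ s, ∀ s'' ≤ s', ∀ t, e x t s'' →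
      ∀ η : ℝ, 0 < η → ∃ (K : ℕ) (J : Set Om), J.Finite ∧ J ⊆ s.I ∧
        ∀ y ∈ A, Nbr K J x s.F y s.F → |k y - t| < η := by
  obtain ⟨s', a, -, b⟩ := s.cp (𝒟 := range (fun q : ℚ => (x, {y ∈ A | k y ≤ q})) ∪
      range fun q : ℚ => (x, {y ∈ A | (q : ℝ) ≤ k y}))
    ((countable_range _).union (countable_range _))
    (by rintro _ (⟨q, rfl⟩ | ⟨q, rfl⟩) <;> exact ⟨hx, fun y hy => hA hy.1⟩)
  refine ⟨s', a, fun s'' a' t ht η hη => ?_⟩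
  have key : ∀ (B : Set Pt) (δ : ℝ), 0 < δ → B ⊆ A → (∀ y ∈ B, δ ≤ |k y - t|) →
      (s.Acc x B → ∀ r ≤ s', r.Acc x B) →
      ∃ (K : ℕ) (J : Set Om), J.Finite ∧ J ⊆ s.I ∧ ∀ y ∈ B, ¬ Nbr K J x s.F y s.F := by
    intro B δ hδ hB c d
    by_contra n
    push Not at n
    have a₂ := a'.trans a
    obtain ⟨y, hy, -, f⟩ := val_acc (he.le a₂) (St.Le.Y a₂ hx) (hB.trans (hA.trans (St.Le.Y a₂)))
      (fun r hr => d n r (hr.trans a')) ht (fun y hy => he.mono _ _ _ _ (hk y (hB hy)) a₂) hδ 0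
      finite_empty (empty_subset _)
    exact (c y hy).not_gt f
  obtain ⟨q₁, c₁, d₁⟩ := exists_rat_btwn (sub_lt_self t hη)
  obtain ⟨q₂, c₂, d₂⟩ := exists_rat_btwn (lt_add_of_pos_right t hη)
  obtain ⟨K₁, J₁, f₁, i₁, j₁⟩ := key {y ∈ A | k y ≤ q₁} (t - q₁) (sub_pos.2 d₁) (fun _ h => h.1)
    (fun y h => le_abs.2 (.inr (by linarith [h.2]))) (b _ (.inl ⟨q₁, rfl⟩))
  obtain ⟨K₂, J₂, f₂, i₂, j₂⟩ := key {y ∈ A | (q₂ : ℝ) ≤ k y} (q₂ - t) (sub_pos.2 c₂)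
    (fun _ h => h.1) (fun y h => le_abs.2 (.inl (by linarith [h.2]))) (b _ (.inr ⟨q₂, rfl⟩))
  refine ⟨max K₁ K₂, J₁ ∪ J₂, f₁.union f₂, union_subset i₁ i₂, fun y hy h => ?_⟩
  have l₁ : (q₁ : ℝ) < k y := not_le.1 fun l =>
    j₁ y ⟨hy, l⟩ (h.mono (le_max_left _ _) subset_union_left)
  have l₂ : k y < q₂ := not_le.1 fun l =>
    j₂ y ⟨hy, l⟩ (h.mono (le_max_right _ _) subset_union_right)
  exact abs_lt.2 ⟨by linarith, by linarith⟩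

theorem w1 {s : St} {e : NN} (he : bs.CF e s) {x : Pt} (hx : x ∈ s.Y) {A : Set Pt} (hA : A ⊆ s.Y)
    {k : Pt → ℝ} (hk : ∀ y ∈ A, e y (k y) s) {t : ℝ} (ht : e x t s) {η : ℝ} (hη : 0 < η) :
    ∃ (K : ℕ) (J : Set Om), J.Finite ∧ J ⊆ s.I ∧ ∀ y ∈ A, Nbr K J x s.F y s.F → |k y - t| < η := by
  obtain ⟨s', hs', h⟩ := w0 he hx hA hk
  exact h s' le_rfl t (he.mono _ _ _ _ ht hs') η hη

open Classical in
/-- The points of the square at `y` for the coordinates of `s`. -/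
noncomputable def fI (s : St) (y : Pt) : Om → D := fun ξ => if ξ ∈ s.I then (s.F ξ y).2 else 0

/-- Near a generic label and at large heights a continuous function is almost a continuous
function of the branch and the points of the square. -/
theorem w2 {s : St} {e : NN} (he : bs.CF e s) {A : Set Pt} (hA : A ⊆ s.Y)
    {k : Pt → ℝ} (hk : ∀ y ∈ A, e y (k y) s) {x : LM} (hx : x.1 ∉ s.lab) (hO : ∀ O ∈ s.DO, x ∈ O)
    {η : ℝ} (hη : 0 < η) : ∃ (K : ℕ) (J : Set Om) (φ : G2 × (Om → D) → ℝ), J.Finite ∧ J ⊆ s.I ∧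
      Continuous φ ∧ ∀ y ∈ A, (K : ℕ∞) ≤ y.h → ag K x.1 y.g → (∀ ξ ∈ J, (s.F ξ y).1 = x.2 ξ) →
        |k y - φ (y.a, fI s y)| ≤ η := by
  have loc : ∀ w : G2 × (Om → D), ∃ (t : ℝ) (K : ℕ) (J : Set Om), J.Finite ∧ J ⊆ s.I ∧
      ∀ y ∈ A, (K : ℕ∞) ≤ y.h → ag K x.1 y.g → (∀ ξ ∈ J, (s.F ξ y).1 = x.2 ξ) →
        ag K w.1 y.a → box K J w.2 (fI s y) → |k y - t| < η := by
    intro w
    obtain ⟨s₁, a, -, hB, hI, hab, hF⟩ := s.addB hx hO w.1 w.2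
    have hz : (⟨⊤, w.1, x.1⟩ : Pt) ∈ s₁.Y := top_mem.2 ⟨hB ▸ mem_insert _ _, hab.symm⟩
    obtain ⟨s₂, a₂, b⟩ := w0 (he.le a) hz (hA.trans (St.Le.Y a))
      fun y hy => he.mono _ _ _ _ (hk y hy) a
    obtain ⟨s₃, a₃, t, c⟩ := he.tot s₂ (a₂.trans a) _ (St.Le.Y a₂ hz)
    obtain ⟨K, J, d, f, i⟩ := b s₃ a₃ t c η hη
    rw [hI] at f
    refine ⟨t, K, J, d, f, fun y hy h₁ h₂ h₃ h₄ h₅ => i y hy ((nbr_top rfl).2
      ⟨h₂, h₁, h₄, fun ξ hξ => ?_, fun ξ hξ => ?_⟩)⟩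
    · simp only [mkr, hF ξ (f hξ), St.Le.F a ξ (f hξ) y (hA hy), h₃ ξ hξ]
    · simpa only [fv, hF ξ (f hξ), St.Le.F a ξ (f hξ) y (hA hy), fI, if_pos (f hξ)] using h₅ ξ hξ
  choose t K J hJ hI h using loc
  obtain ⟨T, hT⟩ := CompactSpace.elim_nhds_subcover
    (fun w : G2 × (Om → D) => {y : G2 × (Om → D) | ag (K w) w.1 y.1 ∧ box (K w) (J w) w.2 y.2})
    fun w => (isOpen_box _ (hJ w) w).mem_nhds ⟨ag.refl _ _, fun _ _ => by
      rw [dist_self]; positivity⟩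
  obtain ⟨φ, hφ⟩ := exists_continuous_forall_mem_convex_of_local_const
    (t := fun w : G2 × (Om → D) => ⋂ y ∈ {y ∈ A | ((T.sup K : ℕ) : ℕ∞) ≤ y.h ∧
      ag (T.sup K) x.1 y.g ∧ (∀ ξ ∈ ⋃ w ∈ T, J w, (s.F ξ y).1 = x.2 ξ) ∧ (y.a, fI s y) = w},
        Metric.closedBall (k y) η)
    (fun w => convex_iInter₂ fun y _ => convex_closedBall _ _) fun w' => by
      obtain ⟨w, hw, a⟩ := mem_iUnion₂.1 (hT.ge (mem_univ w'))
      refine ⟨t w, Filter.mem_of_superset ((isOpen_box _ (hJ w) w).mem_nhds a) fun v b =>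
        mem_iInter₂.2 ?_⟩
      rintro y ⟨hy, c₁, c₂, c₃, rfl⟩
      have l : K w ≤ T.sup K := Finset.le_sup hw
      rw [Metric.mem_closedBall', Real.dist_eq]
      exact (h w y hy ((Nat.cast_le.2 l).trans c₁) (c₂.mono l)
        (fun ξ hξ => c₃ ξ (mem_iUnion₂.2 ⟨w, hw, hξ⟩)) b.1 b.2).le
  refine ⟨T.sup K, ⋃ w ∈ T, J w, φ, T.finite_toSet.biUnion fun w _ => hJ w,
    iUnion₂_subset fun w _ => hI w, φ.continuous, fun y hy c₁ c₂ c₃ => ?_⟩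
  have := mem_iInter₂.1 (hφ (y.a, fI s y)) y ⟨hy, c₁, c₂, c₃, rfl⟩
  rwa [Metric.mem_closedBall', Real.dist_eq] at this

/-- Members of the game: a sequence of coordinate functions and a real function. -/
abbrev Mem : Type := (ℕ → Co) × (Pt → ℝ)

/-- The properties of a member relative to the old points `Y` with old coordinates `V`. -/
structure Ok (Y : Set Pt) (V : ℕ → Co) (m : Mem) : Prop where
  rat : ∀ n, ∀ y ∈ Y, IsRat (m.1 n y).2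
  w1 : ∀ x ∈ Y, ∀ η : ℝ, 0 < η → ∃ K, ∀ y ∈ Y, Nbr K (Iio K) x V y V →
    Nbr K (Iio K) x m.1 y m.1 → |m.2 y - m.2 x| < η
  w2 : ∀ (K₀ : ℕ) (g₀ v₀ w₀ : ℕ → ℕ) (η : ℝ), 0 < η → ∃ K₁ ≥ K₀, ∃ g₁ v₁ w₁, ag K₀ g₀ g₁ ∧
    ag K₀ v₀ v₁ ∧ ag K₀ w₀ w₁ ∧ ∃ φ : G2 × Th → Th → ℝ, Continuous (uncurry φ) ∧
      ∀ y ∈ Y, (K₁ : ℕ∞) ≤ y.h → ag K₁ g₁ y.g → ag K₁ v₁ (mkr V y) → ag K₁ w₁ (mkr m.1 y) →
        |m.2 y - φ (y.a, fv V y) (fv m.1 y)| ≤ η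

/-- The coordinates of `s` are listed by `en` and `ee`. -/
structure Enum (s : St) (en ee : ℕ → Om) : Prop where
  inj : Injective en
  inj' : Injective ee
  disj : ∀ n m, en n ≠ ee m
  cov : ∀ ξ, ξ ∈ s.I ↔ (∃ n, en n = ξ) ∨ ∃ n, ee n = ξ

theorem CCont_bound {s : St} {en ee : ℕ → Om} (hen : Enum s en ee) {J : Set Om} (hJ : J.Finite)
    (hI : J ⊆ s.I) : ∃ K₀, ∀ K ≥ K₀, J ⊆ en '' Iio K ∪ ee '' Iio K := by
  have a : ∀ ξ ∈ J, ∃ n, en n = ξ ∨ ee n = ξ := fun ξ h => exists_or.2 ((hen.cov ξ).1 (hI h))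
  choose! n hn using a
  obtain ⟨M, hM⟩ := (hJ.image n).bddAbove
  refine ⟨M + 1, fun K hK ξ h => ?_⟩
  have b : n ξ < K := (Nat.lt_succ_of_le (hM ⟨ξ, h, rfl⟩)).trans_le hK
  exact (hn ξ h).imp (fun c => ⟨_, b, c⟩) fun c => ⟨_, b, c⟩

theorem CCont_ext {α X : Type*} [TopologicalSpace α] [TopologicalSpace X] {e : ℕ → Om}
    (he : Injective e) {f : X → ℕ → α} {g : X → Om → α} (hf : Continuous f) (hg : Continuous g) :
    Continuous fun x => extend e (f x) (g x) := by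
  refine continuous_pi fun ξ => ?_
  by_cases h : ∃ n, e n = ξ
  · obtain ⟨n, rfl⟩ := h
    simp only [he.extend_apply]
    exact (continuous_apply n).comp hf
  · simp only [extend_apply' _ _ _ h]
    exact (continuous_apply ξ).comp hg

/-- The modulus of continuity in terms of the two lists of coordinates. -/
theorem w1_enum {s : St} {e : NN} (he : bs.CF e s) {en ee : ℕ → Om} (hen : Enum s en ee) {x : Pt}
    (hx : x ∈ s.Y) {A : Set Pt} (hA : A ⊆ s.Y) {k : Pt → ℝ} (hk : ∀ y ∈ A, e y (k y) s) {t : ℝ}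
    (ht : e x t s) {η : ℝ} (hη : 0 < η) : ∃ K₀, ∀ K ≥ K₀, ∀ y ∈ A,
      Nbr K (Iio K) x (fun n => s.F (en n)) y (fun n => s.F (en n)) →
      Nbr K (Iio K) x (fun n => s.F (ee n)) y (fun n => s.F (ee n)) → |k y - t| < η := by
  obtain ⟨K₁, J, a, b, c⟩ := w1 he hx hA hk ht hη
  obtain ⟨K₂, d⟩ := CCont_bound hen a b
  exact ⟨max K₁ K₂, fun K hK y hy h h' => c y hy (((Nbr.comp.1 h).union (Nbr.comp.1 h')).mono
    ((le_max_left _ _).trans hK) (d K ((le_max_right _ _).trans hK)))⟩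

theorem ok_member {s₀ s : St} (hs : s ≤ s₀) {e : NN} (he : bs.CF e s) {en ee : ℕ → Om}
    (hen : Enum s en ee) (h0 : ∀ n, en n ∈ s₀.I) (h1 : ∀ n, ee n ∉ s₀.I) {k : Pt → ℝ}
    (hk : ∀ y ∈ s₀.Y, e y (k y) s) :
    Ok s₀.Y (fun n => s₀.F (en n)) (fun n => s.F (ee n), k) := by
  have ne : ∀ n, ¬ ∃ m, en m = ee n := fun n ⟨m, h⟩ => hen.disj m n h
  refine ⟨fun n y hy => St.Le.newI hs _ ((hen.cov _).2 (.inr ⟨n, rfl⟩)) (h1 n) y hy,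
    fun x hx η hη => ?_, fun K₀ g₀ v₀ w₀ η hη => ?_⟩
  · obtain ⟨K, a⟩ := w1_enum he hen (St.Le.Y hs hx) (St.Le.Y hs) hk (hk x hx) hη
    refine ⟨K, fun y hy h h' => a K le_rfl y hy (Nbr.comp.2 ?_) h'⟩
    exact (St.nbr_le hs (by rintro _ ⟨n, -, rfl⟩; exact h0 n) hx hy).2 (Nbr.comp.1 h)
  · obtain ⟨x, ⟨a₁, a₂⟩, b, c⟩ := s.exists_gen (g₀, extend en v₀ (extend ee w₀ 0)) K₀
      (((finite_Iio K₀).image en).union ((finite_Iio K₀).image ee)) s.cLab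
    obtain ⟨K, J, φ, d, f, i, j⟩ := w2 he (St.Le.Y hs) hk b c hη
    obtain ⟨K₂, l⟩ := CCont_bound hen d f
    refine ⟨max K₀ (max K K₂), le_max_left _ _, x.1, fun n => x.2 (en n), fun n => x.2 (ee n), a₁,
      fun n hn => ?_, fun n hn => ?_, fun z θ => φ (z.1, extend en z.2 (extend ee θ 0)), ?_,
      fun y hy c₁ c₂ c₃ c₄ => ?_⟩
    · exact (hen.inj.extend_apply _ _ n).symm.trans (a₂ _ (.inl ⟨n, hn, rfl⟩))
    · exact ((extend_apply' _ _ _ (ne n)).trans (hen.inj'.extend_apply _ _ n)).symm.trans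
        (a₂ _ (.inr ⟨n, hn, rfl⟩))
    · exact i.comp (continuous_fst.fst.prodMk (CCont_ext hen.inj continuous_fst.snd
        (CCont_ext hen.inj' continuous_snd continuous_const)))
    · have m : K ≤ max K₀ (max K K₂) := (le_max_left _ _).trans (le_max_right _ _)
      have e₁ : extend en (fv (fun n => s₀.F (en n)) y) (extend ee (fv (fun n => s.F (ee n)) y) 0) =
          fI s y := by
        funext ξ
        by_cases h : ∃ n, en n = ξ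
        · obtain ⟨n, rfl⟩ := h
          rw [hen.inj.extend_apply, fI, if_pos ((hen.cov _).2 (.inl ⟨n, rfl⟩)),
            St.Le.F hs _ (h0 n) y hy]
          rfl
        · rw [extend_apply' _ _ _ h]
          by_cases h' : ∃ n, ee n = ξ
          · obtain ⟨n, rfl⟩ := h'
            rw [hen.inj'.extend_apply, fI, if_pos ((hen.cov _).2 (.inr ⟨n, rfl⟩))]
            rfl
          · rw [extend_apply' _ _ _ h', fI, if_neg fun c => ((hen.cov _).1 c).elim h h']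
            rfl
      simp only [e₁]
      refine j y hy ((Nat.cast_le.2 m).trans c₁) (c₂.mono m) fun ξ hξ => ?_
      rcases l _ ((le_max_right _ _).trans (le_max_right K₀ _)) hξ with ⟨n, hn, rfl⟩ | ⟨n, hn, rfl⟩
      · rw [St.Le.F hs _ (h0 n) y hy]
        exact (c₃ n hn).symm
      · exact (c₄ n hn).symm

end Pool.Agent.Work.MP_f50f0f_gt
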