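import Pool.Agent.Work.MP_f50f0f_gt.CState

/-! Adding coordinates, preservation of closures, reflection. -/

namespace Pool.Agent.Work.MP_f50f0f_gt
open Function Set

open Classical in
/-- Admissibility is a property of the fibres. -/
theorem CCoord_patch {u u' : Co} (hu : Good u) (hu' : Good u') (P B : Set Lb) (ab : Lb → G2) :
    Good fun y => if y ∈ pts P B ab then u y else u' y := by
  refine ⟨fun y => ?_, fun c hc j hj => ?_⟩
  · dsimp only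
    split_ifs
    · exact hu.1 y
    · exact hu'.1 y
  · by_cases h : c ∈ P
    · have h0 : root c ∈ pts P B ab := pt_mem.2 ⟨nrm_a0 0, h⟩
      simp only [if_pos h0] at hc
      exact (hu.2 c hc j hj).congr fun a ha => by simp only [if_pos (pt_mem.2 ⟨ha, h⟩)]
    · have h0 : ∀ j a, pt j a c ∉ pts P B ab := fun j a h' => h (pt_mem.1 h').2
      have h1 : root c ∉ pts P B ab := h0 _ _
      simp only [if_neg h1] at hc
      exact (hu'.2 c hc j hj).congr fun a _ => by simp only [if_neg (h0 j a)]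

theorem CCoord_reps (k : ℕ) (Z : Set Pt) : ∃ R : Set (ℕ → Co), R.Countable ∧
    (Z.Finite → ∀ E : ℕ → Co, (∀ n, Good (E n)) → ∃ r ∈ R, (∀ n, Good (r n)) ∧ agE k Z r E) := by
  by_cases hZ : Z.Finite
  · have h : CC {E : ℕ → Co | ∀ n, Good (E n)} fun E E' => ∀ n ∈ Iio k, ∀ y ∈ Z, E n y = E' n y :=
      CC.finite (finite_Iio k) fun n _ => CC.finite hZ fun y _ =>
        CC.eq (countable_univ.prod countable_isRat) (fun E : ℕ → Co => E n y)
          fun E hE => ⟨mem_univ _, (hE n).1 y⟩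
    obtain ⟨R, h1, h2, h3⟩ := h.reps
    exact ⟨R, h2, fun _ E hE => (h3 E hE).imp fun r hr => ⟨hr.1, h1 hr.1, hr.2⟩⟩
  · exact ⟨∅, countable_empty, fun h => absurd h hZ⟩

/-- The functions that can be put at the place `i`. -/
def CCoord_H (p : Prom) (T : Set ℕ) (A : ℕ → Co) (i : ℕ) (Z : Set Pt) (E₀ : ℕ → Co) : Set Co :=
  {u | ∃ E, (∀ n, Good (E n)) ∧ agE p.k Z E₀ E ∧ mix T A (update E i u) ∈ p.G}

theorem CCoord_good_update {E : ℕ → Co} (hE : ∀ n, Good (E n)) (i : ℕ) {u : Co} (hu : Good u)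
    (n : ℕ) : Good (update E i u n) := by
  by_cases h : n = i
  · rwa [h, update_self]
  · rw [update_of_ne h]
    exact hE n

theorem CCoord_opn {p : Prom} {Y : Set Pt} (hY : p.Y ⊆ Y) (h : Opn p.Y p.k p.G) (T : Set ℕ)
    (A : ℕ → Co) (i : ℕ) (Z : Set Pt) (E₀ : ℕ → Co) : Opn1 Y (CCoord_H p T A i Z E₀) := by
  rintro u ⟨E, h1, h2, h3⟩
  obtain ⟨Z', z1, z2, z3⟩ := h _ h3
  refine ⟨Z', z1, z2.trans hY, fun u' hu' => ⟨E, h1, h2, z3 _ fun n _ y hy => ?_⟩⟩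
  simp only [mix]
  split_ifs
  · rfl
  · by_cases hn : n = i
    · rw [hn, update_self, update_self]
      exact hu' hy
    · rw [update_of_ne hn, update_of_ne hn]

theorem CCoord_dns {p : Prom} {T : Set ℕ} {A : ℕ → Co} (h : Dns p.k {E | mix T A E ∈ p.G})
    {i : ℕ} (hi : i < p.k) {Z : Set Pt} (hZ : Z.Finite) {E₀ : ℕ → Co} (hE : ∀ n, Good (E₀ n)) :
    Dns1 (CCoord_H p T A i Z E₀) := by
  intro u₀ hu Z₁ hZ₁
  obtain ⟨E, h1, h2, h3⟩ := h _ (CCoord_good_update hE i hu) _ (hZ.union hZ₁)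
  refine ⟨E i, h1 i, fun y hy => ?_, update E i (E₀ i), CCoord_good_update h1 i (hE i),
    fun n hn y hy => ?_, ?_⟩
  · simpa using h2 i hi y (Or.inr hy)
  · by_cases e : n = i
    · rw [e, update_self]
    · have := h2 n hn y (Or.inl hy)
      rwa [update_of_ne e, ← update_of_ne e (E₀ i) E] at this
  · rwa [update_idem, update_eq_self]

theorem CCoord_mix {T : Set ℕ} {A A' : ℕ → Co} (h : ∀ n ∈ T, A n = A' n) (E : ℕ → Co) :
    mix T A E = mix T A' E := by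
  funext n
  simp only [mix]
  split_ifs with hn
  · exact h n hn
  · rfl

theorem CCoord_enum {J : Set Om} (hJ : J.Finite) :
    ∃ (k : ℕ) (e : ℕ → Om), InjOn e (Iio k) ∧ e '' Iio k = J := by
  obtain ⟨k, f, hf, rfl⟩ := hJ.fin_param
  obtain ⟨e, he⟩ : ∃ e : ℕ → Om, ∀ n (h : n < k), e n = f ⟨n, h⟩ :=
    ⟨fun n => if h : n < k then f ⟨n, h⟩ else (0 : ℝ), fun n h => dif_pos h⟩
  refine ⟨k, e, fun a ha b hb h => ?_, ?_⟩
  · rw [he a ha, he b hb] at h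
    exact congrArg Fin.val (hf h)
  · ext x
    constructor
    · rintro ⟨n, hn, rfl⟩
      exact ⟨⟨n, hn⟩, (he n hn).symm⟩
    · rintro ⟨n, rfl⟩
      exact ⟨n, n.2, he n n.2⟩

namespace St

/-- The requirements for a new coordinate. -/
theorem addCoord (s : St) : ∃ ℋ : Set (Set Co), ℋ.Countable ∧ (∀ H ∈ ℋ, Opn1 s.Y H ∧ Dns1 H) ∧
    ∀ u, Good u → (∀ H ∈ ℋ, u ∈ H) → ∀ ξ ∉ s.I, ∃ s' ≤ s, s'.P = s.P ∧ s'.B = s.B ∧
      s'.ab = s.ab ∧ s'.I = insert ξ s.I ∧ s'.F ξ = u := by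
  classical
  choose R hR hR' using CCoord_reps
  let z : Om := (0 : ℝ)
  let 𝒩 : Set (ℕ → Om) := {f | ∃ K, (∀ n < K, f n ∈ insert z s.I) ∧ ∀ n, K ≤ n → f n = z}
  let ℋ₀ : Set (Set Co) := ⋃ p ∈ s.Pr, ⋃ Z ∈ {Z : Set Pt | Z.Finite ∧ Z ⊆ s.Y},
    ⋃ T ∈ {T : Set ℕ | T.Finite ∧ T ⊆ univ}, ⋃ η ∈ 𝒩, ⋃ i : ℕ,
      CCoord_H p T (fun n => s.F (η n)) i Z '' R p.k Z
  have h0 : ℋ₀.Countable := s.cPr.biUnion fun p _ =>
    (countable_ofPred_finite_subset s.cY).biUnion fun Z _ =>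
      (countable_ofPred_finite_subset countable_univ).biUnion fun T _ =>
        (countable_trn (s.cI.insert z) z).biUnion fun η _ =>
          countable_iUnion fun i => (hR _ _).image _
  refine ⟨ℋ₀ ∩ {H | Opn1 s.Y H ∧ Dns1 H}, h0.mono inter_subset_left, fun H hH => hH.2,
    fun u hu hH ξ₀ hξ₀ => ?_⟩
  have hne : ∀ ξ ∈ s.I, update s.F ξ₀ u ξ = s.F ξ := fun ξ h =>
    update_of_ne (fun e : ξ = ξ₀ => hξ₀ (e ▸ h)) _ _
  have hher : ∀ p ∈ s.Pr, Her p (insert ξ₀ s.I) (update s.F ξ₀ u) := by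
    intro p hp T ξ hT hinj
    obtain ⟨p1, p2, p3⟩ := s.pr p hp
    by_cases hi : ∃ i ∈ T, ξ i = ξ₀
    · obtain ⟨i, hiT, hi⟩ := hi
      have hT' : ∀ n ∈ T \ {i}, ξ n ∈ s.I := fun n hn =>
        (hT n hn.1).2.1.resolve_left fun e => hn.2 (hinj hn.1 hiT (e.trans hi.symm))
      let η : ℕ → Om := fun n => if n ∈ T \ {i} then ξ n else z
      have hη : ∀ n ∈ T \ {i}, η n = ξ n := fun n hn => if_pos hn
      have hd := p3 (T \ {i}) η (fun n hn => by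
        rw [hη n hn]
        exact ⟨(hT n hn.1).1, hT' n hn, (hT n hn.1).2.2⟩) fun a ha b hb e =>
          hinj ha.1 hb.1 (by rwa [hη a ha, hη b hb] at e)
      have hmix : ∀ E, mix T (fun n => update s.F ξ₀ u (ξ n)) E =
          mix (T \ {i}) (fun n => s.F (η n)) (update E i u) := by
        intro E
        funext n
        simp only [mix]
        by_cases e : n = i
        · rw [e, if_pos hiT, if_neg (fun h => h.2 rfl), hi, update_self, update_self]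
        · by_cases hn : n ∈ T
          · have hn' : n ∈ T \ {i} := ⟨hn, e⟩
            rw [if_pos hn, if_pos hn', hη n hn', hne _ (hT' n hn')]
          · rw [if_neg hn, if_neg (fun h => hn h.1), update_of_ne e]
      intro E₀ hE₀ Z hZ
      have hZ' : (Z ∩ s.Y).Finite := hZ.inter_of_left _
      obtain ⟨r, hr, r1, r2⟩ := hR' p.k (Z ∩ s.Y) hZ' E₀ hE₀
      obtain ⟨E, e1, e2, e3⟩ := hH (CCoord_H p (T \ {i}) (fun n => s.F (η n)) i (Z ∩ s.Y) r)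
        ⟨mem_biUnion hp (mem_biUnion (x := Z ∩ s.Y) ⟨hZ', inter_subset_right⟩
          (mem_biUnion (x := T \ {i})
            ⟨(finite_Iio p.k).subset fun n hn => (hT n hn.1).1, subset_univ _⟩
            (mem_biUnion (x := η) ⟨p.k, fun n _ => by
                by_cases hn : n ∈ T \ {i}
                · rw [hη n hn]
                  exact Or.inr (hT' n hn)
                · exact Or.inl (if_neg hn),
              fun n hn => if_neg fun h => absurd (hT n h.1).1 (not_lt.2 hn)⟩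
              (mem_iUnion.2 ⟨i, r, hr, rfl⟩)))),
          CCoord_opn p1 p2 _ _ _ _ _, CCoord_dns hd (hT i hiT).1 hZ' r1⟩
      obtain ⟨Z', z1, z2, z3⟩ := p2 _ e3
      refine ⟨fun n y => if y ∈ s.Y then E n y else E₀ n y,
        fun n => CCoord_patch (e1 n) (hE₀ n) _ _ _, fun n hn y hy => ?_, ?_⟩
      · dsimp only
        split_ifs with h
        · exact (r2 n hn y ⟨hy, h⟩).symm.trans (e2 n hn y ⟨hy, h⟩)
        · rfl
      · rw [mem_ofPred_eq, hmix]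
        refine z3 _ fun n _ y hy => ?_
        simp only [mix]
        split_ifs
        · rfl
        · by_cases e : n = i
          · rw [e, update_self, update_self]
          · rw [update_of_ne e, update_of_ne e, if_pos (show y ∈ s.Y from p1 (z2 hy))]
    · have hT' : ∀ n ∈ T, ξ n ∈ s.I := fun n hn =>
        (hT n hn).2.1.resolve_left fun e => hi ⟨n, hn, e⟩
      simp only [CCoord_mix (A := fun n => update s.F ξ₀ u (ξ n)) (A' := fun n => s.F (ξ n))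
        fun n hn => hne _ (hT' n hn)]
      exact p3 T ξ (fun n hn => ⟨(hT n hn).1, hT' n hn, (hT n hn).2.2⟩) hinj
  refine ⟨{ s with
      I := insert ξ₀ s.I
      F := update s.F ξ₀ u
      cI := s.cI.insert ξ₀
      rat := ?_
      con := ?_
      pr := fun p hp => ⟨(s.pr p hp).1, (s.pr p hp).2.1, hher p hp⟩ },
    ⟨Subset.rfl, Subset.rfl, fun _ _ => rfl, subset_insert _ _,
      fun ξ h y _ => congrFun (hne ξ h) y, Subset.rfl, Subset.rfl, fun _ h h' => absurd h h',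
      fun _ h h' => absurd h h', fun ξ h h' y _ => ?_⟩, rfl, rfl, rfl, rfl, update_self ξ₀ u s.F⟩
  · rintro ξ (rfl | h) c hc j a ha
    · rw [update_self]
      exact hu.1 _
    · rw [hne ξ h]
      exact s.rat ξ h c hc j a ha
  · rintro ξ (rfl | h) c hc
    · rw [update_self]
      exact hu.2 c
    · rw [hne ξ h]
      exact s.con ξ h c hc
  · obtain rfl : ξ = ξ₀ := h.resolve_right h'
    change IsRat (update s.F ξ u ξ y).2
    rw [update_self]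
    exact hu.1 y

theorem addCoord' (s : St) {u₀ : Co} (hu : Good u₀) {Z : Set Pt} (hZ : Z.Finite) :
    ∃ s' ≤ s, ∃ ξ ∉ s.I, ξ ∈ s'.I ∧ EqOn u₀ (s'.F ξ) (Z ∩ s.Y) := by
  obtain ⟨ℋ, h1, h2, h3⟩ := s.addCoord
  obtain ⟨u, u1, u2, u3⟩ := exists_u s.cP s.cB h1 h2 hu hZ
  obtain ⟨ξ, hξ⟩ : ∃ ξ, ξ ∉ s.I := by
    by_contra h
    push Not at h
    exact not_countable_univ (s.cI.mono fun ξ _ => h ξ)
  obtain ⟨s', hs, -, -, -, hI, hF⟩ := h3 u u1 u3 ξ hξ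
  exact ⟨s', hs, ξ, hξ, hI ▸ mem_insert _ _, hF ▸ u2⟩

theorem infI (s : St) : ∃ s' ≤ s, (s'.I \ s.I).Infinite := by
  choose f hf ξ h1 h2 _ using fun t : St => t.addCoord' good_zero finite_empty
  have hs : ∀ n, f^[n + 1] s ≤ f^[n] s := fun n => by
    rw [iterate_succ_apply']
    exact hf _
  have ha : Antitone fun n => f^[n] s := antitone_nat_of_succ_le hs
  have h3 : ∀ n, ξ (f^[n] s) ∈ (f^[n + 1] s).I := fun n => by
    rw [iterate_succ_apply']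
    exact h2 _
  obtain ⟨q, hq, -⟩ := lim (fun n => f^[n] s) hs
  have h4 : ∀ m n, m < n → ξ (f^[m] s) ≠ ξ (f^[n] s) := fun m n hmn e =>
    h1 (f^[n] s) (e ▸ (ha (Nat.succ_le_of_lt hmn)).I (h3 m))
  exact ⟨q, hq 0, infinite_of_injective_forall_mem (f := fun n => ξ (f^[n] s))
    (fun m n e => (lt_trichotomy m n).elim (fun h => absurd e (h4 m n h))
      fun h => h.elim id fun h => absurd e.symm (h4 n m h))
    fun n => ⟨(hq (n + 1)).I (h3 n), fun h => h1 _ ((ha (Nat.zero_le n)).I h)⟩⟩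

/-- `x` is in the closure of `A` for the coordinates of `s`. -/
def Acc (s : St) (x : Pt) (A : Set Pt) : Prop :=
  ∀ (K : ℕ) (J : Set Om), J.Finite → J ⊆ s.I → ∃ y ∈ A, Nbr K J x s.F y s.F

theorem CCoord_dnsG (s : St) {x : Pt} {A : Set Pt} (hx : x ∈ s.Y) (hA : A ⊆ s.Y) (hn : x ∉ A)
    (h : s.Acc x A) (K : ℕ) {J : Set Om} (hJ : J.Finite) (hI : J ⊆ s.I) (k : ℕ) :
    Dns k {E | ∃ y ∈ A, Nbr K J x s.F y s.F ∧ Nbr K (Iio k) x E y E} := by
  classical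
  intro E₀ hE Z hZ
  obtain ⟨K₀, hK₀⟩ := exists_sep (hZ.image Pt.g) x.g
  obtain ⟨y, hy, hN⟩ := h (K₀ + K + 1) J hJ hI
  have hN' : Nbr K J x s.F y s.F := hN.mono (by omega) Subset.rfl
  have hZy : y.g ≠ x.g → ∀ w ∈ Z, w.g ≠ y.g := fun h0 w hw e =>
    h0 (hK₀ (K₀ + K + 1) (by omega) _ ⟨w, hw, e⟩ hN.1)
  rcases pts_cases hx with ⟨j, a, c, rfl, ha, -⟩ | ⟨c, hc, rfl⟩
  · obtain ⟨n1, -, n3, -⟩ := nbr_pt.1 hN'
    have hg : y.g ≠ c := fun e => hn (by rw [n3, e] at hy; exact hy)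
    obtain ⟨E, e1, e2⟩ : ∃ E : ℕ → Co, (∀ n w, w.g = y.g → E n w = E₀ n ⟨w.h, w.a, c⟩) ∧
        ∀ n w, w.g ≠ y.g → E n w = E₀ n w :=
      ⟨fun n w => if w.g = y.g then E₀ n ⟨w.h, w.a, c⟩ else E₀ n w, fun _ _ h => if_pos h,
        fun _ _ h => if_neg h⟩
    refine ⟨E, fun n => ⟨fun w => ?_, fun c' hc' j' hj' => ?_⟩,
      fun n _ w hw => (e2 n w (hZy hg w hw)).symm, y, hy, hN', nbr_pt.2 ⟨n1, ha, n3,
        fun i _ j' _ a' _ => (e2 i (pt j' a' c) hg.symm).trans (e1 i (pt j' a' y.g) rfl).symm⟩⟩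
    · by_cases e : w.g = y.g
      · rw [e1 n w e]
        exact (hE n).1 _
      · rw [e2 n w e]
        exact (hE n).1 _
    · by_cases e : c' = y.g
      · rw [e1 n (root c') e] at hc'
        exact ((hE n).2 c hc' j' hj').congr fun a _ => congrArg Prod.snd (e1 n (pt j' a c') e).symm
      · rw [e2 n (root c') e] at hc'
        exact ((hE n).2 c' hc' j' hj').congr fun a _ =>
          congrArg Prod.snd (e2 n (pt j' a c') e).symm
  · obtain ⟨-, n2, -⟩ := (nbr_top rfl).1 hN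
    obtain ⟨m1, m2, m3, -⟩ := (nbr_top rfl).1 hN'
    have hg : y.g ≠ c := fun e => by
      rcases pts_cases (hA hy) with ⟨j, a, c', rfl, -, hc'⟩ | ⟨c', -, rfl⟩
      · exact s.disj c' hc' ((show c' = c from e) ▸ hc)
      · obtain rfl : c' = c := e
        exact hn hy
    obtain ⟨E, e0, e1, e2⟩ : ∃ E : ℕ → Co, (∀ n, E n y = E₀ n ⟨⊤, s.ab c, c⟩) ∧
        (∀ n w, w ≠ y → w.g = y.g → E n w = 0) ∧ ∀ n w, w.g ≠ y.g → E n w = E₀ n w :=
      ⟨fun n w => if w = y then E₀ n ⟨⊤, s.ab c, c⟩ else if w.g = y.g then 0 else E₀ n w,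
        fun _ => if_pos rfl, fun _ _ h h' => (if_neg h).trans (if_pos h'),
        fun _ _ h => (if_neg fun e => h (congrArg Pt.g e)).trans (if_neg h)⟩
    have hv : ∀ n, E n ⟨⊤, s.ab c, c⟩ = E n y := fun n => (e2 n _ hg.symm).trans (e0 n).symm
    refine ⟨E, fun n => ⟨fun w => ?_, fun c' hc' j' hj' => ?_⟩,
      fun n _ w hw => (e2 n w (hZy hg w hw)).symm, y, hy, hN',
      (nbr_top rfl).2 ⟨m1, m2, m3, fun i _ => congrArg Prod.fst (hv i), fun i _ => ?_⟩⟩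
    · by_cases e : w = y
      · rw [e, e0]
        exact (hE n).1 _
      · by_cases e' : w.g = y.g
        · rw [e1 n w e e']
          exact isRat_zero
        · rw [e2 n w e']
          exact (hE n).1 _
    · by_cases e : c' = y.g
      · have e3 : root c' ≠ y := fun e' => by
          rw [← e'] at n2
          simp [root, pt] at n2
        rw [e1 n (root c') e3 e] at hc'
        exact absurd rfl hc'
      · rw [e2 n (root c') e] at hc'
        exact ((hE n).2 c' hc' j' hj').congr fun a _ =>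
          congrArg Prod.snd (e2 n (pt j' a c') e).symm
    · simp only [fv, hv, dist_self]
      positivity

/-- Preservation of closures. -/
theorem cp (s : St) {𝒟 : Set (Pt × Set Pt)} (hc : 𝒟.Countable)
    (h : ∀ d ∈ 𝒟, d.1 ∈ s.Y ∧ d.2 ⊆ s.Y) : ∃ s' ≤ s, Same s' s ∧
      ∀ d ∈ 𝒟, s.Acc d.1 d.2 → ∀ s'' ≤ s', s''.Acc d.1 d.2 := by
  let G : Pt × Set Pt → ℕ → Set Om → ℕ → ℕ × Set (ℕ → Co) := fun d K J k =>
    (k, {E | ∃ y ∈ d.2, Nbr K J d.1 s.F y s.F ∧ Nbr K (Iio k) d.1 E y E})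
  let 𝒢 : Set (ℕ × Set (ℕ → Co)) :=
    ⋃ d ∈ 𝒟, ⋃ K : ℕ, ⋃ J ∈ {J : Set Om | J.Finite ∧ J ⊆ s.I}, range (G d K J)
  have h0 : 𝒢.Countable := hc.biUnion fun d _ => countable_iUnion fun K =>
    (countable_ofPred_finite_subset s.cI).biUnion fun J _ => countable_range _
  obtain ⟨s', hs, hS, hP⟩ := s.addPr (𝒢 := 𝒢 ∩ {p | Opn s.Y p.1 p.2 ∧ Dns p.1 p.2})
    (h0.mono inter_subset_left) fun p hp => hp.2
  refine ⟨s', hs, hS, fun d hd hA s'' hs'' K J hJ hI => ?_⟩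
  obtain ⟨d1, d2⟩ := h d hd
  by_cases hx : d.1 ∈ d.2
  · exact ⟨d.1, hx, Nbr.refl (reg_of_mem d1) _ _ _⟩
  obtain ⟨k, e, e1, e2⟩ := CCoord_enum (hJ.sdiff (t := s.I))
  have hJ' : (J ∩ s.I).Finite := hJ.inter_of_left _
  have he : ∀ n < k, e n ∈ J \ s.I := fun n hn => e2 ▸ mem_image_of_mem e hn
  have ho : Opn s.Y k (G d K (J ∩ s.I) k).2 := by
    rintro E ⟨y, hy, n1, n2⟩
    exact ⟨dn d.1 ∪ dn y, (finite_dn _).union (finite_dn _),
      union_subset (dn_subset d1) (dn_subset (d2 hy)), fun E' hE' => ⟨y, hy, n1,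
        n2.congr (reg_of_mem (d2 hy)) (fun i hi w hw => hE' i hi w (Or.inl hw))
          fun i hi w hw => hE' i hi w (Or.inr hw)⟩⟩
  obtain ⟨y, hy, n1, n2⟩ := hP (G d K (J ∩ s.I) k) ⟨mem_biUnion hd (mem_iUnion.2 ⟨K,
    mem_biUnion (x := J ∩ s.I) ⟨hJ', inter_subset_right⟩ ⟨k, rfl⟩⟩), ho,
    s.CCoord_dnsG d1 d2 hx hA K hJ' inter_subset_right k⟩ s'' hs'' e e1
    fun n hn => ⟨hI (he n hn).1, (he n hn).2⟩
  have n3 := ((nbr_le (le_trans hs'' hs) inter_subset_right d1 (d2 hy)).2 n1).union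
    (Nbr.comp.1 n2)
  rw [e2, inter_union_sdiff] at n3
  exact ⟨y, hy, n3⟩

end St

theorem CCoord_simReps (n K : ℕ) (J : Set Om) : ∃ R : Set ((ℕ → Pt) × (Om → Co)), R.Countable ∧
    (J.Finite → ∀ (l : ℕ → Pt) (F : Om → Co), (∀ i < n, RatOn J (l i) F) →
      ∃ r ∈ R, ∀ i < n, Sim K J (r.1 i) r.2 (l i) F) := by
  by_cases hJ : J.Finite
  · have h : CC {κ : (ℕ → Pt) × (Om → Co) | ∀ i < n, RatOn J (κ.1 i) κ.2}
        fun κ κ' => ∀ i ∈ Iio n, Sim K J (κ.1 i) κ.2 (κ'.1 i) κ'.2 :=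
      CC.finite (finite_Iio n) fun i hi =>
        cc_sim (fun κ : (ℕ → Pt) × (Om → Co) => κ.1 i) Prod.snd K hJ fun κ hκ => hκ i hi
    obtain ⟨R, -, h2, h3⟩ := h.reps
    exact ⟨R, h2, fun _ l F hl => h3 (l, F) hl⟩
  · exact ⟨∅, countable_empty, fun h => absurd h hJ⟩

theorem CCoord_bound {α : Type} {X : Set α} (hX : X.Finite) {S : ℕ → Set α} (hS : Monotone S)
    (h : ∀ x ∈ X, ∃ n, x ∈ S n) : ∃ n, X ⊆ S n := by
  choose! f hf using h
  obtain ⟨n, hn⟩ := (hX.image f).bddAbove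
  exact ⟨n, fun x hx => hS (hn (mem_image_of_mem f hx)) (hf x hx)⟩

/-- Reflection: tuples of later points are approximated by tuples of the limit. -/
theorem reflect {Q : Type} [Preorder Q] (st : Q → St) (hst : ∀ q q', q' ≤ q → st q' ≤ st q)
    (Tt : Q → (ℕ → Q) → Prop)
    (lim : ∀ s : ℕ → Q, (∀ n, s (n + 1) ≤ s n) →
      ∃ q, (∀ n, q ≤ s n) ∧ (st q).Tight (fun n => st (s n)) ∧ Tt q s)
    (𝒬 : Q → Set ((ℕ → Pt) → Q → Prop)) (hc : ∀ q, (𝒬 q).Countable)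
    (hm : ∀ q q', q' ≤ q → 𝒬 q ⊆ 𝒬 q')
    (hΦ : ∀ q, ∀ Φ ∈ 𝒬 q, ∀ l q₁ q₂, Φ l q₁ → q₂ ≤ q₁ → Φ l q₂) (q₀ : Q) :
    ∃ (s : ℕ → Q) (q : Q), s 0 = q₀ ∧ (∀ n, s (n + 1) ≤ s n) ∧ (∀ n, q ≤ s n) ∧
      (st q).Tight (fun n => st (s n)) ∧ Tt q s ∧
      ∀ m, ∀ Φ ∈ 𝒬 (s m), ∀ q' ≤ q, ∀ (n : ℕ) (l : ℕ → Pt),
        (∀ i < n, l i ∈ (st q').Y ∧ l i ∉ (st q).Y) → Φ l q' →
        ∀ (K : ℕ) (J : Set Om) (X : Set Lb), J.Finite → J ⊆ (st q).I → X.Finite →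
          ∃ l', (∀ i < n, l' i ∈ (st q).Y ∧ (l' i).g ∉ X ∧
            Sim K J (l i) (st q').F (l' i) (st q).F) ∧ Φ l' q := by
  choose R hR hR' using CCoord_simReps
  let W : Q → ((ℕ → Pt) → Q → Prop) → ℕ → ℕ → Set Om → (ℕ → Pt) × (Om → Co) → Q → Prop :=
    fun q Φ n K J r q' => J ⊆ (st q').I ∧ ∃ l', (∀ i < n, l' i ∈ (st q').Y ∧
      (l' i).g ∉ (st q).lab ∧ Sim K J (r.1 i) r.2 (l' i) (st q').F) ∧ Φ l' q'
  obtain ⟨s, s0, hs, hcl⟩ := close_off (fun q => ⋃ Φ ∈ 𝒬 q, ⋃ n : ℕ, ⋃ K : ℕ,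
      ⋃ J ∈ {J : Set Om | J.Finite ∧ J ⊆ (st q).I}, W q Φ n K J '' R n K J)
    (fun q => (hc q).biUnion fun Φ _ => countable_iUnion fun n => countable_iUnion fun K =>
      (countable_ofPred_finite_subset (st q).cI).biUnion fun J _ => (hR _ _ _).image _) q₀
  obtain ⟨q, hq, ht, hT⟩ := lim s hs
  refine ⟨s, q, s0, hs, hq, ht, hT, fun m Φ hΦm q' hq' n l hl hl' K J X hJ hI hX => ?_⟩
  have ha : Antitone s := antitone_nat_of_succ_le hs
  have hmI : Monotone fun n => (st (s n)).I := fun a b hab => (hst _ _ (ha hab)).I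
  have hmL : Monotone fun n => (st (s n)).lab := fun a b hab =>
    union_subset_union (hst _ _ (ha hab)).P (hst _ _ (ha hab)).B
  obtain ⟨m₁, hm₁⟩ := CCoord_bound hJ hmI fun ξ h => ht.I ξ (hI h)
  obtain ⟨m₂, hm₂⟩ := CCoord_bound (hX.inter_of_left (st q).lab) hmL fun c h =>
    h.2.elim (fun h => (ht.P c h).imp fun _ => Or.inl) fun h => (ht.B c h).imp fun _ => Or.inr
  have hqq := hst _ _ hq'
  have hI' : J ⊆ (st q').I := hI.trans hqq.I
  obtain ⟨r, hr, hr'⟩ := hR' n (2 * K + 1) J hJ l (st q').F fun i hi => St.ratOn hI' (hl i hi).1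
  have hΦ' : Φ ∈ 𝒬 (s (m + m₁ + m₂)) := hm _ _ (ha (by omega)) hΦm
  have hs' : ∀ n, st q ≤ st (s n) := fun n => hst _ _ (hq n)
  obtain ⟨m', w1, l', w2, w3⟩ := hcl (m + m₁ + m₂) (W (s (m + m₁ + m₂)) Φ n (2 * K + 1) J r)
    (mem_biUnion hΦ' (mem_iUnion.2 ⟨n, mem_iUnion.2 ⟨2 * K + 1,
      mem_biUnion (x := J) ⟨hJ, hm₁.trans (hmI (by omega))⟩ ⟨r, hr, rfl⟩⟩⟩))
    ⟨q', fun n => hq'.trans (hq n), hI', l, fun i hi => ⟨(hl i hi).1, fun h =>
      St.new_lab hqq (hl i hi).1 (hl i hi).2 (union_subset_union (hs' _).P (hs' _).B h),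
      hr' i hi⟩, hl'⟩
  refine ⟨l', fun i hi => ?_, hΦ _ Φ hΦ' l' _ _ w3 (hq m')⟩
  obtain ⟨v1, v2, v3⟩ := w2 i hi
  have v4 := (hs' m').Y v1
  have v5 := (hr' i hi).symm.trans v3
  exact ⟨v4, fun h => v2 (hmL (show m₂ ≤ m + m₁ + m₂ by omega) (hm₂ ⟨h, St.g_mem v4⟩)),
    v5.1.congr (reg_of_mem v1) (fun _ _ _ _ => rfl)
      fun ξ hξ w hw => ((hs' m').F ξ (w1 hξ) w (dn_subset v1 hw)).symm, v5.2⟩

end Pool.Agent.Work.MP_f50f0f_gt
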