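import Pool.Agent.Work.MP_d95c0d_gt.Defs
import Pool.Agent.Work.MP_3181e1_lc.Defs

/-! The notions of the problem, interpreted inside a structure `(M, E)` for the language of set
theory.  Every quantifier ranges over `M` and the only primitive relations are `E` and `=`, so
each definition is the truth in `(M, E)` of the usual first-order definition. -/

namespace Pool.Agent.Work.MP_f50f0f_gt
open Pool.Agent.Work.MP_63c7e0_lc Pool.Agent.Work.MP_58a5a1_lc Pool.Agent.Work.MP_3181e1_lc
  Pool.Agent.Work.MP_d95c0d_gt

universe u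
variable {M : Type u} (E : M → M → Prop)

/-- The binary operation `f` on `R` is commutative and associative with neutral element `e`. -/
def IsCommMon (R f e : M) : Prop :=
  (∃ W, IsProd E W R R ∧ IsFun E f W R) ∧ E e R ∧
  (∀ x y t, Val E f x y t → Val E f y x t) ∧
  (∀ x y w s t u, Val E f x y s → Val E f s w u → Val E f y w t → Val E f x t u) ∧
  ∀ x, E x R → Val E f x e x

/-- `b ∈ R` is an upper bound of `S` for the strict order `lt`. -/
def IsUB (R lt S b : M) : Prop := E b R ∧ ∀ x, E x S → ¬ App E lt b x

/-- `(R, add, mul, lt, z, o)` is a complete ordered field, that is, the real line with its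
addition, multiplication, strict order, zero and one. -/
def IsReals (R add mul lt z o : M) : Prop :=
  IsCommMon E R add z ∧ IsCommMon E R mul o ∧ ¬ z = o ∧
  (∀ x, E x R → ∃ y, Val E add x y z) ∧
  (∀ x, E x R → ¬ x = z → ∃ y, Val E mul x y o) ∧
  (∀ x y w s t u v, Val E add y w s → Val E mul x y t → Val E mul x w u → Val E add t u v →
    Val E mul x s v) ∧
  (∀ p, E p lt → ∃ x y, E x R ∧ E y R ∧ IsPair E p x y) ∧
  (∀ x, ¬ App E lt x x) ∧
  (∀ x y w, App E lt x y → App E lt y w → App E lt x w) ∧
  (∀ x y, E x R → E y R → App E lt x y ∨ x = y ∨ App E lt y x) ∧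
  (∀ x y w s t, App E lt x y → Val E add x w s → Val E add y w t → App E lt s t) ∧
  (∀ x y t, App E lt z x → App E lt z y → Val E mul x y t → App E lt z t) ∧
  ∀ S, Sub E S R → (∃ x, E x S) → (∃ b, IsUB E R lt S b) →
    ∃ b, IsUB E R lt S b ∧ ∀ c, IsUB E R lt S c → ¬ App E lt c b

/-- `ρ` is the usual topology of the real line `(R, lt)`: the open sets are the subsets of `R`
that contain an open interval around each of their points. -/
def IsOrderTop (R lt ρ : M) : Prop :=
  ∀ U, E U ρ ↔ Sub E U R ∧ ∀ x, E x U → ∃ a b, App E lt a x ∧ App E lt x b ∧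
    ∀ y, App E lt a y → App E lt y b → E y U

/-- `(X, τ)` is a Tychonoff space: it is `T₁`, and a point `x` outside a closed set `C` is
separated from `C` by a continuous real function with value `0` at `x` and value `1` on `C`. -/
def IsTychonoff (X τ R ρ z o : M) : Prop :=
  IsTop E X τ ∧ IsT1 E X τ ∧ ∀ C x, IsClosedIn E X τ C → E x X → ¬ E x C →
    ∃ f, IsCont E f X τ R ρ ∧ App E f x z ∧ ∀ y, E y C → App E f y o

/-- `f x ∈ V` for every pair `(x, V)` in `F`. -/
def InBox (F f : M) : Prop := ∀ x V y, App E F x V → App E f x y → E y V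

/-- `π` is the topology of pointwise convergence on the set `A` of real functions on `X`:
`U ⊆ A` is open if and only if for every `f ∈ U` there is a finite set `F` of pairs `(x, V)`,
`x ∈ X`, `V` open in the real line, such that `f x ∈ V` for all `(x, V) ∈ F` and `U` contains
every `g ∈ A` with `g x ∈ V` for all `(x, V) ∈ F`. -/
def IsPw (A X ρ π : M) : Prop :=
  ∀ U, E U π ↔ Sub E U A ∧ ∀ f, E f U → ∃ F, IsFin E F ∧
    (∀ p, E p F → ∃ x V, E x X ∧ E V ρ ∧ IsPair E p x V) ∧ InBox E F f ∧
    ∀ g, E g A → InBox E F g → E g U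

/-- Every closed subspace `S` of `(C, π)` is separable: it has a countable subset `D` that meets
every open set that meets `S`. -/
def ClosedSep (C π : M) : Prop :=
  ∀ S, IsClosedIn E C π S → ∃ D, IsCountable E D ∧ Sub E D S ∧
    ∀ U, E U π → (∃ f, E f U ∧ E f S) → ∃ f, E f U ∧ E f D

/-- The set `L` of real functions on `C` contains the zero function and, with `ψ`, every function
`f ↦ ψ f + c * f x` for a real number `c` and a point `x ∈ X`. -/
def SpanClosed (L C X R add mul z : M) : Prop :=
  (∀ ψ, IsFun E ψ C R → (∀ f, E f C → App E ψ f z) → E ψ L) ∧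
  ∀ ψ c x χ, E ψ L → E c R → E x X → IsFun E χ C R →
    (∀ f y u w t, App E ψ f y → App E f x u → Val E mul c u w → Val E add y w t → App E χ f t) →
    E χ L

/-- `L` is the linear span of the point evaluations `f ↦ f x`, `x ∈ X`, in the space of real
functions on `C`: the least set with the closure properties `SpanClosed`. -/
def IsLp (L C X R add mul z : M) : Prop :=
  SpanClosed E L C X R add mul z ∧ ∀ L', SpanClosed E L' C X R add mul z → Sub E L L'

/-- There is a Tychonoff space `X` such that every closed subspace of `C_p(X)` is separable and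
`L_p(X)` is not normal. -/
def Counter : Prop :=
  ∃ R add mul lt z o ρ X τ C π L lam, IsReals E R add mul lt z o ∧ IsOrderTop E R lt ρ ∧
    IsTychonoff E X τ R ρ z o ∧ (∀ f, E f C ↔ IsCont E f X τ R ρ) ∧ IsPw E C X ρ π ∧
    ClosedSep E C π ∧ IsLp E L C X R add mul z ∧ IsPw E L C ρ lam ∧ ¬ IsNormalSp E L lam

end Pool.Agent.Work.MP_f50f0f_gt
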