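import Pool.Agent.Work.MP_f50f0f_gt.CDefs
import Pool.Agent.Work.MP_ee7661_gt.Data
import Pool.Agent.Lib.ZFModel.ZFC

/-! A forcing relation for a small first-order language, the truth lemma, and the transfer of the
sentence `Counter` from the forcing relation to a model of ZFC. -/

namespace Pool.Agent.Work.MP_f50f0f_gt
open Pool.Agent.Lib.ZFModel Pool.Agent.Work.MP_63c7e0_lc Pool.Agent.Work.MP_58a5a1_lc
  Pool.Agent.Work.MP_3181e1_lc Pool.Agent.Work.MP_d95c0d_gt Name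

universe u

section names
variable {P : Type} [Preorder P]

theorem upair_congr {a b a' b' : Name P} {p : P} (h1 : EqF a a' p) (h2 : EqF b b' p) :
    EqF (upairN a b) (upairN a' b') p := by
  refine ⟨fun i q hq hc => ⟨q, le_rfl, i, hc, ?_⟩, fun i q hq hc => ⟨q, le_rfl, i, hc, ?_⟩⟩ <;>
  · obtain ⟨⟨_ | _, r⟩, h⟩ := i
    · exact h2.mono hq
    · exact h1.mono hq

theorem pair_congr {a b a' b' : Name P} {p : P} (h1 : EqF a a' p) (h2 : EqF b b' p) :
    EqF (pairN a b) (pairN a' b') p := upair_congr (upair_congr h1 h1) (upair_congr h1 h2)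

theorem up1 {a b a' b' : Name P} {p q : P} (h : EqF (upairN a b) (upairN a' b') p) (hq : q ≤ p) :
    ∃ r ≤ q, EqF a a' r ∨ EqF a b' r := by
  obtain ⟨r, hr, ⟨⟨_ | _, s⟩, h0⟩, -, h1⟩ := h.1 ⟨(true, q), trivial⟩ q hq le_rfl
  · exact ⟨r, hr, Or.inr h1⟩
  · exact ⟨r, hr, Or.inl h1⟩

theorem up2 {a b a' b' : Name P} {p q : P} (h : EqF (upairN a b) (upairN a' b') p) (hq : q ≤ p) :
    ∃ r ≤ q, EqF b a' r ∨ EqF b b' r := by
  obtain ⟨r, hr, ⟨⟨_ | _, s⟩, h0⟩, -, h1⟩ := h.1 ⟨(false, q), trivial⟩ q hq le_rfl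
  · exact ⟨r, hr, Or.inr h1⟩
  · exact ⟨r, hr, Or.inl h1⟩

theorem pairN_inj1 {a b a' b' : Name P} {p : P} (h : EqF (pairN a b) (pairN a' b') p) :
    EqF a a' p := by
  refine EqF.reg fun q hq => ?_
  obtain ⟨r, hr, h1 | h1⟩ := up1 h hq <;>
  · obtain ⟨s, hs, h2 | h2⟩ := up1 h1.symm le_rfl <;> exact ⟨s, hs.trans hr, h2.symm⟩

theorem pairN_inj2 {a b a' b' : Name P} {p : P} (h : EqF (pairN a b) (pairN a' b') p) :
    EqF b b' p := by
  have ha := pairN_inj1 h
  refine EqF.reg fun q hq => ?_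
  have key : ∀ r ≤ q, EqF b a' r → ∃ s ≤ q, EqF b b' s := by
    intro r hr h1
    obtain ⟨s, hs, h2 | h2⟩ := up2 h.symm (hr.trans hq) <;>
      obtain ⟨t, ht, h3 | h3⟩ := up2 h2 le_rfl
    all_goals first
      | exact ⟨t, ht.trans (hs.trans hr), h3.symm⟩
      | exact ⟨t, ht.trans (hs.trans hr), (h1.mono (ht.trans hs)).trans
          ((ha.mono (ht.trans (hs.trans (hr.trans hq)))).symm.trans h3.symm)⟩
  obtain ⟨r, hr, h1 | h1⟩ := up2 h hq
  · obtain ⟨s, hs, h2 | h2⟩ := up2 h1 le_rfl <;> exact key s (hs.trans hr) h2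
  · obtain ⟨s, hs, h2 | h2⟩ := up2 h1 le_rfl
    · exact key s (hs.trans hr) h2
    · exact ⟨s, hs.trans hr, h2⟩

theorem natN_lt {j : ℕ} : ∀ i < j, ∀ p : P, ¬ EqF (natN i) (natN j) p := by
  induction j using Nat.strong_induction_on with
  | _ j ih =>
    intro i hi p h
    rw [natN_eq j] at h
    have h1 := (eqF_iff.1 h).2 ⟨(⟨i, hi⟩, p), trivial⟩ p le_rfl le_rfl
    have h3 : MemF (natN i) (rName (fun j : Fin i => natN j) fun _ _ => True) p :=
      natN_eq (P := P) i ▸ h1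
    obtain ⟨r, -, k, -, h2⟩ := h3 p le_rfl
    exact ih i hi k.1.1.1 k.1.1.2 r h2.symm

theorem natN_inj {i j : ℕ} {p : P} (h : EqF (natN i) (natN j) p) : i = j := by
  rcases lt_trichotomy i j with h1 | h1 | h1
  · exact absurd h (natN_lt i h1 p)
  · exact h1
  · exact absurd h.symm (natN_lt j h1 p)

omit [Preorder P] in
theorem upairN_inj (p : P) {a b a' b' : Name P} (h : upairN a b = upairN a' b') :
    a = a' ∧ b = b' := by
  unfold upairN rName at h
  injection h with _ h2 _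
  exact ⟨congrFun h2 ⟨(true, p), trivial⟩, congrFun h2 ⟨(false, p), trivial⟩⟩

/-- Membership in `rName A R`. -/
theorem memF_rName {ι : Type} {A : ι → Name P} {R : ι → P → Prop}
    (hR : ∀ i p q, R i p → q ≤ p → R i q) {x : Name P} {p : P} :
    MemF x (rName A R) p ↔ ∀ q ≤ p, ∃ r ≤ q, ∃ i, R i r ∧ EqF x (A i) r := by
  refine forall₂_congr fun q _ => exists_congr fun r => and_congr_right fun _ => ⟨?_, ?_⟩
  · rintro ⟨⟨⟨i, s⟩, h1⟩, h2, h3⟩
    exact ⟨i, hR i s r h1 h2, h3⟩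
  · rintro ⟨i, h1, h2⟩
    exact ⟨⟨(i, r), h1⟩, le_rfl, h2⟩

theorem memF_rName_of {ι : Type} {A : ι → Name P} {R : ι → P → Prop} {i : ι} {p : P}
    (h : R i p) : MemF (A i) (rName A R) p :=
  memF_ch (rName A R) ⟨(i, p), h⟩ le_rfl

omit [Preorder P] in
/-- The name of the finite set listed by `l`. -/
def setN (l : List (Name P)) : Name P := rName (fun i : Fin l.length => l.get i) fun _ _ => True

theorem memF_setN {l : List (Name P)} {x : Name P} {p : P} :
    MemF x (setN l) p ↔ ∀ q ≤ p, ∃ r ≤ q, ∃ y ∈ l, EqF x y r := by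
  refine (memF_rName fun _ _ _ _ _ => trivial).trans
    (forall₂_congr fun q _ => exists_congr fun r => and_congr_right fun _ => ⟨?_, ?_⟩)
  · rintro ⟨i, -, h⟩
    exact ⟨_, List.get_mem l i, h⟩
  · rintro ⟨y, hy, h⟩
    obtain ⟨i, rfl⟩ := List.get_of_mem hy
    exact ⟨i, trivial, h⟩

end names

/-- The operations of a logic with terms `V` and formulas `T`. -/
structure Lg (V : Type u) (T : Type) where
  mem : V → V → T
  eq : V → V → T
  app : V → V → V → T
  val : V → V → V → V → T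
  pair : V → V → V → T
  omega : V → T
  fin : V → T
  neg : T → T
  imp : T → T → T
  and : T → T → T
  or : T → T → T
  iff : T → T → T
  all : (V → T) → T
  ex : (V → T) → T

namespace Lg
variable {V : Type u} {T : Type} (L : Lg V T)

def sub (a b : V) : T := L.all fun x => L.imp (L.mem x a) (L.mem x b)
def isFun (f A B : V) : T :=
  L.and (L.all fun p => L.imp (L.mem p f) (L.ex fun x => L.ex fun y =>
    L.and (L.mem x A) (L.and (L.mem y B) (L.pair p x y))))
  (L.and (L.all fun x => L.imp (L.mem x A) (L.ex fun y => L.app f x y))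
    (L.all fun x => L.all fun y => L.all fun y' =>
      L.imp (L.app f x y) (L.imp (L.app f x y') (L.eq y y'))))
def isProd (W A B : V) : T :=
  L.all fun p => L.iff (L.mem p W) (L.ex fun a => L.ex fun b =>
    L.and (L.mem a A) (L.and (L.mem b B) (L.pair p a b)))
def isTop (X τ : V) : T :=
  L.and (L.all fun U => L.imp (L.mem U τ) (L.sub U X)) (L.and (L.mem X τ)
    (L.and (L.all fun U => L.all fun V => L.all fun W => L.imp (L.mem U τ) (L.imp (L.mem V τ)
      (L.imp (L.all fun x => L.iff (L.mem x W) (L.and (L.mem x U) (L.mem x V))) (L.mem W τ))))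
    (L.all fun S => L.all fun W => L.imp (L.sub S τ)
      (L.imp (L.all fun x => L.iff (L.mem x W) (L.ex fun U => L.and (L.mem U S) (L.mem x U)))
        (L.mem W τ)))))
def isClosedIn (X τ C : V) : T :=
  L.and (L.sub C X) (L.ex fun U => L.and (L.mem U τ)
    (L.all fun x => L.iff (L.mem x U) (L.and (L.mem x X) (L.neg (L.mem x C)))))
def isCont (f X τ Y σ : V) : T :=
  L.and (L.isFun f X Y) (L.all fun V => L.all fun U => L.imp (L.mem V σ)
    (L.imp (L.all fun x => L.iff (L.mem x U) (L.ex fun y => L.and (L.mem y V) (L.app f x y)))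
      (L.mem U τ)))
def isT1 (X τ : V) : T :=
  L.all fun x => L.all fun s => L.imp (L.mem x X)
    (L.imp (L.all fun y => L.iff (L.mem y s) (L.eq y x)) (L.isClosedIn X τ s))
def isCountable (A : V) : T :=
  L.ex fun w => L.ex fun f => L.and (L.omega w) (L.and (L.isFun f A w)
    (L.all fun x => L.all fun x' => L.all fun y =>
      L.imp (L.app f x y) (L.imp (L.app f x' y) (L.eq x x'))))
def isNormalSp (X τ : V) : T :=
  L.all fun C => L.all fun D => L.imp (L.isClosedIn X τ C) (L.imp (L.isClosedIn X τ D)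
    (L.imp (L.all fun x => L.imp (L.mem x C) (L.neg (L.mem x D)))
      (L.ex fun U => L.ex fun V => L.and (L.mem U τ) (L.and (L.mem V τ) (L.and (L.sub C U)
        (L.and (L.sub D V) (L.all fun x => L.imp (L.mem x U) (L.neg (L.mem x V)))))))))
def isCommMon (R f e : V) : T :=
  L.and (L.ex fun W => L.and (L.isProd W R R) (L.isFun f W R)) (L.and (L.mem e R)
    (L.and (L.all fun x => L.all fun y => L.all fun t => L.imp (L.val f x y t) (L.val f y x t))
    (L.and (L.all fun x => L.all fun y => L.all fun w => L.all fun s => L.all fun t =>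
      L.all fun u => L.imp (L.val f x y s) (L.imp (L.val f s w u) (L.imp (L.val f y w t)
        (L.val f x t u))))
    (L.all fun x => L.imp (L.mem x R) (L.val f x e x)))))
def isUB (R lt S b : V) : T :=
  L.and (L.mem b R) (L.all fun x => L.imp (L.mem x S) (L.neg (L.app lt b x)))
def isReals (R add mul lt z o : V) : T :=
  L.and (L.isCommMon R add z) (L.and (L.isCommMon R mul o) (L.and (L.neg (L.eq z o))
  (L.and (L.all fun x => L.imp (L.mem x R) (L.ex fun y => L.val add x y z))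
  (L.and (L.all fun x => L.imp (L.mem x R) (L.imp (L.neg (L.eq x z))
    (L.ex fun y => L.val mul x y o)))
  (L.and (L.all fun x => L.all fun y => L.all fun w => L.all fun s => L.all fun t =>
    L.all fun u => L.all fun v => L.imp (L.val add y w s) (L.imp (L.val mul x y t)
      (L.imp (L.val mul x w u) (L.imp (L.val add t u v) (L.val mul x s v)))))
  (L.and (L.all fun p => L.imp (L.mem p lt) (L.ex fun x => L.ex fun y =>
    L.and (L.mem x R) (L.and (L.mem y R) (L.pair p x y))))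
  (L.and (L.all fun x => L.neg (L.app lt x x))
  (L.and (L.all fun x => L.all fun y => L.all fun w =>
    L.imp (L.app lt x y) (L.imp (L.app lt y w) (L.app lt x w)))
  (L.and (L.all fun x => L.all fun y => L.imp (L.mem x R) (L.imp (L.mem y R)
    (L.or (L.app lt x y) (L.or (L.eq x y) (L.app lt y x)))))
  (L.and (L.all fun x => L.all fun y => L.all fun w => L.all fun s => L.all fun t =>
    L.imp (L.app lt x y) (L.imp (L.val add x w s) (L.imp (L.val add y w t) (L.app lt s t))))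
  (L.and (L.all fun x => L.all fun y => L.all fun t =>
    L.imp (L.app lt z x) (L.imp (L.app lt z y) (L.imp (L.val mul x y t) (L.app lt z t))))
  (L.all fun S => L.imp (L.sub S R) (L.imp (L.ex fun x => L.mem x S)
    (L.imp (L.ex fun b => L.isUB R lt S b) (L.ex fun b => L.and (L.isUB R lt S b)
      (L.all fun c => L.imp (L.isUB R lt S c) (L.neg (L.app lt c b))))))))))))))))))
def isOrderTop (R lt ρ : V) : T :=
  L.all fun U => L.iff (L.mem U ρ) (L.and (L.sub U R) (L.all fun x => L.imp (L.mem x U)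
    (L.ex fun a => L.ex fun b => L.and (L.app lt a x) (L.and (L.app lt x b)
      (L.all fun y => L.imp (L.app lt a y) (L.imp (L.app lt y b) (L.mem y U)))))))
def isTychonoff (X τ R ρ z o : V) : T :=
  L.and (L.isTop X τ) (L.and (L.isT1 X τ) (L.all fun C => L.all fun x =>
    L.imp (L.isClosedIn X τ C) (L.imp (L.mem x X) (L.imp (L.neg (L.mem x C))
      (L.ex fun f => L.and (L.isCont f X τ R ρ) (L.and (L.app f x z)
        (L.all fun y => L.imp (L.mem y C) (L.app f y o))))))))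
def inBox (F f : V) : T :=
  L.all fun x => L.all fun V => L.all fun y =>
    L.imp (L.app F x V) (L.imp (L.app f x y) (L.mem y V))
def isPw (A X ρ π : V) : T :=
  L.all fun U => L.iff (L.mem U π) (L.and (L.sub U A) (L.all fun f => L.imp (L.mem f U)
    (L.ex fun F => L.and (L.fin F) (L.and (L.all fun p => L.imp (L.mem p F)
      (L.ex fun x => L.ex fun V => L.and (L.mem x X) (L.and (L.mem V ρ) (L.pair p x V))))
      (L.and (L.inBox F f)
        (L.all fun g => L.imp (L.mem g A) (L.imp (L.inBox F g) (L.mem g U))))))))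
def closedSep (C π : V) : T :=
  L.all fun S => L.imp (L.isClosedIn C π S) (L.ex fun D => L.and (L.isCountable D)
    (L.and (L.sub D S) (L.all fun U => L.imp (L.mem U π)
      (L.imp (L.ex fun f => L.and (L.mem f U) (L.mem f S))
        (L.ex fun f => L.and (L.mem f U) (L.mem f D))))))
def spanClosed (S C X R add mul z : V) : T :=
  L.and (L.all fun ψ => L.imp (L.isFun ψ C R)
    (L.imp (L.all fun f => L.imp (L.mem f C) (L.app ψ f z)) (L.mem ψ S)))
  (L.all fun ψ => L.all fun c => L.all fun x => L.all fun χ => L.imp (L.mem ψ S)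
    (L.imp (L.mem c R) (L.imp (L.mem x X) (L.imp (L.isFun χ C R)
      (L.imp (L.all fun f => L.all fun y => L.all fun u => L.all fun w => L.all fun t =>
        L.imp (L.app ψ f y) (L.imp (L.app f x u) (L.imp (L.val mul c u w)
          (L.imp (L.val add y w t) (L.app χ f t))))) (L.mem χ S))))))
def isLp (S C X R add mul z : V) : T :=
  L.and (L.spanClosed S C X R add mul z)
    (L.all fun S' => L.imp (L.spanClosed S' C X R add mul z) (L.sub S S'))
def isC (C X τ R ρ : V) : T := L.all fun f => L.iff (L.mem f C) (L.isCont f X τ R ρ)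
def counter : T :=
  L.ex fun R => L.ex fun add => L.ex fun mul => L.ex fun lt => L.ex fun z => L.ex fun o =>
  L.ex fun ρ => L.ex fun X => L.ex fun τ => L.ex fun C => L.ex fun π => L.ex fun S =>
  L.ex fun lam => L.and (L.isReals R add mul lt z o) (L.and (L.isOrderTop R lt ρ)
    (L.and (L.isTychonoff X τ R ρ z o) (L.and (L.isC C X τ R ρ) (L.and (L.isPw C X ρ π)
    (L.and (L.closedSep C π) (L.and (L.isLp S C X R add mul z) (L.and (L.isPw S C ρ lam)
      (L.neg (L.isNormalSp S lam)))))))))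

end Lg

/-- Truth in a structure. -/
def LT {M : Type 1} (E : M → M → Prop) : Lg M Prop where
  mem := E
  eq := Eq
  app := App E
  val := Val E
  pair := IsPair E
  omega := IsOmega E
  fin := IsFin E
  neg := Not
  imp a b := a → b
  and := And
  or := Or
  iff := Iff
  all f := ∀ x, f x
  ex f := ∃ x, f x

/-- The forcing relation. -/
def LF (P : Type) [Preorder P] : Lg (Name P) (P → Prop) where
  mem := MemF
  eq := EqF
  app f x y := MemF (pairN x y) f
  val f x y z := MemF (pairN (pairN x y) z) f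
  pair a x y := EqF a (pairN x y)
  omega a := EqF a omegaN
  fin a p := ∀ q ≤ p, ∃ r ≤ q, ∃ l, EqF a (setN l) r
  neg a p := ∀ q ≤ p, ¬ a q
  imp a b p := ∀ q ≤ p, a q → b q
  and a b p := a p ∧ b p
  or a b p := ∀ q ≤ p, ∃ r ≤ q, a r ∨ b r
  iff a b p := ∀ q ≤ p, (a q ↔ b q)
  all f p := ∀ x, f x p
  ex f p := ∀ q ≤ p, ∃ r ≤ q, ∃ x, f x r

/-- Formulas. -/
inductive IF : Type
  | mem (i j : ℕ) | eq (i j : ℕ) | app (i j k : ℕ) | val (i j k l : ℕ) | pair (i j k : ℕ)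
  | omega (i : ℕ) | fin (i : ℕ) | neg (φ : IF) | imp (φ ψ : IF)
  | and (φ ψ : IF) | or (φ ψ : IF) | iff (φ ψ : IF) | all (φ : IF) | ex (φ : IF)
  deriving Countable

/-- Interpretation of formulas. -/
def IF.ev {V : Type u} {T : Type} (L : Lg V T) : IF → (ℕ → V) → T
  | .mem i j, v => L.mem (v i) (v j)
  | .eq i j, v => L.eq (v i) (v j)
  | .app i j k, v => L.app (v i) (v j) (v k)
  | .val i j k l, v => L.val (v i) (v j) (v k) (v l)
  | .pair i j k, v => L.pair (v i) (v j) (v k)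
  | .omega i, v => L.omega (v i)
  | .fin i, v => L.fin (v i)
  | .neg φ, v => L.neg (φ.ev L v)
  | .imp φ ψ, v => L.imp (φ.ev L v) (ψ.ev L v)
  | .and φ ψ, v => L.and (φ.ev L v) (ψ.ev L v)
  | .or φ ψ, v => L.or (φ.ev L v) (ψ.ev L v)
  | .iff φ ψ, v => L.iff (φ.ev L v) (ψ.ev L v)
  | .all φ, v => L.all fun x => φ.ev L (cons x v)
  | .ex φ, v => L.ex fun x => φ.ev L (cons x v)

/-- Formulas built with variables given by their binding depth. -/
def LS : Lg ℕ (ℕ → IF) where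
  mem a b d := .mem (d - 1 - a) (d - 1 - b)
  eq a b d := .eq (d - 1 - a) (d - 1 - b)
  app a b c d := .app (d - 1 - a) (d - 1 - b) (d - 1 - c)
  val a b c e d := .val (d - 1 - a) (d - 1 - b) (d - 1 - c) (d - 1 - e)
  pair a b c d := .pair (d - 1 - a) (d - 1 - b) (d - 1 - c)
  omega a d := .omega (d - 1 - a)
  fin a d := .fin (d - 1 - a)
  neg a d := .neg (a d)
  imp a b d := .imp (a d) (b d)
  and a b d := .and (a d) (b d)
  or a b d := .or (a d) (b d)
  iff a b d := .iff (a d) (b d)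
  all f d := .all (f d (d + 1))
  ex f d := .ex (f d (d + 1))

theorem ev_counter {V : Type u} {T : Type} (L : Lg V T) (v : ℕ → V) :
    (LS.counter 0).ev L v = L.counter := rfl

theorem LT_counter {M : Type 1} (E : M → M → Prop) : (LT E).counter ↔ Counter E := Iff.rfl

variable {P : Type} [Preorder P]

/-- Forcing of a formula. -/
def Fo (φ : IF) (p : P) (v : ℕ → Name P) : Prop := φ.ev (LF P) v p

theorem Fo.mono {φ : IF} : ∀ {p q : P} {v : ℕ → Name P}, Fo φ p v → q ≤ p → Fo φ q v := by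
  induction φ with
  | mem | app | val => exact fun h hq => MemF.mono h hq
  | eq | pair | omega => exact fun h hq => EqF.mono h hq
  | neg | imp | or | ex | iff | fin => exact fun h hq r hr => h r (hr.trans hq)
  | and _ _ ih ih' => exact fun h hq => ⟨ih h.1 hq, ih' h.2 hq⟩
  | all _ ih => exact fun h hq x => ih (h x) hq

theorem Fo.reg {φ : IF} : ∀ {p : P} {v : ℕ → Name P}, (∀ q ≤ p, ∃ r ≤ q, Fo φ r v) → Fo φ p v := by
  induction φ with
  | mem | app | val => exact fun h => MemF.reg h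
  | eq | pair | omega => exact fun h => EqF.reg h
  | neg φ =>
    intro p v h q hq h1
    obtain ⟨r, hr, h2⟩ := h q hq
    exact h2 r le_rfl (Fo.mono (φ := φ) h1 hr)
  | imp φ ψ _ ih =>
    intro p v h q hq h1
    refine ih fun r hr => ?_
    obtain ⟨s, hs, h2⟩ := h r (hr.trans hq)
    exact ⟨s, hs, h2 s le_rfl (Fo.mono (φ := φ) h1 (hs.trans hr))⟩
  | iff φ ψ ih ih' =>
    intro p v h q hq
    refine ⟨fun h1 => ih' fun r hr => ?_, fun h1 => ih fun r hr => ?_⟩
    · obtain ⟨s, hs, h2⟩ := h r (hr.trans hq)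
      exact ⟨s, hs, (h2 s le_rfl).1 (Fo.mono (φ := φ) h1 (hs.trans hr))⟩
    · obtain ⟨s, hs, h2⟩ := h r (hr.trans hq)
      exact ⟨s, hs, (h2 s le_rfl).2 (Fo.mono (φ := ψ) h1 (hs.trans hr))⟩
  | and _ _ ih ih' =>
    exact fun h => ⟨ih fun q hq => (h q hq).imp fun _ h => ⟨h.1, h.2.1⟩,
      ih' fun q hq => (h q hq).imp fun _ h => ⟨h.1, h.2.2⟩⟩
  | or | ex | fin =>
    intro p v h q hq
    obtain ⟨r, hr, h2⟩ := h q hq
    obtain ⟨s, hs, h3⟩ := h2 r le_rfl
    exact ⟨s, hs.trans hr, h3⟩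
  | all _ ih => exact fun h x => ih fun q hq => (h q hq).imp fun _ h => ⟨h.1, h.2 x⟩

theorem Fo.congr {φ : IF} : ∀ {p : P} {v w : ℕ → Name P}, (∀ i, EqF (v i) (w i) p) →
    Fo φ p v → Fo φ p w := by
  have hc : ∀ {p : P} {v w : ℕ → Name P} (x : Name P), (∀ i, EqF (v i) (w i) p) →
      ∀ i, EqF (cons x v i) (cons x w i) p := by
    intro p v w x h i
    cases i with
    | zero => exact EqF.refl _ _
    | succ i => exact h i
  induction φ with
  | mem i j => exact fun h h1 => (MemF.congr_left h1 (h i)).congr_right (h j)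
  | eq i j => exact fun h h1 => (h i).symm.trans (EqF.trans h1 (h j))
  | app i j k => exact fun h h1 => (MemF.congr_left h1 (pair_congr (h j) (h k))).congr_right (h i)
  | val i j k l =>
    exact fun h h1 =>
      (MemF.congr_left h1 (pair_congr (pair_congr (h j) (h k)) (h l))).congr_right (h i)
  | pair i j k => exact fun h h1 => (h i).symm.trans (EqF.trans h1 (pair_congr (h j) (h k)))
  | omega i => exact fun h h1 => (h i).symm.trans h1
  | fin i =>
    intro p v w h h1 q hq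
    obtain ⟨r, hr, l, h2⟩ := h1 q hq
    exact ⟨r, hr, l, ((h i).mono (hr.trans hq)).symm.trans h2⟩
  | neg φ ih => exact fun h h1 q hq h2 => h1 q hq (ih (fun i => ((h i).mono hq).symm) h2)
  | imp φ ψ ih ih' =>
    exact fun h h1 q hq h2 => ih' (fun i => (h i).mono hq)
      (h1 q hq (ih (fun i => ((h i).mono hq).symm) h2))
  | iff φ ψ ih ih' =>
    exact fun h h1 q hq => ⟨fun h2 => ih' (fun i => (h i).mono hq)
      ((h1 q hq).1 (ih (fun i => ((h i).mono hq).symm) h2)), fun h2 => ih (fun i => (h i).mono hq)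
      ((h1 q hq).2 (ih' (fun i => ((h i).mono hq).symm) h2))⟩
  | and φ ψ ih ih' => exact fun h h1 => ⟨ih h h1.1, ih' h h1.2⟩
  | or φ ψ ih ih' =>
    intro p v w h h1 q hq
    obtain ⟨r, hr, h2⟩ := h1 q hq
    exact ⟨r, hr, h2.imp (ih fun i => (h i).mono (hr.trans hq))
      (ih' fun i => (h i).mono (hr.trans hq))⟩
  | all φ ih => exact fun h h1 x => ih (hc x h) (h1 x)
  | ex φ ih =>
    intro p v w h h1 q hq
    obtain ⟨r, hr, x, h2⟩ := h1 q hq
    exact ⟨r, hr, x, ih (hc x fun i => (h i).mono (hr.trans hq)) h2⟩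

/-- Indices of the closure conditions and dense sets. -/
inductive Kd : Type
  | fst | snd | st (n : ℕ) | fn | dec (φ : IF) | gv (φ : IF)
  deriving Countable

def RN : Fam P Unit Kd (Name P) := fun k v c _ y => match k with
  | .fst => ∃ b, v 0 = upairN y b
  | .snd => ∃ b, v 0 = upairN b y
  | .st n => y = setN (List.ofFn fun i : Fin n => v i)
  | .fn => ∃ l, y = setN l ∧ EqF (v 0) y (c 0)
  | .gv φ => Fo φ (c 0) (cons y v)
  | _ => True

def WW : Fam P Unit Kd (P × Unit) := fun k v _ _ y => match k with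
  | .fn => ∃ l, EqF (v 0) (setN l) y.1
  | .dec φ => Fo φ y.1 v ∨ ∀ r ≤ y.1, ¬ Fo φ r v
  | .gv φ => (∃ x, Fo φ y.1 (cons x v)) ∨ ∀ r ≤ y.1, ∀ x, ¬ Fo φ r (cons x v)
  | _ => True

section model
variable {p₀ : P} (g : GenW p₀ () RN WW)

theorem pair_mem {a b : Name P} (ha : a ∈ g.N) (hb : b ∈ g.N) : pairN a b ∈ g.N :=
  g.upair_mem _ (g.upair_mem _ ha _ ha) _ (g.upair_mem _ ha _ hb)

theorem isPair_pairN {a b : Name P} (ha : a ∈ g.N) (hb : b ∈ g.N) (h : pairN a b ∈ g.N) :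
    IsPair g.toGen.E (g.toGen.cl ⟨_, h⟩) (g.toGen.cl ⟨_, ha⟩) (g.toGen.cl ⟨_, hb⟩) := by
  have zf := g.zfc.zf
  have h1 := g.toGen.mem_upair ha ha (g.upair_mem _ ha _ ha)
  have h2 := g.toGen.mem_upair ha hb (g.upair_mem _ ha _ hb)
  intro z
  refine (g.toGen.mem_upair (g.upair_mem _ ha _ ha) (g.upair_mem _ ha _ hb) h z).trans ⟨?_, ?_⟩
  · rintro (rfl | rfl)
    · exact Or.inl fun x => (h1 x).trans or_self_iff
    · exact Or.inr h2
  · rintro (h3 | h3)
    · exact Or.inl (zf.extensionality _ _ fun x => (h3 x).trans ((h1 x).trans or_self_iff).symm)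
    · exact Or.inr (zf.extensionality _ _ fun x => (h3 x).trans (h2 x).symm)

theorem app_cl (f x y : g.N) : App g.toGen.E (g.toGen.cl f) (g.toGen.cl x) (g.toGen.cl y) ↔
    ∃ p, g.G p ∧ MemF (pairN x.1 y.1) f.1 p := by
  have h := isPair_pairN g x.2 y.2 (pair_mem g x.2 y.2)
  refine Iff.trans ⟨?_, fun h1 => ⟨_, h1, h⟩⟩ (g.toGen.E_cl (x := ⟨_, pair_mem g x.2 y.2⟩))
  rintro ⟨z, h1, h2⟩
  exact pair_unique g.zfc.zf h2 h ▸ h1

theorem val_cl (f x y z : g.N) :
    Val g.toGen.E (g.toGen.cl f) (g.toGen.cl x) (g.toGen.cl y) (g.toGen.cl z) ↔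
      ∃ p, g.G p ∧ MemF (pairN (pairN x.1 y.1) z.1) f.1 p := by
  have h := isPair_pairN g x.2 y.2 (pair_mem g x.2 y.2)
  refine Iff.trans ⟨?_, fun h1 => ⟨_, h, h1⟩⟩ (app_cl g f ⟨_, pair_mem g x.2 y.2⟩ z)
  rintro ⟨u, h1, h2⟩
  exact pair_unique g.zfc.zf h1 h ▸ h2

theorem pair_cl (a x y : g.N) :
    IsPair g.toGen.E (g.toGen.cl a) (g.toGen.cl x) (g.toGen.cl y) ↔
      ∃ p, g.G p ∧ EqF a.1 (pairN x.1 y.1) p := by
  have h := isPair_pairN g x.2 y.2 (pair_mem g x.2 y.2)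
  refine Iff.trans ⟨fun h1 => pair_unique g.zfc.zf h1 h, fun h1 => h1 ▸ h⟩
    (g.toGen.cl_eq (y := ⟨_, pair_mem g x.2 y.2⟩))

/-- The natural numbers of the model. -/
def ndM : MP_ee7661_gt.ND g.toGen.E :=
  ⟨fun n => g.toGen.cl ⟨_, g.nat_mem n⟩, g.toGen.cl ⟨_, g.omega_mem⟩,
    g.toGen.mem_nat g.nat_mem, g.toGen.mem_omega g.nat_mem g.omega_mem⟩

theorem omega_cl (a : g.N) :
    IsOmega g.toGen.E (g.toGen.cl a) ↔ ∃ p, g.G p ∧ EqF a.1 omegaN p := by
  refine Iff.trans ⟨fun h => MP_ee7661_gt.omega_eq g.zfc.zf (ndM g) h, fun h => ?_⟩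
    (g.toGen.cl_eq (y := ⟨_, g.omega_mem⟩))
  rw [h]
  exact MP_ee7661_gt.isOmega_w g.zfc.zf (ndM g)

theorem fin_cl (a : g.N) : IsFin g.toGen.E (g.toGen.cl a) ↔
    ∃ p, g.G p ∧ ∀ q ≤ p, ∃ r ≤ q, ∃ l, EqF a.1 (setN l) r := by
  rw [MP_ee7661_gt.isFin_iff g.zfc.zf (ndM g)]
  constructor
  · intro h
    obtain ⟨l, hl⟩ : ∃ l : List g.N, ∀ x, g.toGen.E x (g.toGen.cl a) ↔
        ∃ y ∈ l, x = g.toGen.cl y := by
      choose c hc using g.toGen.cl_surj
      refine ⟨h.toFinset.toList.map c, fun x => ⟨fun hx => ⟨c x, List.mem_map.2 ⟨x, ?_, rfl⟩,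
        (hc x).symm⟩, ?_⟩⟩
      · simpa using hx
      · rintro ⟨y, hy, rfl⟩
        obtain ⟨z, hz, rfl⟩ := List.mem_map.1 hy
        rw [hc]
        simpa using hz
    have key : ∀ l : List (Name P), List.ofFn (fun i : Fin l.length => envOf emptyName l i) = l := by
      intro l
      induction l with
      | nil => rfl
      | cons x l ih => rw [List.ofFn_succ]; exact congrArg _ ih
    obtain ⟨y, hy, h1⟩ := g.clN (.st (l.map Subtype.val).length) (l.map Subtype.val) [] []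
      (g.toGen.map_val_mem l) mem_list₀ mem_list₀ ⟨_, rfl⟩
    have h2 : y = setN (l.map Subtype.val) := by
      have h3 : y = setN (List.ofFn fun i : Fin (l.map Subtype.val).length =>
        envOf emptyName (l.map Subtype.val) i) := h1
      rwa [key] at h3
    subst h2
    have h4 : g.toGen.cl a = g.toGen.cl ⟨_, hy⟩ := g.zfc.zf.extensionality _ _ fun x => by
      rw [hl]
      refine Iff.trans ⟨?_, ?_⟩ (g.toGen.E_rName hy x).symm
      · rintro ⟨z, hz, rfl⟩
        obtain ⟨i, hi⟩ := List.get_of_mem (List.mem_map_of_mem (f := Subtype.val) hz)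
        exact ⟨i, p₀, trivial, g.G_p0, hi ▸ z.2, congrArg _ (Subtype.ext hi.symm)⟩
      · rintro ⟨i, -, -, -, hi, rfl⟩
        obtain ⟨z, hz, h5⟩ := List.mem_map.1 (List.get_mem (l.map Subtype.val) i)
        exact ⟨z, hz, congrArg _ (Subtype.ext h5.symm)⟩
    obtain ⟨p, hp, h5⟩ := g.toGen.cl_eq.1 h4
    exact ⟨p, hp, fun q hq => ⟨q, le_rfl, _, h5.mono hq⟩⟩
  · rintro ⟨p, hp, h⟩
    obtain ⟨q, hq', hq, _, -, h1⟩ := g.meet .fn [a.1] [] [] (mem_list₁ a.2) mem_list₀ mem_list₀ p hp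
      fun q hq => (h q hq).imp fun r h => ⟨h.1, (), h.2⟩
    obtain ⟨y, hy, l, rfl, h2⟩ := g.clN .fn [a.1] [q] [] (mem_list₁ a.2) (mem_list₁ hq') mem_list₀
      (by obtain ⟨l, h1⟩ := h1; exact ⟨_, l, rfl, h1⟩)
    rw [(g.toGen.cl_eq (y := ⟨_, hy⟩)).2 ⟨q, hq, h2⟩]
    classical
    refine (Set.finite_range fun i : Fin l.length =>
      if h : l.get i ∈ g.N then g.toGen.cl ⟨_, h⟩ else g.toGen.cl a).subset fun x hx => ?_
    obtain ⟨i, -, -, -, hi, rfl⟩ := (g.toGen.E_rName hy x).1 hx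
    exact ⟨i, dif_pos hi⟩

theorem dec (φ : IF) (l : List g.N) : ∃ p, g.G p ∧
    (Fo φ p (fun i => (envOf g.toGen.e0 l i).1) ∨
      ∀ r ≤ p, ¬ Fo φ r fun i => (envOf g.toGen.e0 l i).1) := by
  rw [g.toGen.val_envOf]
  obtain ⟨q, -, hq, _, -, h⟩ := g.meet (.dec φ) _ [] [] (g.toGen.map_val_mem l) mem_list₀ mem_list₀
    p₀ g.G_p0 fun q _ => by
      by_cases h : ∃ r ≤ q, Fo φ r (envOf emptyName (l.map Subtype.val))
      · obtain ⟨r, hr, h⟩ := h
        exact ⟨r, hr, (), Or.inl h⟩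
      · exact ⟨q, le_rfl, (), Or.inr fun r hr h' => h ⟨r, hr, h'⟩⟩
  exact ⟨q, hq, h⟩

theorem gv (φ : IF) (l : List g.N) : ∃ p, g.G p ∧
    ((∃ x ∈ g.N, Fo φ p (cons x fun i => (envOf g.toGen.e0 l i).1)) ∨
      ∀ r ≤ p, ∀ x, ¬ Fo φ r (cons x fun i => (envOf g.toGen.e0 l i).1)) := by
  rw [g.toGen.val_envOf]
  obtain ⟨q, hq', hq, _, -, h⟩ := g.meet (.gv φ) _ [] [] (g.toGen.map_val_mem l) mem_list₀
    mem_list₀ p₀ g.G_p0 fun q _ => by
      by_cases h : ∃ r ≤ q, ∃ x, Fo φ r (cons x (envOf emptyName (l.map Subtype.val)))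
      · obtain ⟨r, hr, h⟩ := h
        exact ⟨r, hr, (), Or.inl h⟩
      · exact ⟨q, le_rfl, (), Or.inr fun r hr x h' => h ⟨r, hr, x, h'⟩⟩
  refine ⟨q, hq, Or.imp_left (fun h => ?_) h⟩
  exact g.clN (.gv φ) _ [q] [] (g.toGen.map_val_mem l) (mem_list₁ hq') mem_list₀ h

theorem truth (φ : IF) : ∀ l : List g.N,
    φ.ev (LT g.toGen.E) (fun i => g.toGen.cl (envOf g.toGen.e0 l i)) ↔
      ∃ p, g.G p ∧ Fo φ p fun i => (envOf g.toGen.e0 l i).1 := by
  have key : ∀ {φ : IF}, (∀ l : List g.N,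
      φ.ev (LT g.toGen.E) (fun i => g.toGen.cl (envOf g.toGen.e0 l i)) ↔
        ∃ p, g.G p ∧ Fo φ p fun i => (envOf g.toGen.e0 l i).1) → ∀ (l : List g.N) (x : g.N),
      φ.ev (LT g.toGen.E) (cons (g.toGen.cl x) fun i => g.toGen.cl (envOf g.toGen.e0 l i)) ↔
        ∃ p, g.G p ∧ Fo φ p (cons x.1 fun i => (envOf g.toGen.e0 l i).1) := by
    intro φ ih l x
    have := ih (x :: l)
    simp only [envOf] at this
    rwa [comp_cons g.toGen.cl, comp_cons Subtype.val] at this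
  have himp : ∀ {φ ψ : IF} (l : List g.N) {A B : Prop},
      (A ↔ ∃ p, g.G p ∧ Fo φ p fun i => (envOf g.toGen.e0 l i).1) →
      (B ↔ ∃ p, g.G p ∧ Fo ψ p fun i => (envOf g.toGen.e0 l i).1) →
      ((A → B) ↔ ∃ p, g.G p ∧ ∀ q ≤ p, Fo φ q (fun i => (envOf g.toGen.e0 l i).1) →
        Fo ψ q fun i => (envOf g.toGen.e0 l i).1) := by
    intro φ ψ l A B ih ih'
    refine (imp_congr ih ih').trans ⟨fun h => ?_, ?_⟩
    · obtain ⟨p, hp, h1 | h1⟩ := dec g φ l
      · obtain ⟨q, hq, h2⟩ := h ⟨p, hp, h1⟩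
        exact ⟨q, hq, fun r hr _ => h2.mono hr⟩
      · exact ⟨p, hp, fun q hq h2 => absurd h2 (h1 q hq)⟩
    · rintro ⟨p, hp, h⟩ ⟨q, hq, h1⟩
      obtain ⟨r, hr, h2, h3⟩ := g.dir p q hp hq
      exact ⟨r, hr, h r h2 (h1.mono h3)⟩
  induction φ with
  | mem i j => exact fun l => g.toGen.E_cl
  | eq i j => exact fun l => g.toGen.cl_eq
  | app i j k => exact fun l => app_cl g _ _ _
  | val i j k m => exact fun l => val_cl g _ _ _ _
  | pair i j k => exact fun l => pair_cl g _ _ _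
  | omega i => exact fun l => omega_cl g _
  | fin i => exact fun l => fin_cl g _
  | neg φ ih =>
    intro l
    refine (not_congr (ih l)).trans ⟨fun h => ?_, ?_⟩
    · obtain ⟨p, hp, h1 | h1⟩ := dec g φ l
      · exact absurd ⟨p, hp, h1⟩ h
      · exact ⟨p, hp, h1⟩
    · rintro ⟨p, hp, h⟩ ⟨q, hq, h1⟩
      obtain ⟨r, -, h2, h3⟩ := g.dir p q hp hq
      exact h r h2 (h1.mono h3)
  | imp φ ψ ih ih' => exact fun l => himp l (ih l) (ih' l)
  | iff φ ψ ih ih' =>
    intro l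
    refine (iff_iff_implies_and_implies.trans
      (and_congr (himp l (ih l) (ih' l)) (himp l (ih' l) (ih l)))).trans
      ⟨?_, fun ⟨p, hp, h⟩ => ⟨⟨p, hp, fun q hq => (h q hq).1⟩, p, hp, fun q hq => (h q hq).2⟩⟩
    rintro ⟨⟨p, hp, h⟩, q, hq, h1⟩
    obtain ⟨r, hr, h2, h3⟩ := g.dir p q hp hq
    exact ⟨r, hr, fun s hs => ⟨h s (hs.trans h2), h1 s (hs.trans h3)⟩⟩
  | and φ ψ ih ih' =>
    intro l
    refine (and_congr (ih l) (ih' l)).trans ⟨?_, fun ⟨p, hp, h⟩ => ⟨⟨p, hp, h.1⟩, p, hp, h.2⟩⟩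
    rintro ⟨⟨p, hp, h⟩, q, hq, h1⟩
    obtain ⟨r, hr, h2, h3⟩ := g.dir p q hp hq
    exact ⟨r, hr, h.mono h2, h1.mono h3⟩
  | or φ ψ ih ih' =>
    intro l
    refine (or_congr (ih l) (ih' l)).trans ⟨?_, ?_⟩
    · rintro (⟨p, hp, h⟩ | ⟨p, hp, h⟩)
      · exact ⟨p, hp, fun q hq => ⟨q, le_rfl, Or.inl (h.mono hq)⟩⟩
      · exact ⟨p, hp, fun q hq => ⟨q, le_rfl, Or.inr (h.mono hq)⟩⟩
    · rintro ⟨p, hp, h⟩
      obtain ⟨p1, hp1, h1 | h1⟩ := dec g φ l
      · exact Or.inl ⟨p1, hp1, h1⟩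
      obtain ⟨p2, hp2, h2 | h2⟩ := dec g ψ l
      · exact Or.inr ⟨p2, hp2, h2⟩
      obtain ⟨q, hq, a1, a2⟩ := g.dir p1 p2 hp1 hp2
      obtain ⟨r, -, a3, a4⟩ := g.dir p q hp hq
      obtain ⟨s, hs, h3 | h3⟩ := h r a3
      · exact absurd h3 (h1 s (hs.trans (a4.trans a1)))
      · exact absurd h3 (h2 s (hs.trans (a4.trans a2)))
  | all φ ih =>
    intro l
    constructor
    · intro h
      obtain ⟨p, hp, ⟨x, hx, h1⟩ | h1⟩ := gv g φ.neg l
      · obtain ⟨q, hq, h2⟩ := (key ih l ⟨x, hx⟩).1 (h _)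
        obtain ⟨r, -, h3, h4⟩ := g.dir p q hp hq
        exact absurd (h2.mono h4) (h1 r h3)
      · refine ⟨p, hp, fun x => Fo.reg (φ := φ) fun q hq => ?_⟩
        by_contra h2
        exact h1 q hq x fun r hr h3 => h2 ⟨r, hr, h3⟩
    · rintro ⟨p, hp, h⟩ a
      obtain ⟨x, rfl⟩ := g.toGen.cl_surj a
      exact (key ih l x).2 ⟨p, hp, h x.1⟩
  | ex φ ih =>
    intro l
    constructor
    · rintro ⟨a, h⟩
      obtain ⟨x, rfl⟩ := g.toGen.cl_surj a
      obtain ⟨p, hp, h1⟩ := (key ih l x).1 h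
      exact ⟨p, hp, fun q hq => ⟨q, le_rfl, x.1, h1.mono hq⟩⟩
    · rintro ⟨p, hp, h⟩
      obtain ⟨q, hq, ⟨x, hx, h1⟩ | h1⟩ := gv g φ l
      · exact ⟨_, (key ih l ⟨x, hx⟩).2 ⟨q, hq, h1⟩⟩
      · obtain ⟨r, -, h3, h4⟩ := g.dir p q hp hq
        obtain ⟨s, hs, x, h5⟩ := h r h3
        exact absurd h5 (h1 s (hs.trans h4) x)

end model

/-- If the sentence is forced, it holds in a model of ZFC. -/
theorem transfer (p₀ : P) (h : (LF P).counter p₀) :
    ∃ (M : Type 1) (E : M → M → Prop), IsZFC E ∧ Counter E := by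
  obtain ⟨g⟩ := exists_genW p₀ () (RN (P := P)) WW
  refine ⟨_, g.toGen.E, g.zfc, (LT_counter _).1 ?_⟩
  rw [← ev_counter _ fun i => g.toGen.cl (envOf g.toGen.e0 [] i)]
  refine (truth g _ []).2 ⟨p₀, g.G_p0, ?_⟩
  unfold Fo
  rw [ev_counter]
  exact h

end Pool.Agent.Work.MP_f50f0f_gt
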