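import Pool.Agent.Work.MP_f50f0f_gt.CCont

/-! The game: small families of members, the data attached to a cell, and positions. -/

namespace Pool.Agent.Work.MP_f50f0f_gt
open Function Set Filter Topology

/-- The old points and coordinates. -/
structure Fr where
  P : Set Lb
  B : Set Lb
  ab : Lb → G2
  V : ℕ → Co
  cP : P.Countable
  cB : B.Countable
  disj : ∀ c ∈ P, c ∉ B

namespace Fr
variable (fr : Fr)

def Y : Set Pt := pts fr.P fr.B fr.ab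

/-- No member of `𝓜` meets all sets of a countable family of dense open sets. -/
def Small (𝓜 : Set Mem) : Prop :=
  ∃ 𝒢 : Set (ℕ × Set (ℕ → Co)), 𝒢.Countable ∧ (∀ p ∈ 𝒢, Opn fr.Y p.1 p.2 ∧ Dns p.1 p.2) ∧
    ∀ m ∈ 𝓜, ∃ p ∈ 𝒢, m.1 ∉ p.2

/-- The touched points. -/
def tch (A : Set Lb) (m : ℕ) : Set Pt := {y | y ∈ fr.Y ∧ y.g ∈ A ∧ (y.h ≤ m ∨ y.h = ⊤)}

/-- `𝓜` is not small below every extension of the condition `(k, A, m, E)`. -/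
def ES (k : ℕ) (A : Set Lb) (m : ℕ) (E : ℕ → Co) (𝓜 : Set Mem) : Prop :=
  ∀ E' : ℕ → Co, (∀ n, Good (E' n)) → agE k (fr.tch A m) E E' → ∀ Z : Set Pt, Z.Finite →
    Z ⊆ fr.Y → ¬ fr.Small {x | x ∈ 𝓜 ∧ agE k Z E' x.1}

variable {fr}

theorem Small.mono {𝓜 𝓜' : Set Mem} (h : fr.Small 𝓜) (h' : 𝓜' ⊆ 𝓜) : fr.Small 𝓜' := by
  obtain ⟨𝒢, h1, h2, h3⟩ := h
  exact ⟨𝒢, h1, h2, fun m hm => h3 m (h' hm)⟩

theorem small_empty : fr.Small ∅ := ⟨∅, countable_empty, fun _ h => h.elim, fun _ h => h.elim⟩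

theorem small_iUnion {ι : Type} [Countable ι] {𝓜 : ι → Set Mem} (h : ∀ i, fr.Small (𝓜 i)) :
    fr.Small (⋃ i, 𝓜 i) := by
  choose 𝒢 h1 h2 h3 using h
  refine ⟨⋃ i, 𝒢 i, countable_iUnion h1, fun p hp => ?_, fun m hm => ?_⟩
  · obtain ⟨i, hi⟩ := mem_iUnion.1 hp
    exact h2 i p hi
  · obtain ⟨i, hi⟩ := mem_iUnion.1 hm
    obtain ⟨p, hp, hp'⟩ := h3 i m hi
    exact ⟨p, mem_iUnion.2 ⟨i, hp⟩, hp'⟩

theorem finite_tch {A : Set Lb} (hA : A.Finite) (m : ℕ) : (fr.tch A m).Finite := by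
  refine ((hA.biUnion fun c _ => (finite_Iic m).biUnion fun j _ =>
    (finite_nrm j).image fun a => pt j a c).union
      (hA.image fun c => (⟨⊤, fr.ab c, c⟩ : Pt))).subset ?_
  rintro y ⟨hy, hA', hm⟩
  rcases pts_cases hy with ⟨j, a, c, rfl, ha, -⟩ | ⟨c, -, rfl⟩
  · refine Or.inl (mem_biUnion hA' (mem_biUnion (show j ∈ Iic m from ?_) ⟨a, ha, rfl⟩))
    rcases hm with hm | hm
    · exact Nat.cast_le.1 (show (j : ℕ∞) ≤ m from hm)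
    · exact absurd hm (ENat.natCast_ne_top j)
  · exact Or.inr ⟨c, hA', rfl⟩

theorem tch_mono {A A' : Set Lb} {m m' : ℕ} (hA : A ⊆ A') (hm : m ≤ m') :
    fr.tch A m ⊆ fr.tch A' m' := by
  rintro y ⟨hy, hA', h⟩
  exact ⟨hy, hA hA', h.imp_left fun h => h.trans (Nat.cast_le.2 hm)⟩

theorem dn_tch {A : Set Lb} {m : ℕ} {y : Pt} (h : y ∈ fr.tch A m) : dn y ⊆ fr.tch A m := by
  intro z hz
  refine ⟨dn_subset h.1 hz, by rw [dn_g hz]; exact h.2.1, ?_⟩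
  rcases hz with ⟨-, rfl⟩ | ⟨j, a, hj, ht, -, rfl⟩
  · exact h.2.2
  · exact Or.inl (hj.trans (h.2.2.resolve_right ht))

theorem pt_tch {A : Set Lb} {m j : ℕ} {a : G2} {c : Lb} :
    pt j a c ∈ fr.tch A m ↔ nrm j a ∧ c ∈ fr.P ∧ c ∈ A ∧ j ≤ m := by
  constructor
  · rintro ⟨hy, hA, hm⟩
    refine ⟨(pt_mem.1 hy).1, (pt_mem.1 hy).2, hA, ?_⟩
    rcases hm with hm | hm
    · exact Nat.cast_le.1 (show (j : ℕ∞) ≤ m from hm)
    · exact absurd hm (ENat.natCast_ne_top j)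
  · rintro ⟨h1, h2, h3, h4⟩
    exact ⟨pt_mem.2 ⟨h1, h2⟩, h3, Or.inl (show (j : ℕ∞) ≤ m from Nat.cast_le.2 h4)⟩

theorem exists_tch {Z : Set Pt} (hZ : Z.Finite) (hY : Z ⊆ fr.Y) {A : Set Lb} (hA : A.Finite)
    (m : ℕ) : ∃ A' m', A'.Finite ∧ A ⊆ A' ∧ m ≤ m' ∧ Z ⊆ fr.tch A' m' := by
  obtain ⟨M, hM⟩ := (hZ.image fun y => y.h.toNat).bddAbove
  refine ⟨A ∪ Pt.g '' Z, max m M, hA.union (hZ.image _), subset_union_left, le_max_left _ _,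
    fun y hy => ⟨hY hy, Or.inr ⟨y, hy, rfl⟩, ?_⟩⟩
  by_cases ht : y.h = ⊤
  · exact Or.inr ht
  · left
    rw [← ENat.natCast_toNat ht]
    exact Nat.cast_le.2 ((hM ⟨y, hy, rfl⟩).trans (le_max_right _ _))

theorem CG1_union {𝓜 𝓜' : Set Mem} (h : fr.Small 𝓜) (h' : fr.Small 𝓜') : fr.Small (𝓜 ∪ 𝓜') := by
  obtain ⟨𝒢, h1, h2, h3⟩ := h
  obtain ⟨𝒢', h1', h2', h3'⟩ := h'
  refine ⟨𝒢 ∪ 𝒢', h1.union h1', fun p hp => hp.elim (h2 p) (h2' p), fun m hm => ?_⟩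
  rcases hm with hm | hm
  · obtain ⟨p, hp, hp'⟩ := h3 m hm
    exact ⟨p, Or.inl hp, hp'⟩
  · obtain ⟨p, hp, hp'⟩ := h3' m hm
    exact ⟨p, Or.inr hp, hp'⟩

/-- The splitting lemma. -/
theorem split {𝓜 : Set Mem} (h : ¬ fr.Small 𝓜) (hr : ∀ x ∈ 𝓜, ∀ n, ∀ y ∈ fr.Y, IsRat (x.1 n y).2)
    (k : ℕ) {A : Set Lb} (hA : A.Finite) (m : ℕ) :
    ∃ E A' m', (∀ n, Good (E n)) ∧ A'.Finite ∧ A ⊆ A' ∧ m ≤ m' ∧ fr.ES k A' m' E 𝓜 := by
  classical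
  let G : Set (ℕ → Co) := {E | ∃ Z : Set Pt, Z.Finite ∧ Z ⊆ fr.Y ∧
    fr.Small {x | x ∈ 𝓜 ∧ agE k Z E x.1}}
  have hG : ∀ E E' : ℕ → Co, ∀ Z : Set Pt, Z.Finite → Z ⊆ fr.Y →
      fr.Small {x | x ∈ 𝓜 ∧ agE k Z E x.1} → agE k Z E E' → E' ∈ G := fun E E' Z h1 h2 h3 h4 =>
    ⟨Z, h1, h2, h3.mono fun x hx => ⟨hx.1, fun n hn y hy => (h4 n hn y hy).trans (hx.2 n hn y hy)⟩⟩
  have hO : Opn fr.Y k G := by
    rintro E ⟨Z, h1, h2, h3⟩
    exact ⟨Z, h1, h2, fun E' h4 => hG E E' Z h1 h2 h3 h4⟩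
  have hD : ¬ Dns k G := by
    intro hD
    have s1 : fr.Small {x : Mem | x.1 ∉ G} :=
      ⟨{(k, G)}, countable_singleton _, by rintro _ rfl; exact ⟨hO, hD⟩,
        fun x hx => ⟨_, rfl, hx⟩⟩
    have s2 : ∀ Z : Set Pt, Z.Finite → Z ⊆ fr.Y →
        fr.Small {x | x ∈ 𝓜 ∧ fr.Small {x' | x' ∈ 𝓜 ∧ agE k Z x.1 x'.1}} := by
      intro Z h1 h2
      have hc : CC {x | x ∈ 𝓜 ∧ fr.Small {x' | x' ∈ 𝓜 ∧ agE k Z x.1 x'.1}}
          fun x x' => ∀ n ∈ Iio k, ∀ y ∈ Z, x.1 n y = x'.1 n y :=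
        CC.finite (finite_Iio k) fun n _ => CC.finite h1 fun y hy =>
          CC.eq (countable_univ.prod countable_isRat) (fun x : Mem => x.1 n y)
            fun x hx => ⟨mem_univ _, hr x hx.1 n y (h2 hy)⟩
      obtain ⟨T, hT, hTc, hT'⟩ := hc.reps
      have := hTc.to_subtype
      refine (small_iUnion fun r : T => (hT r.2).2).mono fun x hx => ?_
      obtain ⟨r, hr1, hr2⟩ := hT' x hx
      exact mem_iUnion.2 ⟨⟨r, hr1⟩, hx.1, hr2⟩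
    have := (countable_ofPred_finite_subset (countable_pts fr.cP fr.cB fr.ab)).to_subtype
    have s3 := small_iUnion fun Z : {Z : Set Pt | Z.Finite ∧ Z ⊆ pts fr.P fr.B fr.ab} =>
      s2 Z.1 Z.2.1 Z.2.2
    refine h ((CG1_union s1 s3).mono fun x hx => ?_)
    by_cases hxG : x.1 ∈ G
    · obtain ⟨Z, h1, h2, h3⟩ := hxG
      exact Or.inr (mem_iUnion.2 ⟨⟨Z, h1, h2⟩, hx, h3⟩)
    · exact Or.inl hxG
  unfold Dns at hD
  push Not at hD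
  obtain ⟨E₀, hE₀, Z, hZ, hno⟩ := hD
  obtain ⟨A', m', h1, h2, h3, h4⟩ :=
    exists_tch (fr := fr) (hZ.inter_of_left fr.Y) inter_subset_right hA m
  refine ⟨E₀, A', m', hE₀, h1, h2, h3, fun E' hE' hag Z' hZ' hY hs => ?_⟩
  refine hno (fun n y => if y ∈ fr.Y then E' n y else E₀ n y) (fun n => ⟨fun y => ?_, ?_⟩)
    (fun n hn y hy => ?_) (hG E' _ Z' hZ' hY hs fun n _ y hy => (if_pos (hY hy)).symm)
  · dsimp only
    split_ifs
    · exact (hE' n).1 y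
    · exact (hE₀ n).1 y
  · intro c hc j hj
    by_cases hP : c ∈ fr.P
    · have e : ∀ j a, nrm j a → pt j a c ∈ fr.Y := fun j a ha => pt_mem.2 ⟨ha, hP⟩
      simp only [if_pos (show root c ∈ fr.Y from e 0 a0 (nrm_a0 0))] at hc
      exact ((hE' n).2 c hc j hj).congr fun a ha => by simp only [if_pos (e j a ha)]
    · have e : ∀ j a, pt j a c ∉ fr.Y := fun j a ha => hP (pt_mem.1 ha).2
      simp only [if_neg (show root c ∉ fr.Y from e 0 a0)] at hc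
      exact ((hE₀ n).2 c hc j hj).congr fun a _ => by simp only [if_neg (e j a)]
  · dsimp only
    split_ifs with hy'
    · exact hag n hn y (h4 ⟨hy, hy'⟩)
    · rfl

theorem ES.refine {k : ℕ} {A A' : Set Lb} {m m' : ℕ} {E E' : ℕ → Co} {𝓜 : Set Mem}
    (h : fr.ES k A m E 𝓜) (hA' : A'.Finite) (hA : A ⊆ A') (hm : m ≤ m')
    (hE : agE k (fr.tch A m) E E') :
    fr.ES k A' m' E' {x | x ∈ 𝓜 ∧ agE k (fr.tch A' m') E' x.1} := by
  intro E'' hE'' hag Z hZ hY hs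
  refine h E'' hE'' (fun n hn y hy => (hE n hn y hy).trans (hag n hn y (tch_mono hA hm hy)))
    (Z ∪ fr.tch A' m') (hZ.union (finite_tch hA' m')) (union_subset hY fun _ hy => hy.1)
    (hs.mono fun x hx => ⟨⟨hx.1, fun n hn y hy => ?_⟩, fun n hn y hy => hx.2 n hn y (Or.inl hy)⟩)
  exact (hag n hn y hy).trans (hx.2 n hn y (Or.inr hy))

theorem ES.not_small {k : ℕ} {A : Set Lb} {m : ℕ} {E : ℕ → Co} {𝓜 : Set Mem}
    (h : fr.ES k A m E 𝓜) (hE : ∀ n, Good (E n)) : ¬ fr.Small 𝓜 := fun hs =>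
  h E hE (fun _ _ _ _ => rfl) ∅ finite_empty (empty_subset _) (hs.mono fun _ hx => hx.1)

end Fr

/-- The discrete data of a point. -/
structure Cell where
  h : ℕ∞
  a : G2
  g : Lb
  v : ℕ → ℕ

def cel (W : ℕ → Co) (y : Pt) : Cell := ⟨y.h, y.a, y.g, mkr W y⟩

def simK (K : ℕ) (q q' : Cell) : Prop :=
  (q.h = q'.h ∨ ((K : ℕ∞) ≤ q.h ∧ (K : ℕ∞) ≤ q'.h)) ∧ ag K q.a q'.a ∧ ag K q.g q'.g ∧ ag K q.v q'.v

/-- The data attached to a cell: a pattern `ω` of markers of length `r`, an approximation `φ` of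
the members with error `ε` (valid if `inf`), a functional `Θ` that selects a value of `φ`, and a
pattern `τ` of length `ρ` for the points of the square. -/
structure CD where
  r : ℕ
  ω : ℕ → ℕ
  inf : Prop
  ε : ℝ
  φ : G2 × Th → Th → ℝ
  Θ : Th → (Th → ℝ) → ℝ
  ρ : Th → ℕ
  τ : Th → Th

namespace CD
variable (c : CD)

def ψ (x : G2 × Th) : ℝ := c.Θ x.2 (c.φ x)

structure Ok : Prop where
  ε_pos : 0 < c.ε
  ρ_le : ∀ f, c.ρ f ≤ c.r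
  φ_cont : Continuous (uncurry c.φ)
  φ_dep : ∀ x θ θ', ag c.r θ θ' → c.φ x θ = c.φ x θ'
  lip : ∀ f Φ Φ' (d : ℝ), (∀ θ, |Φ θ - Φ' θ| ≤ d) → |c.Θ f Φ - c.Θ f Φ'| ≤ d
  cont : ∀ Φ : G2 × Th → Th → ℝ, Continuous (uncurry Φ) → Continuous fun x => c.Θ x.2 (Φ x)
  rng : ∀ f Φ, Continuous Φ → ∃ θ, ag (c.ρ f) θ (c.τ f) ∧ Φ θ = c.Θ f Φ
  usc : ∀ f₀, ∀ᶠ f in 𝓝 f₀, c.ρ f ≤ c.ρ f₀ ∧ ag (c.ρ f) (c.τ f) (c.τ f₀)
  τ_rat : ∀ f n, IsRat (c.τ f n)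

/-- The values `e` are tame at `x`. -/
def T (x : G2 × Th) (e : ℕ → Vl) : Prop :=
  ag c.r (fun n => (e n).1) c.ω ∧ ag (c.ρ x.2) (fun n => (e n).2) (c.τ x.2) ∧
    |c.φ x (fun n => (e n).2) - c.ψ x| < c.ε

noncomputable def pot (K : ℕ) : ℝ := 3 * c.ε + c.ε * (1 / 2) ^ K

/-- Extension of the data of a cell with branch `a`. -/
structure Ext (K : ℕ) (c' : CD) (K' : ℕ) (a : G2) : Prop where
  r : c.r ≤ c'.r
  ω : ag c.r c.ω c'.ω
  ρ : ∀ f, c.ρ f ≤ c'.ρ f ∧ ag (c.ρ f) (c.τ f) (c'.τ f)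
  inf : c.inf → c'.inf ∧ ∀ f, |c'.ψ (a, f) - c.ψ (a, f)| ≤ c.pot K - c'.pot K'

/-- The trivial data. -/
noncomputable def triv : CD where
  r := 0
  ω _ := 0
  inf := False
  ε := 1
  φ _ _ := 0
  Θ _ := med
  ρ _ := 0
  τ _ := 0

open Classical in
/-- A new approximation. -/
noncomputable def newIn (k : ℕ) (ω₁ : ℕ → ℕ) (η : ℝ) (φ₁ : G2 × Th → Th → ℝ) : CD :=
  { c with
    r := k, ω := ω₁, inf := True, ε := η
    φ := fun x θ => if c.inf then max (c.φ x θ - c.ε) (min (c.φ x θ + c.ε) (φ₁ x θ)) else φ₁ x θ }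

open Classical in
/-- A new centre: on `N` the pattern `τ₀` is copied, `lam` interpolates. -/
noncomputable def newCp (k : ℕ) (ω₀ : ℕ → ℕ) (τ₀ : Th) (N : Set Th) (lam : Th → ℝ) : CD :=
  { c with
    r := k, ω := ω₀
    Θ := fun f Φ => (1 - lam f) * c.Θ f Φ + lam f * Φ τ₀
    ρ := fun f => if f ∈ N then k else c.ρ f
    τ := fun f => if f ∈ N then τ₀ else c.τ f }

variable {c}

theorem triv_ok : triv.Ok := by
  refine ⟨one_pos, fun _ => le_rfl, continuous_const, fun _ _ _ _ => rfl,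
    fun _ _ _ _ h => med_lip h, fun _ h => med_cont h, fun _ Φ _ => ?_,
    fun _ => Eventually.of_forall fun _ => ⟨le_rfl, ag.refl _ _⟩, fun _ _ => isRat_zero⟩
  obtain ⟨θ, hθ⟩ := med_rng Φ
  exact ⟨θ, fun _ hn => absurd hn (Nat.not_lt_zero _), hθ⟩

theorem Ok.ψ_cont (h : c.Ok) : Continuous c.ψ := h.cont _ h.φ_cont

theorem T.congr (h : c.Ok) {x : G2 × Th} {e e' : ℕ → Vl} (ht : c.T x e) (he : ag c.r e e') :
    c.T x e' := by
  have h2 : ag c.r (fun n => (e n).2) fun n => (e' n).2 := fun n hn => congrArg Prod.snd (he n hn)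
  refine ⟨fun n hn => (congrArg Prod.fst (he n hn)).symm.trans (ht.1 n hn),
    (h2.mono (h.ρ_le _)).symm.trans ht.2.1, ?_⟩
  rw [← h.φ_dep x _ _ h2]
  exact ht.2.2

theorem T_zero (h : c.Ok) (h0 : c.r = 0) (x : G2 × Th) (e : ℕ → Vl) : c.T x e := by
  have hz : ∀ {α : Type} {K : ℕ} (f g : ℕ → α), K ≤ c.r → ag K f g := fun _ _ hK n hn => by omega
  obtain ⟨θ, -, hθ⟩ := h.rng x.2 (c.φ x) (h.φ_cont.uncurry_left x)
  refine ⟨hz _ _ le_rfl, hz _ _ (h.ρ_le _), ?_⟩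
  rw [ψ, ← hθ, h.φ_dep x _ θ (hz _ _ le_rfl), sub_self, abs_zero]
  exact h.ε_pos

/-- Tameness is an open condition. -/
theorem T.eventually (h : c.Ok) {x : G2 × Th} {e : ℕ → Vl} (ht : c.T x e) :
    ∀ᶠ x' in 𝓝 x, c.T x' e := by
  have h1 := (continuous_snd.tendsto x).eventually (h.usc x.2)
  have h2 : Continuous fun x' => |c.φ x' (fun n => (e n).2) - c.ψ x'| :=
    ((h.φ_cont.uncurry_right _).sub h.ψ_cont).abs
  filter_upwards [h1, (h2.tendsto x).eventually (eventually_lt_nhds ht.2.2)] with x' h3 h4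
  exact ⟨ht.1, (ht.2.1.mono h3.1).trans h3.2.symm, h4⟩

theorem Ok.exists_rat (h : c.Ok) (x : G2 × Th) {η : ℝ} (hη : 0 < η) :
    ∃ θ : Th, (∀ n, IsRat (θ n)) ∧ ag (c.ρ x.2) θ (c.τ x.2) ∧ |c.φ x θ - c.ψ x| < η := by
  obtain ⟨θ₀, h1, h2⟩ := h.rng x.2 (c.φ x) (h.φ_cont.uncurry_left x)
  have h3 : Continuous fun θ => |c.φ x θ - c.ψ x| :=
    ((h.φ_cont.uncurry_left x).sub continuous_const).abs
  have h4 : ∀ᶠ θ in 𝓝 θ₀, |c.φ x θ - c.ψ x| < η :=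
    (h3.tendsto θ₀).eventually (eventually_lt_nhds (by rw [ψ, h2, sub_self, abs_zero]; exact hη))
  obtain ⟨K, hK⟩ := nhds_boxT h4
  have hp : (0 : ℝ) < 1 / ((K : ℝ) + 1) := by positivity
  choose d hd hd' using fun n => exists_isRat (θ₀ n) hp
  refine ⟨fun n => if n < c.ρ x.2 then c.τ x.2 n else d n, fun n => ?_, fun n hn => if_pos hn,
    hK K le_rfl _ fun n _ => ?_⟩
  · dsimp only
    split_ifs
    · exact h.τ_rat _ _
    · exact hd n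
  · split_ifs with hn
    · rw [h1 n hn, dist_self]
      exact hp
    · exact hd' n

theorem Ext.of_le (h : c.Ok) {K K' : ℕ} (hK : K ≤ K') (a : G2) : c.Ext K c K' a := by
  refine ⟨le_rfl, ag.refl _ _, fun _ => ⟨le_rfl, ag.refl _ _⟩, fun hi => ⟨hi, fun f => ?_⟩⟩
  have h1 : (1 / 2 : ℝ) ^ K' ≤ (1 / 2) ^ K := pow_le_pow_of_le_one (by norm_num) (by norm_num) hK
  have h2 := mul_le_mul_of_nonneg_left h1 h.ε_pos.le
  rw [sub_self, abs_zero, pot, pot]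
  linarith

theorem Ext.trans {c' c'' : CD} {K K' K'' : ℕ} {a : G2} (h : c.Ext K c' K' a)
    (h' : c'.Ext K' c'' K'' a) : c.Ext K c'' K'' a := by
  refine ⟨h.r.trans h'.r, h.ω.trans (h'.ω.mono h.r), fun f => ⟨(h.ρ f).1.trans (h'.ρ f).1,
    (h.ρ f).2.trans ((h'.ρ f).2.mono (h.ρ f).1)⟩, fun hi => ?_⟩
  obtain ⟨h1, h2⟩ := h.inf hi
  obtain ⟨h3, h4⟩ := h'.inf h1
  refine ⟨h3, fun f => ?_⟩
  have := abs_sub_le (c''.ψ (a, f)) (c'.ψ (a, f)) (c.ψ (a, f))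
  linarith [h2 f, h4 f]

theorem newIn_ok (h : c.Ok) {k : ℕ} (hk : c.r ≤ k) (ω₁ : ℕ → ℕ) {η : ℝ} (hη : 0 < η)
    {φ₁ : G2 × Th → Th → ℝ} (h1 : Continuous (uncurry φ₁))
    (h2 : ∀ x θ θ', ag k θ θ' → φ₁ x θ = φ₁ x θ') : (c.newIn k ω₁ η φ₁).Ok := by
  refine ⟨hη, fun f => (h.ρ_le f).trans hk, ?_, fun x θ θ' hθ => ?_, h.lip, h.cont, h.rng, h.usc,
    h.τ_rat⟩
  · by_cases hi : c.inf
    · simp only [newIn, if_pos hi]
      exact (h.φ_cont.sub continuous_const).max ((h.φ_cont.add continuous_const).min h1)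
    · simp only [newIn, if_neg hi]
      exact h1
  · simp only [newIn, h.φ_dep x θ θ' (ag.mono hθ hk), h2 x θ θ' hθ]

theorem newIn_ext (h : c.Ok) {k : ℕ} (hk : c.r ≤ k) {ω₁ : ℕ → ℕ} (hω : ag c.r c.ω ω₁) {η : ℝ}
    (hη : 0 < η) (hη' : η ≤ c.ε / 2) (φ₁ : G2 × Th → Th → ℝ) (K K' : ℕ) (a : G2) :
    c.Ext K (c.newIn k ω₁ η φ₁) K' a := by
  refine ⟨hk, hω, fun _ => ⟨le_rfl, ag.refl _ _⟩, fun hi => ⟨trivial, fun f => ?_⟩⟩
  have he := h.ε_pos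
  have h1 : |(c.newIn k ω₁ η φ₁).ψ (a, f) - c.ψ (a, f)| ≤ c.ε := by
    refine h.lip f _ _ _ fun θ => ?_
    simp only [newIn, if_pos hi]
    rw [abs_le]
    constructor
    · linarith [le_max_left (c.φ (a, f) θ - c.ε) (min (c.φ (a, f) θ + c.ε) (φ₁ (a, f) θ))]
    · have := max_le (show c.φ (a, f) θ - c.ε ≤ c.φ (a, f) θ + c.ε by linarith)
        (min_le_left (c.φ (a, f) θ + c.ε) (φ₁ (a, f) θ))
      linarith
  have h2 : 0 ≤ c.ε * (1 / 2 : ℝ) ^ K := by positivity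
  have h3 : η * (1 / 2 : ℝ) ^ K' ≤ η :=
    mul_le_of_le_one_right hη.le (pow_le_one₀ (by norm_num) (by norm_num))
  have h4 : (c.newIn k ω₁ η φ₁).pot K' = 3 * η + η * (1 / 2) ^ K' := rfl
  rw [h4, pot]
  linarith

theorem newIn_val {k : ℕ} {ω₁ : ℕ → ℕ} {η : ℝ} {φ₁ : G2 × Th → Th → ℝ} {x : G2 × Th} {θ : Th}
    {t : ℝ} (h : c.inf → |t - c.φ x θ| ≤ c.ε) (h' : |t - φ₁ x θ| ≤ η) :
    |t - (c.newIn k ω₁ η φ₁).φ x θ| ≤ η := by
  by_cases hi : c.inf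
  · have h1 := abs_le.1 (h hi)
    have h2 := abs_le.1 h'
    simp only [newIn, if_pos hi]
    rw [abs_le]
    rcases max_cases (c.φ x θ - c.ε) (min (c.φ x θ + c.ε) (φ₁ x θ)) with h3 | h3 <;>
      rcases min_cases (c.φ x θ + c.ε) (φ₁ x θ) with h4 | h4 <;>
      constructor <;> linarith [h3.1, h3.2, h4.1, h4.2]
  · simp only [newIn, if_neg hi]
    exact h'

theorem CG1_ivt {Φ : Th → ℝ} (hΦ : Continuous Φ) {ρ : ℕ} {θ θ' τ : Th} (h : ag ρ θ τ)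
    (h' : ag ρ θ' τ) {t : ℝ} (ht : t ∈ uIcc (Φ θ) (Φ θ')) : ∃ θ'', ag ρ θ'' τ ∧ Φ θ'' = t := by
  have e : {x : Th | ag ρ x τ} = univ.pi fun n => if n < ρ then {τ n} else univ := by
    ext x
    simp only [mem_ofPred_eq, ag, Set.mem_pi, mem_univ, true_imp_iff]
    refine forall_congr' fun n => ?_
    split_ifs with hn <;> simp [hn]
  have hc : IsPreconnected {x : Th | ag ρ x τ} := by
    rw [e]
    refine isPreconnected_univ_pi fun n => ?_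
    split_ifs
    · exact isPreconnected_singleton
    · exact isPreconnected_univ
  rcases le_total (Φ θ) (Φ θ') with h1 | h1
  · rw [uIcc_of_le h1] at ht
    exact hc.intermediate_value h h' hΦ.continuousOn ht
  · rw [uIcc_of_ge h1] at ht
    exact hc.intermediate_value h' h hΦ.continuousOn ht

theorem newCp_ok (h : c.Ok) {k : ℕ} (hk : c.r ≤ k) (ω₀ : ℕ → ℕ) {τ₀ : Th} (hτ : ∀ n, IsRat (τ₀ n))
    {N s : Set Th} (hN : IsClosed N) (hs : IsOpen s) (hNs : N ⊆ s)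
    (hu : ∀ f ∈ s, ag (c.ρ f) (c.τ f) τ₀) {lam : Th → ℝ} (hl : Continuous lam)
    (h0 : ∀ f, 0 ≤ lam f ∧ lam f ≤ 1) (h1 : ∀ f ∈ N, lam f = 1) (h2 : ∀ f ∉ s, lam f = 0) :
    (c.newCp k ω₀ τ₀ N lam).Ok := by
  refine ⟨h.ε_pos, fun f => ?_, h.φ_cont, fun x θ θ' hθ => h.φ_dep x θ θ' (ag.mono hθ hk),
    fun f Φ Φ' d hd => ?_, fun Φ hΦ => ?_, fun f Φ hΦ => ?_, fun f₀ => ?_, fun f n => ?_⟩
  · simp only [newCp]
    split_ifs
    · exact le_rfl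
    · exact (h.ρ_le f).trans hk
  · have h3 := abs_le.1 (h.lip f Φ Φ' d hd)
    have h4 := abs_le.1 (hd τ₀)
    have h5 := h0 f
    simp only [newCp]
    rw [abs_le]
    constructor <;> nlinarith
  · exact ((continuous_const.sub (hl.comp continuous_snd)).mul (h.cont Φ hΦ)).add
      ((hl.comp continuous_snd).mul (hΦ.uncurry_right τ₀))
  · by_cases hf : f ∈ N
    · refine ⟨τ₀, ?_, ?_⟩
      · simp only [newCp, if_pos hf]
        exact ag.refl _ _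
      · simp only [newCp, h1 f hf, sub_self, zero_mul, one_mul, zero_add]
    · obtain ⟨θ, h3, h4⟩ := h.rng f Φ hΦ
      simp only [newCp, if_neg hf]
      by_cases hf' : f ∈ s
      · have h5 := h0 f
        refine CG1_ivt hΦ h3 (hu f hf').symm ?_
        rw [← h4]
        rcases le_total (Φ θ) (Φ τ₀) with h6 | h6
        · rw [uIcc_of_le h6]
          constructor <;> nlinarith
        · rw [uIcc_of_ge h6]
          constructor <;> nlinarith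
      · exact ⟨θ, h3, by simp only [h2 f hf', sub_zero, zero_mul, one_mul, add_zero, h4]⟩
  · by_cases hf₀ : f₀ ∈ N
    · filter_upwards [hs.mem_nhds (hNs hf₀)] with f hf
      simp only [newCp, if_pos hf₀]
      split_ifs
      · exact ⟨le_rfl, ag.refl _ _⟩
      · exact ⟨(h.ρ_le f).trans hk, hu f hf⟩
    · filter_upwards [hN.isOpen_compl.mem_nhds hf₀, h.usc f₀] with f hf hf'
      simp only [newCp, if_neg hf₀, if_neg (show f ∉ N from hf)]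
      exact hf'
  · simp only [newCp]
    split_ifs
    · exact hτ n
    · exact h.τ_rat f n

theorem newCp_ext (h : c.Ok) {k : ℕ} (hk : c.r ≤ k) {ω₀ : ℕ → ℕ} (hω : ag c.r c.ω ω₀) {τ₀ : Th}
    {N s : Set Th} (hNs : N ⊆ s) (hu : ∀ f ∈ s, ag (c.ρ f) (c.τ f) τ₀) {lam : Th → ℝ}
    (h0 : ∀ f, 0 ≤ lam f ∧ lam f ≤ 1) (h2 : ∀ f ∉ s, lam f = 0) {K K' : ℕ} (hK : K < K') {a : G2}
    (hd : c.inf → ∀ f ∈ s, |c.φ (a, f) τ₀ - c.ψ (a, f)| ≤ c.ε * (1 / 2) ^ (K + 1)) :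
    c.Ext K (c.newCp k ω₀ τ₀ N lam) K' a := by
  refine ⟨hk, hω, fun f => ?_, fun hi => ⟨hi, fun f => ?_⟩⟩
  · simp only [newCp]
    split_ifs with hf
    · exact ⟨(h.ρ_le f).trans hk, hu f (hNs hf)⟩
    · exact ⟨le_rfl, ag.refl _ _⟩
  · have he := h.ε_pos
    have h3 : (1 / 2 : ℝ) ^ K' ≤ (1 / 2) ^ (K + 1) :=
      pow_le_pow_of_le_one (by norm_num) (by norm_num) hK
    have h4 := mul_le_mul_of_nonneg_left h3 he.le
    have h5 : c.ε * (1 / 2 : ℝ) ^ K = 2 * (c.ε * (1 / 2) ^ (K + 1)) := by ring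
    have h6 : (c.newCp k ω₀ τ₀ N lam).pot K' = 3 * c.ε + c.ε * (1 / 2) ^ K' := rfl
    have h7 : (c.newCp k ω₀ τ₀ N lam).ψ (a, f) - c.ψ (a, f)
        = lam f * (c.φ (a, f) τ₀ - c.ψ (a, f)) := by
      simp only [newCp, ψ]
      ring
    have h8 : |lam f * (c.φ (a, f) τ₀ - c.ψ (a, f))| ≤ c.ε * (1 / 2) ^ (K + 1) := by
      by_cases hf : f ∈ s
      · rw [abs_mul, abs_of_nonneg (h0 f).1]
        exact (mul_le_of_le_one_left (abs_nonneg _) (h0 f).2).trans (hd hi f hf)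
      · rw [h2 f hf, zero_mul, abs_zero]
        positivity
    rw [h7, h6, pot]
    linarith

end CD

end Pool.Agent.Work.MP_f50f0f_gt
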