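import Pool.Agent.Work.MP_f50f0f_gt.CG1

/-! Positions of the game and the elementary moves. -/

namespace Pool.Agent.Work.MP_f50f0f_gt
open Function Set Filter Topology

/-- Positions.  `u` is the new coordinate function, `(k, A, m, E)` the condition on the members,
`cd` the data of the cells, `nf` the cones of the centres, `rf` and `pf` the rules for copying
levels of fibres. -/
structure GS where
  K : ℕ
  M : ℕ
  k : ℕ
  m : ℕ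
  A : Set Lb
  u : Co
  E : ℕ → Co
  𝓜 : Set Mem
  nf : ℕ → G2 → Prop
  cd : Cell → CD
  rf : Lb → (ℕ → Co) → ℕ → ℕ
  pf : Lb → (ℕ → Co) → ℕ → G2 → ℕ → Vl

/-- The fibres `c` and `c'` look alike up to level `j`. -/
def agF (K j : ℕ) (c : Lb) (W : ℕ → Co) (c' : Lb) (W' : ℕ → Co) : Prop :=
  ag K c c' ∧ ∀ n < K, ∀ j' ≤ j, ∀ a, nrm j' a → W n (pt j' a c) = W' n (pt j' a c')

/-- The region of a centre of infinite height. -/
def inC (K : ℕ) (a₀ : G2) (g₀ w₀ : ℕ → ℕ) (q : Cell) : Prop :=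
  (K : ℕ∞) ≤ q.h ∧ ag K a₀ q.a ∧ ag K g₀ q.g ∧ ag K w₀ q.v

/-- A slab. -/
def inS (K : ℕ) (g₀ w₀ : ℕ → ℕ) (q : Cell) : Prop := (K : ℕ∞) ≤ q.h ∧ ag K g₀ q.g ∧ ag K w₀ q.v

theorem CG2_Wu {u u' : Co} {y : Pt} (h : u y = u' y) (V : ℕ → Co) (n : ℕ) :
    Wu u V n y = Wu u' V n y := by
  cases n with
  | zero => simp only [Wu, mo, h]
  | succ n => rfl

theorem CG2_cel {u u' : Co} {y : Pt} (h : u y = u' y) (V : ℕ → Co) :
    cel (Wu u V) y = cel (Wu u' V) y ∧ fv (Wu u V) y = fv (Wu u' V) y := by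
  refine ⟨?_, funext fun n => congrArg Prod.snd (CG2_Wu h V n)⟩
  have : mkr (Wu u V) y = mkr (Wu u' V) y := funext fun n => congrArg Prod.fst (CG2_Wu h V n)
  simp only [cel, this]

theorem CG2_simK_mono {K K' : ℕ} {q q' : Cell} (h : simK K' q q') (hK : K ≤ K') : simK K q q' :=
  ⟨h.1.imp_right fun a => ⟨(Nat.cast_le.2 hK).trans a.1, (Nat.cast_le.2 hK).trans a.2⟩,
    h.2.1.mono hK, h.2.2.1.mono hK, h.2.2.2.mono hK⟩

theorem CG2_simK_symm {K : ℕ} {q q' : Cell} (h : simK K q q') : simK K q' q :=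
  ⟨h.1.imp Eq.symm And.symm, h.2.1.symm, h.2.2.1.symm, h.2.2.2.symm⟩

theorem CG2_inS {K : ℕ} {g w : ℕ → ℕ} {q q' : Cell} (h : simK K q q') (i : inS K g w q) :
    inS K g w q' :=
  ⟨h.1.elim (fun e => e ▸ i.1) And.right, i.2.1.trans h.2.2.1, i.2.2.trans h.2.2.2⟩

theorem CG2_inC {K : ℕ} {a : G2} {g w : ℕ → ℕ} {q q' : Cell} (h : simK K q q')
    (i : inC K a g w q) : inC K a g w q' :=
  ⟨h.1.elim (fun e => e ▸ i.1) And.right, i.2.1.trans h.2.1, i.2.2.1.trans h.2.2.1,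
    i.2.2.2.trans h.2.2.2⟩

theorem CG2_agF_mono {K K' j j' : ℕ} {c c' : Lb} {W W' : ℕ → Co} (h : agF K' j' c W c' W')
    (hK : K ≤ K') (hj : j ≤ j') : agF K j c W c' W' :=
  ⟨h.1.mono hK, fun n hn i hi => h.2 n (hn.trans_le hK) i (hi.trans hj)⟩

theorem CG2_agF_symm {K j : ℕ} {c c' : Lb} {W W' : ℕ → Co} (h : agF K j c W c' W') :
    agF K j c' W' c W :=
  ⟨h.1.symm, fun n hn i hi a ha => (h.2 n hn i hi a ha).symm⟩

theorem CG2_agF_trans {K j : ℕ} {c c' c'' : Lb} {W W' W'' : ℕ → Co} (h : agF K j c W c' W')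
    (h' : agF K j c' W' c'' W'') : agF K j c W c'' W'' :=
  ⟨h.1.trans h'.1, fun n hn i hi a ha => (h.2 n hn i hi a ha).trans (h'.2 n hn i hi a ha)⟩

theorem CG2_half {K K' : ℕ} (h : K ≤ K') : (1 / 2 : ℝ) ^ K' ≤ (1 / 2) ^ K :=
  pow_le_pow_of_le_one (by norm_num) (by norm_num) h

namespace GS
variable (fr : Fr) (σ : GS)

def tch : Set Pt := fr.tch σ.A σ.m
def W : ℕ → Co := Wu σ.u fr.V

/-- The invariants of a position. -/
structure Inv : Prop where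
  K_pos : 1 ≤ σ.K
  fin : σ.A.Finite
  loc : ∀ q q', simK σ.K q q' → σ.cd q = σ.cd q'
  ok : ∀ q, (σ.cd q).Ok
  r_le : ∀ q, (σ.cd q).r ≤ σ.k
  wild : ∀ q, σ.M < q.v 0 → (σ.cd q).r = 0
  free : ∀ (q : Cell) (j : ℕ), q.h = j → ¬ σ.nf j q.a →
    ∀ f, (σ.cd q).Θ f = med ∧ (σ.cd q).ρ f = 0
  bud : ∀ j, av j (ind (σ.nf j)) + (1 / 2) ^ σ.K ≤ (1 / 50 : ℝ)
  floc : ∀ c W c' W' j, agF σ.K j c W c' W' → σ.rf c W j = σ.rf c' W' j ∧ σ.pf c W j = σ.pf c' W' j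
  fk : ∀ c W j, σ.rf c W j ≤ σ.k
  fcon : ∀ c W j, ∀ n < σ.rf c W j, n < σ.rf c W 0 ∧
    ((σ.pf c W 0 a0 n).1 ≠ 0 → 1 ≤ j → Con j fun a => (σ.pf c W j a n).2)
  frat : ∀ c W j a n, IsRat (σ.pf c W j a n).2
  fB : ∀ c W j, 0 < σ.rf c W j → ∀ a, nrm j a → (σ.cd (cel W (pt j a c))).r ≤ σ.rf c W j ∧
    (σ.cd (cel W (pt j a c))).T (a, fv W (pt j a c)) (σ.pf c W j a)
  fh : ∀ c W j, σ.K ≤ j → σ.rf c W j = 0
  fwild : ∀ c W j, σ.M < (W 0 (pt j a0 c)).1 → σ.rf c W j = 0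
  gu : Good σ.u
  gE : ∀ n, Good (σ.E n)
  mok : ∀ x ∈ σ.𝓜, Ok fr.Y fr.V x
  mem : ∀ x ∈ σ.𝓜, agE σ.k (σ.tch fr) σ.E x.1
  es : fr.ES σ.k σ.A σ.m σ.E σ.𝓜
  S : ∀ x ∈ σ.𝓜, ∀ y ∈ fr.Y, ∀ u', (σ.cd (cel (Wu u' fr.V) y)).inf →
    ag (σ.cd (cel (Wu u' fr.V) y)).r (mkr x.1 y) (σ.cd (cel (Wu u' fr.V) y)).ω →
    |x.2 y - (σ.cd (cel (Wu u' fr.V) y)).φ (y.a, fv (Wu u' fr.V) y) (fv x.1 y)| ≤
      (σ.cd (cel (Wu u' fr.V) y)).ε
  T : ∀ y ∈ σ.tch fr, (σ.cd (cel (σ.W fr) y)).T (y.a, fv (σ.W fr) y) fun n => σ.E n y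
  T' : ∀ y ∈ σ.tch fr, y.h = ⊤ →
    (σ.cd (cel (σ.W fr) y)).ρ (fv (σ.W fr) y) = (σ.cd (cel (σ.W fr) y)).r
  TF : ∀ c j a, pt j a c ∈ σ.tch fr → ∀ n < σ.rf c (σ.W fr) j,
    σ.E n (pt j a c) = σ.pf c (σ.W fr) j a n

/-- `σ'` is a later position. -/
structure Ext (σ' : GS) : Prop where
  K : σ.K ≤ σ'.K
  k : σ.k ≤ σ'.k
  A : σ.A ⊆ σ'.A
  m : σ.m ≤ σ'.m
  𝓜 : σ'.𝓜 ⊆ σ.𝓜
  E : agE σ.k (σ.tch fr) σ.E σ'.E
  u : EqOn σ.u σ'.u (σ.tch fr)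
  cd : ∀ q, (σ.cd q).Ext σ.K (σ'.cd q) σ'.K q.a
  rf : ∀ c W j, σ.rf c W j ≤ σ'.rf c W j ∧
    ∀ a, nrm j a → ag (σ.rf c W j) (σ.pf c W j a) (σ'.pf c W j a)

variable {fr σ}

theorem Ext.tch {σ' : GS} (h : σ.Ext fr σ') : σ.tch fr ⊆ σ'.tch fr := Fr.tch_mono h.A h.m

theorem Ext.refl (h : σ.Inv fr) : σ.Ext fr σ :=
  ⟨le_rfl, le_rfl, Subset.rfl, le_rfl, Subset.rfl, fun _ _ _ _ => rfl, fun _ _ => rfl,
    fun q => CD.Ext.of_le (h.ok q) le_rfl _, fun _ _ _ => ⟨le_rfl, fun _ _ => ag.refl _ _⟩⟩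

theorem Ext.trans {σ' σ'' : GS} (h : σ.Ext fr σ') (h' : σ'.Ext fr σ'') : σ.Ext fr σ'' :=
  ⟨h.K.trans h'.K, h.k.trans h'.k, h.A.trans h'.A, h.m.trans h'.m, h'.𝓜.trans h.𝓜,
    fun n hn y hy => (h.E n hn y hy).trans (h'.E n (hn.trans_le h.k) y (h.tch hy)),
    fun _ hy => (h.u hy).trans (h'.u (h.tch hy)), fun q => (h.cd q).trans (h'.cd q),
    fun c W j => ⟨(h.rf c W j).1.trans (h'.rf c W j).1, fun a ha =>
      ((h.rf c W j).2 a ha).trans (((h'.rf c W j).2 a ha).mono (h.rf c W j).1)⟩⟩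

theorem Inv.nonempty (h : σ.Inv fr) : σ.𝓜.Nonempty := by
  by_contra h'
  rw [not_nonempty_iff_eq_empty] at h'
  exact h.es.not_small h.gE (h' ▸ Fr.small_empty)

/-- A change of the condition: new bound `M'`, new `u'`, new condition on the members and a new
family; the data of cells and the rules stay.  Only the new touched points have to be checked. -/
theorem change (h : σ.Inv fr) {M' k' m' : ℕ} {A' : Set Lb} {u' : Co} {E' : ℕ → Co}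
    {𝓜' : Set Mem} (hM : σ.M ≤ M') (hk : σ.k ≤ k') (hm : σ.m ≤ m') (hA : σ.A ⊆ A')
    (hA' : A'.Finite) (hu : Good u') (hE : ∀ n, Good (E' n)) (hu' : EqOn σ.u u' (σ.tch fr))
    (hE' : agE σ.k (σ.tch fr) σ.E E') (h𝓜 : 𝓜' ⊆ σ.𝓜)
    (hmem : ∀ x ∈ 𝓜', agE k' (fr.tch A' m') E' x.1) (hes : fr.ES k' A' m' E' 𝓜')
    (hT : ∀ y ∈ fr.tch A' m', y ∉ σ.tch fr →
      (σ.cd (cel (Wu u' fr.V) y)).T (y.a, fv (Wu u' fr.V) y) (fun n => E' n y) ∧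
      (y.h = ⊤ → (σ.cd (cel (Wu u' fr.V) y)).ρ (fv (Wu u' fr.V) y) =
        (σ.cd (cel (Wu u' fr.V) y)).r))
    (hF : ∀ c j a, pt j a c ∈ fr.tch A' m' → pt j a c ∉ σ.tch fr →
      ∀ n < σ.rf c (Wu u' fr.V) j, E' n (pt j a c) = σ.pf c (Wu u' fr.V) j a n) :
    Inv fr { σ with M := M', k := k', m := m', A := A', u := u', E := E', 𝓜 := 𝓜' } ∧
    σ.Ext fr { σ with M := M', k := k', m := m', A := A', u := u', E := E', 𝓜 := 𝓜' } := by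
  refine ⟨{ h with
      fin := hA'
      r_le := fun q => (h.r_le q).trans hk
      wild := fun q a => h.wild q (hM.trans_lt a)
      fk := fun c W j => (h.fk c W j).trans hk
      fwild := fun c W j a => h.fwild c W j (hM.trans_lt a)
      gu := hu
      gE := hE
      mok := fun x hx => h.mok x (h𝓜 hx)
      mem := hmem
      es := hes
      S := fun x hx => h.S x (h𝓜 hx)
      T := fun y hy => ?_
      T' := fun y hy e => ?_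
      TF := fun c j a hy n hn => ?_ },
    le_rfl, hk, hA, hm, h𝓜, hE', hu', fun q => CD.Ext.of_le (h.ok q) le_rfl _,
    fun _ _ _ => ⟨le_rfl, fun _ _ => ag.refl _ _⟩⟩
  · change (σ.cd (cel (Wu u' fr.V) y)).T (y.a, fv (Wu u' fr.V) y) fun n => E' n y
    by_cases o : y ∈ σ.tch fr
    · obtain ⟨e1, e2⟩ := CG2_cel (hu' o) fr.V
      rw [← e1, ← e2]
      exact (h.T y o).congr (h.ok _) fun n hn => hE' n (hn.trans_le (h.r_le _)) y o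
    · exact (hT y hy o).1
  · change (σ.cd (cel (Wu u' fr.V) y)).ρ (fv (Wu u' fr.V) y) = (σ.cd (cel (Wu u' fr.V) y)).r
    by_cases o : y ∈ σ.tch fr
    · obtain ⟨e1, e2⟩ := CG2_cel (hu' o) fr.V
      rw [← e1, ← e2]
      exact h.T' y o e
    · exact (hT y hy o).2 e
  · change n < σ.rf c (Wu u' fr.V) j at hn
    change E' n (pt j a c) = σ.pf c (Wu u' fr.V) j a n
    by_cases o : pt j a c ∈ σ.tch fr
    · obtain ⟨-, o1, o2, o3⟩ := Fr.pt_tch.1 o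
      obtain ⟨e1, e2⟩ := h.floc c (σ.W fr) c (Wu u' fr.V) j ⟨ag.refl _ _, fun i _ j' hj a' ha =>
        CG2_Wu (hu' (Fr.pt_tch.2 ⟨ha, o1, o2, hj.trans o3⟩)) _ i⟩
      rw [← e1] at hn
      rw [← e2, ← h.TF c j a o n hn]
      exact (hE' n (hn.trans_le (h.fk _ _ _)) _ o).symm
    · exact hF c j a hy o n hn

/-- The move of the adversary: the new touched points get large markers. -/
theorem adv (h : σ.Inv fr) {ι : Type} [Countable ι] (𝓐 : ι → Set Mem) (kk : ι → ℕ)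
    (hc : ∀ x ∈ σ.𝓜, ∃ i, x ∈ 𝓐 i) (hk : ∀ i, σ.k ≤ kk i) {M' : ℕ} (hM : σ.M ≤ M') :
    ∃ i σ', σ'.Inv fr ∧ σ.Ext fr σ' ∧ σ'.K = σ.K ∧ σ'.cd = σ.cd ∧ σ'.rf = σ.rf ∧ σ'.pf = σ.pf ∧
      σ'.k = kk i ∧ σ'.M = M' ∧ σ'.𝓜 ⊆ 𝓐 i ∧ ∀ y ∈ σ'.tch fr, y ∉ σ.tch fr → M' < (σ'.u y).1 := by
  classical
  obtain ⟨i, hi⟩ : ∃ i, ¬ fr.Small (σ.𝓜 ∩ 𝓐 i) := by
    by_contra! c
    exact h.es.not_small h.gE ((Fr.small_iUnion c).mono fun x hx =>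
      let ⟨i, a⟩ := hc x hx; mem_iUnion.2 ⟨i, hx, a⟩)
  obtain ⟨E', A', m', hE, hA', hA, hm, hes⟩ :=
    Fr.split hi (fun x hx => (h.mok x hx.1).rat) (kk i) h.fin σ.m
  have hes' := hes.refine hA' Subset.rfl le_rfl (E' := E') fun _ _ _ _ => rfl
  obtain ⟨x, hx⟩ : {x | x ∈ σ.𝓜 ∩ 𝓐 i ∧ agE (kk i) (fr.tch A' m') E' x.1}.Nonempty := by
    by_contra c
    rw [not_nonempty_iff_eq_empty] at c
    exact hes'.not_small hE (c ▸ Fr.small_empty)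
  let u' : Co := fun y => if y ∈ σ.tch fr then σ.u y else (M' + 1, dfl y.h.toNat y.a)
  have u1 : ∀ y ∈ σ.tch fr, u' y = σ.u y := fun y a => if_pos a
  have u2 : ∀ y ∉ σ.tch fr, u' y = (M' + 1, dfl y.h.toNat y.a) := fun y a => if_neg a
  have hu : Good u' := by
    refine ⟨fun y => ?_, fun c e j hj => ?_⟩
    · by_cases o : y ∈ σ.tch fr
      · rw [u1 y o]
        exact h.gu.1 y
      · rw [u2 y o]
        exact isRat_dfl _ _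
    · by_cases o : c ∈ fr.P ∧ c ∈ σ.A ∧ j ≤ σ.m
      · rw [u1 (root c) (Fr.pt_tch.2 ⟨nrm_a0 _, o.1, o.2.1, Nat.zero_le _⟩)] at e
        exact (h.gu.2 c e j hj).congr fun a ha => by rw [u1 _ (Fr.pt_tch.2 ⟨ha, o⟩)]
      · exact (con_dfl hj).congr fun a ha => by
          rw [u2 _ fun b => o (Fr.pt_tch.1 b).2]
          rfl
  obtain ⟨a, b⟩ := change h hM (hk i) hm hA hA' hu hE (fun y o => (u1 y o).symm)
    (fun n hn y o => (h.mem x hx.1.1 n hn y o).trans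
      (hx.2 n (hn.trans_le (hk i)) y (Fr.tch_mono hA hm o)).symm)
    (𝓜' := {x | x ∈ σ.𝓜 ∩ 𝓐 i ∧ agE (kk i) (fr.tch A' m') E' x.1}) (fun x a => a.1.1)
    (fun x a => a.2) hes' (fun y _ o => by
      have r0 : (σ.cd (cel (Wu u' fr.V) y)).r = 0 := h.wild _ (by
        change σ.M < (u' y).1
        rw [u2 y o]
        exact Nat.lt_succ_of_le hM)
      exact ⟨CD.T_zero (h.ok _) r0 _ _, fun _ =>
        le_antisymm ((h.ok _).ρ_le _) (r0.le.trans (Nat.zero_le _))⟩)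
    (fun c j a hy o n hn => by
      rw [h.fwild c _ j (by
        change σ.M < (u' (pt j a0 c)).1
        rw [u2 _ fun b => o (Fr.pt_tch.2 ⟨(Fr.pt_tch.1 hy).1, (Fr.pt_tch.1 b).2⟩)]
        exact Nat.lt_succ_of_le hM)] at hn
      exact absurd hn (Nat.not_lt_zero n))
  refine ⟨i, _, a, b, rfl, rfl, rfl, rfl, rfl, rfl, fun x a => a.1.2, fun y _ o => ?_⟩
  change M' < (u' y).1
  rw [u2 y o]
  exact Nat.lt_succ_self _

/-- New approximations on a slab. -/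
theorem modIn (h : σ.Inv fr) {K' : ℕ} (hK : σ.K ≤ K') {g₁ w₁ : ℕ → ℕ} (hM : w₁ 0 ≤ σ.M)
    (ω₁ : G2 → ℕ → ℕ) (η : G2 → ℝ) (φ₁ : G2 → G2 × Th → Th → ℝ)
    (hl : ∀ a a', ag K' a a' → ω₁ a = ω₁ a' ∧ η a = η a' ∧ φ₁ a = φ₁ a')
    (hφ : ∀ a, 0 < η a ∧ Continuous (uncurry (φ₁ a)) ∧
      ∀ x θ θ', ag σ.k θ θ' → φ₁ a x θ = φ₁ a x θ')
    (hq : ∀ q, inS K' g₁ w₁ q → ag (σ.cd q).r (σ.cd q).ω (ω₁ q.a) ∧ η q.a ≤ (σ.cd q).ε / 2)
    (ht : ∀ y ∈ σ.tch fr, ¬ inS K' g₁ w₁ (cel (σ.W fr) y))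
    (hi : ∀ x ∈ σ.𝓜, ∀ y ∈ fr.Y, ∀ u', inS K' g₁ w₁ (cel (Wu u' fr.V) y) →
      ag σ.k (mkr x.1 y) (ω₁ y.a) →
      |x.2 y - φ₁ y.a (y.a, fv (Wu u' fr.V) y) (fv x.1 y)| ≤ η y.a) :
    ∃ σ', σ'.Inv fr ∧ σ.Ext fr σ' ∧ σ'.K = K' ∧
      ∀ q, inS K' g₁ w₁ q → (σ'.cd q).inf ∧ (σ'.cd q).ε = η q.a := by
  classical
  let cd' : Cell → CD := fun q => if inS K' g₁ w₁ q then
    (σ.cd q).newIn σ.k (ω₁ q.a) (η q.a) (φ₁ q.a) else σ.cd q
  have c1 : ∀ q, inS K' g₁ w₁ q → cd' q = (σ.cd q).newIn σ.k (ω₁ q.a) (η q.a) (φ₁ q.a) :=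
    fun q a => if_pos a
  have c2 : ∀ q, ¬ inS K' g₁ w₁ q → cd' q = σ.cd q := fun q a => if_neg a
  refine ⟨{ σ with K := K', cd := cd' }, { h with
      K_pos := h.K_pos.trans hK
      loc := fun q q' (s : simK K' q q') => show cd' q = cd' q' from ?_
      ok := fun q => show (cd' q).Ok from ?_
      r_le := fun q => show (cd' q).r ≤ σ.k from ?_
      wild := fun q (a : σ.M < q.v 0) => show (cd' q).r = 0 from ?_
      free := fun q j e (n : ¬ σ.nf j q.a) f => show (cd' q).Θ f = med ∧ (cd' q).ρ f = 0 from ?_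
      bud := fun j => (add_le_add le_rfl (CG2_half hK)).trans (h.bud j)
      floc := fun c W c' W' j a => h.floc c W c' W' j (CG2_agF_mono a hK le_rfl)
      fB := fun c W j (p : 0 < σ.rf c W j) a ha => ?_
      fh := fun c W j a => h.fh c W j (hK.trans a)
      S := fun x hx y hy u' => ?_
      T := fun y hy => ?_
      T' := fun y hy e => ?_ },
    ⟨hK, le_rfl, Subset.rfl, le_rfl, Subset.rfl, fun _ _ _ _ => rfl, fun _ _ => rfl,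
      fun q => show (σ.cd q).Ext σ.K (cd' q) K' q.a from ?_,
      fun _ _ _ => ⟨le_rfl, fun _ _ => ag.refl _ _⟩⟩, rfl,
    fun q o => show (cd' q).inf ∧ (cd' q).ε = η q.a from ?_⟩
  · have e := h.loc q q' (CG2_simK_mono s hK)
    by_cases o : inS K' g₁ w₁ q
    · obtain ⟨e1, e2, e3⟩ := hl _ _ s.2.1
      rw [c1 q o, c1 q' (CG2_inS s o), e, e1, e2, e3]
    · rw [c2 q o, c2 q' fun b => o (CG2_inS (CG2_simK_symm s) b), e]
  · by_cases o : inS K' g₁ w₁ q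
    · rw [c1 q o]
      exact CD.newIn_ok (h.ok q) (h.r_le q) _ (hφ _).1 (hφ _).2.1 (hφ _).2.2
    · rw [c2 q o]
      exact h.ok q
  · by_cases o : inS K' g₁ w₁ q
    · rw [c1 q o]
      exact le_rfl
    · rw [c2 q o]
      exact h.r_le q
  · rw [c2 q fun o => (hM.trans_lt a).ne (o.2.2 0 (h.K_pos.trans hK))]
    exact h.wild q a
  · by_cases o : inS K' g₁ w₁ q
    · rw [c1 q o]
      exact h.free q j e n f
    · rw [c2 q o]
      exact h.free q j e n f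
  · change (cd' (cel W (pt j a c))).r ≤ σ.rf c W j ∧
      (cd' (cel W (pt j a c))).T (a, fv W (pt j a c)) (σ.pf c W j a)
    rw [c2 _ fun o => p.ne' (h.fh c W j (hK.trans (Nat.cast_le.1 o.1)))]
    exact h.fB c W j p a ha
  · change (cd' _).inf → ag (cd' _).r _ (cd' _).ω → |x.2 y - (cd' _).φ _ _| ≤ (cd' _).ε
    by_cases o : inS K' g₁ w₁ (cel (Wu u' fr.V) y)
    · rw [c1 _ o]
      exact fun _ b => CD.newIn_val (fun i => h.S x hx y hy u' i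
        ((ag.mono b (h.r_le _)).trans (hq _ o).1.symm)) (hi x hx y hy u' o b)
    · rw [c2 _ o]
      exact h.S x hx y hy u'
  · change (cd' (cel (σ.W fr) y)).T (y.a, fv (σ.W fr) y) fun n => σ.E n y
    rw [c2 _ (ht y hy)]
    exact h.T y hy
  · change (cd' (cel (σ.W fr) y)).ρ (fv (σ.W fr) y) = (cd' (cel (σ.W fr) y)).r
    rw [c2 _ (ht y hy)]
    exact h.T' y hy e
  · by_cases o : inS K' g₁ w₁ q
    · rw [c1 q o]
      exact CD.newIn_ext (h.ok q) (h.r_le q) (hq q o).1 (hφ _).1 (hq q o).2 _ _ _ _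
    · rw [c2 q o]
      exact CD.Ext.of_le (h.ok q) hK _
  · rw [c1 q o]
    exact ⟨trivial, rfl⟩

/-- A new centre of infinite height. -/
theorem modCp (h : σ.Inv fr) {K' k' : ℕ} (hK : σ.K < K') (hk : k' ≤ σ.k) {a₀ : G2}
    {g₀ w₀ ω₀ : ℕ → ℕ} {τ₀ : Th} (hM : w₀ 0 ≤ σ.M) (hτ : ∀ n, IsRat (τ₀ n)) {N s : Set Th}
    (hN : IsClosed N) (hs : IsOpen s) (hNs : N ⊆ s)
    (hq : ∀ q, inC K' a₀ g₀ w₀ q → (σ.cd q).r ≤ k' ∧ ag (σ.cd q).r (σ.cd q).ω ω₀ ∧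
      ∀ f ∈ s, ag ((σ.cd q).ρ f) ((σ.cd q).τ f) τ₀ ∧ ((σ.cd q).inf →
        |(σ.cd q).φ (q.a, f) τ₀ - (σ.cd q).ψ (q.a, f)| ≤ (σ.cd q).ε * (1 / 2) ^ (σ.K + 1)))
    (ht : ∀ y ∈ σ.tch fr, inC K' a₀ g₀ w₀ (cel (σ.W fr) y) →
      fv (σ.W fr) y ∈ N ∧ ∀ n < k', σ.E n y = (ω₀ n, τ₀ n)) :
    ∃ σ', σ'.Inv fr ∧ σ.Ext fr σ' ∧ σ'.K = K' ∧ σ'.M = σ.M ∧ σ'.k = σ.k ∧ σ'.m = σ.m ∧
      σ'.A = σ.A ∧ σ'.u = σ.u ∧ σ'.E = σ.E ∧ σ'.𝓜 = σ.𝓜 ∧ σ'.rf = σ.rf ∧ σ'.pf = σ.pf ∧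
      (∀ q, ¬ inC K' a₀ g₀ w₀ q → σ'.cd q = σ.cd q) ∧
      ∀ q, inC K' a₀ g₀ w₀ q → (σ'.cd q).r = k' ∧ (σ'.cd q).ω = ω₀ ∧ (σ'.cd q).φ = (σ.cd q).φ ∧
        (σ'.cd q).ε = (σ.cd q).ε ∧ ∀ f ∈ N, (σ'.cd q).ρ f = k' ∧ (σ'.cd q).τ f = τ₀ ∧
          ∀ Φ, (σ'.cd q).Θ f Φ = Φ τ₀ := by
  classical
  obtain ⟨lam, l0, l1, l2⟩ := exists_continuous_zero_one_of_isClosed hs.isClosed_compl hN
    (disjoint_compl_left_iff_subset.2 hNs)
  let cd' : Cell → CD := fun q => if inC K' a₀ g₀ w₀ q then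
    (σ.cd q).newCp k' ω₀ τ₀ N lam else σ.cd q
  have c1 : ∀ q, inC K' a₀ g₀ w₀ q → cd' q = (σ.cd q).newCp k' ω₀ τ₀ N lam := fun q a => if_pos a
  have c2 : ∀ q, ¬ inC K' a₀ g₀ w₀ q → cd' q = σ.cd q := fun q a => if_neg a
  have c3 : ∀ (c : CD), ∀ f ∈ N, (c.newCp k' ω₀ τ₀ N lam).ρ f = k' ∧
      (c.newCp k' ω₀ τ₀ N lam).τ f = τ₀ ∧ ∀ Φ, (c.newCp k' ω₀ τ₀ N lam).Θ f Φ = Φ τ₀ :=
    fun c f hf => ⟨if_pos hf, if_pos hf, fun Φ => by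
      change (1 - lam f) * c.Θ f Φ + lam f * Φ τ₀ = Φ τ₀
      rw [l1 hf]
      simp⟩
  let nf' : ℕ → G2 → Prop := fun j a => σ.nf j a ∨ (K' ≤ j ∧ ag K' a₀ a)
  refine ⟨{ σ with K := K', cd := cd', nf := nf' }, { h with
      K_pos := h.K_pos.trans hK.le
      loc := fun q q' (s : simK K' q q') => show cd' q = cd' q' from ?_
      ok := fun q => show (cd' q).Ok from ?_
      r_le := fun q => show (cd' q).r ≤ σ.k from ?_
      wild := fun q (a : σ.M < q.v 0) => show (cd' q).r = 0 from ?_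
      free := fun q j e (n : ¬ nf' j q.a) f => show (cd' q).Θ f = med ∧ (cd' q).ρ f = 0 from ?_
      bud := fun j => show av j (ind (nf' j)) + (1 / 2) ^ K' ≤ (1 / 50 : ℝ) from ?_
      floc := fun c W c' W' j a => h.floc c W c' W' j (CG2_agF_mono a hK.le le_rfl)
      fB := fun c W j (p : 0 < σ.rf c W j) a ha => ?_
      fh := fun c W j a => h.fh c W j (hK.le.trans a)
      S := fun x hx y hy u' => ?_
      T := fun y hy => ?_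
      T' := fun y hy e => ?_ },
    ⟨hK.le, le_rfl, Subset.rfl, le_rfl, Subset.rfl, fun _ _ _ _ => rfl, fun _ _ => rfl,
      fun q => show (σ.cd q).Ext σ.K (cd' q) K' q.a from ?_,
      fun _ _ _ => ⟨le_rfl, fun _ _ => ag.refl _ _⟩⟩, rfl, rfl, rfl, rfl, rfl, rfl, rfl, rfl, rfl,
    rfl, c2, fun q o => ?_⟩
  · have e := h.loc q q' (CG2_simK_mono s hK.le)
    by_cases o : inC K' a₀ g₀ w₀ q
    · rw [c1 q o, c1 q' (CG2_inC s o), e]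
    · rw [c2 q o, c2 q' fun b => o (CG2_inC (CG2_simK_symm s) b), e]
  · by_cases o : inC K' a₀ g₀ w₀ q
    · rw [c1 q o]
      exact CD.newCp_ok (h.ok q) (hq q o).1 _ hτ hN hs hNs (fun f hf => ((hq q o).2.2 f hf).1)
        lam.continuous l2 (fun f hf => l1 hf) fun f hf => l0 hf
    · rw [c2 q o]
      exact h.ok q
  · by_cases o : inC K' a₀ g₀ w₀ q
    · rw [c1 q o]
      exact hk
    · rw [c2 q o]
      exact h.r_le q
  · rw [c2 q fun o => (hM.trans_lt a).ne (o.2.2.2 0 (h.K_pos.trans hK.le))]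
    exact h.wild q a
  · rw [c2 q fun o => n (Or.inr ⟨Nat.cast_le.1 (o.1.trans_eq e), o.2.1⟩)]
    exact h.free q j e (fun b => n (Or.inl b)) f
  · have b := h.bud j
    have b1 := CG2_half (show σ.K + 1 ≤ K' from hK)
    have b2 : (0 : ℝ) ≤ (1 / 2) ^ σ.K := by positivity
    rw [pow_succ] at b1
    by_cases o : K' ≤ j
    · have : av j (ind (nf' j)) ≤ av j fun a => ind (σ.nf j) a + ind (fun a => ag K' a₀ a) a :=
        av_mono fun a _ => by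
          by_cases i1 : σ.nf j a <;> by_cases i2 : ag K' a₀ a <;> simp [ind, nf', i1, i2, o]
      rw [av_add, av_cone o] at this
      change _ ≤ av j (ind (σ.nf j)) + _ at this
      linarith
    · have : nf' j = σ.nf j := funext fun a => by simp [nf', o]
      rw [this]
      linarith
  · change (cd' (cel W (pt j a c))).r ≤ σ.rf c W j ∧
      (cd' (cel W (pt j a c))).T (a, fv W (pt j a c)) (σ.pf c W j a)
    rw [c2 _ fun o => p.ne' (h.fh c W j (hK.le.trans (Nat.cast_le.1 o.1)))]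
    exact h.fB c W j p a ha
  · change (cd' _).inf → ag (cd' _).r _ (cd' _).ω → |x.2 y - (cd' _).φ _ _| ≤ (cd' _).ε
    by_cases o : inC K' a₀ g₀ w₀ (cel (Wu u' fr.V) y)
    · rw [c1 _ o]
      exact fun i b => h.S x hx y hy u' i ((ag.mono b (hq _ o).1).trans (hq _ o).2.1.symm)
    · rw [c2 _ o]
      exact h.S x hx y hy u'
  · change (cd' (cel (σ.W fr) y)).T (y.a, fv (σ.W fr) y) fun n => σ.E n y
    by_cases o : inC K' a₀ g₀ w₀ (cel (σ.W fr) y)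
    · obtain ⟨t1, t2⟩ := ht y hy o
      obtain ⟨e1, e2, e3⟩ := c3 (σ.cd (cel (σ.W fr) y)) _ t1
      have t3 : ag k' (fun n => (σ.E n y).2) τ₀ := fun n hn => congrArg Prod.snd (t2 n hn)
      rw [c1 _ o]
      refine ⟨fun n hn => congrArg Prod.fst (t2 n hn), by rw [e1, e2]; exact t3, ?_⟩
      rw [CD.ψ, e3]
      change |(σ.cd _).φ _ _ - (σ.cd _).φ _ _| < (σ.cd _).ε
      rw [(h.ok _).φ_dep _ _ _ (t3.mono (hq _ o).1), sub_self, abs_zero]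
      exact (h.ok _).ε_pos
    · rw [c2 _ o]
      exact h.T y hy
  · change (cd' (cel (σ.W fr) y)).ρ (fv (σ.W fr) y) = (cd' (cel (σ.W fr) y)).r
    by_cases o : inC K' a₀ g₀ w₀ (cel (σ.W fr) y)
    · rw [c1 _ o]
      exact (c3 _ _ (ht y hy o).1).1
    · rw [c2 _ o]
      exact h.T' y hy e
  · by_cases o : inC K' a₀ g₀ w₀ q
    · rw [c1 q o]
      exact CD.newCp_ext (h.ok q) (hq q o).1 (hq q o).2.1 hNs (fun f hf => ((hq q o).2.2 f hf).1)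
        l2 (fun f hf => l0 hf) hK fun i f hf => ((hq q o).2.2 f hf).2 i
    · rw [c2 q o]
      exact CD.Ext.of_le (h.ok q) hK.le _
  · change (cd' q).r = k' ∧ (cd' q).ω = ω₀ ∧ (cd' q).φ = (σ.cd q).φ ∧ (cd' q).ε = (σ.cd q).ε ∧
      ∀ f ∈ N, (cd' q).ρ f = k' ∧ (cd' q).τ f = τ₀ ∧ ∀ Φ, (cd' q).Θ f Φ = Φ τ₀
    rw [c1 q o]
    exact ⟨rfl, rfl, rfl, rfl, c3 _⟩

/-- A new rule for copying the levels up to `j₀` of the fibre `g₀`. -/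
theorem modFin (h : σ.Inv fr) {K' k' j₀ : ℕ} (hK : σ.K ≤ K') (hj : j₀ < K') (hk : k' ≤ σ.k)
    {g₀ : Lb} {W₀ E₀ : ℕ → Co} (hE : ∀ n, Good (E₀ n))
    (hM : ∀ j ≤ j₀, (W₀ 0 (pt j a0 g₀)).1 ≤ σ.M)
    (he : ∀ j ≤ j₀, σ.rf g₀ W₀ j ≤ k' ∧ ∀ a, nrm j a → ∀ n < σ.rf g₀ W₀ j,
      σ.pf g₀ W₀ j a n = E₀ n (pt j a g₀))
    (hB : ∀ j ≤ j₀, ∀ c W, agF K' j g₀ W₀ c W → ∀ a, nrm j a → (σ.cd (cel W (pt j a c))).r ≤ k' ∧
      (σ.cd (cel W (pt j a c))).T (a, fv W (pt j a c)) fun n => E₀ n (pt j a g₀))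
    (ht : ∀ j ≤ j₀, ∀ c a, pt j a c ∈ σ.tch fr → ag K' g₀ c →
      ∀ n < k', σ.E n (pt j a c) = E₀ n (pt j a g₀)) :
    ∃ σ', σ'.Inv fr ∧ σ.Ext fr σ' ∧ σ'.K = K' ∧ σ'.M = σ.M ∧ σ'.k = σ.k ∧ σ'.m = σ.m ∧
      σ'.A = σ.A ∧ σ'.u = σ.u ∧ σ'.E = σ.E ∧ σ'.𝓜 = σ.𝓜 ∧ σ'.cd = σ.cd ∧
      (∀ c W j, ¬ ag K' g₀ c → σ'.rf c W j = σ.rf c W j) ∧
      ∀ j ≤ j₀, ∀ c W, agF K' j g₀ W₀ c W → σ'.rf c W j = k' ∧
        ∀ a n, σ'.pf c W j a n = E₀ n (pt j a g₀) := by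
  classical
  let Cn : Lb → (ℕ → Co) → ℕ → Prop := fun c W j => j ≤ j₀ ∧ agF K' j g₀ W₀ c W
  let rf' : Lb → (ℕ → Co) → ℕ → ℕ := fun c W j => if Cn c W j then k' else σ.rf c W j
  let pf' : Lb → (ℕ → Co) → ℕ → G2 → ℕ → Vl := fun c W j =>
    if Cn c W j then fun a n => E₀ n (pt j a g₀) else σ.pf c W j
  have c1 : ∀ c W j, Cn c W j → rf' c W j = k' ∧ pf' c W j = fun a n => E₀ n (pt j a g₀) :=
    fun c W j a => ⟨if_pos a, if_pos a⟩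
  have c2 : ∀ c W j, ¬ Cn c W j → rf' c W j = σ.rf c W j ∧ pf' c W j = σ.pf c W j :=
    fun c W j a => ⟨if_neg a, if_neg a⟩
  have ex : ∀ c W j, σ.rf c W j ≤ rf' c W j ∧
      ∀ a, nrm j a → ag (σ.rf c W j) (σ.pf c W j a) (pf' c W j a) := fun c W j => by
    by_cases o : Cn c W j
    · obtain ⟨e1, e2⟩ := h.floc _ _ _ _ j (CG2_agF_mono o.2 hK le_rfl)
      rw [(c1 c W j o).1, (c1 c W j o).2, ← e1, ← e2]
      exact he j o.1
    · rw [(c2 c W j o).1, (c2 c W j o).2]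
      exact ⟨le_rfl, fun _ _ => ag.refl _ _⟩
  refine ⟨{ σ with K := K', rf := rf', pf := pf' }, { h with
      K_pos := h.K_pos.trans hK
      loc := fun q q' s => h.loc q q' (CG2_simK_mono s hK)
      bud := fun j => (add_le_add le_rfl (CG2_half hK)).trans (h.bud j)
      floc := fun c W c' W' j (a : agF K' j c W c' W') =>
        show rf' c W j = rf' c' W' j ∧ pf' c W j = pf' c' W' j from ?_
      fk := fun c W j => show rf' c W j ≤ σ.k from ?_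
      fcon := fun c W j n (hn : n < rf' c W j) => show n < rf' c W 0 ∧
        ((pf' c W 0 a0 n).1 ≠ 0 → 1 ≤ j → Con j fun a => (pf' c W j a n).2) from ?_
      frat := fun c W j a n => show IsRat (pf' c W j a n).2 from ?_
      fB := fun c W j (p : 0 < rf' c W j) a ha => show (σ.cd (cel W (pt j a c))).r ≤ rf' c W j ∧
        (σ.cd (cel W (pt j a c))).T (a, fv W (pt j a c)) (pf' c W j a) from ?_
      fh := fun c W j (a : K' ≤ j) => show rf' c W j = 0 from ?_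
      fwild := fun c W j (a : σ.M < (W 0 (pt j a0 c)).1) => show rf' c W j = 0 from ?_
      TF := fun c j a hy n (hn : n < rf' c (σ.W fr) j) =>
        show σ.E n (pt j a c) = pf' c (σ.W fr) j a n from ?_ },
    ⟨hK, le_rfl, Subset.rfl, le_rfl, Subset.rfl, fun _ _ _ _ => rfl, fun _ _ => rfl,
      fun q => CD.Ext.of_le (h.ok q) hK _, ex⟩, rfl, rfl, rfl, rfl, rfl, rfl, rfl, rfl, rfl,
    fun c W j o => (c2 c W j fun b => o b.2.1).1,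
    fun j i c W o => ⟨(c1 c W j ⟨i, o⟩).1, fun a n => congrFun₂ (c1 c W j ⟨i, o⟩).2 a n⟩⟩
  · by_cases o : Cn c W j
    · have o' : Cn c' W' j := ⟨o.1, CG2_agF_trans o.2 a⟩
      rw [(c1 _ _ _ o).1, (c1 _ _ _ o).2, (c1 _ _ _ o').1, (c1 _ _ _ o').2]
      exact ⟨rfl, rfl⟩
    · have o' : ¬ Cn c' W' j := fun b => o ⟨b.1, CG2_agF_trans b.2 (CG2_agF_symm a)⟩
      rw [(c2 _ _ _ o).1, (c2 _ _ _ o).2, (c2 _ _ _ o').1, (c2 _ _ _ o').2]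
      exact h.floc c W c' W' j (CG2_agF_mono a hK le_rfl)
  · by_cases o : Cn c W j
    · rw [(c1 _ _ _ o).1]
      exact hk
    · rw [(c2 _ _ _ o).1]
      exact h.fk c W j
  · by_cases o : Cn c W j
    · have o' : Cn c W 0 := ⟨Nat.zero_le _, CG2_agF_mono o.2 le_rfl (Nat.zero_le _)⟩
      rw [(c1 _ _ _ o).1] at hn
      rw [(c1 _ _ _ o).2, (c1 _ _ _ o').1, (c1 _ _ _ o').2]
      exact ⟨hn, fun e => (hE n).2 g₀ e j⟩
    · rw [(c2 _ _ _ o).1] at hn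
      obtain ⟨a, b⟩ := h.fcon c W j n hn
      rw [(c2 _ _ _ o).2, ← (ex c W 0).2 a0 (nrm_a0 0) n a]
      exact ⟨a.trans_le (ex c W 0).1, b⟩
  · by_cases o : Cn c W j
    · rw [(c1 _ _ _ o).2]
      exact (hE n).1 _
    · rw [(c2 _ _ _ o).2]
      exact h.frat c W j a n
  · by_cases o : Cn c W j
    · rw [(c1 _ _ _ o).1, (c1 _ _ _ o).2]
      exact hB j o.1 c W o.2 a ha
    · rw [(c2 _ _ _ o).1] at p
      rw [(c2 _ _ _ o).1, (c2 _ _ _ o).2]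
      exact h.fB c W j p a ha
  · rw [(c2 c W j fun o => (hj.trans_le a).not_ge o.1).1]
    exact h.fh c W j (hK.trans a)
  · rw [(c2 c W j fun o => a.not_ge ?_).1]
    · exact h.fwild c W j a
    · rw [← o.2.2 0 (h.K_pos.trans hK) j le_rfl a0 (nrm_a0 j)]
      exact hM j o.1
  · by_cases o : Cn c (σ.W fr) j
    · rw [(c1 _ _ _ o).1] at hn
      rw [(c1 _ _ _ o).2]
      exact ht j o.1 c a hy o.2.1 n hn
    · rw [(c2 _ _ _ o).1] at hn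
      rw [(c2 _ _ _ o).2]
      exact h.TF c j a hy n hn

end GS

end Pool.Agent.Work.MP_f50f0f_gt
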