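import Pool.Agent.Work.MP_f50f0f_gt.CG2

/-! Filling in the touched points. -/

namespace Pool.Agent.Work.MP_f50f0f_gt
open Function Set Filter Topology

namespace GS
variable {fr : Fr} {σ : GS}

/-- Tame values on a level of a fibre. -/
theorem tame (h : σ.Inv fr) (c : Lb) (W : ℕ → Co) (j : ℕ) : ∃ Λ : G2 → ℕ → Vl,
    (∀ a n, IsRat (Λ a n).2) ∧
    (∀ a, nrm j a → (σ.cd (cel W (pt j a c))).T (a, fv W (pt j a c)) (Λ a)) ∧
    (∀ a, nrm j a → ∀ n < σ.rf c W j, Λ a n = σ.pf c W j a n) ∧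
    ∀ n, σ.rf c W j ≤ n → 1 ≤ j → Con j fun a => (Λ a n).2 := by
  classical
  rcases Nat.eq_zero_or_pos (σ.rf c W j) with h0 | h0
  · have hc : ∀ a, Continuous ((σ.cd (cel W (pt j a c))).φ (a, fv W (pt j a c))) := fun a =>
      (h.ok _).φ_cont.uncurry_left _
    choose θ hθ1 hθ2 hθ3 using fun a =>
      (h.ok (cel W (pt j a c))).exists_rat (a, fv W (pt j a c)) (h.ok (cel W (pt j a c))).ε_pos
    choose u w hu hw hu' hw' hfar using fun a => med_far (hc a) (h.ok (cel W (pt j a c))).ε_pos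
    have hb : av j (ind (σ.nf j)) ≤ 1 / 50 := by
      have h1 := h.bud j
      have h2 : (0 : ℝ) ≤ (1 / 2) ^ σ.K := by positivity
      linarith
    obtain ⟨cc, hcc, hcon⟩ := cell_lemma j (σ.nf j) u w hb fun a _ => hfar a
    refine ⟨fun a n => ((σ.cd (cel W (pt j a c))).ω n, if σ.nf j a then θ a n else cc a),
      fun a n => ?_, fun a _ => ?_, fun a _ n hn => absurd hn (by omega), fun n _ _ => ?_⟩
    · dsimp only
      split_ifs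
      · exact hθ1 a n
      · rcases hcc a with e | e <;> rw [e]
        exacts [hu a, hw a]
    · by_cases hn : σ.nf j a
      · simp only [CD.T, if_pos hn]
        exact ⟨ag.refl _ _, hθ2 a, hθ3 a⟩
      · obtain ⟨h1, h2⟩ := h.free (cel W (pt j a c)) j rfl hn (fv W (pt j a c))
        simp only [CD.T, if_neg hn, CD.ψ, h1, h2]
        refine ⟨ag.refl _ _, fun n hn => absurd hn (Nat.not_lt_zero n), ?_⟩
        rcases hcc a with e | e <;> rw [e]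
        exacts [hu' a, hw' a]
    · exact hcon _ fun a ha => if_neg ha
  · refine ⟨fun a n => if n < σ.rf c W j then σ.pf c W j a n else (0, dfl j a),
      fun a n => ?_, fun a ha => ?_, fun a _ n hn => if_pos hn, fun n hn hj => ?_⟩
    · dsimp only
      split_ifs
      · exact h.frat c W j a n
      · exact isRat_dfl j a
    · obtain ⟨h1, h2⟩ := h.fB c W j h0 a ha
      exact CD.T.congr (h.ok _) h2 fun n hn => (if_pos (hn.trans_le h1)).symm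
    · refine (con_dfl hj).congr fun a _ => ?_
      simp only [if_neg (not_lt.2 hn)]

/-- A change of the bound and of the new coordinate function off the touched points. -/
theorem cg3_same (h : σ.Inv fr) {M' : ℕ} (hM : σ.M ≤ M') {u' : Co} (hu : Good u')
    (hu' : EqOn σ.u u' (σ.tch fr)) : ∃ σ', σ'.Inv fr ∧ σ.Ext fr σ' ∧ σ'.A = σ.A ∧ σ'.m = σ.m ∧
      σ'.u = u' ∧ σ'.M = M' := by
  obtain ⟨h1, h2⟩ := change h hM le_rfl le_rfl Subset.rfl h.fin hu h.gE hu'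
    (fun _ _ _ _ => rfl) Subset.rfl h.mem h.es (fun y hy hy' => absurd hy hy')
    fun c j a hy hy' => absurd hy hy'
  exact ⟨_, h1, h2, rfl, rfl, rfl, rfl⟩

theorem cg3_pt_ne (j : ℕ) (a a' : G2) (c c' : Lb) : pt j a c ≠ ⟨⊤, a', c'⟩ := fun e =>
  ENat.natCast_ne_top j (congrArg Pt.h e)

/-- Preparing the cell of an untouched point of infinite height. -/
theorem cg3_prep (h : σ.Inv fr) {b : Lb} (hA : b ∉ σ.A) (a : G2) :
    ∃ σ', σ'.Inv fr ∧ σ.Ext fr σ' ∧ σ'.A = σ.A ∧ σ'.m = σ.m ∧ σ'.u = σ.u ∧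
      ∃ θ : Th, (∀ n, IsRat (θ n)) ∧
        (σ'.cd (cel (σ'.W fr) ⟨⊤, a, b⟩)).ρ (fv (σ'.W fr) ⟨⊤, a, b⟩) =
          (σ'.cd (cel (σ'.W fr) ⟨⊤, a, b⟩)).r ∧
        (σ'.cd (cel (σ'.W fr) ⟨⊤, a, b⟩)).T (a, fv (σ'.W fr) ⟨⊤, a, b⟩)
          fun n => ((σ'.cd (cel (σ'.W fr) ⟨⊤, a, b⟩)).ω n, θ n) := by
  obtain ⟨σ₁, h₁, e₁, hA₁, hm₁, hu₁, hM₁⟩ := cg3_same h
    (le_max_left σ.M (mkr (σ.W fr) ⟨⊤, a, b⟩ 0)) h.gu fun _ _ => rfl
  have hW₁ : σ₁.W fr = σ.W fr := by rw [GS.W, hu₁, GS.W]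
  obtain ⟨y, hy⟩ : ∃ y : Pt, y = ⟨⊤, a, b⟩ := ⟨_, rfl⟩
  rw [← hy] at hM₁ ⊢
  obtain ⟨W, hW⟩ : ∃ W, W = σ.W fr := ⟨_, rfl⟩
  rw [← hW] at hW₁ hM₁
  have ok := h₁.ok (cel W y)
  have hη : 0 < (σ₁.cd (cel W y)).ε * (1 / 2) ^ (σ₁.K + 1) := mul_pos ok.ε_pos (by positivity)
  obtain ⟨θ, hθ1, hθ2, hθ3⟩ := ok.exists_rat (a, fv W y) hη
  have hc : Continuous fun x : G2 × Th => |(σ₁.cd (cel W y)).φ x θ - (σ₁.cd (cel W y)).ψ x| :=
    ((ok.φ_cont.uncurry_right θ).sub ok.ψ_cont).abs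
  have hev : ∀ᶠ x : G2 × Th in 𝓝 (a, fv W y),
      |(σ₁.cd (cel W y)).φ x θ - (σ₁.cd (cel W y)).ψ x| <
        (σ₁.cd (cel W y)).ε * (1 / 2) ^ (σ₁.K + 1) ∧
      (σ₁.cd (cel W y)).ρ x.2 ≤ (σ₁.cd (cel W y)).ρ (fv W y) ∧
        ag ((σ₁.cd (cel W y)).ρ x.2) ((σ₁.cd (cel W y)).τ x.2) ((σ₁.cd (cel W y)).τ (fv W y)) :=
    (hc.continuousAt.eventually_lt continuousAt_const hθ3).and
      ((continuous_snd.tendsto (a, fv W y)).eventually (ok.usc (fv W y)))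
  obtain ⟨K₀, hK₀⟩ := nhds_box' hev
  obtain ⟨K₁, hK₁⟩ := exists_sep h₁.fin b
  obtain ⟨K', hK1, hK2, hK3⟩ : ∃ K', σ₁.K < K' ∧ K₀ ≤ K' ∧ K₁ ≤ K' :=
    ⟨σ₁.K + K₀ + K₁ + 1, by omega, by omega, by omega⟩
  have hs : IsOpen {f : Th | box K' (Iio K') (fv W y) f} := by
    have h1 := (isOpen_box K' (finite_Iio K') (a, fv W y)).preimage (Continuous.prodMk_right a)
    convert h1 using 1
    ext f
    exact ⟨fun hf => ⟨ag.refl _ _, hf⟩, fun hf => hf.2⟩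
  have hNs : ({fv W y} : Set Th) ⊆ {f : Th | box K' (Iio K') (fv W y) f} := by
    rintro _ rfl i _
    rw [dist_self]
    positivity
  have hin : inC K' a b (mkr W y) (cel W y) := by
    rw [hy]
    exact ⟨le_top, ag.refl _ _, ag.refl _ _, ag.refl _ _⟩
  obtain ⟨σ₂, h₂, e₂, -, -, -, hm₂, hA₂, hu₂, -, -, -, -, -, hq⟩ :=
    modCp h₁ (a₀ := a) (g₀ := b) (w₀ := mkr W y) (ω₀ := (σ₁.cd (cel W y)).ω) hK1
      (h₁.r_le (cel W y)) (hM₁ ▸ le_max_right _ _) hθ1 isClosed_singleton hs hNs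
      (fun q hq => by
        have hK : (σ₁.K : ℕ∞) ≤ K' := Nat.cast_le.2 hK1.le
        have e : σ₁.cd q = σ₁.cd (cel W y) := h₁.loc _ _
          ⟨Or.inr ⟨hK.trans hq.1, hK.trans hin.1⟩, (hq.2.1.symm.trans hin.2.1).mono hK1.le,
            (hq.2.2.1.symm.trans hin.2.2.1).mono hK1.le,
            (hq.2.2.2.symm.trans hin.2.2.2).mono hK1.le⟩
        rw [e]
        refine ⟨le_rfl, ag.refl _ _, fun f hf => ?_⟩
        obtain ⟨h1, h2, h3⟩ := hK₀ K' hK2 (q.a, f) hq.2.1 hf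
        exact ⟨h3.trans (hθ2.symm.mono h2), fun _ => h1.le⟩)
      fun z hz hin' => absurd (hA₁ ▸ hK₁ K' hK3 z.g hz.2.1 hin'.2.2.1 ▸ hz.2.1) hA
  have hW₂ : σ₂.W fr = W := by rw [GS.W, hu₂, ← GS.W, hW₁]
  obtain ⟨q1, -, -, -, q5⟩ := hq _ hin
  obtain ⟨q6, q7, q8⟩ := q5 _ rfl
  refine ⟨σ₂, h₂, e₁.trans e₂, hA₂.trans hA₁, hm₂.trans hm₁, hu₂.trans hu₁, θ, hθ1, ?_, ?_⟩
  · rw [hW₂, q6, q1]
  · rw [hW₂]
    refine ⟨ag.refl _ _, ?_, ?_⟩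
    · dsimp only
      rw [q7]
      exact ag.refl _ _
    · simp only [CD.ψ, q8, sub_self, abs_zero]
      exact (h₂.ok _).ε_pos

/-- Touching a point of infinite height. -/
theorem touchB (h : σ.Inv fr) {b : Lb} (hb : b ∈ fr.B) (hA : b ∉ σ.A) :
    ∃ σ', σ'.Inv fr ∧ σ.Ext fr σ' ∧ σ'.A = insert b σ.A ∧ σ'.m = σ.m ∧ σ'.u = σ.u := by
  classical
  obtain ⟨σ₁, h₁, e₁, hA₁, hm₁, hu₁, θ, hθ, hρ, hT⟩ := cg3_prep h hA (fr.ab b)
  obtain ⟨y, hy⟩ : ∃ y : Pt, y = ⟨⊤, fr.ab b, b⟩ := ⟨_, rfl⟩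
  rw [← hy] at hρ hT
  have hb₁ : b ∉ σ₁.A := hA₁ ▸ hA
  let E' : ℕ → Co := fun n z =>
    if z = y then ((σ₁.cd (cel (σ₁.W fr) y)).ω n, θ n) else σ₁.E n z
  have hpt : ∀ n j a c, E' n (pt j a c) = σ₁.E n (pt j a c) := fun n j a c =>
    if_neg (hy ▸ cg3_pt_ne j a _ c b)
  have hE : ∀ n, Good (E' n) := by
    intro n
    refine ⟨fun z => ?_, fun c hc j hj => ?_⟩
    · by_cases hz : z = y
      · simp only [E', if_pos hz]; exact hθ n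
      · simp only [E', if_neg hz]; exact (h₁.gE n).1 z
    · rw [root, hpt] at hc
      exact ((h₁.gE n).2 c hc j hj).congr fun a _ => by rw [hpt]
  have hE' : agE σ₁.k (σ₁.tch fr) σ₁.E E' := fun n _ z hz =>
    (if_neg fun e => hb₁ (by
      have h1 := hz.2.1
      rwa [e, hy] at h1)).symm
  have hfin : (insert b σ₁.A).Finite := h₁.fin.insert b
  have hnew : ∀ z ∈ fr.tch (insert b σ₁.A) σ₁.m, z ∉ σ₁.tch fr → z = y := by
    intro z hz hz'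
    have hg : z.g = b := by
      rcases hz.2.1 with e | e
      · exact e
      · exact absurd ⟨hz.1, e, hz.2.2⟩ hz'
    rcases pts_cases hz.1 with ⟨j, a, c, rfl, -, hc⟩ | ⟨c, -, rfl⟩
    · exact absurd hb (hg ▸ fr.disj c hc)
    · rw [hy, show c = b from hg]
  obtain ⟨h₂, e₂⟩ := change h₁ le_rfl le_rfl le_rfl (subset_insert b σ₁.A) hfin h₁.gu hE
    (fun _ _ => rfl) hE' (fun _ hx => hx.1) (fun _ hx => hx.2)
    (h₁.es.refine hfin (subset_insert b σ₁.A) le_rfl hE')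
    (fun z hz hz' => by
      obtain rfl := hnew z hz hz'
      refine ⟨?_, fun _ => hρ⟩
      have ha : z.a = fr.ab b := by rw [hy]
      simp only [E', if_true, ha]
      exact hT)
    fun c j a hz hz' => absurd (hnew _ hz hz') (hy ▸ cg3_pt_ne j a _ c b)
  exact ⟨_, h₂, e₁.trans e₂, by rw [← hA₁], hm₁, hu₁⟩

/-- Touching points of finite height. -/
theorem fillP (h : σ.Inv fr) {A' : Set Lb} {m' : ℕ} (hA' : A'.Finite) (hA : σ.A ⊆ A')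
    (hm : σ.m ≤ m') (hB : ∀ b ∈ A', b ∈ fr.B → b ∈ σ.A) :
    ∃ σ', σ'.Inv fr ∧ σ.Ext fr σ' ∧ σ'.A = A' ∧ σ'.m = m' ∧ σ'.u = σ.u := by
  classical
  choose Λ hΛ1 hΛ2 hΛ3 hΛ4 using fun c j => tame h c (σ.W fr) j
  let E' : ℕ → Co := fun n z => if z ∈ σ.tch fr then σ.E n z
    else if z ∈ fr.tch A' m' then Λ z.g z.h.toNat z.a n else (0, dfl z.h.toNat z.a)
  have e1 : ∀ n z, z ∈ σ.tch fr → E' n z = σ.E n z := fun n z hz => if_pos hz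
  have e2 : ∀ n j a c, pt j a c ∉ σ.tch fr → pt j a c ∈ fr.tch A' m' →
      E' n (pt j a c) = Λ c j a n := fun n j a c hz hz' => by
    simp only [E', if_neg hz, if_pos hz']
    rfl
  have e3 : ∀ n j a c, pt j a c ∉ fr.tch A' m' → E' n (pt j a c) = (0, dfl j a) :=
    fun n j a c hz => by
      have hz' : pt j a c ∉ σ.tch fr := fun h' => hz (Fr.tch_mono hA hm h')
      simp only [E', if_neg hz, if_neg hz']
      rfl
  have e4 : ∀ n j a c, pt j a c ∈ fr.tch A' m' → n < σ.rf c (σ.W fr) j →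
      E' n (pt j a c) = σ.pf c (σ.W fr) j a n := fun n j a c hz hn => by
    by_cases hz' : pt j a c ∈ σ.tch fr
    · rw [e1 n _ hz', h.TF c j a hz' n hn]
    · rw [e2 n j a c hz' hz, hΛ3 c j a (Fr.pt_tch.1 hz).1 n hn]
  have hE : ∀ n, Good (E' n) := by
    intro n
    refine ⟨fun z => ?_, fun c hc j hj => ?_⟩
    · dsimp only [E']
      split_ifs
      · exact (h.gE n).1 z
      · exact hΛ1 _ _ _ _
      · exact isRat_dfl _ _
    by_cases h1 : c ∈ fr.P ∧ c ∈ σ.A ∧ j ≤ σ.m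
    · rw [root, e1 n _ (Fr.pt_tch.2 ⟨nrm_a0 0, h1.1, h1.2.1, Nat.zero_le _⟩)] at hc
      exact ((h.gE n).2 c hc j hj).congr fun a ha => by rw [e1 n _ (Fr.pt_tch.2 ⟨ha, h1⟩)]
    by_cases h2 : c ∈ fr.P ∧ c ∈ A' ∧ j ≤ m'
    · rcases lt_or_ge n (σ.rf c (σ.W fr) j) with hn | hn
      · obtain ⟨h3, h4⟩ := h.fcon c (σ.W fr) j n hn
        rw [root, e4 n 0 a0 c (Fr.pt_tch.2 ⟨nrm_a0 0, h2.1, h2.2.1, Nat.zero_le _⟩) h3] at hc
        exact (h4 hc hj).congr fun a ha => by rw [e4 n j a c (Fr.pt_tch.2 ⟨ha, h2⟩) hn]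
      · exact (hΛ4 c j n hn hj).congr fun a ha => by
          rw [e2 n j a c (fun h' => h1 (Fr.pt_tch.1 h').2) (Fr.pt_tch.2 ⟨ha, h2⟩)]
    · exact (con_dfl hj).congr fun a _ => by rw [e3 n j a c fun h' => h2 (Fr.pt_tch.1 h').2]
  have hE' : agE σ.k (σ.tch fr) σ.E E' := fun n _ z hz => (e1 n z hz).symm
  obtain ⟨h₂, e₂⟩ := change h le_rfl le_rfl hm hA hA' h.gu hE
    (fun _ _ => rfl) hE' (fun _ hx => hx.1) (fun _ hx => hx.2) (h.es.refine hA' hA hm hE')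
    (fun z hz hz' => by
      rcases pts_cases hz.1 with ⟨j, a, c, rfl, ha, -⟩ | ⟨c, hc, rfl⟩
      · refine ⟨?_, fun h' => absurd h' (ENat.natCast_ne_top j)⟩
        simp only [e2 _ j a c hz' hz]
        exact hΛ2 c j a ha
      · exact absurd ⟨hz.1, hB c hz.2.1 hc, Or.inr rfl⟩ hz')
    fun c j a hz _ n hn => e4 n j a c hz hn
  exact ⟨_, h₂, e₂, rfl, rfl, rfl⟩

theorem cg3_touch_all (h : σ.Inv fr) {S : Set Lb} (hS : S.Finite) (hB : S ⊆ fr.B) :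
    ∃ σ', σ'.Inv fr ∧ σ.Ext fr σ' ∧ σ'.A = S ∪ σ.A ∧ σ'.m = σ.m ∧ σ'.u = σ.u := by
  induction S, hS using Set.Finite.induction_on with
  | empty => exact ⟨σ, h, Ext.refl h, (empty_union _).symm, rfl, rfl⟩
  | @insert b S _ _ ih =>
    obtain ⟨σ₁, h₁, e₁, hA₁, hm₁, hu₁⟩ := ih ((subset_insert b S).trans hB)
    by_cases hb : b ∈ σ₁.A
    · exact ⟨σ₁, h₁, e₁, by rw [insert_union, ← hA₁, insert_eq_of_mem hb], hm₁, hu₁⟩
    · obtain ⟨σ₂, h₂, e₂, hA₂, hm₂, hu₂⟩ := touchB h₁ (hB (mem_insert b S)) hb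
      exact ⟨σ₂, h₂, e₁.trans e₂, by rw [hA₂, hA₁, insert_union], hm₂.trans hm₁, hu₂.trans hu₁⟩

theorem fill (h : σ.Inv fr) {A' : Set Lb} {m' : ℕ} {u' : Co} (hA' : A'.Finite) (hA : σ.A ⊆ A')
    (hm : σ.m ≤ m') (hu : Good u') (hu' : EqOn σ.u u' (σ.tch fr)) :
    ∃ σ', σ'.Inv fr ∧ σ.Ext fr σ' ∧ σ'.A = A' ∧ σ'.m = m' ∧ σ'.u = u' := by
  obtain ⟨σ₁, h₁, e₁, hA₁, hm₁, hu₁, -⟩ := cg3_same h le_rfl hu hu'
  obtain ⟨σ₂, h₂, e₂, hA₂, hm₂, hu₂⟩ := cg3_touch_all h₁ (hA'.inter_of_left fr.B) inter_subset_right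
  obtain ⟨σ₃, h₃, e₃, hA₃, hm₃, hu₃⟩ := fillP h₂ (m' := m') hA'
    (by rw [hA₂, hA₁]; exact union_subset inter_subset_left hA) (by rw [hm₂, hm₁]; exact hm)
    fun b hb hb' => by rw [hA₂]; exact Or.inl ⟨hb, hb'⟩
  exact ⟨σ₃, h₃, (e₁.trans e₂).trans e₃, hA₃, hm₃, hu₃.trans (hu₂.trans hu₁)⟩

end GS

end Pool.Agent.Work.MP_f50f0f_gt
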