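import Pool.Agent.Work.MP_f50f0f_gt.CG4a

/-! Requests on slabs. -/

namespace Pool.Agent.Work.MP_f50f0f_gt
open Function Set Filter Topology

namespace GS
variable {fr : Fr} {σ : GS}

/-- The slab property of a member for finitely many patterns at once. -/
theorem w2_multi {Y : Set Pt} {V : ℕ → Co} {m : Mem} (h : Ok Y V m) {S : Set G2} (hS : S.Finite)
    (K₀ : ℕ) (g₀ v₀ : ℕ → ℕ) (w₀ : G2 → ℕ → ℕ) {η : G2 → ℝ} (hη : ∀ a, 0 < η a) :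
    ∃ K₁ ≥ K₀, ∃ g₁ v₁, ∃ (w₁ : G2 → ℕ → ℕ) (φ : G2 → G2 × Th → Th → ℝ), ag K₀ g₀ g₁ ∧
      ag K₀ v₀ v₁ ∧ ∀ a ∈ S, ag K₀ (w₀ a) (w₁ a) ∧ Continuous (uncurry (φ a)) ∧
        ∀ y ∈ Y, (K₁ : ℕ∞) ≤ y.h → ag K₁ g₁ y.g → ag K₁ v₁ (mkr V y) → ag K₁ (w₁ a) (mkr m.1 y) →
          |m.2 y - φ a (y.a, fv V y) (fv m.1 y)| ≤ η a := by
  classical
  induction S, hS using Set.Finite.induction_on with
  | empty =>
    exact ⟨K₀, le_rfl, g₀, v₀, w₀, fun _ _ _ => 0, ag.refl _ _, ag.refl _ _, fun _ h => h.elim⟩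
  | @insert a S _ _ ih =>
    obtain ⟨K₁, hK₁, g₁, v₁, w₁, φ, hg, hv, hS⟩ := ih
    obtain ⟨K₂, hK₂, g₂, v₂, w₂, hg₂, hv₂, hw₂, φ₂, hφ₂, he⟩ := h.w2 K₁ g₁ v₁ (w₀ a) (η a) (hη a)
    refine ⟨K₂, hK₁.trans hK₂, g₂, v₂, update w₁ a w₂, update φ a φ₂, hg.trans (hg₂.mono hK₁),
      hv.trans (hv₂.mono hK₁), fun b hb => ?_⟩
    by_cases hba : b = a
    · subst hba
      simp only [update_self]
      exact ⟨hw₂.mono hK₁, hφ₂, he⟩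
    · simp only [update_of_ne hba]
      obtain ⟨h1, h2, h3⟩ := hS b (hb.resolve_left hba)
      exact ⟨h1, h2, fun y hy h4 h5 h6 h7 => h3 y hy ((Nat.cast_le.2 hK₂).trans h4)
        (hg₂.trans (h5.mono hK₂)) (hv₂.trans (h6.mono hK₂)) (h7.mono hK₂)⟩

/-- The final estimate on a slab on which the approximations are valid with small errors. -/
theorem cg4c_fin (h : σ.Inv fr) {η : ℝ} {K₀ : ℕ} {g₀ w₀ g₁ w₁ : ℕ → ℕ} (hK : K₀ ≤ σ.K)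
    (hg : ag K₀ g₀ g₁) (hw : ag K₀ w₀ w₁)
    (hq : ∀ q, inS σ.K g₁ w₁ q → (σ.cd q).inf ∧ (σ.cd q).ε ≤ η / 4) : σ.Fin2 fr η K₀ g₀ w₀ := by
  refine ⟨σ.K, hK, g₁, w₁, hg, hw, fun x => (σ.cd ⟨⊤, trn false σ.K x.1, g₁, w₁⟩).ψ x, ?_, ?_⟩
  · refine continuous_iff_continuousAt.2 fun x => ?_
    refine (h.ok ⟨⊤, trn false σ.K x.1, g₁, w₁⟩).ψ_cont.continuousAt.congr ?_
    filter_upwards [(isOpen_box σ.K finite_empty x).mem_nhds ⟨ag.refl _ _, fun _ h => h.elim⟩]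
      with y hy
    rw [trn_congr false hy.1]
  · intro σ' h' he y hy hin m hm
    have e1 : σ.cd ⟨⊤, trn false σ.K y.a, g₁, w₁⟩ = σ.cd (cel (σ'.W fr) y) :=
      h.loc _ _ ⟨Or.inr ⟨le_top, hin.1⟩, (ag_trn false _ _).symm, hin.2.1, hin.2.2⟩
    obtain ⟨h1, h2⟩ := hq _ hin
    obtain ⟨h3, h4⟩ := (he.cd (cel (σ'.W fr) y)).inf h1
    obtain ⟨h5, -, h6⟩ := h'.T y hy
    have hr := h'.r_le (cel (σ'.W fr) y)
    have hE : ∀ n < (σ'.cd (cel (σ'.W fr) y)).r, σ'.E n y = m.1 n y :=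
      fun n hn => h'.mem m hm n (hn.trans_le hr) y hy
    have h7 := h'.S m hm y hy.1 σ'.u h3
      fun n hn => (congrArg Prod.fst (hE n hn)).symm.trans (h5 n hn)
    have h8 := (h'.ok (cel (σ'.W fr) y)).φ_dep (y.a, fv (σ'.W fr) y) (fun n => (σ'.E n y).2)
      (fv m.1 y) fun n hn => congrArg Prod.snd (hE n hn)
    rw [h8] at h6
    have h9 := h4 (fv (σ'.W fr) y)
    have p1 := (h.ok (cel (σ'.W fr) y)).ε_pos
    have p2 := (h'.ok (cel (σ'.W fr) y)).ε_pos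
    have p3 : (σ.cd (cel (σ'.W fr) y)).ε * (1 / 2) ^ σ.K ≤ (σ.cd (cel (σ'.W fr) y)).ε :=
      mul_le_of_le_one_right p1.le (pow_le_one₀ (by norm_num) (by norm_num))
    have p4 : 0 ≤ (σ'.cd (cel (σ'.W fr) y)).ε * (1 / 2) ^ σ'.K := by positivity
    simp only [e1]
    unfold CD.pot at h9
    change |m.2 y - (σ'.cd (cel (σ'.W fr) y)).φ (y.a, fv (σ'.W fr) y) (fv m.1 y)| ≤
      (σ'.cd (cel (σ'.W fr) y)).ε at h7
    change |(σ'.cd (cel (σ'.W fr) y)).ψ (y.a, fv (σ'.W fr) y) -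
      (σ.cd (cel (σ'.W fr) y)).ψ (y.a, fv (σ'.W fr) y)| ≤ _ at h9
    rw [abs_le] at h7 h9 ⊢
    rw [abs_lt] at h6
    constructor <;> linarith [h6.1, h6.2, h7.1, h7.2, h9.1, h9.2]

theorem req2 (h : σ.Inv fr) {η : ℝ} (hη : 0 < η) (K₀ : ℕ) (g₀ w₀ : ℕ → ℕ) :
    ∃ σ', σ'.Inv fr ∧ σ.Ext fr σ' ∧ σ'.Fin2 fr η K₀ g₀ w₀ := by
  obtain ⟨g', hg', hav⟩ := exists_avoid h.fin g₀ (max σ.K K₀)
  obtain ⟨𝒮, h𝒮c, h𝒮, hdense⟩ := exists_dense_fam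
  let c : G2 → CD := fun a => σ.cd ⟨⊤, a, g', w₀⟩
  let η' : G2 → ℝ := fun a => min (η / 4) ((c a).ε / 2)
  have hη' : ∀ a, 0 < η' a := fun a => lt_min (by linarith) (half_pos (h.ok _).ε_pos)
  obtain ⟨K', hK'1, hK'2⟩ : ∃ K', max σ.K K₀ + 1 ≤ K' ∧ σ.k ≤ K' :=
    ⟨_, le_max_left _ _, le_max_right _ _⟩
  have key : ∀ m : Mem, ∃ (K₁ : ℕ) (g₁ v₁ : ℕ → ℕ) (w₁ : G2 → ℕ → ℕ)
      (p : G2 → ℕ × (G2 × Th → Th → ℝ)), m ∈ σ.𝓜 → K' ≤ K₁ ∧ ag K' g' g₁ ∧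
        ag K' (fun n => w₀ (n + 1)) v₁ ∧ ∀ a, nrm σ.K a → ag K' (c a).ω (w₁ a) ∧ p a ∈ 𝒮 ∧
          ∀ y ∈ fr.Y, ∀ u', (K₁ : ℕ∞) ≤ y.h → ag K₁ g₁ y.g → ag K₁ v₁ (mkr fr.V y) →
            ag K₁ (w₁ a) (mkr m.1 y) →
            |m.2 y - (p a).2 (y.a, fv (Wu u' fr.V) y) (fv m.1 y)| ≤ η' a := by
    intro m
    by_cases hm : m ∈ σ.𝓜
    swap
    · exact ⟨0, g', g', fun _ => g', fun _ => (0, fun _ _ => 0), fun h => absurd h hm⟩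
    obtain ⟨K₁, hK₁, g₁, v₁, w₁, φ, h1, h2, h3⟩ := w2_multi (h.mok m hm) (finite_nrm σ.K) K' g'
      (fun n => w₀ (n + 1)) (fun a => (c a).ω) fun a => half_pos (hη' a)
    have : ∀ a, nrm σ.K a → ∃ p ∈ 𝒮, ∀ (x : G2 × Th) θ,
        |p.2 x θ - φ a (x.1, fun n => x.2 (n + 1)) θ| ≤ η' a / 2 := by
      intro a ha
      refine hdense (fun x θ => φ a (x.1, fun n => x.2 (n + 1)) θ) ?_ _ (half_pos (hη' a))
      exact (h3 a ha).2.1.comp (f := fun z : (G2 × Th) × Th =>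
        ((z.1.1, fun n => z.1.2 (n + 1)), z.2)) (by fun_prop)
    choose! p hp hp' using this
    refine ⟨K₁, g₁, v₁, w₁, p, fun _ => ⟨hK₁, h1, h2, fun a ha => ⟨(h3 a ha).1, hp a ha, ?_⟩⟩⟩
    intro y hy u' h4 h5 h6 h7
    have h8 := (h3 a ha).2.2 y hy h4 h5 h6 h7
    have h9 : |(p a).2 (y.a, fv (Wu u' fr.V) y) (fv m.1 y) - φ a (y.a, fv fr.V y) (fv m.1 y)| ≤
        η' a / 2 := hp' a ha (y.a, fv (Wu u' fr.V) y) (fv m.1 y)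
    rw [abs_le] at h8 h9 ⊢
    constructor <;> linarith [h8.1, h8.2, h9.1, h9.2]
  choose K₁ g₁ v₁ w₁ p key using key
  have hcc : CC σ.𝓜 fun r m => K₁ r = K₁ m ∧ (ag (K₁ r) (g₁ r) (g₁ m) ∧ ag (K₁ r) (v₁ r) (v₁ m) ∧
      ∀ a ∈ {a | nrm σ.K a}, ag (K₁ r) (w₁ r a) (w₁ m a) ∧ p r a = p m a) := by
    refine CC.sigma K₁ fun i => ?_
    refine ((CC.ag i g₁).and ((CC.ag i v₁).and (CC.finite (finite_nrm σ.K)
      (R := fun a r m => ag i (w₁ r a) (w₁ m a) ∧ p r a = p m a) fun a ha =>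
        (CC.ag i fun m => w₁ m a).and (CC.eq h𝒮c (fun m => p m a) fun m hm =>
          ((key m hm.1).2.2.2 a ha).2.1)))).mono fun r hr m _ hR => ?_
    rw [show K₁ r = i from hr.2]
    exact hR
  obtain ⟨T, hT, hTc, hrep⟩ := hcc.reps
  have := hTc.to_subtype
  have hkk : ∀ r : Mem, ∃ k, K₁ r ≤ k ∧ ∀ a, nrm σ.K a → (p r a).1 ≤ k := by
    intro r
    obtain ⟨b, hb⟩ := ((finite_nrm σ.K).image fun a => (p r a).1).bddAbove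
    exact ⟨max (K₁ r) b, le_max_left _ _,
      fun a ha => (hb ⟨a, ha, rfl⟩).trans (le_max_right _ _)⟩
  choose kk hkk1 hkk2 using hkk
  obtain ⟨⟨r, hr⟩, σ₁, h₁, he₁, hK₁, hcd₁, -, -, hk₁, hM₁, h𝓜₁, hnew⟩ := adv h (ι := T)
    (fun r => {m | m ∈ σ.𝓜 ∧ K₁ r = K₁ m ∧ ag (K₁ r) (g₁ r) (g₁ m) ∧ ag (K₁ r) (v₁ r) (v₁ m) ∧
      ∀ a ∈ {a | nrm σ.K a}, ag (K₁ r) (w₁ r a) (w₁ m a) ∧ p r a = p m a})
    (fun r => kk r) (fun x hx => by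
      obtain ⟨r, hr, hR⟩ := hrep x hx
      exact ⟨⟨r, hr⟩, hx, hR⟩)
    (fun r => hK'2.trans ((key r (hT r.2)).1.trans (hkk1 r))) (le_max_left σ.M (w₀ 0))
  simp only at hk₁ h𝓜₁
  obtain ⟨k1, k2, k3, k4⟩ := key r (hT hr)
  have k5 := hkk1 r
  have hmax1 := le_max_left σ.K K₀
  have hmax2 := le_max_right σ.K K₀
  let w' : ℕ → ℕ := fun n => Nat.casesOn n (w₀ 0) (v₁ r)
  have hw' : ag K' w₀ w' := by
    intro n hn
    cases n with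
    | zero => rfl
    | succ n => exact k3 n (by omega)
  obtain ⟨σ₂, h₂, he₂, hK₂, hq₂⟩ := modIn h₁ (K' := kk r + 1) (by omega) (g₁ := g₁ r) (w₁ := w')
    (hM₁ ▸ le_max_right _ _) (fun a => w₁ r (trn false σ.K a)) (fun a => η' (trn false σ.K a))
    (fun a => (p r (trn false σ.K a)).2)
    (fun a a' haa => by
      simp only [trn_congr false (haa.mono (show σ.K ≤ kk r + 1 by omega)), and_self])
    (fun a => by
      have h1 := h𝒮 _ (k4 _ (nrm_trn σ.K a)).2.1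
      exact ⟨hη' _, h1.1, fun x θ θ' hθ =>
        h1.2 x θ θ' (hθ.mono (hk₁ ▸ hkk2 r _ (nrm_trn σ.K a)))⟩)
    (fun q hq => by
      have e1 : σ₁.cd q = c (trn false σ.K q.a) := by
        rw [hcd₁]
        exact h.loc _ _ ⟨Or.inr ⟨(Nat.cast_le.2 (by omega)).trans hq.1, le_top⟩,
          ag_trn false _ _,
          ((k2.mono (by omega)).trans (hq.2.1.mono (by omega))).symm,
          ((hw'.mono (by omega)).trans (hq.2.2.mono (by omega))).symm⟩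
      rw [e1]
      exact ⟨(k4 _ (nrm_trn σ.K q.a)).1.mono ((h.r_le _).trans hK'2), min_le_right _ _⟩)
    (fun y hy hin => by
      by_cases hy' : y ∈ σ.tch fr
      · exact hav y.g hy'.2.1 ((k2.mono hK'1).trans (hin.2.1.mono (by omega)))
      · have h1 := hnew y hy hy'
        have h2 : w₀ 0 = (σ₁.u y).1 := hin.2.2 0 (by omega)
        have h3 := le_max_right σ.M (w₀ 0)
        omega)
    (fun x hx y hy u' hin hag => by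
      obtain ⟨hx', e1, e2, e3, e4⟩ := h𝓜₁ hx
      obtain ⟨e5, e6⟩ := e4 _ (nrm_trn σ.K y.a)
      rw [e6]
      refine ((key x hx').2.2.2 _ (nrm_trn σ.K y.a)).2.2 y hy u' ?_ ?_ ?_ ?_
      · exact (Nat.cast_le.2 (by omega)).trans hin.1
      · rw [← e1]
        exact e2.symm.trans (hin.2.1.mono (by omega))
      · rw [← e1]
        exact e3.symm.trans fun n hn => hin.2.2 (n + 1) (by omega)
      · rw [← e1]
        exact e5.symm.trans (hag.mono (by omega)).symm)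
  refine ⟨σ₂, h₂, he₁.trans he₂, cg4c_fin h₂ (g₁ := g₁ r) (w₁ := w') (by omega)
    ((hg'.mono hmax2).trans (k2.mono (by omega))) (hw'.mono (by omega)) fun q hq => ?_⟩
  obtain ⟨h1, h2⟩ := hq₂ q (hK₂ ▸ hq)
  exact ⟨h1, h2 ▸ min_le_left _ _⟩

end GS

end Pool.Agent.Work.MP_f50f0f_gt
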