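import Pool.Agent.Work.MP_f50f0f_gt.CG4a

/-! The first position of a game. -/

namespace Pool.Agent.Work.MP_f50f0f_gt
open Function Set Filter Topology

/-- The invariant after `i` centres. -/
def CG4dJ {fr : Fr} (st : Start fr) (u : Co) (M i : ℕ) (σ : GS) : Prop :=
  σ.Inv fr ∧ σ.A = st.A ∧ σ.m = st.m ∧ σ.u = u ∧ σ.𝓜 = st.𝓜 ∧ σ.K = st.K + i ∧ σ.k = st.k ∧
    σ.M = M ∧ (∀ i' < i, σ.Fin5 fr st i') ∧ ∀ i', i ≤ i' → i' < st.n →
      (∀ q : Cell, ag st.K (st.z i').g q.g → σ.cd q = CD.triv) ∧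
        ∀ c W j, ag st.K (st.z i').g c → σ.rf c W j = 0

theorem CG4d_zero {fr : Fr} (st : Start fr) {u : Co} (hu : Good u) (M : ℕ) :
    ∃ σ, CG4dJ st u M 0 σ := by
  refine ⟨⟨st.K, M, st.k, st.m, st.A, u, st.E, st.𝓜, fun _ _ => False, fun _ => CD.triv,
    fun _ _ _ => 0, fun _ _ _ _ _ => (0, 0)⟩, ⟨le_trans (by norm_num) st.K7, st.fin,
    fun _ _ _ => rfl, fun _ => CD.triv_ok, fun _ => Nat.zero_le _, fun _ _ => rfl,
    fun _ _ _ _ _ => ⟨rfl, rfl⟩, fun j => ?_, fun _ _ _ _ _ _ => ⟨rfl, rfl⟩,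
    fun _ _ _ => Nat.zero_le _, fun _ _ _ _ h => absurd h (Nat.not_lt_zero _),
    fun _ _ _ _ _ => isRat_zero, fun _ _ _ h => absurd h (lt_irrefl _), fun _ _ _ _ => rfl,
    fun _ _ _ _ => rfl, hu, st.gE, st.mok, st.mem, st.es, fun _ _ _ _ _ h => h.elim,
    fun _ _ => CD.T_zero CD.triv_ok rfl _ _, fun _ _ _ => rfl,
    fun _ _ _ _ _ h => absurd h (Nat.not_lt_zero _)⟩, rfl, rfl, rfl, rfl, rfl, rfl, rfl,
    fun _ h => absurd h (Nat.not_lt_zero _), fun _ _ _ => ⟨fun _ _ => rfl, fun _ _ _ _ => rfl⟩⟩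
  have h1 : av j (ind fun _ => False) = 0 :=
    (av_congr fun a _ => cav_ind_neg not_false).trans (av_const j 0)
  have h2 := CG2_half st.K7
  change av j (ind fun _ => False) + (1 / 2 : ℝ) ^ st.K ≤ 1 / 50
  rw [h1]
  norm_num at h2 ⊢
  linarith

theorem CG4d_step {fr : Fr} (st : Start fr) {u : Co} {M i : ℕ} (hi : i < st.n)
    (hM : ∀ x ∈ dn (st.z i), (st.W i 0 x).1 ≤ M) {σ : GS} (h : CG4dJ st u M i σ) :
    ∃ σ', CG4dJ st u M (i + 1) σ' := by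
  obtain ⟨hI, hA, hm, hu, h𝓜, hK, hk, rfl, h5, h0⟩ := h
  obtain ⟨c0, r0⟩ := h0 i le_rfl hi
  have k1 : st.K ≤ st.K + (i + 1) := Nat.le_add_right _ _
  have k2 : st.K + (i + 1) ≤ st.K + st.n := Nat.add_le_add_left hi _
  have k3 : st.k ≤ st.K + st.n := st.kK.trans (Nat.le_add_right _ _)
  have sA : ∀ y ∈ σ.tch fr, ¬ ag (st.K + (i + 1)) (st.z i).g y.g := fun y hy h => by
    refine st.sepA i hi y.g (hA ▸ hy.2.1) ?_ (h.mono k1)
    rcases pts_cases hy.1 with ⟨j, a, c, rfl, -, hc⟩ | ⟨c, hc, rfl⟩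
    exacts [Or.inl hc, Or.inr hc]
  have sZ : ∀ i', i + 1 ≤ i' → i' < st.n → ∀ c, ag st.K (st.z i').g c →
      ¬ ag (st.K + (i + 1)) (st.z i).g c := fun i' h1 h2 c h3 h4 => by
    have := st.sep i hi i' h2 ((h4.mono k1).trans h3.symm)
    omega
  have fin : ∀ σ', σ.Ext fr σ' → σ'.Fin5 fr st i → ∀ i' < i + 1, σ'.Fin5 fr st i' :=
    fun σ' he h i' hi' => by
      rcases (Nat.lt_succ_iff.1 hi').eq_or_lt with rfl | h'
      · exact h
      · exact fun σ'' a b => h5 i' h' σ'' a (he.trans b)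
  obtain ⟨hr, ht | ht⟩ := st.reg i hi
  · obtain ⟨σ', a1, a2, a3, a4, a5, a6, a7, a8, -, a10, a11, -, a13, a14⟩ :=
      GS.modCp hI (K' := st.K + (i + 1)) (k' := st.k) (by omega) hk.ge (a₀ := (st.z i).a)
        (g₀ := (st.z i).g) (w₀ := mkr (st.W i) (st.z i)) (ω₀ := mkr (st.C i) (st.z i))
        (τ₀ := fv (st.C i) (st.z i)) (hM _ (mem_dn_self hr)) (fun n => (st.gC i n).1 _)
        isClosed_univ isOpen_univ Subset.rfl
        (fun q hq => by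
          rw [c0 q (hq.2.2.1.mono k1)]
          exact ⟨Nat.zero_le _, fun _ h => absurd h (Nat.not_lt_zero _),
            fun _ _ => ⟨fun _ h => absurd h (Nat.not_lt_zero _), fun h => h.elim⟩⟩)
        fun y hy hq => absurd hq.2.2.1 (sA y hy)
    refine ⟨σ', a1, a7.trans hA, a6.trans hm, a8.trans hu, a10.trans h𝓜, a3, a5.trans hk, a4,
      fin σ' a2 fun σ'' b1 b2 x hx y hy hn m hm' => ?_, fun i' h1 h2 => ⟨fun q hq => ?_, ?_⟩⟩
    · rw [CPts_dn_top ht, mem_singleton_iff] at hx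
      subst hx
      rw [nbr_top ht] at hn ⊢
      obtain ⟨n1, n2, n3, n4, -⟩ := hn
      obtain ⟨e1, e2, -, -, e3⟩ := a14 (cel (σ''.W fr) y)
        ⟨(Nat.cast_le.2 k2).trans n2, n3.mono k2, n1.mono k2, fun l hl => n4 l (hl.trans_le k2)⟩
      obtain ⟨e4, e5, -⟩ := e3 (fv (σ''.W fr) y) (mem_univ _)
      have e : ∀ l < st.k, m.1 l y = (mkr (st.C i) (st.z i) l, fv (st.C i) (st.z i) l) :=
        fun l hl => by rw [GS.copyB b1 b2 hy e1 e4 hm' hl, e2, e5]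
      refine ⟨n1.mono k3, (Nat.cast_le.2 k3).trans n2, n3.mono k3,
        fun l hl => (congrArg Prod.fst (e l hl)).symm, fun l hl => ?_⟩
      rw [show fv m.1 y l = _ from congrArg Prod.snd (e l hl), dist_self]
      positivity
    · rw [a13 q fun h => sZ i' h1 h2 _ hq h.2.2.1]
      exact (h0 i' (by omega) h2).1 q hq
    · rw [a11]
      exact (h0 i' (by omega) h2).2
  · obtain ⟨j₀, hj⟩ := (CPts_cases (st.z i)).resolve_left (ht.trans_le le_top).ne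
    have hj' : j₀ < st.K := by rwa [hj, Nat.cast_lt] at ht
    obtain ⟨σ', a1, a2, a3, a4, a5, a6, a7, a8, -, a10, a11, a12, a13⟩ :=
      GS.modFin hI (K' := st.K + (i + 1)) (k' := st.k) (j₀ := j₀) (by omega) (by omega) hk.ge
        (g₀ := (st.z i).g) (W₀ := st.W i) (E₀ := st.C i) (st.gC i)
        (fun j h => hM _ ((CPts_dn_fin hj).2 ⟨j, a0, h, nrm_a0 j, rfl⟩))
        (fun j _ => by
          rw [r0 _ _ _ (ag.refl _ _)]
          exact ⟨Nat.zero_le _, fun _ _ _ h => absurd h (Nat.not_lt_zero _)⟩)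
        (fun j _ c W h a _ => by
          rw [c0 (cel W (pt j a c)) (h.1.mono k1)]
          exact ⟨Nat.zero_le _, CD.T_zero CD.triv_ok rfl _ _⟩)
        fun j _ c a hy h => absurd h (sA _ hy)
    refine ⟨σ', a1, a7.trans hA, a6.trans hm, a8.trans hu, a10.trans h𝓜, a3, a5.trans hk, a4,
      fin σ' a2 fun σ'' b1 b2 x hx y hy hn m hm' => ?_, fun i' h1 h2 => ⟨?_, fun c W j hc => ?_⟩⟩
    · obtain ⟨j, a, hj1, -, rfl⟩ := (CPts_dn_fin hj).1 hx
      rw [nbr_pt] at hn ⊢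
      obtain ⟨n1, n2, n3, n4⟩ := hn
      refine ⟨n1.mono k3, n2, n3, fun l hl j' h' a' ha' => ?_⟩
      rw [n3] at hy
      obtain ⟨-, t1, t2, t3⟩ := Fr.pt_tch.1 hy
      obtain ⟨e1, e2⟩ := a13 j' (h'.trans hj1) y.g (σ''.W fr) ⟨n1.mono k2,
        fun n hn j'' h'' => n4 n (hn.trans_le k2) j'' (h''.trans h')⟩
      rw [GS.copyP b1 b2 (Fr.pt_tch.2 ⟨ha', t1, t2, h'.trans t3⟩) hm' (e1 ▸ hl), e2]
    · rw [a11]
      exact (h0 i' (by omega) h2).1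
    · rw [a12 c W j (sZ i' h1 h2 c hc)]
      exact (h0 i' (by omega) h2).2 c W j hc

theorem Start.start {fr : Fr} (st : Start fr) {u : Co} (hu : Good u) :
    ∃ σ : GS, σ.Inv fr ∧ σ.A = st.A ∧ σ.m = st.m ∧ σ.u = u ∧ σ.𝓜 ⊆ st.𝓜 ∧
      ∀ i < st.n, σ.Fin5 fr st i := by
  obtain ⟨M, hM⟩ := ((finite_Iio st.n).biUnion fun i _ =>
    (finite_dn (st.z i)).image fun x => (st.W i 0 x).1).bddAbove
  have key : ∀ i ≤ st.n, ∃ σ, CG4dJ st u M i σ := fun i => by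
    induction i with
    | zero => exact fun _ => CG4d_zero st hu M
    | succ i ih =>
      intro hi
      obtain ⟨σ, h⟩ := ih (Nat.le_of_succ_le hi)
      exact CG4d_step st hi (fun x hx => hM (mem_biUnion (show i ∈ Iio st.n from hi)
        ⟨x, hx, rfl⟩)) h
  obtain ⟨σ, h1, h2, h3, h4, h5, -, -, -, h6, -⟩ := key st.n le_rfl
  exact ⟨σ, h1, h2, h3, h4, h5.le, h6⟩

end Pool.Agent.Work.MP_f50f0f_gt
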