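import Pool.Agent.Work.MP_f50f0f_gt.CG4b
import Pool.Agent.Work.MP_f50f0f_gt.CG4c
import Pool.Agent.Work.MP_f50f0f_gt.CG4d

/-! All requests of the game. -/
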