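import Pool.Agent.Work.MP_f50f0f_gt.CG2

/-! The requests of the game and starting configurations. -/

namespace Pool.Agent.Work.MP_f50f0f_gt
open Function Set Filter Topology

namespace GS
variable (fr : Fr) (σ : GS)

/-- Continuity at `x`. -/
def Fin1 (x : Pt) (η : ℝ) : Prop :=
  ∃ K, ∀ σ', Inv fr σ' → σ.Ext fr σ' → ∀ y ∈ σ'.tch fr,
    Nbr K (Iio K) x (σ'.W fr) y (σ'.W fr) → ∀ m ∈ σ'.𝓜, |m.2 y - m.2 x| < η

/-- Uniform continuity on a slab. -/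
def Fin2 (η : ℝ) (K₀ : ℕ) (g₀ w₀ : ℕ → ℕ) : Prop :=
  ∃ K₁ ≥ K₀, ∃ g₁ w₁, ag K₀ g₀ g₁ ∧ ag K₀ w₀ w₁ ∧ ∃ Ψ : G2 × Th → ℝ, Continuous Ψ ∧
    ∀ σ', Inv fr σ' → σ.Ext fr σ' → ∀ y ∈ σ'.tch fr, inS K₁ g₁ w₁ (cel (σ'.W fr) y) →
      ∀ m ∈ σ'.𝓜, |m.2 y - Ψ (y.a, fv (σ'.W fr) y)| ≤ η

/-- The value at `y` is almost determined. -/
def Fin3 (y : Pt) (η : ℝ) : Prop := ∀ m ∈ σ.𝓜, ∀ m' ∈ σ.𝓜, |m.2 y - m'.2 y| < η

variable {fr σ}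

/-- A pattern of a cell is copied by all later members. -/
theorem copyB {σ' : GS} (h' : σ'.Inv fr) (he : σ.Ext fr σ') {y : Pt} (hy : y ∈ σ'.tch fr) {k' : ℕ}
    (hr : (σ.cd (cel (σ'.W fr) y)).r = k') (hρ : (σ.cd (cel (σ'.W fr) y)).ρ (fv (σ'.W fr) y) = k')
    {m : Mem} (hm : m ∈ σ'.𝓜) {n : ℕ} (hn : n < k') :
    m.1 n y = ((σ.cd (cel (σ'.W fr) y)).ω n, (σ.cd (cel (σ'.W fr) y)).τ (fv (σ'.W fr) y) n) := by
  have h1 := he.cd (cel (σ'.W fr) y)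
  have h2 := h'.T y hy
  have h3 : n < (σ'.cd (cel (σ'.W fr) y)).r := (hr ▸ hn : n < _).trans_le h1.r
  have h4 := h1.ρ (fv (σ'.W fr) y)
  rw [← h'.mem m hm n (h3.trans_le (h'.r_le _)) y hy]
  refine Prod.ext ((h2.1 n h3).trans (h1.ω n (hr ▸ hn)).symm) ?_
  exact (h2.2.1 n ((hρ ▸ hn : n < _).trans_le h4.1)).trans (h4.2 n (hρ ▸ hn)).symm

/-- A rule for a level of a fibre is followed by all later members. -/
theorem copyP {σ' : GS} (h' : σ'.Inv fr) (he : σ.Ext fr σ') {j : ℕ} {a : G2} {c : Lb}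
    (hy : pt j a c ∈ σ'.tch fr) {m : Mem} (hm : m ∈ σ'.𝓜) {n : ℕ}
    (hn : n < σ.rf c (σ'.W fr) j) : m.1 n (pt j a c) = σ.pf c (σ'.W fr) j a n := by
  have h1 := he.rf c (σ'.W fr) j
  have h2 := hn.trans_le h1.1
  rw [← h'.mem m hm n (h2.trans_le (h'.fk _ _ _)) _ hy, h'.TF c j a hy n h2]
  exact (h1.2 a (Fr.pt_tch.1 hy).1 n hn).symm

/-- The old coordinates and the new markers do not change at touched points. -/
theorem Ext.W {σ' : GS} (he : σ.Ext fr σ') (n : ℕ) {y : Pt} (hy : y ∈ σ.tch fr) :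
    σ'.W fr n y = σ.W fr n y := by
  cases n with
  | zero => exact congrArg (fun v : Vl => (v.1, (0 : D))) (he.u hy).symm
  | succ n => rfl

end GS

/-- A starting configuration: a family of members, a condition, and `n` virtual centres. -/
structure Start (fr : Fr) where
  𝓜 : Set Mem
  k : ℕ
  A : Set Lb
  m : ℕ
  E : ℕ → Co
  K : ℕ
  n : ℕ
  z : ℕ → Pt
  W : ℕ → ℕ → Co
  C : ℕ → ℕ → Co
  fin : A.Finite
  gE : ∀ n, Good (E n)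
  mok : ∀ x ∈ 𝓜, Ok fr.Y fr.V x
  mem : ∀ x ∈ 𝓜, agE k (fr.tch A m) E x.1
  es : fr.ES k A m E 𝓜
  K7 : 7 ≤ K
  kK : k ≤ K
  reg : ∀ i < n, Reg (z i) ∧ ((z i).h = ⊤ ∨ (z i).h < K)
  gC : ∀ i n, Good (C i n)
  sepA : ∀ i < n, ∀ c ∈ A, c ∈ fr.P ∪ fr.B → ¬ ag K (z i).g c
  sep : ∀ i < n, ∀ i' < n, ag K (z i).g (z i').g → i = i'

/-- The pattern of the centre `i` is copied. -/
def GS.Fin5 (fr : Fr) (σ : GS) (st : Start fr) (i : ℕ) : Prop :=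
  ∀ σ', GS.Inv fr σ' → σ.Ext fr σ' → ∀ x ∈ dn (st.z i), ∀ y ∈ σ'.tch fr,
    Nbr (st.K + st.n) (Iio (st.K + st.n)) x (st.W i) y (σ'.W fr) →
      ∀ m ∈ σ'.𝓜, Nbr st.k (Iio st.k) x (st.C i) y m.1

end Pool.Agent.Work.MP_f50f0f_gt
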