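import Pool.Agent.Work.MP_f50f0f_gt.CG4a

/-! Continuity requests. -/

namespace Pool.Agent.Work.MP_f50f0f_gt
open Function Set Filter Topology

namespace GS
variable {fr : Fr} {σ : GS}

theorem CG4b_mod (h : σ.Inv fr) {x : Pt} (hx : x ∈ σ.tch fr) {η : ℝ} (hη : 0 < η) {M' : ℕ}
    (hM : σ.M ≤ M') : ∃ (K₁ : ℕ) (σ₁ : GS), σ₁.Inv fr ∧ σ.Ext fr σ₁ ∧ K₁ ≤ σ₁.k ∧ σ₁.M = M' ∧
      ∀ m ∈ σ₁.𝓜, ∀ y ∈ fr.Y, Nbr K₁ (Iio K₁) x fr.V y fr.V → Nbr K₁ (Iio K₁) x m.1 y m.1 →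
        |m.2 y - m.2 x| < η := by
  obtain ⟨K₁, σ₁, h1, h2, -, -, -, -, h3, h4, h5, -⟩ := adv h
    (fun K₁ : ℕ => {m : Mem | ∀ y ∈ fr.Y, Nbr K₁ (Iio K₁) x fr.V y fr.V →
      Nbr K₁ (Iio K₁) x m.1 y m.1 → |m.2 y - m.2 x| < η}) (fun K₁ => max σ.k K₁)
    (fun m hm => (h.mok m hm).w1 x hx.1 η hη) (fun _ => le_max_left _ _) hM
  exact ⟨K₁, σ₁, h1, h2, h3 ▸ le_max_right _ _, h4, fun m hm => h5 hm⟩

theorem CG4b_B (h : σ.Inv fr) {x : Pt} (hx : x ∈ σ.tch fr) (ht : x.h = ⊤) {η : ℝ} {K₁ : ℕ}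
    (hk : K₁ ≤ σ.k) (hM : (σ.u x).1 ≤ σ.M)
    (hmod : ∀ m ∈ σ.𝓜, ∀ y ∈ fr.Y, Nbr K₁ (Iio K₁) x fr.V y fr.V →
      Nbr K₁ (Iio K₁) x m.1 y m.1 → |m.2 y - m.2 x| < η) :
    ∃ σ', σ'.Inv fr ∧ σ.Ext fr σ' ∧ σ'.Fin1 fr x η := by
  have ok := h.ok (cel (σ.W fr) x)
  have T := h.T x hx
  have T' := h.T' x hx ht
  obtain ⟨θ, t1, t2⟩ := ok.rng (fv (σ.W fr) x) _ (ok.φ_cont.uncurry_left (x.a, fv (σ.W fr) x))
  have t3 : (σ.cd (cel (σ.W fr) x)).φ (x.a, fv (σ.W fr) x) (fun n => (σ.E n x).2) =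
      (σ.cd (cel (σ.W fr) x)).ψ (x.a, fv (σ.W fr) x) :=
    (ok.φ_dep _ _ _ (T' ▸ T.2.1.trans t1.symm)).trans t2
  have hc : Continuous fun z => |(σ.cd (cel (σ.W fr) x)).φ z (fun n => (σ.E n x).2) -
      (σ.cd (cel (σ.W fr) x)).ψ z| := ((ok.φ_cont.uncurry_right _).sub ok.ψ_cont).abs
  have ev1 := (hc.tendsto (x.a, fv (σ.W fr) x)).eventually (eventually_lt_nhds
    (b := (σ.cd (cel (σ.W fr) x)).ε * (1 / 2) ^ (σ.K + 1)) (by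
      rw [t3, sub_self, abs_zero]
      exact mul_pos ok.ε_pos (by positivity)))
  have ev2 := (continuous_snd.tendsto (x.a, fv (σ.W fr) x)).eventually (ok.usc (fv (σ.W fr) x))
  obtain ⟨K₀, hK₀⟩ := nhds_box' (ev1.and ev2)
  obtain ⟨K₂, hK₂⟩ := exists_sep h.fin x.g
  obtain ⟨K', k0, k2, k3, k1⟩ : ∃ K', K₀ ≤ K' ∧ K₂ ≤ K' ∧ σ.K < K' ∧ K₁ ≤ K' :=
    ⟨K₀ + K₂ + σ.K + 1 + K₁, by omega, by omega, by omega, by omega⟩
  have hN : IsClosed {f : Th | ∀ i < K', dist (fv (σ.W fr) x i) (f i) ≤ 1 / ((K' : ℝ) + 2)} := by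
    simp only [Set.ofPred_forall]
    exact isClosed_iInter fun i => isClosed_iInter fun _ =>
      isClosed_le (by fun_prop) continuous_const
  have hs : IsOpen {f : Th | box K' (Iio K') (fv (σ.W fr) x) f} := by
    have := (isOpen_box K' (finite_Iio K') (x.a, fv (σ.W fr) x)).preimage
      (f := fun f : Th => (x.a, f)) (by fun_prop)
    convert this using 1
    ext f
    exact ⟨fun a => ⟨ag.refl _ _, a⟩, fun a => a.2⟩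
  have hp : (0 : ℝ) < (K' : ℝ) + 1 := by positivity
  obtain ⟨σ₂, i2, e2, -, -, -, -, -, -, -, -, -, -, -, c2⟩ := modCp h (K' := K') (k' := σ.k) k3
    le_rfl (a₀ := x.a) (g₀ := x.g) (w₀ := mkr (σ.W fr) x) (ω₀ := fun n => (σ.E n x).1)
    (τ₀ := fun n => (σ.E n x).2) hM (fun n => (h.gE n).1 x) hN hs
    (fun f hf i hi => (hf i hi).trans_lt (one_div_lt_one_div_of_lt hp (by linarith)))
    (fun q o => by
      have e : σ.cd (cel (σ.W fr) x) = σ.cd q := h.loc _ _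
        ⟨Or.inr ⟨by rw [show (cel (σ.W fr) x).h = ⊤ from ht]; exact le_top,
          (Nat.cast_le.2 k3.le).trans o.1⟩, o.2.1.mono k3.le, o.2.2.1.mono k3.le,
          o.2.2.2.mono k3.le⟩
      rw [← e]
      refine ⟨h.r_le _, T.1.symm, fun f hf => ?_⟩
      obtain ⟨a, b, c⟩ := hK₀ K' k0 (q.a, f) o.2.1 hf
      exact ⟨c.trans (T.2.1.symm.mono b), fun _ => a.le⟩)
    (fun y hy o => by
      have e1 : y.g = x.g := hK₂ K' k2 _ hy.2.1 o.2.2.1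
      have e : y = x := by
        rcases pts_cases hx.1 with ⟨j, a, c, rfl, -, -⟩ | ⟨c, hb, rfl⟩
        · exact absurd ht (ENat.natCast_ne_top j)
        · rcases pts_cases hy.1 with ⟨j, a, c', rfl, -, hc'⟩ | ⟨c', -, rfl⟩
          · obtain rfl : c' = c := e1
            exact absurd hb (fr.disj c' hc')
          · obtain rfl : c' = c := e1
            rfl
      rw [e]
      refine ⟨fun i _ => ?_, fun _ _ => rfl⟩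
      rw [dist_self]
      positivity)
  refine ⟨σ₂, i2, e2, K' + 1, fun σ' h' he y hy hn m hm => ?_⟩
  have he0 := e2.trans he
  have hW : ∀ n, σ'.W fr n x = σ.W fr n x := fun n => he0.W n hx
  obtain ⟨n1, n2, n3, n4, n5⟩ := (nbr_top ht).1 hn
  have o : inC K' x.a x.g (mkr (σ.W fr) x) (cel (σ'.W fr) y) :=
    ⟨(Nat.cast_le.2 (Nat.le_succ K')).trans n2, n3.mono (Nat.le_succ _), n1.mono (Nat.le_succ _),
      fun n hn => (congrArg Prod.fst (hW n)).symm.trans (n4 n (Nat.lt_succ_of_lt hn))⟩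
  obtain ⟨d1, d2, -, -, d3⟩ := c2 _ o
  obtain ⟨d4, d5, -⟩ := d3 (fv (σ'.W fr) y) fun i hi => by
    have := (n5 i (Nat.lt_succ_of_lt hi)).le
    rw [show fv (σ'.W fr) x i = fv (σ.W fr) x i from congrArg Prod.snd (hW i)] at this
    refine this.trans_eq ?_
    push_cast
    ring
  have key : ∀ n < K₁, m.1 n x = m.1 n y := fun n hn => by
    rw [copyB h' he hy d1 d4 hm (hn.trans_le hk), d2, d5,
      ← h.mem m (he0.𝓜 hm) n (hn.trans_le hk) x hx]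
  refine hmod m (he0.𝓜 hm) y hy.1 ((nbr_Wu hn).mono k1 (Iio_subset_Iio k1)) ((nbr_top ht).2
    ⟨n1.mono (k1.trans (Nat.le_succ _)), (Nat.cast_le.2 (k1.trans (Nat.le_succ _))).trans n2,
      n3.mono (k1.trans (Nat.le_succ _)), fun i hi => congrArg Prod.fst (key i hi), fun i hi => ?_⟩)
  rw [show fv m.1 x i = fv m.1 y i from congrArg Prod.snd (key i hi), dist_self]
  exact Nat.one_div_pos_of_nat

theorem CG4b_P (h : σ.Inv fr) {j : ℕ} {a : G2} {c : Lb} (hx : pt j a c ∈ σ.tch fr) {η : ℝ}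
    {K₁ : ℕ} (hk : K₁ ≤ σ.k) (hM : ∀ j' ≤ j, (σ.u (pt j' a0 c)).1 ≤ σ.M)
    (hmod : ∀ m ∈ σ.𝓜, ∀ y ∈ fr.Y, Nbr K₁ (Iio K₁) (pt j a c) fr.V y fr.V →
      Nbr K₁ (Iio K₁) (pt j a c) m.1 y m.1 → |m.2 y - m.2 (pt j a c)| < η) :
    ∃ σ', σ'.Inv fr ∧ σ.Ext fr σ' ∧ σ'.Fin1 fr (pt j a c) η := by
  obtain ⟨x1, x2, x3, x4⟩ := Fr.pt_tch.1 hx
  have tc : ∀ j' ≤ j, ∀ a', nrm j' a' → pt j' a' c ∈ σ.tch fr := fun j' hj a' ha =>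
    Fr.pt_tch.2 ⟨ha, x2, x3, hj.trans x4⟩
  have ev : ∀ᶠ K in atTop, ∀ j' ∈ Iic j, ∀ a' ∈ {a' | nrm j' a'}, ∀ f,
      box K (Iio K) (fv (σ.W fr) (pt j' a' c)) f →
        (σ.cd (cel (σ.W fr) (pt j' a' c))).T (a', f) fun n => σ.E n (pt j' a' c) :=
    (eventually_all_finite (finite_Iic j)).2 fun j' hj =>
      (eventually_all_finite (finite_nrm j')).2 fun a' ha => by
        obtain ⟨K₀, hK₀⟩ := nhds_box' (CD.T.eventually (h.ok _) (h.T _ (tc j' hj a' ha)))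
        exact eventually_atTop.2 ⟨K₀, fun K hK f hf => hK₀ K hK (a', f) (ag.refl _ _) hf⟩
  obtain ⟨K₀, hK₀⟩ := eventually_atTop.1 ev
  obtain ⟨K₂, hK₂⟩ := exists_sep h.fin c
  obtain ⟨K', k0, k2, k3, k4, k1⟩ : ∃ K', K₀ ≤ K' ∧ K₂ ≤ K' ∧ σ.K ≤ K' ∧ j < K' ∧ K₁ + 1 ≤ K' :=
    ⟨K₀ + K₂ + σ.K + 1 + K₁ + j, by omega, by omega, by omega, by omega, by omega⟩
  obtain ⟨σ₂, i2, e2, -, -, -, -, -, -, -, -, -, -, c2⟩ := modFin h (K' := K') (k' := σ.k)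
    (j₀ := j) k3 k4 le_rfl (g₀ := c) (W₀ := σ.W fr) (E₀ := σ.E) h.gE hM
    (fun j' hj => ⟨h.fk _ _ _, fun a' ha n hn => (h.TF c j' a' (tc j' hj a' ha) n hn).symm⟩)
    (fun j' hj c' W' o a' ha => by
      have e : σ.cd (cel (σ.W fr) (pt j' a' c)) = σ.cd (cel W' (pt j' a' c')) := h.loc _ _
        ⟨Or.inl rfl, ag.refl _ _, o.1.mono k3,
          fun n hn => congrArg Prod.fst (o.2 n (hn.trans_le k3) j' le_rfl a' ha)⟩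
      refine ⟨h.r_le _, ?_⟩
      rw [← e]
      refine hK₀ K' k0 j' hj a' ha _ fun i hi => ?_
      rw [show fv (σ.W fr) (pt j' a' c) i = fv W' (pt j' a' c') i from
        congrArg Prod.snd (o.2 i hi j' le_rfl a' ha), dist_self]
      exact Nat.one_div_pos_of_nat)
    (fun j' _ c' a' hy o n _ => by rw [hK₂ K' k2 c' (Fr.pt_tch.1 hy).2.2.1 o])
  refine ⟨σ₂, i2, e2, K', fun σ' h' he y hy hn m hm => ?_⟩
  have he0 := e2.trans he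
  obtain ⟨n1, -, n3, n4⟩ := nbr_pt.1 hn
  obtain ⟨-, y2, y3, y4⟩ := Fr.pt_tch.1 (show pt j a y.g ∈ σ'.tch fr from n3 ▸ hy)
  refine hmod m (he0.𝓜 hm) y hy.1 (nbr_Wu (hn.mono k1 (Iio_subset_Iio k1))) (nbr_pt.2
    ⟨n1.mono ((Nat.le_succ _).trans k1), x1, n3, fun i hi j' hj a' ha => ?_⟩)
  obtain ⟨d1, d2⟩ := c2 j' hj y.g (σ'.W fr) ⟨n1, fun n hn' j'' hj' a'' ha' =>
    (he0.W n (tc j'' (hj'.trans hj) a'' ha')).symm.trans (n4 n hn' j'' (hj'.trans hj) a'' ha')⟩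
  have hi' : i < σ.k := lt_of_lt_of_le hi hk
  rw [copyP h' he (Fr.pt_tch.2 ⟨ha, y2, y3, hj.trans y4⟩) hm (d1 ▸ hi'), d2,
    h.mem m (he0.𝓜 hm) i hi' _ (tc j' hj a' ha)]

theorem req1B (h : σ.Inv fr) {x : Pt} (hx : x ∈ σ.tch fr) (ht : x.h = ⊤) {η : ℝ} (hη : 0 < η) :
    ∃ σ', σ'.Inv fr ∧ σ.Ext fr σ' ∧ σ'.Fin1 fr x η := by
  obtain ⟨K₁, σ₁, h1, h2, h3, h4, h5⟩ := CG4b_mod h hx hη (le_max_left σ.M (σ.u x).1)
  obtain ⟨σ', a, b, c⟩ := CG4b_B h1 (h2.tch hx) ht h3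
    (by rw [← h2.u hx, h4]; exact le_max_right _ _) h5
  exact ⟨σ', a, h2.trans b, c⟩

theorem req1P (h : σ.Inv fr) {j : ℕ} {a : G2} {c : Lb} (hx : pt j a c ∈ σ.tch fr) {η : ℝ}
    (hη : 0 < η) : ∃ σ', σ'.Inv fr ∧ σ.Ext fr σ' ∧ σ'.Fin1 fr (pt j a c) η := by
  obtain ⟨M₀, hM₀⟩ := ((finite_Iic j).image fun j' => (σ.u (pt j' a0 c)).1).bddAbove
  obtain ⟨K₁, σ₁, h1, h2, h3, h4, h5⟩ := CG4b_mod h hx hη (le_max_left σ.M M₀)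
  obtain ⟨-, x2, x3, x4⟩ := Fr.pt_tch.1 hx
  obtain ⟨σ', a, b, c⟩ := CG4b_P h1 (h2.tch hx) h3 (fun j' hj => by
    rw [← h2.u (Fr.pt_tch.2 ⟨nrm_a0 j', x2, x3, hj.trans x4⟩), h4]
    exact (hM₀ ⟨j', hj, rfl⟩).trans (le_max_right _ _)) h5
  exact ⟨σ', a, h2.trans b, c⟩

theorem req1 (h : σ.Inv fr) {x : Pt} (hx : x ∈ σ.tch fr) {η : ℝ} (hη : 0 < η) :
    ∃ σ', σ'.Inv fr ∧ σ.Ext fr σ' ∧ σ'.Fin1 fr x η := by
  rcases pts_cases hx.1 with ⟨j, a, c, rfl, -, -⟩ | ⟨c, -, rfl⟩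
  · exact req1P h hx hη
  · exact req1B h hx rfl hη

theorem req3 (h : σ.Inv fr) (y : Pt) {η : ℝ} (hη : 0 < η) :
    ∃ σ', σ'.Inv fr ∧ σ.Ext fr σ' ∧ σ'.Fin3 y η := by
  obtain ⟨i, σ₁, h1, h2, -, -, -, -, -, -, h5, -⟩ := adv h
    (fun i : ℤ => {m : Mem | ⌊m.2 y / η⌋ = i}) (fun _ => σ.k) (fun m _ => ⟨_, rfl⟩)
    (fun _ => le_rfl) (le_refl σ.M)
  refine ⟨σ₁, h1, h2, fun m hm m' hm' => ?_⟩
  have := Int.abs_sub_lt_one_of_floor_eq_floor ((h5 hm).trans (h5 hm').symm)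
  rwa [← sub_div, abs_div, abs_of_pos hη, div_lt_one hη] at this

end GS

end Pool.Agent.Work.MP_f50f0f_gt
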