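import Pool.Agent.Work.MP_f50f0f_gt.CG3
import Pool.Agent.Work.MP_f50f0f_gt.CG4

/-! Playing countably many games at once. -/

namespace Pool.Agent.Work.MP_f50f0f_gt
open Function Set Filter Topology

/-- The outcome of a game: the limit function `k`. -/
structure Out (fr : Fr) (st : Start fr) (u : Co) (k : Pt → ℝ) : Prop where
  o1 : ∀ x ∈ fr.Y, ∀ η : ℝ, 0 < η → ∃ K, ∀ y ∈ fr.Y,
    Nbr K (Iio K) x (Wu u fr.V) y (Wu u fr.V) → |k y - k x| ≤ η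
  o2 : ∀ η : ℝ, 0 < η → ∀ (K₀ : ℕ) (g₀ w₀ : ℕ → ℕ), ∃ K₁ ≥ K₀, ∃ g₁ w₁, ag K₀ g₀ g₁ ∧
    ag K₀ w₀ w₁ ∧ ∃ Ψ : G2 × Th → ℝ, Continuous Ψ ∧ ∀ y ∈ fr.Y,
      inS K₁ g₁ w₁ (cel (Wu u fr.V) y) → |k y - Ψ (y.a, fv (Wu u fr.V) y)| ≤ η
  o4 : ∀ Z : Set Pt, Z.Finite → Z ⊆ fr.Y → ∀ η : ℝ, 0 < η →
    ∃ m ∈ st.𝓜, ∀ y ∈ Z, |m.2 y - k y| < η
  o5 : ∀ i < st.n, ∀ x ∈ dn (st.z i), ∀ y ∈ fr.Y,
    Nbr (st.K + st.n) (Iio (st.K + st.n)) x (st.W i) y (Wu u fr.V) → ∀ η : ℝ, 0 < η →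
      ∃ m ∈ st.𝓜, |m.2 y - k y| < η ∧ Nbr st.k (Iio st.k) x (st.C i) y m.1

theorem CG5_Wu {u u' : Co} (V : ℕ → Co) {z : Pt} (h : u z = u' z) (i : ℕ) :
    Wu u V i z = Wu u' V i z := by
  cases i with
  | zero => simp only [Wu, mo, h]
  | succ i => rfl

theorem CG5_fin1 {fr : Fr} {σ σ' : GS} {x : Pt} {η η' : ℝ} (h : σ.Fin1 fr x η)
    (he : σ.Ext fr σ') (hη : η ≤ η') : σ'.Fin1 fr x η' := by
  obtain ⟨K, hK⟩ := h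
  exact ⟨K, fun τ hτ he' y hy hn m hm => (hK τ hτ (he.trans he') y hy hn m hm).trans_le hη⟩

theorem CG5_fin3 {fr : Fr} {σ σ' : GS} {x : Pt} {η η' : ℝ} (h : σ.Fin3 x η)
    (he : σ.Ext fr σ') (hη : η ≤ η') : σ'.Fin3 x η' :=
  fun m hm m' hm' => (h m (he.𝓜 hm) m' (he.𝓜 hm')).trans_le hη

theorem CG5_fin2 {fr : Fr} {σ σ' : GS} {η η' : ℝ} {K₀ : ℕ} {g₀ w₀ g₀' w₀' : ℕ → ℕ}
    (h : σ.Fin2 fr η K₀ g₀ w₀) (he : σ.Ext fr σ') (hη : η ≤ η') (hg : ag K₀ g₀' g₀)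
    (hw : ag K₀ w₀' w₀) : σ'.Fin2 fr η' K₀ g₀' w₀' := by
  obtain ⟨K₁, hK, g₁, w₁, h1, h2, Ψ, hΨ, h3⟩ := h
  exact ⟨K₁, hK, g₁, w₁, hg.trans h1, hw.trans h2, Ψ, hΨ,
    fun τ hτ he' y hy hn m hm => (h3 τ hτ (he.trans he') y hy hn m hm).trans hη⟩

theorem CG5_fin5 {fr : Fr} {σ σ' : GS} {st : Start fr} {i : ℕ} (h : σ.Fin5 fr st i)
    (he : σ.Ext fr σ') : σ'.Fin5 fr st i :=
  fun τ hτ he' => h τ hτ (he.trans he')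

/-- The outcome of one run of one game. -/
theorem CG5_out {fr : Fr} (st : Start fr) (ρ : ℕ → GS) (u : Co) (hI : ∀ n, (ρ n).Inv fr)
    (hE : ∀ n n', n ≤ n' → (ρ n).Ext fr (ρ n')) (hu : ∀ n, EqOn (ρ n).u u ((ρ n).tch fr))
    (hY : ∀ y ∈ fr.Y, ∃ n, y ∈ (ρ n).tch fr) (hM : ∀ n, (ρ n).𝓜 ⊆ st.𝓜)
    (h5 : ∀ n, ∀ i < st.n, (ρ n).Fin5 fr st i)
    (h1 : ∀ x ∈ fr.Y, ∀ η : ℝ, 0 < η → ∃ n, (ρ n).Fin1 fr x η)
    (h3 : ∀ x ∈ fr.Y, ∀ η : ℝ, 0 < η → ∃ n, (ρ n).Fin3 x η)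
    (h2 : ∀ η : ℝ, 0 < η → ∀ K₀ g₀ w₀, ∃ n, (ρ n).Fin2 fr η K₀ g₀ w₀) :
    ∃ k, Out fr st u k := by
  choose μ hμ using fun n => (hI n).nonempty
  have hμ' : ∀ n n', n ≤ n' → μ n' ∈ (ρ n).𝓜 := fun n n' h => (hE n n' h).𝓜 (hμ n')
  have hk : ∀ y : Pt, ∃ t : ℝ, y ∈ fr.Y → ∀ η : ℝ, 0 < η →
      ∀ᶠ n in atTop, ∀ m ∈ (ρ n).𝓜, |m.2 y - t| < η := by
    intro y
    by_cases hy : y ∈ fr.Y
    swap
    · exact ⟨0, fun h => absurd h hy⟩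
    have hc : CauchySeq fun n => (μ n).2 y := by
      refine Metric.cauchySeq_iff.2 fun η hη => ?_
      obtain ⟨n, hn⟩ := h3 y hy η hη
      exact ⟨n, fun a ha b hb => hn _ (hμ' n a ha) _ (hμ' n b hb)⟩
    obtain ⟨t, ht⟩ := cauchySeq_tendsto_of_complete hc
    refine ⟨t, fun _ η hη => ?_⟩
    obtain ⟨n, hn⟩ := h3 y hy (η / 2) (half_pos hη)
    obtain ⟨n₁, hn₁⟩ := Metric.tendsto_atTop.1 ht (η / 2) (half_pos hη)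
    refine eventually_atTop.2 ⟨n, fun n' hn' m hm => ?_⟩
    have a1 := hn m ((hE n n' hn').𝓜 hm) _ (hμ' n (max n n₁) (le_max_left _ _))
    have a2 := hn₁ (max n n₁) (le_max_right _ _)
    rw [Real.dist_eq] at a2
    have a3 := abs_sub_le (m.2 y) ((μ (max n n₁)).2 y) t
    linarith
  choose k hk using hk
  have hT : ∀ y ∈ fr.Y, ∀ᶠ n in atTop, y ∈ (ρ n).tch fr := fun y hy => by
    obtain ⟨n, hn⟩ := hY y hy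
    exact eventually_atTop.2 ⟨n, fun n' hn' => (hE n n' hn').tch hn⟩
  have hW : ∀ n, ∀ y ∈ (ρ n).tch fr, ∀ i, ∀ z ∈ dn y, Wu u fr.V i z = (ρ n).W fr i z :=
    fun n y hy i z hz => CG5_Wu fr.V (hu n (Fr.dn_tch hy hz)).symm i
  have hW' : ∀ n, ∀ y ∈ (ρ n).tch fr, cel (Wu u fr.V) y = cel ((ρ n).W fr) y ∧
      fv (Wu u fr.V) y = fv ((ρ n).W fr) y := by
    intro n y hy
    have h : ∀ i, Wu u fr.V i y = (ρ n).W fr i y := fun i => CG5_Wu fr.V (hu n hy).symm i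
    refine ⟨?_, funext fun i => congrArg Prod.snd (h i)⟩
    have h' : mkr (Wu u fr.V) y = mkr ((ρ n).W fr) y := funext fun i => congrArg Prod.fst (h i)
    simp only [cel, h']
  refine ⟨k, fun x hx η hη => ?_, fun η hη K₀ g₀ w₀ => ?_, fun Z hZ hZY η hη => ?_,
    fun i hi x hx y hy hn η hη => ?_⟩
  · have hη' : 0 < η / 3 := by positivity
    obtain ⟨n, K, hK⟩ := h1 x hx (η / 3) hη'
    refine ⟨K, fun y hy hn => ?_⟩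
    obtain ⟨n', ⟨⟨⟨b1, b2⟩, b3⟩, b4⟩, b5⟩ := (((((hT x hx).and (hT y hy)).and
      (hk x hx _ hη')).and (hk y hy _ hη')).and (eventually_ge_atTop n)).exists
    have a1 := hK (ρ n') (hI n') (hE n n' b5) y b2
      (hn.congr (reg_of_mem hy) (fun i _ => hW n' x b1 i) fun i _ => hW n' y b2 i) _ (hμ n')
    have a2 := b3 _ (hμ n')
    have a3 := b4 _ (hμ n')
    rw [abs_lt] at a1 a2 a3
    rw [abs_le]
    constructor <;> linarith [a1.1, a1.2, a2.1, a2.2, a3.1, a3.2]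
  · obtain ⟨n, K₁, hK, g₁, w₁, c1, c2, Ψ, hΨ, c3⟩ := h2 (η / 2) (half_pos hη) K₀ g₀ w₀
    refine ⟨K₁, hK, g₁, w₁, c1, c2, Ψ, hΨ, fun y hy hs => ?_⟩
    obtain ⟨n', ⟨b1, b2⟩, b3⟩ :=
      (((hT y hy).and (hk y hy _ (half_pos hη))).and (eventually_ge_atTop n)).exists
    rw [(hW' n' y b1).1] at hs
    have a1 := c3 (ρ n') (hI n') (hE n n' b3) y b1 hs _ (hμ n')
    have a2 := b2 _ (hμ n')
    rw [(hW' n' y b1).2]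
    rw [abs_lt] at a2
    rw [abs_le] at a1 ⊢
    constructor <;> linarith [a1.1, a1.2, a2.1, a2.2]
  · obtain ⟨n, hn⟩ := ((eventually_all_finite hZ).2 fun y hy => hk y (hZY hy) η hη).exists
    exact ⟨μ n, hM n (hμ n), fun y hy => hn y hy _ (hμ n)⟩
  · obtain ⟨n, b1, b2⟩ := ((hT y hy).and (hk y hy _ hη)).exists
    exact ⟨μ n, hM n (hμ n), b2 _ (hμ n), h5 n i hi (ρ n) (hI n) (GS.Ext.refl (hI n)) x hx y b1
      (hn.congr (reg_of_mem hy) (fun _ _ _ _ => rfl) fun i _ => hW n y b1 i) _ (hμ n)⟩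

/-- Global positions: the games in `S` have been started. -/
structure CG5_Pos (fr : Fr) {ι : Type} (st : ι → Start fr) where
  u : Co
  A : Set Lb
  m : ℕ
  S : Set ι
  σ : ι → GS
  gu : Good u
  fin : A.Finite
  inv : ∀ j ∈ S, (σ j).Inv fr ∧ (σ j).A = A ∧ (σ j).m = m ∧ (σ j).u = u ∧
    (σ j).𝓜 ⊆ (st j).𝓜 ∧ ∀ i < (st j).n, (σ j).Fin5 fr (st j) i

namespace CG5_Pos
variable {fr : Fr} {ι : Type} {st : ι → Start fr}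

def tch (q : CG5_Pos fr st) : Set Pt := fr.tch q.A q.m

theorem tch_eq (q : CG5_Pos fr st) {j : ι} (hj : j ∈ q.S) : (q.σ j).tch fr = q.tch := by
  obtain ⟨-, h1, h2, -⟩ := q.inv j hj
  simp only [GS.tch, tch, h1, h2]

instance : Preorder (CG5_Pos fr st) where
  le q' q := q.A ⊆ q'.A ∧ q.m ≤ q'.m ∧ EqOn q.u q'.u q.tch ∧ q.S ⊆ q'.S ∧
    ∀ j ∈ q.S, (q.σ j).Ext fr (q'.σ j)
  le_refl q := ⟨Subset.rfl, le_rfl, fun _ _ => rfl, Subset.rfl,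
    fun j hj => GS.Ext.refl (q.inv j hj).1⟩
  le_trans _ _ _ h' h := ⟨h.1.trans h'.1, h.2.1.trans h'.2.1,
    fun _ hy => (h.2.2.1 hy).trans (h'.2.2.1 (Fr.tch_mono h.1 h.2.1 hy)),
    h.2.2.2.1.trans h'.2.2.2.1,
    fun j hj => (h.2.2.2.2 j hj).trans (h'.2.2.2.2 j (h.2.2.2.1 hj))⟩

theorem tch_le {q q' : CG5_Pos fr st} (h : q' ≤ q) : q.tch ⊆ q'.tch := Fr.tch_mono h.1 h.2.1

theorem S_le {q q' : CG5_Pos fr st} (h : q' ≤ q) : q.S ⊆ q'.S := h.2.2.2.1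

theorem ext_le {q q' : CG5_Pos fr st} (h : q' ≤ q) {j : ι} (hj : j ∈ q.S) :
    (q.σ j).Ext fr (q'.σ j) := h.2.2.2.2 j hj

/-- All started games follow a change of the condition. -/
theorem sync (q : CG5_Pos fr st) {A' : Set Lb} {m' : ℕ} {u' : Co} (hA' : A'.Finite)
    (hA : q.A ⊆ A') (hm : q.m ≤ m') (hu : Good u') (hu' : EqOn q.u u' q.tch) :
    ∃ q' ≤ q, q'.A = A' ∧ q'.m = m' ∧ q'.u = u' ∧ q'.S = q.S := by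
  have h : ∀ j, ∃ σ' : GS, j ∈ q.S →
      σ'.Inv fr ∧ (q.σ j).Ext fr σ' ∧ σ'.A = A' ∧ σ'.m = m' ∧ σ'.u = u' := by
    intro j
    by_cases hj : j ∈ q.S
    · obtain ⟨h1, h2, h3, h4, -⟩ := q.inv j hj
      obtain ⟨σ', h⟩ := GS.fill h1 hA' (h2 ▸ hA) (h3 ▸ hm) hu (by rw [q.tch_eq hj, h4]; exact hu')
      exact ⟨σ', fun _ => h⟩
    · exact ⟨q.σ j, fun h => absurd h hj⟩
  choose τ hτ using h
  refine ⟨⟨u', A', m', q.S, τ, hu, hA', fun j hj => ?_⟩,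
    ⟨hA, hm, hu', Subset.rfl, fun j hj => (hτ j hj).2.1⟩, rfl, rfl, rfl, rfl⟩
  obtain ⟨h1, h2, h3, h4, h5⟩ := hτ j hj
  obtain ⟨-, -, -, -, h6, h7⟩ := q.inv j hj
  exact ⟨h1, h3, h4, h5, h2.𝓜.trans h6, fun i hi => CG5_fin5 (h7 i hi) h2⟩

/-- The game `j` is put into the position `σ'`. -/
theorem put (q : CG5_Pos fr st) (j : ι) {σ' : GS} (h : σ'.Inv fr) (hA : q.A ⊆ σ'.A)
    (hm : q.m ≤ σ'.m) (hu : EqOn q.u σ'.u q.tch) (hM : σ'.𝓜 ⊆ (st j).𝓜)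
    (h5 : ∀ i < (st j).n, σ'.Fin5 fr (st j) i) (he : j ∈ q.S → (q.σ j).Ext fr σ') :
    ∃ q' ≤ q, j ∈ q'.S ∧ q'.σ j = σ' := by
  classical
  obtain ⟨p, hp, h1, h2, h3, h4⟩ := q.sync h.fin hA hm h.gu hu
  refine ⟨⟨p.u, p.A, p.m, insert j p.S, update p.σ j σ', p.gu, p.fin, fun i hi => ?_⟩,
    ⟨hp.1, hp.2.1, hp.2.2.1, hp.2.2.2.1.trans (subset_insert _ _), fun i hi => ?_⟩,
    mem_insert _ _, update_self j σ' p.σ⟩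
  · by_cases hij : i = j
    · subst hij
      rw [update_self]
      exact ⟨h, h1.symm, h2.symm, h3.symm, hM, h5⟩
    · rw [update_of_ne hij]
      exact p.inv i (hi.resolve_left hij)
  · show (q.σ i).Ext fr (update p.σ j σ' i)
    by_cases hij : i = j
    · subst hij
      rw [update_self]
      exact he hi
    · rw [update_of_ne hij]
      exact ext_le hp hi

/-- A move in the game `j`. -/
theorem move (q : CG5_Pos fr st) {j : ι} (hj : j ∈ q.S) {σ' : GS} (h : σ'.Inv fr)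
    (he : (q.σ j).Ext fr σ') : ∃ q' ≤ q, q'.σ j = σ' := by
  obtain ⟨-, h2, h3, h4, h5, h6⟩ := q.inv j hj
  obtain ⟨q', hq, -, h'⟩ := q.put j h (h2 ▸ he.A) (h3 ▸ he.m)
    (by rw [← q.tch_eq hj, ← h4]; exact he.u) (he.𝓜.trans h5)
    (fun i hi => CG5_fin5 (h6 i hi) he) fun _ => he
  exact ⟨q', hq, h'⟩

/-- Starting the game `j`. -/
theorem start (q : CG5_Pos fr st) (j : ι) : ∃ q' ≤ q, j ∈ q'.S := by
  by_cases hj : j ∈ q.S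
  · exact ⟨q, le_rfl, hj⟩
  obtain ⟨σ₀, h1, h2, h3, h4, h5, h6⟩ := (st j).start q.gu
  obtain ⟨σ', a1, a2, a3, a4, a5⟩ := GS.fill (A' := q.A ∪ σ₀.A) (m' := max q.m σ₀.m) (u' := q.u) h1
    (q.fin.union h1.fin) subset_union_right (le_max_right _ _) q.gu (by rw [h4]; exact fun _ _ => rfl)
  obtain ⟨q', hq, h', -⟩ := q.put j a1 (by rw [a3]; exact subset_union_left)
    (by rw [a4]; exact le_max_left _ _) (by rw [a5]; exact fun _ _ => rfl) (a2.𝓜.trans h5)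
    (fun i hi => CG5_fin5 (h6 i hi) a2) fun h => absurd h hj
  exact ⟨q', hq, h'⟩

/-- Touching finitely many points. -/
theorem touch (q : CG5_Pos fr st) {Z : Set Pt} (hZ : Z.Finite) (hY : Z ⊆ fr.Y) {u' : Co}
    (hu : Good u') (hu' : EqOn q.u u' q.tch) : ∃ q' ≤ q, Z ⊆ q'.tch ∧ q'.u = u' := by
  obtain ⟨A', m', h1, h2, h3, h4⟩ := Fr.exists_tch hZ hY q.fin q.m
  obtain ⟨q', hq, a1, a2, a3, -⟩ := q.sync h1 h2 h3 hu hu'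
  exact ⟨q', hq, by rw [tch, a1, a2]; exact h4, a3⟩

theorem meet (q : CG5_Pos fr st) {H : Set Co} (hH : Opn1 fr.Y H ∧ Dns1 H) :
    ∃ q' ≤ q, ∀ u', EqOn q'.u u' q'.tch → u' ∈ H := by
  obtain ⟨u, h1, h2, h3⟩ := hH.2 q.u q.gu q.tch (Fr.finite_tch q.fin q.m)
  obtain ⟨Z, a1, a2, a3⟩ := hH.1 u h3
  obtain ⟨q', hq, b1, b2⟩ := q.touch a1 a2 h1 h2
  exact ⟨q', hq, fun u' h => a3 u' (b2 ▸ h.mono b1)⟩

theorem r13 (q : CG5_Pos fr st) (j : ι) {x : Pt} (hx : x ∈ fr.Y) {η : ℝ} (hη : 0 < η) :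
    ∃ q' ≤ q, j ∈ q'.S ∧ (q'.σ j).Fin1 fr x η ∧ (q'.σ j).Fin3 x η := by
  obtain ⟨q₁, h₁, hj⟩ := q.start j
  obtain ⟨q₂, h₂, hx₂, -⟩ := q₁.touch (finite_singleton x) (singleton_subset_iff.2 hx) q₁.gu
    fun _ _ => rfl
  have hj₂ := S_le h₂ hj
  obtain ⟨σ₃, a1, a2, a3⟩ := GS.req1 (q₂.inv j hj₂).1
    (x := x) (by rw [q₂.tch_eq hj₂]; exact hx₂ (mem_singleton x)) hη
  obtain ⟨σ₄, b1, b2, b3⟩ := GS.req3 a1 x hη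
  obtain ⟨q₄, h₄, c⟩ := q₂.move hj₂ b1 (a2.trans b2)
  exact ⟨q₄, h₄.trans (h₂.trans h₁), S_le h₄ hj₂, c ▸ CG5_fin1 a3 b2 le_rfl, c ▸ b3⟩

theorem r2 (q : CG5_Pos fr st) (j : ι) {η : ℝ} (hη : 0 < η) (K₀ : ℕ) (g₀ w₀ : ℕ → ℕ) :
    ∃ q' ≤ q, j ∈ q'.S ∧ (q'.σ j).Fin2 fr η K₀ g₀ w₀ := by
  obtain ⟨q₁, h₁, hj⟩ := q.start j
  obtain ⟨σ₂, a1, a2, a3⟩ := GS.req2 (q₁.inv j hj).1 hη K₀ g₀ w₀
  obtain ⟨q₂, h₂, c⟩ := q₁.move hj a1 a2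
  exact ⟨q₂, h₂.trans h₁, S_le h₂ hj, c ▸ a3⟩

end CG5_Pos

theorem game (fr : Fr) {ι : Type} [Countable ι] (st : ι → Start fr) {ℋ : Set (Set Co)}
    (hc : ℋ.Countable) (hH : ∀ H ∈ ℋ, Opn1 fr.Y H ∧ Dns1 H) :
    ∃ u, Good u ∧ (∀ H ∈ ℋ, u ∈ H) ∧ ∀ j, ∃ k, Out fr (st j) u k := by
  let T : Set (ℕ → ℕ) := {f | ∃ K, (∀ n < K, f n ∈ (univ : Set ℕ)) ∧ ∀ n, K ≤ n → f n = 0}
  have : Countable T := (countable_trn countable_univ 0).to_subtype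
  have : Countable fr.Y := (countable_pts fr.cP fr.cB fr.ab).to_subtype
  have : Countable ℋ := hc.to_subtype
  have hT : ∀ K g, trn 0 K g ∈ T := fun K g =>
    ⟨K, fun _ _ => mem_univ _, fun _ hn => if_neg (not_lt.2 hn)⟩
  let R : (fr.Y ⊕ ℋ) ⊕ ((ι × fr.Y × ℕ) ⊕ (ι × ℕ × ℕ × T × T)) → CG5_Pos fr st → Prop
    | .inl (.inl y) => fun q => y.1 ∈ q.tch
    | .inl (.inr H) => fun q => ∀ u', EqOn q.u u' q.tch → u' ∈ H.1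
    | .inr (.inl p) => fun q => p.1 ∈ q.S ∧ (q.σ p.1).Fin1 fr p.2.1 (1 / ((p.2.2 : ℝ) + 1)) ∧
        (q.σ p.1).Fin3 p.2.1 (1 / ((p.2.2 : ℝ) + 1))
    | .inr (.inr p) => fun q => p.1 ∈ q.S ∧
        (q.σ p.1).Fin2 fr (1 / ((p.2.1 : ℝ) + 1)) p.2.2.1 p.2.2.2.1 p.2.2.2.2
  have hR : ∀ i q, ∃ q' ≤ q, R i q' := by
    rintro ((y | H) | (p | p)) q
    · obtain ⟨q', h1, h2, -⟩ := q.touch (finite_singleton y.1) (singleton_subset_iff.2 y.2) q.gu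
        fun _ _ => rfl
      exact ⟨q', h1, h2 (mem_singleton _)⟩
    · exact q.meet (hH H.1 H.2)
    · exact q.r13 p.1 p.2.1.2 Nat.one_div_pos_of_nat
    · exact q.r2 p.1 Nat.one_div_pos_of_nat _ _ _
  obtain ⟨s, -, hs, hRs⟩ := exists_seq R hR
    ⟨0, ∅, 0, ∅, fun _ => ⟨0, 0, 0, 0, ∅, 0, 0, ∅, fun _ _ => False, fun _ => CD.triv,
      fun _ _ _ => 0, fun _ _ _ _ _ => 0⟩, good_zero, finite_empty, fun _ h => h.elim⟩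
  have hs' : ∀ n n', n ≤ n' → s n' ≤ s n := fun n n' h => antitone_nat_of_succ_le hs h
  have hY : ∀ y ∈ fr.Y, ∃ n, y ∈ (s n).tch := fun y hy => hRs (.inl (.inl ⟨y, hy⟩))
  obtain ⟨u, hu, hu'⟩ := lim_cd (fun n => (s n).u) (fun n => (s n).tch) (fun n => (s n).gu)
    (fun n => CG5_Pos.tch_le (hs n)) (fun n => (hs n).2.2.1) hY
  have hu'' : ∀ n, EqOn (s n).u u (s n).tch := fun n y hy => hu' n ⟨hy, hy.1⟩
  refine ⟨u, hu, fun H hH' => ?_, fun j => ?_⟩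
  · obtain ⟨n, hn⟩ := hRs (.inl (.inr ⟨H, hH'⟩))
    exact hn u (hu'' n)
  obtain ⟨n₀, hj, -⟩ := hRs (.inr (.inr (j, 0, 0, ⟨_, hT 0 0⟩, ⟨_, hT 0 0⟩)))
  have hj' : ∀ n, j ∈ (s (n + n₀)).S := fun n => CG5_Pos.S_le (hs' _ _ (Nat.le_add_left _ _)) hj
  have h13 : ∀ x ∈ fr.Y, ∀ η : ℝ, 0 < η →
      ∃ n, ((s (n + n₀)).σ j).Fin1 fr x η ∧ ((s (n + n₀)).σ j).Fin3 x η := by
    intro x hx η hη
    obtain ⟨l, hl⟩ := exists_nat_one_div_lt hη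
    obtain ⟨n, a1, a2, a3⟩ := hRs (.inr (.inl (j, ⟨x, hx⟩, l)))
    have he := CG5_Pos.ext_le (hs' n (n + n₀) (Nat.le_add_right _ _)) a1
    exact ⟨n, CG5_fin1 a2 he hl.le, CG5_fin3 a3 he hl.le⟩
  refine CG5_out (st j) (fun n => (s (n + n₀)).σ j) u (fun n => ((s _).inv j (hj' n)).1)
    (fun n n' h => CG5_Pos.ext_le (hs' _ _ (Nat.add_le_add_right h _)) (hj' n)) (fun n => ?_)
    (fun y hy => ?_) (fun n => ((s _).inv j (hj' n)).2.2.2.2.1)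
    (fun n => ((s _).inv j (hj' n)).2.2.2.2.2) (fun x hx η hη => (h13 x hx η hη).imp fun _ h => h.1)
    (fun x hx η hη => (h13 x hx η hη).imp fun _ h => h.2) fun η hη K₀ g₀ w₀ => ?_
  · rw [(s _).tch_eq (hj' n), ((s _).inv j (hj' n)).2.2.2.1]
    exact hu'' _
  · obtain ⟨n, hn⟩ := hY y hy
    refine ⟨n, ?_⟩
    rw [(s _).tch_eq (hj' n)]
    exact CG5_Pos.tch_le (hs' n (n + n₀) (Nat.le_add_right _ _)) hn
  · obtain ⟨l, hl⟩ := exists_nat_one_div_lt hη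
    obtain ⟨n, a1, a2⟩ := hRs (.inr (.inr (j, l, K₀, ⟨_, hT K₀ g₀⟩, ⟨_, hT K₀ w₀⟩)))
    exact ⟨n, CG5_fin2 a2 (CG5_Pos.ext_le (hs' n (n + n₀) (Nat.le_add_right _ _)) a1) hl.le
      (ag_trn 0 K₀ g₀) (ag_trn 0 K₀ w₀)⟩

end Pool.Agent.Work.MP_f50f0f_gt
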