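import Pool.Agent.Work.MP_f50f0f_gt.CG5

/-! Limits along the old points, and the requirements on the new coordinate function. -/

namespace Pool.Agent.Work.MP_f50f0f_gt
open Function Set Filter Topology

section lim
variable (Y : Set Pt) (W : ℕ → Co) (k : Pt → ℝ) (x : Pt) (W' : ℕ → Co)

/-- `k y` tends to `t` as the old point `y` tends to `x`. -/
def LimAt (t : ℝ) : Prop :=
  ∀ η : ℝ, 0 < η → ∃ K, ∀ y ∈ Y, Nbr K (Iio K) x W' y W → |k y - t| ≤ η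

/-- `x` is a limit of old points. -/
def Den : Prop := ∀ K, ∃ y ∈ Y, Nbr K (Iio K) x W' y W

/-- The oscillation of `k` at `x` vanishes. -/
def Osc : Prop := ∀ η : ℝ, 0 < η → ∃ K r, ∀ y ∈ Y, Nbr K (Iio K) x W' y W → |k y - r| ≤ η

variable {Y W k x W'}

theorem lim_exists (h : Osc Y W k x W') (h' : Den Y W x W') : ∃ t, LimAt Y W k x W' t := by
  have hb : ∀ {K : ℕ} {r η : ℝ}, (∀ y ∈ Y, Nbr K (Iio K) x W' y W → |k y - r| ≤ η) →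
      r + η ∈ upperBounds {a | ∃ K, ∀ y ∈ Y, Nbr K (Iio K) x W' y W → a ≤ k y} := by
    rintro K r η hK a ⟨K', ha⟩
    obtain ⟨y, hy, hn⟩ := h' (max K K')
    have h1 := ha y hy (hn.mono (le_max_right _ _) (Iio_subset_Iio (le_max_right _ _)))
    have h2 := hK y hy (hn.mono (le_max_left _ _) (Iio_subset_Iio (le_max_left _ _)))
    linarith [(abs_le.1 h2).2]
  refine ⟨sSup {a | ∃ K, ∀ y ∈ Y, Nbr K (Iio K) x W' y W → a ≤ k y}, fun η hη => ?_⟩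
  obtain ⟨K, r, hK⟩ := h (η / 2) (by linarith)
  have h1 : r - η / 2 ∈ {a | ∃ K, ∀ y ∈ Y, Nbr K (Iio K) x W' y W → a ≤ k y} :=
    ⟨K, fun y hy hn => by linarith [(abs_le.1 (hK y hy hn)).1]⟩
  have h2 := le_csSup ⟨_, hb hK⟩ h1
  have h3 := csSup_le ⟨_, h1⟩ (hb hK)
  refine ⟨K, fun y hy hn => ?_⟩
  obtain ⟨h4, h5⟩ := abs_le.1 (hK y hy hn)
  exact abs_le.2 ⟨by linarith, by linarith⟩

/-- An estimate near `x` passes to the limit. -/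
theorem LimAt.le {t r η : ℝ} (h : LimAt Y W k x W' t) (h' : Den Y W x W') {K : ℕ}
    (hK : ∀ y ∈ Y, Nbr K (Iio K) x W' y W → |k y - r| ≤ η) : |t - r| ≤ η := by
  refine le_of_forall_pos_le_add fun ε hε => ?_
  obtain ⟨K', hK'⟩ := h ε hε
  obtain ⟨y, hy, hn⟩ := h' (max K K')
  obtain ⟨h1, h2⟩ :=
    abs_le.1 (hK' y hy (hn.mono (le_max_right _ _) (Iio_subset_Iio (le_max_right _ _))))
  obtain ⟨h3, h4⟩ :=
    abs_le.1 (hK y hy (hn.mono (le_max_left _ _) (Iio_subset_Iio (le_max_left _ _))))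
  exact abs_le.2 ⟨by linarith, by linarith⟩

theorem lim_unique {t t' : ℝ} (h : LimAt Y W k x W' t) (h' : LimAt Y W k x W' t')
    (hd : Den Y W x W') : t = t' := by
  refine eq_of_forall_dist_le fun η hη => ?_
  obtain ⟨K, hK⟩ := h' η hη
  exact h.le hd hK

end lim

/-- Requirements that make tuples of `𝒟` dense also for the new markers. -/
theorem approx_sets (fr : Fr) (𝒟 : Set (ℕ → Pt)) (n K : ℕ) (h𝒟 : ∀ l' ∈ 𝒟, ∀ i < n, l' i ∈ fr.Y) :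
    ∃ ℋ : Set (Set Co), ℋ.Countable ∧ (∀ H ∈ ℋ, Opn1 fr.Y H ∧ Dns1 H) ∧
      ∀ u, (∀ H ∈ ℋ, u ∈ H) → ∀ (l : ℕ → Pt) (V' : ℕ → Co) (u' : Co),
        (∀ i < n, RatOn univ (l i) V') →
        (∀ i < n, ∀ i' < n, (l i).g = (l i').g → (l i).h = ⊤ → l i = l i') →
        (∀ (K' : ℕ) (X : Set Lb), X.Finite → ∃ l' ∈ 𝒟, ∀ i < n, (l' i).g ∉ X ∧
          Sim K' (Iio K') (l i) V' (l' i) fr.V) →
        ∃ l' ∈ 𝒟, ∀ i < n, Nbr K (Iio K) (l i) (Wu u' V') (l' i) (Wu u fr.V) := by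
  classical
  let S : Set ((ℕ → Pt) × (ℕ → Co) × Co) := {κ | (∀ i < n, RatOn univ (κ.1 i) κ.2.1) ∧
    (∀ i < n, ∀ i' < n, (κ.1 i).g = (κ.1 i').g → (κ.1 i).h = ⊤ → κ.1 i = κ.1 i') ∧
    ∀ (K' : ℕ) (X : Set Lb), X.Finite → ∃ l' ∈ 𝒟, ∀ i < n, (l' i).g ∉ X ∧
      Sim K' (Iio K') (κ.1 i) κ.2.1 (l' i) fr.V}
  have hcc : CC S fun κ κ' => ∀ i ∈ Iio n, Sim (2 * K + 1) (Iio (2 * K + 1)) (κ.1 i)
      (Wu κ.2.2 κ.2.1) (κ'.1 i) (Wu κ'.2.2 κ'.2.1) :=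
    CC.finite (finite_Iio n) fun i hi =>
      cc_sim (S := S) (fun κ => κ.1 i) (fun κ => Wu κ.2.2 κ.2.1) _ (finite_Iio _) fun κ hκ =>
        ⟨(hκ.1 i hi).1, fun h m _ z hz => by
          cases m with
          | zero => exact isRat_zero
          | succ m => exact (hκ.1 i hi).2 h m trivial z hz⟩
  obtain ⟨T, hTS, hT, hr⟩ := hcc.reps
  refine ⟨(fun κ => {u | ∃ l' ∈ 𝒟, ∀ i < n, Nbr (2 * K + 1) (Iio (2 * K + 1)) (κ.1 i)
    (Wu κ.2.2 κ.2.1) (l' i) (Wu u fr.V)}) '' T, hT.image _, ?_, ?_⟩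
  · rintro _ ⟨⟨l, V', u'⟩, hκ, rfl⟩
    obtain ⟨-, h2, h3⟩ := hTS hκ
    simp only at h2 h3 ⊢
    constructor
    · rintro u ⟨l', hl', hn⟩
      refine ⟨⋃ i ∈ Iio n, dn (l' i), (finite_Iio n).biUnion fun i _ => finite_dn _,
        iUnion₂_subset fun i hi => dn_subset (h𝒟 l' hl' i hi), fun u₁ he => ⟨l', hl', fun i hi =>
          (hn i hi).congr (reg_of_mem (h𝒟 l' hl' i hi)) (fun _ _ _ _ => rfl) fun m _ z hz => ?_⟩⟩
      cases m with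
      | zero => exact congrArg (fun v : Vl => (v.1, (0 : D))) (he (mem_iUnion₂.2 ⟨i, hi, hz⟩))
      | succ m => rfl
    · intro u₀ hu Z hZ
      choose Ks hKs using fun i =>
        exists_sep ((finite_Iio n).image fun i => (l i).g) (l i).g
      obtain ⟨l', hl', hn⟩ := h3 (2 * K + 1 + (Finset.range n).sup Ks) _ (hZ.image Pt.g)
      have hsep : ∀ i < n, ∀ i' < n, (l' i').g = (l' i).g → (l i').g = (l i).g := by
        intro i hi i' hi' he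
        refine hKs i _ ((Finset.le_sup (Finset.mem_range.2 hi)).trans (Nat.le_add_left _ _)) _
          ⟨i', hi', rfl⟩ ((hn i hi).2.1.1.trans ?_)
        rw [← he]
        exact (hn i' hi').2.1.1.symm
      obtain ⟨u, h4, h5, h6⟩ := exists_mark hu {c | ∃ i < n, (l' i).g = c} fun y =>
        if h : ∃ i < n, (l' i).g = y.g then (u' (tr (l h.choose) y)).1 else 0
      have h7 : ∀ i < n, ∀ y : Pt, y.g = (l' i).g → ∃ i' < n, (l i').g = (l i).g ∧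
          (u y).1 = (u' (tr (l i') y)).1 := by
        intro i hi y hy
        have h : ∃ i < n, (l' i).g = y.g := ⟨i, hi, hy.symm⟩
        exact ⟨h.choose, h.choose_spec.1, hsep i hi _ h.choose_spec.1 (h.choose_spec.2.trans hy),
          (h6 y h).trans (dif_pos h)⟩
      refine ⟨u, h4, fun y hy => (h5 y ?_).symm, l', hl', fun i hi => ?_⟩
      · rintro ⟨i, hi, he⟩
        exact (hn i hi).1 ⟨y, hy, he.symm⟩
      have h8 := (hn i hi).2.mono (Nat.le_add_right _ _) (Iio_subset_Iio (Nat.le_add_right _ _))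
      refine nbr_Wu_of h8.1 ⟨h8.1.1, ?_⟩
      rcases h8.1.2 with ⟨j, a1, a2, a3, a4, -⟩ | ⟨a1, a2, a3, -, -⟩
      · refine Or.inl ⟨j, a1, a2, a3, a4, fun _ _ j' _ a _ => ?_⟩
        obtain ⟨i', -, b1, b2⟩ := h7 i hi (pt j' a (l' i).g) rfl
        have b3 : tr (l i') (pt j' a (l' i).g) = pt j' a (l i).g := by
          rw [← b1]
          exact if_neg (by simp [pt])
        simp only [mo, b2, b3]
      · refine Or.inr ⟨a1, a2, a3, fun _ _ => ?_, fun _ _ => ?_⟩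
        · obtain ⟨i', hi', b1, b2⟩ := h7 i hi (l' i) rfl
          have b3 : tr (l i') (l' i) = l i :=
            (if_pos (h8.2.trans a1)).trans (h2 i hi i' hi' b1.symm a1).symm
          simp only [mkr, mo, b2, b3]
        · simp only [fv, mo, dist_self]
          positivity
  · intro u hu l V' u' h1 h2 h3
    obtain ⟨κ, hκ, hR⟩ := hr (l, V', u') ⟨h1, h2, h3⟩
    obtain ⟨l', hl', hn⟩ := hu _ ⟨κ, hκ, rfl⟩
    exact ⟨l', hl', fun i hi => ((hR i hi).symm.1.trans (hn i hi)).mono le_rfl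
      (Iio_subset_Iio (by omega))⟩

/-- Fibres that are trivial up to level `j` are dense. -/
def SlW (fr : Fr) (u : Co) : Prop :=
  ∀ (K j : ℕ) (g₀ w₀ : ℕ → ℕ), ∃ c ∈ fr.P, ag K g₀ c ∧ ∃ w, ag K w₀ w ∧
    ∀ n, Wu u fr.V n (root c) = 0 ∧
      ∀ j', 1 ≤ j' → j' ≤ j → ∀ a, nrm j' a → Wu u fr.V n (pt j' a c) = (w n, 0)

theorem slice_sets (fr : Fr) (hS : ∀ (K : ℕ) (g₀ v₀ : ℕ → ℕ) (X : Set Lb), X.Finite →
      ∃ c ∈ fr.P, c ∉ X ∧ ag K g₀ c ∧ ∃ v, ag K v₀ v ∧ Slice univ fr.V c v) :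
    ∃ ℋ : Set (Set Co), ℋ.Countable ∧ (∀ H ∈ ℋ, Opn1 fr.Y H ∧ Dns1 H) ∧
      ∀ u, (∀ H ∈ ℋ, u ∈ H) → SlW fr u := by
  classical
  have hC := countable_trn (countable_univ (α := ℕ)) 0
  refine ⟨(fun p : (ℕ × ℕ) × (ℕ → ℕ) × (ℕ → ℕ) => {u | ∃ c ∈ fr.P, ag p.1.1 p.2.1 c ∧
      ∃ w, ag p.1.1 p.2.2 w ∧ ∀ n, Wu u fr.V n (root c) = 0 ∧ ∀ j', 1 ≤ j' → j' ≤ p.1.2 →
        ∀ a, nrm j' a → Wu u fr.V n (pt j' a c) = (w n, 0)}) '' (univ ×ˢ _ ×ˢ _),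
    (countable_univ.prod (hC.prod hC)).image _, ?_, ?_⟩
  · rintro _ ⟨⟨⟨K, j⟩, g₀, w₀⟩, -, rfl⟩
    simp only
    constructor
    · rintro u ⟨c, hc, h1, w, h2, h3⟩
      refine ⟨dn (pt j a0 c), finite_dn _, dn_subset (pt_mem.2 ⟨nrm_a0 j, hc⟩), fun u₁ he => ?_⟩
      have h4 : ∀ n, ∀ j' ≤ j, ∀ a, nrm j' a →
          Wu u₁ fr.V n (pt j' a c) = Wu u fr.V n (pt j' a c) := by
        intro n j' hj a ha
        cases n with
        | zero =>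
          exact congrArg (fun v : Vl => (v.1, (0 : D))) (he (Or.inr ⟨j', a,
            Nat.cast_le.2 hj, by simp [pt], ha, rfl⟩)).symm
        | succ m => rfl
      exact ⟨c, hc, h1, w, h2, fun n => ⟨(h4 n 0 (Nat.zero_le _) a0 (nrm_a0 0)).trans (h3 n).1,
        fun j' a1 a2 a ha => (h4 n j' a2 a ha).trans ((h3 n).2 j' a1 a2 a ha)⟩⟩
    · intro u₀ hu Z hZ
      obtain ⟨c, hc, h1, h2, v, h3, h4⟩ := hS K g₀ (fun n => w₀ (n + 1)) _ (hZ.image Pt.g)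
      obtain ⟨u, h5, h6, h7⟩ := exists_mark hu {c} fun y => if y.h = 0 then 0 else w₀ 0
      refine ⟨u, h5, fun y hy => (h6 y fun he => h1 ⟨y, hy, he⟩).symm, c, hc, h2,
        fun n => Nat.casesOn n (w₀ 0) v, fun n hn => ?_, fun n => ?_⟩
      · cases n with
        | zero => rfl
        | succ m => exact h3 m (by omega)
      · cases n with
        | zero =>
          refine ⟨Prod.ext ((h7 (root c) rfl).trans (if_pos rfl)) rfl, fun j' a1 _ a _ =>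
            Prod.ext ((h7 (pt j' a c) rfl).trans (if_neg ?_)) rfl⟩
          simp only [pt, Nat.cast_eq_zero]
          omega
        | succ m => exact ⟨(h4 m trivial).1, fun j' a1 _ a ha => (h4 m trivial).2 j' a1 a ha⟩
  · intro u hu K j g₀ w₀
    obtain ⟨c, hc, h1, w, h2, h3⟩ := hu _ ⟨((K, j), trn 0 K g₀, trn 0 K w₀),
      ⟨trivial, ⟨K, fun _ _ => trivial, fun _ hn => if_neg (not_lt.2 hn)⟩,
        K, fun _ _ => trivial, fun _ hn => if_neg (not_lt.2 hn)⟩, rfl⟩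
    exact ⟨c, hc, (ag_trn 0 K g₀).trans h1, w, (ag_trn 0 K w₀).trans h2, h3⟩

/-- Dense sets of cylinders on which the limit function has small oscillation. -/
theorem osc_sets {fr : Fr} {st : Start fr} {u : Co} {k : Pt → ℝ} (h : Out fr st u k)
    (hs : SlW fr u) : ∃ 𝒪 : Set (ℕ → Lb → (ℕ → ℕ) → Prop), 𝒪.Countable ∧
      (∀ Φ ∈ 𝒪, ∀ K₀ g₀ w₀, ∃ K₁ ≥ K₀, ∃ g₁ w₁, ag K₀ g₀ g₁ ∧ ag K₀ w₀ w₁ ∧ Φ K₁ g₁ w₁) ∧
      ∀ (c : Lb) (w : ℕ → ℕ) (W' : ℕ → Co),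
        (∀ Φ ∈ 𝒪, ∃ K₁ g₁ w₁, Φ K₁ g₁ w₁ ∧ ag K₁ g₁ c ∧ ag K₁ w₁ w) →
        (∀ a, mkr W' ⟨⊤, a, c⟩ = w → Osc fr.Y (Wu u fr.V) k ⟨⊤, a, c⟩ W') ∧
        (Slice univ W' c w → ∀ j a, nrm j a → Osc fr.Y (Wu u fr.V) k (pt j a c) W') := by
  let Φ₁ : ℕ → ℕ → Lb → (ℕ → ℕ) → Prop := fun N K₁ g₁ w₁ => ∃ Ψ : G2 × Th → ℝ, Continuous Ψ ∧
    ∀ y ∈ fr.Y, inS K₁ g₁ w₁ (cel (Wu u fr.V) y) →
      |k y - Ψ (y.a, fv (Wu u fr.V) y)| ≤ 1 / ((N : ℝ) + 1)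
  let Φ₂ : ℕ → ℕ → G2 → ℕ → Lb → (ℕ → ℕ) → Prop := fun j N a K₁ g₁ w₁ => ∃ r : ℝ,
    ∀ y ∈ fr.Y, y = pt j a y.g → ag K₁ g₁ y.g → (∀ i < K₁, Wu u fr.V i (root y.g) = 0 ∧
      ∀ j', 1 ≤ j' → j' ≤ j → ∀ a', nrm j' a' → Wu u fr.V i (pt j' a' y.g) = (w₁ i, 0)) →
      |k y - r| ≤ 1 / ((N : ℝ) + 1)
  refine ⟨range Φ₁ ∪ ⋃ j, ⋃ N, Φ₂ j N '' {a | nrm j a}, (countable_range _).union
    (countable_iUnion fun j => countable_iUnion fun N => (finite_nrm j).countable.image _), ?_,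
    fun c w W' hO => ⟨fun a hw η hη => ?_, fun hw j a ha η hη => ?_⟩⟩
  · rintro Φ (⟨N, rfl⟩ | hΦ) K₀ g₀ w₀
    · exact h.o2 _ Nat.one_div_pos_of_nat K₀ g₀ w₀
    · obtain ⟨j, N, a, ha, rfl⟩ : ∃ j N a, nrm j a ∧ Φ₂ j N a = Φ := by
        simpa only [mem_iUnion, mem_image, mem_ofPred_eq] using hΦ
      obtain ⟨c, hc, h1, w, h2, h3⟩ := hs K₀ j g₀ w₀
      obtain ⟨K, hK⟩ := h.o1 (pt j a c) (pt_mem.2 ⟨ha, hc⟩) _ (Nat.one_div_pos_of_nat (n := N))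
      refine ⟨max K₀ K, le_max_left _ _, c, w, h1, h2, _, fun y hy a1 a2 a3 => hK y hy
        (nbr_pt.2 ⟨a2.mono (le_max_right _ _), ha, a1, fun i hi j' hj a' ha' => ?_⟩)⟩
      have a4 := a3 i (lt_max_of_lt_right hi)
      rcases Nat.eq_zero_or_pos j' with rfl | hj'
      · rw [nrm_zero ha']
        exact (h3 i).1.trans a4.1.symm
      · exact ((h3 i).2 j' hj' hj a' ha').trans (a4.2 j' hj' hj a' ha').symm
  · obtain ⟨N, hN⟩ := exists_nat_one_div_lt (half_pos hη)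
    obtain ⟨K₁, g₁, w₁, ⟨Ψ, hΨ, h1⟩, h2, h3⟩ := hO _ (Or.inl ⟨N, rfl⟩)
    obtain ⟨K₀, hK₀⟩ := nhds_box' (x := (a, fv W' ⟨⊤, a, c⟩))
      (hΨ.continuousAt.preimage_mem_nhds (Metric.ball_mem_nhds _ (half_pos hη)))
    refine ⟨max K₀ K₁, Ψ (a, fv W' ⟨⊤, a, c⟩), fun y hy hn => ?_⟩
    obtain ⟨a1, a2, a3, a4, a5⟩ := (nbr_top rfl).1 hn
    have a6 := h1 y hy ⟨(Nat.cast_le.2 (le_max_right _ _)).trans a2,
      h2.trans (a1.mono (le_max_right _ _)),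
      h3.trans fun i hi => (congrFun hw i).symm.trans (a4 i (lt_max_of_lt_right hi))⟩
    have a7 : |Ψ (y.a, fv (Wu u fr.V) y) - Ψ (a, fv W' ⟨⊤, a, c⟩)| < η / 2 :=
      hK₀ _ (le_max_left _ _) (y.a, fv (Wu u fr.V) y) a3 a5
    exact (abs_sub_le _ _ _).trans (by linarith [add_le_add a6 a7.le])
  · obtain ⟨N, hN⟩ := exists_nat_one_div_lt hη
    obtain ⟨K₁, g₁, w₁, ⟨r, h1⟩, h2, h3⟩ := hO _
      (Or.inr (mem_iUnion₂.2 ⟨j, N, a, ha, rfl⟩))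
    refine ⟨K₁, r, fun y hy hn => ?_⟩
    obtain ⟨a1, -, a3, a4⟩ := nbr_pt.1 hn
    refine (h1 y hy a3 (h2.trans a1) fun i hi => ⟨?_, fun j' b1 b2 a' ha' => ?_⟩).trans hN.le
    · exact (a4 i hi 0 (Nat.zero_le _) a0 (nrm_a0 0)).symm.trans (hw i trivial).1
    · rw [h3 i hi]
      exact (a4 i hi j' b2 a' ha').symm.trans ((hw i trivial).2 j' b1 a' ha')

/-- The coordinates `ζ` (markers only) and `en n` of a condition. -/
def Ws (s : St) (ζ : Om) (en : ℕ → Om) : ℕ → Co := Wu (s.F ζ) fun n => s.F (en n)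

/-- The name of the limit function. -/
def limN (Y : Set Pt) (W : ℕ → Co) (k : Pt → ℝ) (s₁ : St) (ζ : Om) (en : ℕ → Om) : NN :=
  fun x t s => s ≤ s₁ ∧ x ∈ s.Y ∧ LimAt Y W k x (Ws s ζ en) t

theorem Ws_le {s s' : St} (h : s' ≤ s) {ζ : Om} {en : ℕ → Om} (hζ : ζ ∈ s.I) (hen : ∀ n, en n ∈ s.I)
    (n : ℕ) {y : Pt} (hy : y ∈ s.Y) : Ws s' ζ en n y = Ws s ζ en n y := by
  cases n with
  | zero => exact congrArg (fun v : Vl => (v.1, (0 : D))) (St.Le.F h ζ hζ y hy)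
  | succ m => exact St.Le.F h _ (hen m) y hy

theorem CH1_mo {ι : Type*} {K : ℕ} {J : Set ι} {x y : Pt} {F F' : ι → Co}
    (h : Nbr K J x F y F') {i : ι} (hi : i ∈ J) :
    Nbr K univ x (fun _ : Unit => mo (F i)) y fun _ => mo (F' i) := by
  refine ⟨h.1, ?_⟩
  rcases h.2 with ⟨j, a1, a2, a3, a4, a5⟩ | ⟨a1, a2, a3, a4, -⟩
  · exact Or.inl ⟨j, a1, a2, a3, a4, fun _ _ j' hj a ha =>
      congrArg (fun v : Vl => (v.1, (0 : D))) (a5 i hi j' hj a ha)⟩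
  · refine Or.inr ⟨a1, a2, a3, fun _ _ => a4 i hi, fun _ _ => ?_⟩
    simp only [fv, mo, dist_self]
    positivity

theorem lim_cf {Y : Set Pt} (hY : ∀ y ∈ Y, Reg y) {W : ℕ → Co} {k : Pt → ℝ} {s₁ : St} {ζ : Om}
    {en : ℕ → Om} (hζ : ζ ∈ s₁.I) (hen : ∀ n, en n ∈ s₁.I)
    (ho : ∀ s ≤ s₁, ∀ x ∈ s.Y, Osc Y W k x (Ws s ζ en))
    (hd : ∀ s ≤ s₁, ∀ x ∈ s.Y, Den Y W x (Ws s ζ en)) : bs.CF (limN Y W k s₁ ζ en) s₁ := by
  have key : ∀ s ≤ s₁, ∀ s' ≤ s, ∀ x ∈ s.Y, ∀ y ∈ Y, ∀ K,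
      Nbr K (Iio K) x (Ws s' ζ en) y W → Nbr K (Iio K) x (Ws s ζ en) y W :=
    fun s hs s' hs' x hx y hy K hn => hn.congr (hY y hy) (fun i _ z hz =>
      Ws_le hs' (St.Le.I hs hζ) (fun n => St.Le.I hs (hen n)) i (dn_subset hx hz))
      fun _ _ _ _ => rfl
  refine ⟨fun x t s s' ⟨h1, h2, h3⟩ hs => ⟨hs.trans h1, St.Le.Y hs h2, fun η hη => ?_⟩,
    fun s hs x hx => ?_, fun s hs x t t' h h' => lim_unique h.2.2 h'.2.2 (hd s hs x h.2.1),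
    fun s hs x t hx ht η hη => ?_⟩
  · obtain ⟨K, hK⟩ := h3 η hη
    exact ⟨K, fun y hy hn => hK y hy (key s h1 s' hs x h2 y hy K hn)⟩
  · obtain ⟨t, ht⟩ := lim_exists (ho s hs x hx) (hd s hs x hx)
    exact ⟨s, le_rfl, t, hs, hx, ht⟩
  · obtain ⟨K, hK⟩ := ht.2.2 (η / 2) (half_pos hη)
    refine ⟨s, le_rfl, (2 * K + 1, insert ζ (en '' Iio (2 * K + 1))), ⟨hx, hx,
      ((finite_Iio _).image _).insert _, insert_subset (St.Le.I hs hζ)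
        (image_subset_iff.2 fun n _ => St.Le.I hs (hen n)), Nbr.refl (reg_of_mem hx) _ _ _⟩,
      fun s'' hs'' y t' ⟨_, hy, _, _, hn⟩ ht' => ?_⟩
    have h1 : Nbr (2 * K + 1) (Iio (2 * K + 1)) x (Ws s'' ζ en) y (Ws s'' ζ en) :=
      nbr_Wu_of (Nbr.comp.2 (hn.mono le_rfl (subset_insert _ _))) (CH1_mo hn (mem_insert _ _))
    refine (ht'.2.2.le (hd s'' ht'.1 y hy) (K := 2 * K + 1) fun z hz hz' =>
      hK z hz (key s hs s'' hs'' x hx z hz K ((h1.trans hz').mono le_rfl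
        (Iio_subset_Iio (by omega))))).trans_lt (half_lt_self hη)

end Pool.Agent.Work.MP_f50f0f_gt
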