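import Pool.Agent.Work.MP_f50f0f_gt.CG5

/-! Countably many games that cover all later members. -/

namespace Pool.Agent.Work.MP_f50f0f_gt
open Function Set Filter Topology

/-- `z 0, …, z (n - 1)` are points over new labels with the data `V'` and `m`. -/
structure NewPts (fr : Fr) (m : Mem) (V' : ℕ → Co) (n j : ℕ) (z : ℕ → Pt) : Prop where
  ratV : ∀ i < n, RatOn univ (z i) V'
  ratE : ∀ i < n, RatOn univ (z i) m.1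
  ht : ∀ i < n, (z i).h = ⊤ ∨ (z i).h = j
  con : ∀ i < n, (z i).h = j → ∀ l, (m.1 l (root (z i).g)).1 ≠ 0 → ∀ j', 1 ≤ j' →
    Con j' fun a => (m.1 l (pt j' a (z i).g)).2
  new : ∀ i < n, (z i).g ∉ fr.P ∪ fr.B
  inj : ∀ i < n, ∀ i' < n, (z i).g = (z i').g → i = i'
  w1 : ∀ i < n, ∀ x ∈ dn (z i), ∀ η : ℝ, 0 < η → ∃ K₀, ∀ K ≥ K₀, ∀ y ∈ fr.Y,
    Nbr K (Iio K) x V' y fr.V → Nbr K (Iio K) x m.1 y m.1 → |m.2 y - m.2 x| < η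

/-- Configurations: a member, the old coordinates and a new one over new points. -/
structure Cfg where
  m : Mem
  V : ℕ → Co
  u : Co
  z : ℕ → Pt

/-- `K` is a modulus of continuity at the new points. -/
def Cfg.Mod (fr : Fr) (κ : Cfg) (n K : ℕ) (δ : ℝ) : Prop :=
  ∀ i < n, ∀ x ∈ dn (κ.z i), ∀ y ∈ fr.Y,
    Nbr K (Iio K) x κ.V y fr.V → Nbr K (Iio K) x κ.m.1 y κ.m.1 → |κ.m.2 y - κ.m.2 x| < δ

/-- Two configurations look alike. -/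
def Cfg.Rel (n k : ℕ) (δ : ℝ) (Z : Set Pt) (κ κ' : Cfg) : Prop :=
  (∀ y ∈ Z, |κ.m.2 y - κ'.m.2 y| < δ) ∧ ∀ i < n, Sim k (Iio k) (κ.z i) κ.V (κ'.z i) κ'.V ∧
    Sim k (Iio k) (κ.z i) κ.m.1 (κ'.z i) κ'.m.1 ∧
    ∀ x ∈ dn (κ.z i), |κ.m.2 x - κ'.m.2 (tr (κ'.z i) x)| < δ

/-- The game `st` produces a function that is close to the member of `κ`. -/
def Cfg.Cov (fr : Fr) (κ : Cfg) (n : ℕ) (η : ℝ) (Z : Set Pt) (st : Start fr) : Prop :=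
  ∀ u k, Out fr st u k → (∀ y ∈ Z, |k y - κ.m.2 y| ≤ η) ∧
    ∀ i < n, ∀ x ∈ dn (κ.z i), ∃ K, ∀ y ∈ fr.Y,
      Nbr K (Iio K) x (Wu κ.u κ.V) y (Wu u fr.V) → |k y - κ.m.2 x| ≤ η

theorem st_cc {fr : Fr} {S : Set Cfg} {n j : ℕ} (k : ℕ) {δ : ℝ} (hδ : 0 < δ) {Z : Set Pt}
    (hZ : Z.Finite) (hS : ∀ κ ∈ S, NewPts fr κ.m κ.V n j κ.z) : CC S (Cfg.Rel n k δ Z) := by
  have hf : (Iic j ×ˢ {a | nrm j a}).Finite := (finite_Iic j).prod (finite_nrm j)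
  refine ((CC.finite hZ fun y _ => CC.real (fun κ : Cfg => κ.m.2 y) hδ).and
    (CC.finite (finite_Iio n) fun i hi =>
      ((cc_sim (fun κ : Cfg => κ.z i) (fun κ => κ.V) k (finite_Iio k) fun κ hκ =>
        ⟨((hS κ hκ).ratV i hi).1, fun h l _ => ((hS κ hκ).ratV i hi).2 h l trivial⟩).and
      (cc_sim (fun κ : Cfg => κ.z i) (fun κ => κ.m.1) k (finite_Iio k) fun κ hκ =>
        ⟨((hS κ hκ).ratE i hi).1, fun h l _ => ((hS κ hκ).ratE i hi).2 h l trivial⟩)).and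
      ((CC.real (fun κ : Cfg => κ.m.2 (κ.z i)) hδ).and (CC.finite hf fun b _ =>
        CC.real (fun κ : Cfg => κ.m.2 (pt b.1 b.2 (κ.z i).g)) hδ)))).mono ?_
  rintro κ hκ κ' - ⟨h1, h2⟩
  refine ⟨h1, fun i hi => ⟨(h2 i hi).1.1, (h2 i hi).1.2, ?_⟩⟩
  rintro x (⟨h3, rfl⟩ | ⟨j', a, h3, h4, h5, rfl⟩)
  · rw [tr, if_pos h3]
    exact (h2 i hi).2.1
  · rw [((hS κ hκ).ht i hi).resolve_left h4, Nat.cast_le] at h3
    rw [tr, if_neg (by simp [pt])]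
    exact (h2 i hi).2.2 (j', a) ⟨h3, fun l hl => h5 l (h3.trans hl)⟩

open Classical in
/-- An admissible copy of the member near a new point. -/
theorem st_copy {fr : Fr} {m : Mem} {V' : ℕ → Co} {n j : ℕ} {z : ℕ → Pt}
    (h : NewPts fr m V' n j z) (k i : ℕ) : ∃ C : ℕ → Co, (∀ l, Good (C l)) ∧
      (i < n → ∀ x ∈ dn (z i), Nbr k (Iio k) x m.1 x C) := by
  by_cases hi : i < n
  swap
  · exact ⟨fun _ => 0, fun _ => good_zero, fun h => absurd h hi⟩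
  rcases h.ht i hi with ht | ht
  · choose d hd hd' using fun l => exists_isRat (m.1 l (z i)).2
      (η := 1 / ((k : ℝ) + 1)) (by positivity)
    refine ⟨fun l y => if y = z i then ((m.1 l y).1, d l) else 0, fun l => ⟨fun y => ?_,
      fun c hc => ?_⟩, fun _ x hx => ?_⟩
    · dsimp only
      split_ifs
      · exact hd l
      · exact isRat_zero
    · have : root c ≠ z i := fun e => by rw [← e] at ht; simp [root, pt] at ht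
      exact absurd (by simp only [if_neg this]; rfl) hc
    · rcases hx with ⟨-, rfl⟩ | ⟨_, _, _, h', -⟩
      · refine (nbr_top ht).2 ⟨ag.refl _ _, ht ▸ le_top, ag.refl _ _, fun l _ => ?_, fun l _ => ?_⟩
        · simp [mkr]
        · simpa [fv] using hd' l
      · exact absurd ht h'
  · have hne : (z i).h ≠ ⊤ := by simp [ht]
    have hd : ∀ j' a c, nrm j' a → (pt j' a c ∈ dn (z i) ↔ j' ≤ j ∧ c = (z i).g) := by
      intro j' a c ha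
      constructor
      · rintro (⟨h1, -⟩ | ⟨j₁, a₁, h1, -, -, h2⟩)
        · exact absurd h1 hne
        · obtain rfl : j' = j₁ := by simpa [pt] using congrArg Pt.h h2
          rw [ht, Nat.cast_le] at h1
          exact ⟨h1, congrArg Pt.g h2⟩
      · rintro ⟨h1, rfl⟩
        exact Or.inr ⟨j', a, ht ▸ Nat.cast_le.2 h1, hne, ha, rfl⟩
    refine ⟨fun l y => if y ∈ dn (z i) then m.1 l y else (0, dfl y.h.toNat y.a), fun l =>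
      ⟨fun y => ?_, fun c hc j' hj' => ?_⟩, fun _ x hx => ?_⟩
    · dsimp only
      split_ifs with hy
      · exact (h.ratE i hi).2 hne l trivial y hy
      · exact isRat_dfl _ _
    · have h0 : root c ∈ dn (z i) := by
        by_contra h0
        exact hc (by simp only [if_neg h0])
      obtain rfl := ((hd 0 a0 c (nrm_a0 0)).1 h0).2
      simp only [if_pos h0] at hc
      by_cases hj : j' ≤ j
      · exact (h.con i hi ht l hc j' hj').congr fun a ha => by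
          simp only [if_pos ((hd j' a _ ha).2 ⟨hj, rfl⟩)]
      · exact (con_dfl hj').congr fun a ha => by
          simp only [if_neg fun h => hj ((hd j' a _ ha).1 h).1]
          simp [pt]
    · exact (Nbr.refl (reg_of_dn hx) k _ _).congr (reg_of_dn hx) (fun _ _ _ _ => rfl)
        fun l _ w hw => (if_pos (dn_trans hx hw)).symm

theorem tr_tr {x z z' : Pt} (h : x.h = ⊤ → z.h = ⊤) : tr z' (tr z x) = tr z' x := by
  by_cases hx : x.h = ⊤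
  · simp [tr, hx, h hx]
  · simp [tr, hx]

theorem st_sep {fr : Fr} {m : Mem} {V' : ℕ → Co} {n j : ℕ} {z : ℕ → Pt}
    (h : NewPts fr m V' n j z) {A : Set Lb} (hA : A.Finite) (K₀ : ℕ) : ∃ K ≥ K₀,
      (∀ i < n, ∀ c ∈ A, c ∈ fr.P ∪ fr.B → ¬ ag K (z i).g c) ∧
      ∀ i < n, ∀ i' < n, ag K (z i).g (z i').g → i = i' := by
  have h1 : ∀ᶠ K in atTop, ∀ i ∈ Iio n, ∀ g ∈ A ∪ (fun i => (z i).g) '' Iio n,
      ag K (z i).g g → g = (z i).g := (eventually_all_finite (finite_Iio n)).2 fun i _ =>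
    eventually_atTop.2 (exists_sep (hA.union ((finite_Iio n).image _)) _)
  obtain ⟨K, hK, hK'⟩ := (h1.and (eventually_ge_atTop K₀)).exists
  exact ⟨K, hK', fun i hi c hc hc' e => h.new i hi (hK i hi c (Or.inl hc) e ▸ hc'),
    fun i hi i' hi' e => h.inj i hi i' hi' (hK i hi _ (Or.inr ⟨i', hi', rfl⟩) e).symm⟩

theorem st_class {fr : Fr} {𝓡 : Set Mem} (hok : ∀ m ∈ 𝓡, Ok fr.Y fr.V m) {𝓒 : Set Cfg}
    {n j K₀ : ℕ} {δ : ℝ} (hδ : 0 < δ) {Z : Set Pt} (hZ : Z.Finite) (hY : Z ⊆ fr.Y)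
    (hS : ∀ κ ∈ 𝓒, κ.m ∈ 𝓡 ∧ NewPts fr κ.m κ.V n j κ.z ∧ κ.Mod fr n K₀ δ)
    (hR : ∀ κ ∈ 𝓒, ∀ κ' ∈ 𝓒, Cfg.Rel n (4 * K₀ + 3) δ Z κ κ') (hns : ¬ fr.Small (Cfg.m '' 𝓒)) :
    ∃ T : Set (Start fr), T.Countable ∧ (∀ st ∈ T, st.𝓜 ⊆ 𝓡) ∧
      ∀ κ ∈ 𝓒, ∃ st ∈ T, κ.Cov fr n (3 * δ) Z st := by
  have h𝓡 : Cfg.m '' 𝓒 ⊆ 𝓡 := by
    rintro _ ⟨κ, hκ, rfl⟩
    exact (hS κ hκ).1
  obtain ⟨E, A, m₀, hE, hA, -, -, hes⟩ := Fr.split hns (fun x hx => (hok x (h𝓡 hx)).rat)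
    (4 * K₀ + 3) finite_empty 0
  have hes' := hes.refine hA Subset.rfl le_rfl fun _ _ _ _ => rfl
  let S : ℕ → Set Cfg := fun K => {κ | κ ∈ 𝓒 ∧ max (max 7 (4 * K₀ + 3)) (j + 1) ≤ K ∧
    (∀ i < n, ∀ c ∈ A, c ∈ fr.P ∪ fr.B → ¬ ag K (κ.z i).g c) ∧
      ∀ i < n, ∀ i' < n, ag K (κ.z i).g (κ.z i').g → i = i'}
  have hrep : ∀ K, ∃ T ⊆ S K, T.Countable ∧ ∀ κ ∈ S K, ∃ r ∈ T, ∀ i ∈ Iio n,
      Sim (2 * (K + n) + 1) (Iio (2 * (K + n) + 1)) (r.z i) (Wu r.u r.V) (κ.z i) (Wu κ.u κ.V) :=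
    fun K => (CC.finite (finite_Iio n) fun i hi => cc_sim (fun κ : Cfg => κ.z i)
      (fun κ => Wu κ.u κ.V) _ (finite_Iio _) fun κ hκ => ⟨((hS κ hκ.1).2.1.ratV i hi).1, by
        rintro h (_ | l) - w hw
        · exact isRat_zero
        · exact ((hS κ hκ.1).2.1.ratV i hi).2 h l trivial w hw⟩).reps
  choose T hTS cT hT using hrep
  choose C hC hC' using fun (K : ℕ) (r : T K) (i : ℕ) =>
    st_copy (hS r.1 (hTS K r.2).1).2.1 (4 * K₀ + 3) i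
  let st : ∀ K, T K → Start fr := fun K r =>
    { 𝓜 := {x | x ∈ Cfg.m '' 𝓒 ∧ agE (4 * K₀ + 3) (fr.tch A m₀) E x.1}
      k := 4 * K₀ + 3, A := A, m := m₀, E := E, K := K, n := n, z := r.1.z
      W := fun _ => Wu r.1.u r.1.V, C := C K r, fin := hA, gE := hE
      mok := fun x hx => hok x (h𝓡 hx.1), mem := fun x hx => hx.2, es := hes'
      K7 := by have := (hTS K r.2).2.1; omega
      kK := by have := (hTS K r.2).2.1; omega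
      reg := fun i hi => ⟨((hS r.1 (hTS K r.2).1).2.1.ratV i hi).1,
        ((hS r.1 (hTS K r.2).1).2.1.ht i hi).imp_right fun h => by
          have := (hTS K r.2).2.1
          rw [h, Nat.cast_lt]; omega⟩
      gC := hC K r, sepA := (hTS K r.2).2.2.1, sep := (hTS K r.2).2.2.2 }
  refine ⟨⋃ K, range (st K), countable_iUnion fun K => ?_, ?_, fun κ hκ => ?_⟩
  · have := (cT K).to_subtype
    exact countable_range _
  · intro s hs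
    obtain ⟨K, r, rfl⟩ := mem_iUnion.1 hs
    exact fun x hx => h𝓡 hx.1
  obtain ⟨K, hK, hK'⟩ := st_sep (hS κ hκ).2.1 hA (max (max 7 (4 * K₀ + 3)) (j + 1))
  obtain ⟨r, hr, hrκ⟩ := hT K κ ⟨hκ, hK, hK'⟩
  have hr𝓒 := (hTS K hr).1
  refine ⟨st K ⟨r, hr⟩, mem_iUnion.2 ⟨K, _, rfl⟩, fun u k ho => ⟨fun y hy => ?_,
    fun i hi x hx => ⟨2 * (K + n) + 1, fun y hy hn => ?_⟩⟩⟩
  · obtain ⟨_, ⟨⟨κ', hκ', rfl⟩, -⟩, h1⟩ := ho.o4 Z hZ hY δ hδ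
    have h2 := abs_lt.1 (h1 y hy)
    have h3 := abs_lt.1 ((hR κ hκ κ' hκ').1 y hy)
    exact abs_le.2 ⟨by linarith, by linarith⟩
  · obtain ⟨h1, h2⟩ := (hrκ i hi).symm.tr hx
    have h3 := (h2.symm.1.trans hn).mono le_rfl (Iio_subset_Iio (show K + n ≤ _ by omega))
    obtain ⟨_, ⟨⟨κ', hκ', rfl⟩, -⟩, h4, h5⟩ := ho.o5 i hi _ h1 y hy h3 δ hδ
    obtain ⟨h6, h7, -⟩ := (hR r hr𝓒 κ' hκ').2 i hi
    obtain ⟨h8, h9⟩ := h6.tr h1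
    have h10 := (h7.tr h1).2
    have e : tr (κ'.z i) (tr (r.z i) x) = tr (κ'.z i) x := tr_tr fun h => by
      rcases hx with ⟨h', -⟩ | ⟨_, _, _, _, _, rfl⟩
      · exact (hrκ i hi).2.symm.trans h'
      · simp [pt] at h
    have hle : 2 * K₀ + 1 + 1 ≤ K + n := by omega
    have h11 : Nbr K₀ (Iio K₀) (tr (κ'.z i) (tr (r.z i) x)) κ'.V y fr.V :=
      (h9.symm.1.mono (by omega) (Iio_subset_Iio (by omega))).trans
        ((nbr_Wu (h3.mono hle (Iio_subset_Iio hle))).mono le_rfl (Iio_subset_Iio (by omega)))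
    have h12 : Nbr (2 * K₀ + 1) (Iio (4 * K₀ + 3)) (tr (r.z i) x) r.m.1 y κ'.m.1 :=
      ((hC' K ⟨r, hr⟩ i hi _ h1).mono (by omega) Subset.rfl).trans (h5.mono (le_of_eq (by
        show 2 * (2 * K₀ + 1) + 1 = 4 * K₀ + 3; ring)) Subset.rfl)
    have h13 : Nbr K₀ (Iio K₀) (tr (κ'.z i) (tr (r.z i) x)) κ'.m.1 y κ'.m.1 :=
      ((h10.symm.1.mono (by omega) Subset.rfl).trans h12).mono le_rfl (Iio_subset_Iio (by omega))
    have h14 := abs_lt.1 ((hS κ' hκ').2.2 i hi _ h8 y hy h11 h13)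
    have h15 := abs_lt.1 (((hR κ hκ κ' hκ').2 i hi).2.2 x hx)
    have h16 := abs_lt.1 h4
    rw [e] at h14
    exact abs_le.2 ⟨by linarith, by linarith⟩

theorem st_core {fr : Fr} {𝓡 : Set Mem} (hok : ∀ m ∈ 𝓡, Ok fr.Y fr.V m) (n j K₀ : ℕ) {δ : ℝ}
    (hδ : 0 < δ) {Z : Set Pt} (hZ : Z.Finite) (hY : Z ⊆ fr.Y) :
    ∃ (T : Set (Start fr)) (𝒢 : Set (ℕ × Set (ℕ → Co))), T.Countable ∧ 𝒢.Countable ∧
      (∀ p ∈ 𝒢, Opn fr.Y p.1 p.2 ∧ Dns p.1 p.2) ∧ (∀ st ∈ T, st.𝓜 ⊆ 𝓡) ∧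
      ∀ κ : Cfg, κ.m ∈ 𝓡 → (∀ p ∈ 𝒢, κ.m.1 ∈ p.2) → NewPts fr κ.m κ.V n j κ.z →
        κ.Mod fr n K₀ δ → ∃ st ∈ T, κ.Cov fr n (3 * δ) Z st := by
  let S : Set Cfg := {κ | κ.m ∈ 𝓡 ∧ NewPts fr κ.m κ.V n j κ.z ∧ κ.Mod fr n K₀ δ}
  obtain ⟨c, hc⟩ := st_cc (S := S) (4 * K₀ + 3) hδ hZ fun κ hκ => hκ.2.1
  have : ∀ l : ℕ, ∃ (T : Set (Start fr)) (𝒢 : Set (ℕ × Set (ℕ → Co))), T.Countable ∧
      𝒢.Countable ∧ (∀ p ∈ 𝒢, Opn fr.Y p.1 p.2 ∧ Dns p.1 p.2) ∧ (∀ st ∈ T, st.𝓜 ⊆ 𝓡) ∧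
      ∀ κ ∈ S, c κ = l → (∀ p ∈ 𝒢, κ.m.1 ∈ p.2) → ∃ st ∈ T, κ.Cov fr n (3 * δ) Z st := by
    intro l
    by_cases hs : fr.Small (Cfg.m '' {κ | κ ∈ S ∧ c κ = l})
    · obtain ⟨𝒢, h1, h2, h3⟩ := hs
      refine ⟨∅, 𝒢, countable_empty, h1, h2, fun _ h => h.elim, fun κ hκ hl h => ?_⟩
      obtain ⟨p, hp, hp'⟩ := h3 _ ⟨κ, ⟨hκ, hl⟩, rfl⟩
      exact absurd (h p hp) hp'
    · obtain ⟨T, h1, h2, h3⟩ := st_class hok hδ hZ hY (fun κ hκ => hκ.1)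
        (fun κ hκ κ' hκ' => hc κ hκ.1 κ' hκ'.1 (hκ.2.trans hκ'.2.symm)) hs
      exact ⟨T, ∅, h1, countable_empty, fun _ h => h.elim, h2, fun κ hκ hl _ => h3 κ ⟨hκ, hl⟩⟩
  choose T 𝒢 h1 h2 h3 h4 h5 using this
  refine ⟨⋃ l, T l, ⋃ l, 𝒢 l, countable_iUnion h1, countable_iUnion h2, fun p hp => ?_,
    fun st hst => ?_, fun κ hκ hp hn hm => ?_⟩
  · obtain ⟨l, hl⟩ := mem_iUnion.1 hp
    exact h3 l p hl
  · obtain ⟨l, hl⟩ := mem_iUnion.1 hst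
    exact h4 l st hl
  · obtain ⟨st, h6, h7⟩ := h5 _ κ ⟨hκ, hn, hm⟩ rfl fun p h => hp p (mem_iUnion.2 ⟨_, h⟩)
    exact ⟨st, mem_iUnion.2 ⟨_, h6⟩, h7⟩

theorem starts (fr : Fr) {𝓡 : Set Mem} (hok : ∀ m ∈ 𝓡, Ok fr.Y fr.V m) :
    ∃ (T : Set (Start fr)) (𝒢 : Set (ℕ × Set (ℕ → Co))), T.Countable ∧ 𝒢.Countable ∧
      (∀ p ∈ 𝒢, Opn fr.Y p.1 p.2 ∧ Dns p.1 p.2) ∧ (∀ st ∈ T, st.𝓜 ⊆ 𝓡) ∧
      ∀ m ∈ 𝓡, (∀ p ∈ 𝒢, m.1 ∈ p.2) → ∀ (V' : ℕ → Co) (u' : Co) (n j : ℕ) (z : ℕ → Pt),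
        NewPts fr m V' n j z → ∀ Z : Set Pt, Z.Finite → Z ⊆ fr.Y → ∀ η : ℝ, 0 < η →
        ∃ st ∈ T, ∀ u k, Out fr st u k → (∀ y ∈ Z, |k y - m.2 y| ≤ η) ∧
          ∀ i < n, ∀ x ∈ dn (z i), ∃ K, ∀ y ∈ fr.Y,
            Nbr K (Iio K) x (Wu u' V') y (Wu u fr.V) → |k y - m.2 x| ≤ η := by
  have hc : {Z : Set Pt | Z.Finite ∧ Z ⊆ fr.Y}.Countable :=
    countable_ofPred_finite_subset (countable_pts fr.cP fr.cB fr.ab)
  have := hc.to_subtype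
  choose T 𝒢 h1 h2 h3 h4 h5 using
    fun a : ℕ × ℕ × ℕ × ℕ × {Z : Set Pt | Z.Finite ∧ Z ⊆ fr.Y} => st_core hok a.1 a.2.1 a.2.2.1
      (δ := 1 / ((a.2.2.2.1 : ℝ) + 1)) (by positivity) a.2.2.2.2.2.1 a.2.2.2.2.2.2
  refine ⟨⋃ l, T l, ⋃ l, 𝒢 l, countable_iUnion h1, countable_iUnion h2, fun p hp => ?_,
    fun st hst => ?_, fun m hm hp V' u' n j z hn Z hZ hY η hη => ?_⟩
  · obtain ⟨l, hl⟩ := mem_iUnion.1 hp
    exact h3 l p hl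
  · obtain ⟨l, hl⟩ := mem_iUnion.1 hst
    exact h4 l st hl
  obtain ⟨N, hN⟩ := exists_nat_one_div_lt (show 0 < η / 3 by linarith)
  have h6 : ∀ᶠ K in atTop, ∀ i ∈ Iio n, ∀ x ∈ dn (z i), ∀ y ∈ fr.Y, Nbr K (Iio K) x V' y fr.V →
      Nbr K (Iio K) x m.1 y m.1 → |m.2 y - m.2 x| < 1 / ((N : ℝ) + 1) :=
    (eventually_all_finite (finite_Iio n)).2 fun i hi => (eventually_all_finite (finite_dn _)).2
      fun x hx => eventually_atTop.2 (hn.w1 i hi x hx _ (by positivity))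
  obtain ⟨K, hK⟩ := h6.exists
  obtain ⟨st, h7, h8⟩ := h5 (n, j, K, N, ⟨Z, hZ, hY⟩) ⟨m, V', u', z⟩ hm
    (fun p h => hp p (mem_iUnion.2 ⟨_, h⟩)) hn hK
  refine ⟨st, mem_iUnion.2 ⟨_, h7⟩, fun u k ho => ?_⟩
  obtain ⟨h9, h10⟩ := h8 u k ho
  have hle : 3 * (1 / ((N : ℝ) + 1)) ≤ η := by linarith
  refine ⟨fun y hy => (h9 y hy).trans hle, fun i hi x hx => ?_⟩
  obtain ⟨K', hK'⟩ := h10 i hi x hx
  exact ⟨K', fun y hy h => (hK' y hy h).trans hle⟩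

end Pool.Agent.Work.MP_f50f0f_gt
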