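import Pool.Agent.Work.MP_f50f0f_gt.CH1
import Pool.Agent.Work.MP_f50f0f_gt.CH2
import Pool.Agent.Lib.ZFModel.Generic

/-! Every family of continuous functions has a countable dense family in its closure. -/

namespace Pool.Agent.Work.MP_f50f0f_gt
open Function Set Filter Topology

/-- The old points and coordinates of a condition. -/
def frOf (s : St) (en : ℕ → Om) : Fr :=
  ⟨s.P, s.B, s.ab, fun n => s.F (en n), s.cP, s.cB, s.disj⟩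

/-- No member has its values in the given rational intervals. -/
def NoR (In : NN → St → Prop) (π : List (Pt × ℚ × ℚ)) (n : ℕ) (iv : ℕ → ℚ × ℚ) (l : ℕ → Pt)
    (s : St) : Prop :=
  ∀ s' ≤ s, ∀ e, In e s' → ¬ ((∀ a ∈ π, ∃ t, e a.1 t s' ∧ (a.2.1 : ℝ) < t ∧ t < a.2.2) ∧
    ∀ i < n, ∃ t, e (l i) t s' ∧ ((iv i).1 : ℝ) < t ∧ t < (iv i).2)

/-- The properties that are reflected. -/
def hQ (In : NN → St → Prop) (s : St) : Set ((ℕ → Pt) → St → Prop) :=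
  insert (fun _ _ => True) {Φ | ∃ (π : List (Pt × ℚ × ℚ)) (n : ℕ) (iv : ℕ → ℚ × ℚ),
    (∀ a ∈ π, a.1 ∈ s.Y) ∧ (∃ K, ∀ i, K ≤ i → iv i = (0, 0)) ∧ Φ = NoR In π n iv}

theorem hQ_countable (In : NN → St → Prop) (s : St) : (hQ In s).Countable := by
  refine Countable.insert _ ?_
  have h1 := Pool.Agent.Lib.ZFModel.countable_lists (s.cY.prod (countable_univ (α := ℚ × ℚ)))
  have h2 := countable_trn (countable_univ (α := ℚ × ℚ)) (0, 0)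
  refine ((h1.prod ((countable_univ (α := ℕ)).prod h2)).image
    fun a => NoR In a.1 a.2.1 a.2.2).mono ?_
  rintro _ ⟨π, n, iv, h3, ⟨K, h4⟩, rfl⟩
  exact ⟨(π, n, iv), ⟨fun a ha => ⟨h3 a ha, trivial⟩, trivial, K, fun _ _ => trivial, h4⟩, rfl⟩

theorem exists_enum {A : Set Om} (hc : A.Countable) (hi : A.Infinite) :
    ∃ en : ℕ → Om, Injective en ∧ ∀ ξ, ξ ∈ A ↔ ∃ n, en n = ξ := by
  have := hc.to_subtype
  have := hi.to_subtype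
  obtain ⟨d⟩ := nonempty_denumerable A
  refine ⟨fun n => ((Denumerable.eqv A).symm n).1, fun a b h => ?_, fun ξ => ⟨fun h => ?_, ?_⟩⟩
  · exact (Denumerable.eqv A).symm.injective (Subtype.ext h)
  · exact ⟨Denumerable.eqv A ⟨ξ, h⟩, by simp⟩
  · rintro ⟨n, rfl⟩
    exact ((Denumerable.eqv A).symm n).2

theorem exists_list {α : Type*} [Inhabited α] {A : Set α} (h : A.Finite) :
    ∃ (n : ℕ) (l : ℕ → α), (∀ i < n, l i ∈ A) ∧ (∀ i < n, ∀ i' < n, l i = l i' → i = i') ∧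
      ∀ x ∈ A, ∃ i < n, l i = x := by
  obtain ⟨n, f, hf, hr⟩ := h.fin_param
  refine ⟨n, fun i => if h : i < n then f ⟨i, h⟩ else default, fun i hi => ?_,
    fun i hi i' hi' e => ?_, fun x hx => ?_⟩
  · simp only [dif_pos hi]
    exact hr ▸ mem_range_self _
  · simp only [dif_pos hi, dif_pos hi'] at e
    exact congrArg Fin.val (hf e)
  · rw [← hr] at hx
    obtain ⟨i, rfl⟩ := hx
    exact ⟨i, i.2, dif_pos i.2⟩

instance : Inhabited Pt := ⟨root fun _ => 0⟩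

theorem same_lab {s : St} {x y : Pt} (hx : x ∈ s.Y) (hy : y ∈ s.Y) (h : x.g = y.g) (ht : x.h = ⊤) :
    x = y := by
  rcases pts_cases hx with ⟨j, a, c, rfl, -, -⟩ | ⟨c, hc, rfl⟩
  · simp [pt] at ht
  · rcases pts_cases hy with ⟨j, a, c', rfl, -, hc'⟩ | ⟨c', -, rfl⟩
    · obtain rfl : c = c' := h
      exact absurd hc (s.disj _ hc')
    · obtain rfl : c = c' := h
      rfl

/-- The members of the family, read off on the old points. -/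
def RM (In : NN → St → Prop) (s₀ : St) (en : ℕ → Om) : Set Mem :=
  {m | ∃ s ≤ s₀, ∃ e ee, In e s ∧ Enum s en ee ∧ (∀ n, ee n ∉ s₀.I) ∧
    m.1 = (fun n => s.F (ee n)) ∧ ∀ y ∈ s₀.Y, e y (m.2 y) s}

/-- The first part of the construction: closing off and adding trivial fibres. -/
theorem hs_prep (p : St) (In : NN → St → Prop) : ∃ s₀ ≤ p, ∃ (sl : St) (en : ℕ → Om)
    (𝒬 : Set ((ℕ → Pt) → St → Prop)), s₀ ≤ sl ∧ Injective en ∧ (∀ ξ, ξ ∈ s₀.I ↔ ∃ n, en n = ξ) ∧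
    𝒬.Countable ∧ (fun _ _ => True) ∈ 𝒬 ∧
    (∀ π n iv, (∀ a ∈ π, a.1 ∈ sl.Y) → (∃ K, ∀ i, K ≤ i → iv i = (0, 0)) → NoR In π n iv ∈ 𝒬) ∧
    (∀ (K : ℕ) (g₀ v₀ : ℕ → ℕ) (X : Set Lb), X.Finite → ∃ c ∈ (frOf s₀ en).P, c ∉ X ∧
      ag K g₀ c ∧ ∃ v, ag K v₀ v ∧ Slice univ (frOf s₀ en).V c v) ∧
    ∀ Φ ∈ 𝒬, ∀ s ≤ s₀, ∀ (n : ℕ) (l : ℕ → Pt), (∀ i < n, l i ∈ s.Y ∧ l i ∉ sl.Y) → Φ l s →
      ∀ (K : ℕ) (X : Set Lb), X.Finite → ∃ l', ((∀ i < n, l' i ∈ sl.Y) ∧ Φ l' sl) ∧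
        ∀ i < n, (l' i).g ∉ X ∧
          Sim K (Iio K) (l i) (fun n => s.F (en n)) (l' i) (frOf s₀ en).V := by
  obtain ⟨p₁, hp₁, hinf⟩ := p.infI
  obtain ⟨s, sl, h0, hs, hsl, ht, -, hr⟩ := reflect (Q := St) id (fun _ _ h => h)
    (fun _ _ => True) (fun s hs => let ⟨q, h1, h2⟩ := St.lim s hs; ⟨q, h1, h2, trivial⟩)
    (hQ In) (hQ_countable In) (by
      rintro q q' h Φ (rfl | ⟨π, n, iv, h1, h2, rfl⟩)
      · exact Or.inl rfl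
      · exact Or.inr ⟨π, n, iv, fun a ha => h.Y (h1 a ha), h2, rfl⟩) (by
      rintro q Φ (rfl | ⟨π, n, iv, -, -, rfl⟩) l q₁ q₂ h h'
      · trivial
      · exact fun s' hs' => h s' (hs'.trans h')) p₁
  have hanti : ∀ m n, m ≤ n → s n ≤ s m := fun m n h => antitone_nat_of_succ_le hs h
  obtain ⟨s₀, hs₀, hI, hsli⟩ := sl.addSlices
  have hslp : sl ≤ p₁ := h0 ▸ hsl 0
  obtain ⟨en, hen, hen'⟩ := exists_enum s₀.cI
    (hinf.mono fun ξ h => hs₀.I (hslp.I h.1))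
  have henI : ∀ n, en n ∈ sl.I := fun n => hI ▸ (hen' _).2 ⟨n, rfl⟩
  refine ⟨s₀, hs₀.trans (hslp.trans hp₁), sl, en, ⋃ m, hQ In (s m), hs₀, hen, hen',
    countable_iUnion fun m => hQ_countable In _, mem_iUnion.2 ⟨0, Or.inl rfl⟩, ?_, ?_, ?_⟩
  · intro π n iv h1 h2
    have : ∃ m, ∀ a ∈ π, a.1 ∈ (s m).Y := by
      induction π with
      | nil => exact ⟨0, by simp⟩
      | cons a π ih =>
        obtain ⟨m, hm⟩ := ih fun b hb => h1 b (List.mem_cons_of_mem _ hb)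
        obtain ⟨m', hm'⟩ := St.Tight.Y ht hsl (h1 a List.mem_cons_self)
        refine ⟨max m m', fun b hb => ?_⟩
        rcases List.mem_cons.1 hb with rfl | hb
        · exact (hanti _ _ (le_max_right _ _)).Y hm'
        · exact (hanti _ _ (le_max_left _ _)).Y (hm b hb)
    obtain ⟨m, hm⟩ := this
    exact mem_iUnion.2 ⟨m, Or.inr ⟨π, n, iv, hm, h2, rfl⟩⟩
  · intro K g₀ v₀ X hX
    obtain ⟨x, h1, h2, h3, h4⟩ := hsli (g₀, extend en v₀ 0) K (en '' Iio K)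
      ((finite_Iio K).image _) (by rintro _ ⟨n, -, rfl⟩; exact henI n) X hX
    refine ⟨x.1, h1, h2, h3.1, fun n => x.2 (en n), fun n hn => ?_, fun n _ => h4 _ (henI n)⟩
    exact (hen.extend_apply v₀ 0 n).symm.trans (h3.2 _ ⟨n, hn, rfl⟩)
  · intro Φ hΦ s' hs' n l hl h K X hX
    obtain ⟨m, hm⟩ := mem_iUnion.1 hΦ
    obtain ⟨l', h1, h2⟩ := hr m Φ hm s' (hs'.trans hs₀) n l hl h K (en '' Iio K) X
      ((finite_Iio K).image _) (by rintro _ ⟨n, -, rfl⟩; exact henI n) hX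
    refine ⟨l', ⟨fun i hi => (h1 i hi).1, h2⟩, fun i hi => ⟨(h1 i hi).2.1, ?_, (h1 i hi).2.2.2⟩⟩
    refine (Nbr.comp.2 (h1 i hi).2.2.1).congr (reg_of_mem (h1 i hi).1) (fun _ _ _ _ => rfl)
      fun n _ z hz => ?_
    exact (hs₀.F _ (henI n) _ (dn_subset (h1 i hi).1 hz)).symm

theorem exists_bound {α : Type*} {A : Set α} (hA : A.Finite) {R : α → ℕ → Prop}
    (h : ∀ x ∈ A, ∃ K₀, ∀ K ≥ K₀, R x K) : ∃ K₀, ∀ K ≥ K₀, ∀ x ∈ A, R x K := by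
  have h' : ∀ᶠ K in atTop, ∀ x ∈ A, R x K :=
    (eventually_all_finite hA).2 fun x hx => eventually_atTop.2 (h x hx)
  exact eventually_atTop.1 h'

theorem ratOn_comp {s : St} {e : ℕ → Om} (he : ∀ n, e n ∈ s.I) {y : Pt} (hy : y ∈ s.Y) :
    RatOn univ y fun n => s.F (e n) :=
  ⟨reg_of_mem hy, fun h i _ z hz => (St.ratOn Subset.rfl hy).2 h (e i) (he i) z hz⟩

/-- The data that the construction of the limit functions provides. -/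
structure HD (In : NN → St → Prop) (s₀ sl s₃ : St) (en : ℕ → Om) (ζ : Om) (u : Co)
    (𝒬 : Set ((ℕ → Pt) → St → Prop)) : Prop where
  le₃ : s₃ ≤ s₀
  le₀ : s₀ ≤ sl
  hζ : ζ ∈ s₃.I
  hen : ∀ ξ, ξ ∈ s₀.I ↔ ∃ n, en n = ξ
  old : ∀ s ≤ s₃, ∀ n, ∀ y ∈ s₀.Y, Ws s ζ en n y = Wu u (frOf s₀ en).V n y
  noR : ∀ π n iv, (∀ a ∈ π, a.1 ∈ sl.Y) → (∃ K, ∀ i, K ≤ i → iv i = (0, 0)) → NoR In π n iv ∈ 𝒬
  tr : (fun _ _ => True) ∈ 𝒬
  app : ∀ Φ ∈ 𝒬, ∀ s ≤ s₃, ∀ (n : ℕ) (l : ℕ → Pt), (∀ i < n, l i ∈ s.Y ∧ l i ∉ sl.Y) → Φ l s →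
    ∀ K, ∃ l', ((∀ i < n, l' i ∈ sl.Y) ∧ Φ l' sl) ∧
      ∀ i < n, Nbr K (Iio K) (l i) (Ws s ζ en) (l' i) (Wu u (frOf s₀ en).V)

section
variable {In : NN → St → Prop} {s₀ sl s₃ : St} {en : ℕ → Om} {ζ : Om} {u : Co}
  {𝒬 : Set ((ℕ → Pt) → St → Prop)}

theorem HD.self (h : HD In s₀ sl s₃ en ζ u 𝒬) {s : St} (hs : s ≤ s₃) {x : Pt} (hx : x ∈ s₀.Y)
    (K : ℕ) : Nbr K (Iio K) x (Ws s ζ en) x (Wu u (frOf s₀ en).V) :=
  (Nbr.refl (reg_of_mem hx) K _ _).congr (reg_of_mem hx) (fun _ _ _ _ => rfl)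
    fun n _ _ hz => h.old s hs n _ (dn_subset hx hz)

theorem HD.den (h : HD In s₀ sl s₃ en ζ u 𝒬) {s : St} (hs : s ≤ s₃) {x : Pt} (hx : x ∈ s.Y) :
    Den s₀.Y (Wu u (frOf s₀ en).V) x (Ws s ζ en) := by
  intro K
  by_cases h0 : x ∈ s₀.Y
  · exact ⟨x, h0, h.self hs h0 K⟩
  · obtain ⟨l', h1, h2⟩ := h.app _ h.tr s hs 1 (fun _ => x)
      (fun _ _ => ⟨hx, fun h' => h0 (h.le₀.Y h')⟩) trivial K
    exact ⟨l' 0, h.le₀.Y (h1.1 0 one_pos), h2 0 one_pos⟩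

theorem HD.lim_old (h : HD In s₀ sl s₃ en ζ u 𝒬) {st : Start (frOf s₀ en)} {k : Pt → ℝ}
    (ho : Out (frOf s₀ en) st u k) {s : St} (hs : s ≤ s₃) {x : Pt} (hx : x ∈ s₀.Y) :
    LimAt s₀.Y (Wu u (frOf s₀ en).V) k x (Ws s ζ en) (k x) := by
  intro η hη
  obtain ⟨K, hK⟩ := ho.o1 x hx η hη
  exact ⟨K, fun y hy hn => hK y hy (hn.congr (reg_of_mem hy)
    (fun n _ _ hz => h.old s hs n _ (dn_subset hx hz)) fun _ _ _ _ => rfl)⟩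

/-- The limit functions are in the closure of the family. -/
theorem HD.closure (h : HD In s₀ sl s₃ en ζ u 𝒬) {st : Start (frOf s₀ en)} {k : Pt → ℝ}
    (ho : Out (frOf s₀ en) st u k) (hst : st.𝓜 ⊆ RM In s₀ en)
    (hosc : ∀ s ≤ s₃, ∀ x ∈ s.Y, Osc s₀.Y (Wu u (frOf s₀ en).V) k x (Ws s ζ en))
    (hcf : bs.CF (limN s₀.Y (Wu u (frOf s₀ en).V) k s₃ ζ en) s₃) {s : St} (hs : s ≤ s₃)
    {Z : Finset Pt} (hZ : ∀ x ∈ Z, x ∈ s.Y) {η : ℝ} (hη : 0 < η) :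
    ∃ s' ≤ s, ∃ e, In e s' ∧ Near (limN s₀.Y (Wu u (frOf s₀ en).V) k s₃ ζ en) e Z η s' := by
  classical
  by_contra hcon
  have ht : ∀ x, ∃ t, x ∈ Z → LimAt s₀.Y (Wu u (frOf s₀ en).V) k x (Ws s ζ en) t := by
    intro x
    by_cases hx : x ∈ Z
    · obtain ⟨t, ht⟩ := lim_exists (hosc s hs x (hZ x hx)) (h.den hs (hZ x hx))
      exact ⟨t, fun _ => ht⟩
    · exact ⟨0, fun h => absurd h hx⟩
  choose t ht using ht
  have ha : ∀ x, ∃ a : ℚ, t x - η < a ∧ a < t x - η / 2 := fun x => exists_rat_btwn (by linarith)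
  have hb : ∀ x, ∃ a : ℚ, t x + η / 2 < a ∧ a < t x + η := fun x => exists_rat_btwn (by linarith)
  choose a ha using ha
  choose b hb using hb
  obtain ⟨n, l, hl1, -, hl2⟩ := exists_list (A := (Z : Set Pt) \ sl.Y) (Z.finite_toSet.subset sdiff_subset)
  let π : List (Pt × ℚ × ℚ) := (Z.filter (· ∈ sl.Y)).toList.map fun x => (x, a x, b x)
  have hπ : ∀ c, c ∈ π ↔ ∃ x, (x ∈ Z ∧ x ∈ sl.Y) ∧ (x, a x, b x) = c := fun c => by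
    simp only [π, List.mem_map, Finset.mem_toList, Finset.mem_filter]
  let iv : ℕ → ℚ × ℚ := fun i => if i < n then (a (l i), b (l i)) else (0, 0)
  have hiv : ∀ i < n, iv i = (a (l i), b (l i)) := fun i hi => if_pos hi
  have hno : NoR In π n iv l s := by
    rintro s' hs' e he ⟨h1, h2⟩
    refine hcon ⟨s', hs', e, he, fun x hx => ?_⟩
    have hL := hcf.mono x (t x) s s' ⟨hs, hZ x hx, ht x hx⟩ hs'
    have : ∃ t', e x t' s' ∧ (a x : ℝ) < t' ∧ t' < b x := by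
      by_cases hx' : x ∈ sl.Y
      · exact h1 _ ((hπ _).2 ⟨x, ⟨hx, hx'⟩, rfl⟩)
      · obtain ⟨i, hi, rfl⟩ := hl2 x ⟨hx, hx'⟩
        have := h2 i hi
        rwa [hiv i hi] at this
    obtain ⟨t', h3, h4, h5⟩ := this
    refine ⟨_, _, hL, h3, abs_lt.2 ⟨?_, ?_⟩⟩
    · linarith [(hb x).2]
    · linarith [(ha x).1]
  obtain ⟨K, hK⟩ := exists_bound Z.finite_toSet (R := fun x K => ∀ y ∈ s₀.Y,
      Nbr K (Iio K) x (Ws s ζ en) y (Wu u (frOf s₀ en).V) → |k y - t x| ≤ η / 4) fun x hx => by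
    obtain ⟨K, hK⟩ := ht x hx (η / 4) (by linarith)
    exact ⟨K, fun K' hK' y hy hn => hK y hy (hn.mono hK' (Iio_subset_Iio hK'))⟩
  obtain ⟨l', ⟨h1, h2⟩, h3⟩ := h.app _ (h.noR π n iv (fun c hc => by
      obtain ⟨x, hx, rfl⟩ := (hπ c).1 hc
      exact hx.2) ⟨n, fun i hi => if_neg (not_lt.2 hi)⟩) s hs n l
    (fun i hi => ⟨hZ _ (hl1 i hi).1, (hl1 i hi).2⟩) hno K
  obtain ⟨m, hm, hm'⟩ := ho.o4 (((Z : Set Pt) ∩ sl.Y) ∪ l' '' Iio n)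
    ((Z.finite_toSet.inter_of_left _).union ((finite_Iio n).image _)) (by
      rintro y (hy | ⟨i, hi, rfl⟩)
      · exact h.le₀.Y hy.2
      · exact h.le₀.Y (h1 i hi)) (η / 4) (by linarith)
  obtain ⟨s', hs', e, ee, he, -, -, -, hv⟩ := hst hm
  have key : ∀ x ∈ Z, ∀ y ∈ sl.Y, |m.2 y - k y| < η / 4 →
      Nbr K (Iio K) x (Ws s ζ en) y (Wu u (frOf s₀ en).V) →
      ∃ t', e y t' s' ∧ (a x : ℝ) < t' ∧ t' < b x := fun x hx y hy h4 h5 => by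
    have h6 := abs_le.1 (hK K le_rfl x hx y (h.le₀.Y hy) h5)
    have h7 := abs_lt.1 h4
    exact ⟨_, hv y (h.le₀.Y hy), by linarith [(ha x).2], by linarith [(hb x).1]⟩
  refine h2 s' (hs'.trans h.le₀) e he ⟨fun c hc => ?_, fun i hi => ?_⟩
  · obtain ⟨x, hx, rfl⟩ := (hπ c).1 hc
    exact key x hx.1 x hx.2 (hm' x (Or.inl hx)) (h.self hs (h.le₀.Y hx.2) K)
  · rw [hiv i hi]
    exact key _ (hl1 i hi).1 _ (h1 i hi) (hm' _ (Or.inr ⟨i, hi, rfl⟩)) (h3 i hi)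

end

open Classical in
/-- Finitely many new points lie below finitely many points with distinct labels. -/
theorem exists_tops {s₀ s : St} (hs : s ≤ s₀) {Z : Set Pt} (hZ : Z.Finite) (hY : Z ⊆ s.Y) :
    ∃ (n j : ℕ) (z : ℕ → Pt), (∀ i < n, z i ∈ s.Y ∧ ((z i).h = ⊤ ∨ (z i).h = j) ∧
      (z i).g ∉ s₀.lab) ∧ (∀ i < n, ∀ i' < n, (z i).g = (z i').g → i = i') ∧
      ∀ x ∈ Z, x ∉ s₀.Y → ∃ i < n, x ∈ dn (z i) := by
  obtain ⟨n, c, h1, h2, h3⟩ := exists_list (A := Pt.g '' (Z \ s₀.Y))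
    ((hZ.subset sdiff_subset).image _)
  obtain ⟨j, hj⟩ := exists_bound hZ (R := fun x K => x.h ≠ ⊤ → x.h ≤ K) fun x _ => by
    by_cases h : x.h = ⊤
    · exact ⟨0, fun _ _ h' => absurd h h'⟩
    · obtain ⟨j, hj⟩ := ENat.ne_top_iff_exists.1 h
      exact ⟨j, fun K hK _ => hj ▸ Nat.cast_le.2 hK⟩
  have hg : ∀ i, (if c i ∈ s.P then pt j a0 (c i) else ⟨⊤, s.ab (c i), c i⟩ : Pt).g = c i :=
    fun i => by split_ifs <;> rfl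
  refine ⟨n, j, fun i => if c i ∈ s.P then pt j a0 (c i) else ⟨⊤, s.ab (c i), c i⟩,
    fun i hi => ?_, fun i hi i' hi' e => h2 i hi i' hi' (by rwa [hg, hg] at e), fun x hx hx' => ?_⟩
  · obtain ⟨x, ⟨hx, hx'⟩, e⟩ := h1 i hi
    refine ⟨?_, ?_, by rw [hg, ← e]; exact St.new_lab hs (hY hx) hx'⟩
    · dsimp only
      split_ifs with h
      · exact pt_mem.2 ⟨nrm_a0 _, h⟩
      · exact top_mem.2 ⟨(St.g_mem (hY hx)).resolve_left (e ▸ h) |> fun h' => e ▸ h', rfl⟩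
    · dsimp only
      split_ifs with h
      · exact Or.inr rfl
      · exact Or.inl rfl
  · obtain ⟨i, hi, e⟩ := h3 _ ⟨x, ⟨hx, hx'⟩, rfl⟩
    refine ⟨i, hi, ?_⟩
    rcases pts_cases (hY hx) with ⟨j', a, c', rfl, h4, h5⟩ | ⟨c', h4, rfl⟩
    · obtain rfl : c i = c' := e
      simp only [if_pos h5]
      exact Or.inr ⟨j', a, hj j le_rfl _ hx (by simp [pt]), by simp [pt], h4, rfl⟩
    · obtain rfl : c i = c' := e
      simp only [if_neg fun h => s.disj _ h h4]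
      exact Or.inl ⟨rfl, rfl⟩

theorem bs_hstar : bs.HStar := by
  intro p In hmono hCF
  obtain ⟨s₀, hs₀, sl, en, 𝒬, hsl, hen, henI, c𝒬, hT𝒬, hN𝒬, hsli, hrefl⟩ := hs_prep p In
  have hen0 : ∀ n, en n ∈ s₀.I := fun n => (henI _).2 ⟨n, rfl⟩
  have hok : ∀ m ∈ RM In s₀ en, Ok (frOf s₀ en).Y (frOf s₀ en).V m := by
    rintro ⟨E, k⟩ ⟨s, hs, e, ee, hIn, hEn, hee, rfl, hk⟩
    exact ok_member hs (hCF e s (hs.trans hs₀) hIn) hEn hen0 hee hk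
  obtain ⟨T, 𝒢, cT, c𝒢, h𝒢, hT, hst⟩ := starts (frOf s₀ en) hok
  obtain ⟨s₁, hs₁, sm₁, hpr⟩ := s₀.addPr c𝒢 h𝒢
  obtain ⟨ℋ₁, c₁, h₁, hco⟩ := s₁.addCoord
  choose ℋ₂ c₂ h₂ happ using fun (Φ : (ℕ → Pt) → St → Prop) (n K : ℕ) =>
    approx_sets (frOf s₀ en) {l' | (∀ i < n, l' i ∈ sl.Y) ∧ Φ l' sl} n K
      fun l' hl' i hi => hsl.Y (hl'.1 i hi)
  obtain ⟨ℋ₃, c₃, h₃, hsw⟩ := slice_sets (frOf s₀ en) hsli
  have := cT.to_subtype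
  obtain ⟨u, hu, huH, hk⟩ := game (frOf s₀ en) (Subtype.val : T → Start (frOf s₀ en))
    (ℋ := (ℋ₁ ∪ ⋃ Φ ∈ 𝒬, ⋃ n, ⋃ K, ℋ₂ Φ n K) ∪ ℋ₃)
    ((c₁.union (c𝒬.biUnion fun Φ _ => countable_iUnion fun n => countable_iUnion fun K =>
      c₂ Φ n K)).union c₃) (by
      rintro H ((hH | hH) | hH)
      · have := h₁ H hH
        rwa [sm₁.Y] at this
      · simp only [mem_iUnion] at hH
        obtain ⟨Φ, -, n, K, hH⟩ := hH
        exact h₂ Φ n K H hH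
      · exact h₃ H hH)
  choose k hk using hk
  obtain ⟨ζ, hζ⟩ : ∃ ζ, ζ ∉ s₁.I := by
    by_contra h
    push Not at h
    exact not_countable_univ (s₁.cI.mono fun x _ => h x)
  obtain ⟨s₂, hs₂, hP₂, hB₂, hab₂, hI₂, hF₂⟩ := hco u hu (fun H hH => huH H (Or.inl (Or.inl hH))) ζ hζ
  choose 𝒪 c𝒪 h𝒪 hosc using fun j => osc_sets (hk j) (hsw u fun H hH => huH H (Or.inr hH))
  let en' : ℕ → Om := fun n => Nat.casesOn n ζ en
  have hζ0 : ∀ n, en n ≠ ζ := fun n e => hζ (sm₁.I ▸ e ▸ hen0 n)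
  have hen' : Injective en' := by
    rintro (_ | n) (_ | m) e
    · rfl
    · exact absurd e.symm (hζ0 m)
    · exact absurd e (hζ0 n)
    · exact congrArg _ (hen e)
  obtain ⟨s₃, hs₃, sm₃, hDO⟩ := s₂.addDO (𝒪 := ⋃ j, (fun Φ : ℕ → Lb → (ℕ → ℕ) → Prop =>
      {x : LM | ∃ K₁ g₁ w₁, Φ K₁ g₁ w₁ ∧ ag K₁ g₁ x.1 ∧ ag K₁ w₁ fun n => x.2 (en' n)}) '' 𝒪 j)
    (countable_iUnion fun j => (c𝒪 j).image _) (by
      intro O hO
      obtain ⟨j, Φ, hΦ, rfl⟩ := mem_iUnion.1 hO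
      exact slabDO hen' Φ (h𝒪 j Φ hΦ))
  have h30 : s₃ ≤ s₀ := hs₃.trans (hs₂.trans hs₁)
  have hY₃ : s₃.Y = s₀.Y := by
    rw [sm₃.Y, ← sm₁.Y]
    unfold St.Y
    rw [hP₂, hB₂, hab₂]
  have hζ₃ : ζ ∈ s₃.I := by rw [sm₃.I, hI₂]; exact Or.inl rfl
  have hen₃ : ∀ n, en' n ∈ s₃.I := by
    rintro (_ | n)
    · exact hζ₃
    · exact h30.I (hen0 n)
  have hd : HD In s₀ sl s₃ en ζ u 𝒬 := by
    refine ⟨h30, hsl, hζ₃, henI, ?_, hN𝒬, hT𝒬, ?_⟩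
    · rintro s hs (_ | n) y hy
      · show ((s.F ζ y).1, (0 : D)) = ((u y).1, 0)
        rw [hs.F ζ hζ₃ y (hY₃ ▸ hy), sm₃.F, hF₂]
      · exact (hs.trans h30).F _ (hen0 n) y hy
    · intro Φ hΦ s hs n l hl hΦl K
      exact happ Φ n K u (fun H hH => huH H (Or.inl (Or.inr (mem_iUnion₂.2 ⟨Φ, hΦ,
          mem_iUnion₂.2 ⟨n, K, hH⟩⟩)))) l (fun n => s.F (en n)) (s.F ζ)
        (fun i hi => ratOn_comp (fun n => (hs.trans h30).I (hen0 n)) (hl i hi).1)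
        (fun i hi i' hi' => same_lab (hl i hi).1 (hl i' hi').1)
        fun K' X hX => hrefl Φ hΦ s (hs.trans h30) n l hl hΦl K' X hX
  have ho : ∀ j, ∀ s ≤ s₃, ∀ x ∈ s.Y,
      Osc s₀.Y (Wu u (frOf s₀ en).V) (k j) x (Ws s ζ en) := by
    intro j s hs x hx
    by_cases h0 : x ∈ s₀.Y
    · intro η hη
      obtain ⟨K, hK⟩ := hd.lim_old (hk j) hs h0 η hη
      exact ⟨K, _, hK⟩
    rw [← hY₃] at h0
    have hv : ∀ c v, (∀ O ∈ s₃.DO, (c, v) ∈ O) → ∀ Φ ∈ 𝒪 j, ∃ K₁ g₁ w₁, Φ K₁ g₁ w₁ ∧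
        ag K₁ g₁ c ∧ ag K₁ w₁ fun n => v (en' n) := fun c v h Φ hΦ =>
      h _ (hDO (mem_iUnion.2 ⟨j, Φ, hΦ, rfl⟩))
    rcases pts_cases hx with ⟨j', a, c, rfl, h1, h2⟩ | ⟨c, h1, rfl⟩
    · obtain ⟨v, h3, h4⟩ := hs.newP c h2 fun h => h0 (pt_mem.2 ⟨h1, h⟩)
      refine (hosc j c _ _ (hv c v h3)).2 ?_ j' a h1
      rintro (_ | n) -
      · refine ⟨?_, fun j hj a ha => ?_⟩
        · show ((s.F ζ (root c)).1, (0 : D)) = 0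
          rw [(h4 ζ hζ₃).1]; rfl
        · show ((s.F ζ (pt j a c)).1, (0 : D)) = _
          rw [(h4 ζ hζ₃).2 j hj a ha]; rfl
      · exact h4 _ (hen₃ (n + 1))
    · obtain ⟨v, h3, h4⟩ := hs.newB c h1 fun h => h0 (top_mem.2 ⟨h, hs.ab c h⟩)
      refine (hosc j c _ _ (hv c v h3)).1 _ (funext ?_)
      rintro (_ | n)
      · exact h4 ζ hζ₃
      · exact h4 _ (hen₃ (n + 1))
  have hcf : ∀ j, bs.CF (limN s₀.Y (Wu u (frOf s₀ en).V) (k j) s₃ ζ en) s₃ := fun j =>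
    lim_cf (fun y hy => reg_of_mem hy) hζ₃ (fun n => hen₃ (n + 1)) (ho j)
      fun s hs x hx => hd.den hs hx
  refine ⟨s₃, h30.trans hs₀, range fun j => limN s₀.Y (Wu u (frOf s₀ en).V) (k j) s₃ ζ en,
    countable_range _, ?_, ?_⟩
  · rintro _ ⟨j, rfl⟩
    exact ⟨hcf j, fun s hs Z hZ η hη => hd.closure (hk j) (hT j.1 j.2) (ho j) (hcf j) hs hZ hη⟩
  intro s hs e he Z hZ η hη
  obtain ⟨s₄, hs₄, hinf⟩ := s.infI
  obtain ⟨n, j, z, hz, hinj, hcov⟩ := exists_tops (hs.trans h30) Z.finite_toSet hZ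
  have hce : bs.CF e s := hCF e s (hs.trans (h30.trans hs₀)) he
  obtain ⟨s₅, hs₅, kk, hkk⟩ := decide_one (hce.le hs₄) (A := s₀.Y ∪ ⋃ i < n, dn (z i)) (by
    rintro y (hy | hy)
    · exact (hs₄.trans (hs.trans h30)).Y hy
    · obtain ⟨i, hi, hy⟩ := mem_iUnion₂.1 hy
      exact hs₄.Y (dn_subset (hz i hi).1 hy))
  have h5 : s₅ ≤ s := hs₅.trans hs₄
  have h53 : s₅ ≤ s₃ := h5.trans hs
  have h50 : s₅ ≤ s₀ := h53.trans h30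
  obtain ⟨ee, hee, hee'⟩ := exists_enum (A := s₅.I \ s₀.I) (s₅.cI.mono sdiff_subset)
    (hinf.mono fun ξ h => ⟨hs₅.I h.1, fun h' => h.2 ((hs.trans h30).I h')⟩)
  have hee0 : ∀ n, ee n ∈ s₅.I ∧ ee n ∉ s₀.I := fun n => (hee' _).2 ⟨n, rfl⟩
  have hEn : Enum s₅ en ee := by
    refine ⟨hen, hee, fun n m e => (hee0 m).2 (e ▸ hen0 n), fun ξ => ?_⟩
    rw [← henI, ← hee']
    exact ⟨fun h => (em (ξ ∈ s₀.I)).imp_right fun h' => ⟨h, h'⟩,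
      fun h => h.elim (fun h => h50.I h) fun h => h.1⟩
  have hkz : ∀ i < n, ∀ x ∈ dn (z i), e x (kk x) s₅ := fun i hi x hx =>
    hkk x (Or.inr (mem_iUnion₂.2 ⟨i, hi, hx⟩))
  have hN : NewPts (frOf s₀ en) (fun n => s₅.F (ee n), kk) (fun n => s₅.F (en n)) n j z := by
    refine ⟨fun i hi => ratOn_comp (fun n => h50.I (hen0 n)) (h5.Y (hz i hi).1),
      fun i hi => ratOn_comp (fun n => (hee0 n).1) (h5.Y (hz i hi).1), fun i hi => (hz i hi).2.1,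
      fun i hi hj l => s₅.con _ (hee0 l).1 _ ?_, fun i hi => (hz i hi).2.2, hinj,
      fun i hi x hx η' hη' => ?_⟩
    · rcases h5.Y (hz i hi).1 with ⟨_, _, _, h⟩ | ⟨h, -⟩
      · exact h
      · simp [h] at hj
    · obtain ⟨K₀, hK₀⟩ := w1_enum (hce.le h5) hEn (h5.Y (dn_subset (hz i hi).1 hx)) h50.Y
        (fun y hy => hkk y (Or.inl hy)) (hkz i hi x hx) hη'
      exact ⟨K₀, fun K hK y hy h1 h2 => hK₀ K hK y hy (h1.congr (reg_of_mem hy)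
        (fun _ _ _ _ => rfl) fun n _ _ hw => (h50.F _ (hen0 n) _ (dn_subset hy hw)).symm) h2⟩
  obtain ⟨st, hstT, hfin⟩ := hst (fun n => s₅.F (ee n), kk)
    ⟨s₅, h50, e, ee, hmono _ _ _ he h5, hEn, fun n => (hee0 n).2, rfl, fun y hy => hkk y (Or.inl hy)⟩
    (fun q hq => hpr q hq s₅ (h53.trans (hs₃.trans hs₂)) ee hee.injOn fun n _ => hee0 n)
    _ (s₅.F ζ) n j z hN ((Z : Set Pt) ∩ s₀.Y) (Z.finite_toSet.inter_of_left _) inter_subset_right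
    (η / 2) (by linarith)
  obtain ⟨h1, h2⟩ := hfin u _ (hk ⟨st, hstT⟩)
  refine ⟨s₅, h5, _, ⟨⟨st, hstT⟩, rfl⟩, fun x hx => ?_⟩
  by_cases h0 : x ∈ s₀.Y
  · exact ⟨_, _, ⟨h53, h50.Y h0, hd.lim_old (hk ⟨st, hstT⟩) h53 h0⟩, hkk x (Or.inl h0),
      (h1 x ⟨hx, h0⟩).trans_lt (by linarith)⟩
  · obtain ⟨i, hi, hxi⟩ := hcov x hx h0
    obtain ⟨K, hK⟩ := h2 i hi x hxi
    have hx5 := h5.Y (hZ x hx)
    obtain ⟨t, ht⟩ := lim_exists (ho ⟨st, hstT⟩ s₅ h53 x hx5) (hd.den h53 hx5)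
    exact ⟨_, _, ⟨h53, hx5, ht⟩, hkz i hi x hxi,
      (ht.le (hd.den h53 hx5) hK).trans_lt (by linarith)⟩

end Pool.Agent.Work.MP_f50f0f_gt
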