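import Mathlib.Data.Real.Basic
import Mathlib.Data.Finsupp.Basic
import Mathlib.Algebra.BigOperators.Finsupp.Basic
import Mathlib.Data.Set.Countable

/-! The abstract description of the generic space: what the forcing has to provide. -/

namespace Pool.Agent.Work.MP_f50f0f_gt

/-- Names of real functions on the generic space: `e x t s` means that `s` forces the value `t`
at the point `x`. -/
abbrev Nm (P Pt : Type) : Type := Pt → ℝ → P → Prop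

/-- Points and basic neighbourhoods of the generic space.  `mem x s`: `s` forces that `x` is a
point; `Nb n x y s`: `s` forces that `y` lies in the neighbourhood of `x` with code `n`. -/
structure Base (P Pt Nc : Type) where
  mem : Pt → P → Prop
  Nb : Nc → Pt → Pt → P → Prop

variable {P Pt Nc : Type} [Preorder P] (b : Base P Pt Nc)

namespace Base

/-- `p` forces that `e` is a continuous real function. -/
structure CF (e : Nm P Pt) (p : P) : Prop where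
  mono : ∀ x t s s', e x t s → s' ≤ s → e x t s'
  tot : ∀ s ≤ p, ∀ x, b.mem x s → ∃ s' ≤ s, ∃ t, e x t s'
  fn : ∀ s ≤ p, ∀ x t t', e x t s → e x t' s → t = t'
  cont : ∀ s ≤ p, ∀ x t, b.mem x s → e x t s → ∀ η : ℝ, 0 < η → ∃ s' ≤ s, ∃ n, b.Nb n x x s' ∧
    ∀ s'' ≤ s', ∀ y t', b.Nb n x y s'' → e y t' s'' → |t' - t| < η

theorem CF.le {b : Base P Pt Nc} {e : Nm P Pt} {p q : P} (h : b.CF e p) (hq : q ≤ p) : b.CF e q :=
  ⟨h.mono, fun s hs => h.tot s (hs.trans hq), fun s hs => h.fn s (hs.trans hq),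
    fun s hs => h.cont s (hs.trans hq)⟩

/-- `s` forces that the support of `μ` consists of points. -/
def Sup (μ : Pt →₀ ℝ) (s : P) : Prop := ∀ x ∈ μ.support, b.mem x s

end Base

/-- `s` decides `e` on the support of `μ`, and the value of the functional `μ` at `e` is `t`. -/
def EV (e : Nm P Pt) (μ : Pt →₀ ℝ) (t : ℝ) (s : P) : Prop :=
  ∃ val : Pt → ℝ, (∀ x ∈ μ.support, e x (val x) s) ∧ t = μ.sum fun x c => c * val x

/-- `s` forces that `ν` is in the basic neighbourhood of `μ` given by `es` and `η`. -/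
def Close (es : List (Nm P Pt)) (η : ℝ) (μ ν : Pt →₀ ℝ) (s : P) : Prop :=
  ∀ e ∈ es, ∃ t t', EV e μ t s ∧ EV e ν t' s ∧ |t - t'| < η

/-- `s` forces that `e` and `e'` differ by less than `η` on `Z`. -/
def Near (e e' : Nm P Pt) (Z : Finset Pt) (η : ℝ) (s : P) : Prop :=
  ∀ x ∈ Z, ∃ t t', e x t s ∧ e' x t' s ∧ |t - t'| < η

/-- `s` forces that the basic neighbourhood of `μ` given by `es` and `η` is contained in `U`. -/
def Base.InU (U : (Pt →₀ ℝ) → P → Prop) (μ : Pt →₀ ℝ) (es : List (Nm P Pt)) (η : ℝ) (s : P) :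
    Prop :=
  0 < η ∧ (∀ e ∈ es, b.CF e s) ∧ ∀ s' ≤ s, ∀ ν, b.Sup ν s' → Close es η μ ν s' → U ν s'

/-- `p` forces that `U` is an open set of functionals. -/
def Base.OpenL (U : (Pt →₀ ℝ) → P → Prop) (p : P) : Prop :=
  (∀ μ s s', U μ s → s' ≤ s → U μ s') ∧
  ∀ s ≤ p, ∀ μ, b.Sup μ s → U μ s → ∃ s' ≤ s, ∃ es η, b.InU U μ es η s'

/-- The topological part of the interface. -/
structure Base.Top : Prop where
  mem_mono : ∀ x s s', b.mem x s → s' ≤ s → b.mem x s'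
  Nb_mono : ∀ n x y s s', b.Nb n x y s → s' ≤ s → b.Nb n x y s'
  Nb_mem : ∀ n x y s, b.Nb n x y s → b.mem x s ∧ b.mem y s
  Nb_self : ∀ n x y s, b.Nb n x y s → b.Nb n x x s
  Nb_ex : ∀ x s, b.mem x s → ∃ n, b.Nb n x x s
  Nb_meet : ∀ n n' x s, b.Nb n x x s → b.Nb n' x x s → ∃ m, b.Nb m x x s ∧
    ∀ s' ≤ s, ∀ y, b.Nb m x y s' → b.Nb n x y s' ∧ b.Nb n' x y s'
  Nb_int : ∀ n x y s, b.Nb n x y s → ∃ m, b.Nb m y y s ∧
    ∀ s' ≤ s, ∀ z, b.Nb m y z s' → b.Nb n x z s'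
  Nb_dec : ∀ n x y s s', b.Nb n x x s → b.mem y s → s' ≤ s → b.Nb n x y s' → b.Nb n x y s
  t1 : ∀ x y s, x ≠ y → b.mem x s → ∃ n, b.Nb n x x s ∧ ∀ s' ≤ s, ¬ b.Nb n x y s'
  cr : ∀ n x s, b.Nb n x x s → ∃ e, b.CF e s ∧ e x 0 s ∧
    ∀ s' ≤ s, ∀ y, b.mem y s' → ¬ b.Nb n x y s' → e y 1 s'

/-- Every family of continuous functions has a countable dense family in its closure. -/
def Base.HStar : Prop :=
  ∀ (p : P) (In : Nm P Pt → P → Prop), (∀ e s s', In e s → s' ≤ s → In e s') →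
    (∀ e s, s ≤ p → In e s → b.CF e s) → ∃ p' ≤ p, ∃ 𝓛 : Set (Nm P Pt), 𝓛.Countable ∧
      (∀ L ∈ 𝓛, b.CF L p' ∧ ∀ s ≤ p', ∀ Z : Finset Pt, (∀ x ∈ Z, b.mem x s) → ∀ η : ℝ, 0 < η →
        ∃ s' ≤ s, ∃ e, In e s' ∧ Near L e Z η s') ∧
      ∀ s ≤ p', ∀ e, In e s → ∀ Z : Finset Pt, (∀ x ∈ Z, b.mem x s) → ∀ η : ℝ, 0 < η →
        ∃ s' ≤ s, ∃ L ∈ 𝓛, Near L e Z η s'

/-- The two sets of functionals have disjoint closures. -/
def Base.SepP (Dd Aa : (Pt →₀ ℝ) → P → Prop) : Prop :=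
  ∀ s μ, b.Sup μ s → ∃ s' ≤ s, ∃ es, ∃ η : ℝ, 0 < η ∧ (∀ e ∈ es, b.CF e s') ∧
    ((∀ s'' ≤ s', ∀ ν, Dd ν s'' → ¬ Close es η μ ν s'') ∨
      ∀ s'' ≤ s', ∀ ν, Aa ν s'' → ¬ Close es η μ ν s'')

/-- The two sets of functionals cannot be separated by open sets. -/
def Base.NStar (Dd Aa : (Pt →₀ ℝ) → P → Prop) : Prop :=
  ∀ (p : P) (U V : (Pt →₀ ℝ) → P → Prop), b.OpenL U p → b.OpenL V p →
    (∀ s ≤ p, ∀ ν, Dd ν s → ∃ s' ≤ s, U ν s') → (∀ s ≤ p, ∀ ν, Aa ν s → ∃ s' ≤ s, V ν s') →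
    ∃ s ≤ p, ∃ ν, b.Sup ν s ∧ U ν s ∧ V ν s

/-- The whole interface. -/
structure Base.Sp (Dd Aa : (Pt →₀ ℝ) → P → Prop) : Prop where
  sigma : ∀ s : ℕ → P, (∀ n, s (n + 1) ≤ s n) → ∃ q, ∀ n, q ≤ s n
  top : b.Top
  hstar : b.HStar
  Dd_sup : ∀ ν s, Dd ν s → b.Sup ν s
  Aa_sup : ∀ ν s, Aa ν s → b.Sup ν s
  Dd_mono : ∀ ν s s', Dd ν s → s' ≤ s → Dd ν s'
  Aa_mono : ∀ ν s s', Aa ν s → s' ≤ s → Aa ν s'
  sep : b.SepP Dd Aa
  nstar : b.NStar Dd Aa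

end Pool.Agent.Work.MP_f50f0f_gt
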