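import Pool.Agent.Work.MP_f50f0f_gt.CIface
import Mathlib.LinearAlgebra.FiniteDimensional.Lemmas
import Mathlib.LinearAlgebra.Dual.Lemmas
import Mathlib.Algebra.Order.Archimedean.Real.Basic

/-! Linear algebra for names of functions. -/

set_option linter.unusedSectionVars false

namespace Pool.Agent.Work.MP_f50f0f_gt

variable {P Pt Nc : Type} [Preorder P] {b : Base P Pt Nc}

theorem EV.mono {e : Nm P Pt} {p : P} (he : b.CF e p) {μ : Pt →₀ ℝ} {t : ℝ} {s s' : P}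
    (h : EV e μ t s) (hs : s' ≤ s) : EV e μ t s' := by
  obtain ⟨val, h1, h2⟩ := h
  exact ⟨val, fun x hx => he.mono _ _ _ _ (h1 x hx) hs, h2⟩

theorem EV.unique {e : Nm P Pt} {s : P} (he : b.CF e s) {μ : Pt →₀ ℝ} {t t' : ℝ}
    (h : EV e μ t s) (h' : EV e μ t' s) : t = t' := by
  obtain ⟨val, h1, rfl⟩ := h
  obtain ⟨val', h1', rfl⟩ := h'
  refine Finsupp.sum_congr fun x hx => ?_
  rw [he.fn s le_rfl x _ _ (h1 x hx) (h1' x hx)]

theorem EV.add {e : Nm P Pt} {s : P} (he : b.CF e s) {μ ν : Pt →₀ ℝ} {t t' : ℝ}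
    (h : EV e μ t s) (h' : EV e ν t' s) : EV e (μ + ν) (t + t') s := by
  classical
  obtain ⟨val, h1, rfl⟩ := h
  obtain ⟨val', h1', rfl⟩ := h'
  refine ⟨fun x => if x ∈ μ.support then val x else val' x, fun x hx => ?_, ?_⟩
  · by_cases hm : x ∈ μ.support
    · simpa only [if_pos hm] using h1 x hm
    · have hn : x ∈ ν.support := by
        rcases Finset.mem_union.1 (Finsupp.support_add hx) with h | h
        · exact absurd h hm
        · exact h
      simpa only [if_neg hm] using h1' x hn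
  · rw [Finsupp.sum_add_index' (fun _ => zero_mul _) (fun _ _ _ => add_mul _ _ _)]
    congr 1
    · refine Finsupp.sum_congr fun x hx => ?_
      simp only [if_pos hx]
    · refine Finsupp.sum_congr fun x hx => ?_
      by_cases hm : x ∈ μ.support
      · simp only [if_pos hm, he.fn s le_rfl x _ _ (h1 x hm) (h1' x hx)]
      · simp only [if_neg hm]

theorem EV.smul {e : Nm P Pt} {s : P} {μ : Pt →₀ ℝ} {t : ℝ} (h : EV e μ t s) (c : ℝ) :
    EV e (c • μ) (c * t) s := by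
  obtain ⟨val, h1, rfl⟩ := h
  refine ⟨val, fun x hx => h1 x (Finsupp.support_smul hx), ?_⟩
  rw [Finsupp.sum_smul_index (fun _ => zero_mul _), Finsupp.mul_sum]
  refine Finsupp.sum_congr fun x _ => ?_
  ring

theorem EV.single {e : Nm P Pt} {s : P} {x : Pt} {t : ℝ} (h : e x t s) :
    EV e (Finsupp.single x 1) t s := by
  refine ⟨fun _ => t, fun y hy => ?_, ?_⟩
  · have : y = x := Finset.mem_singleton.1 (Finsupp.support_single_subset hy)
    rw [this]
    exact h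
  · rw [Finsupp.sum_single_index (zero_mul _), one_mul]

theorem Base.Sup.add {μ ν : Pt →₀ ℝ} {s : P} (h : b.Sup μ s) (h' : b.Sup ν s) :
    b.Sup (μ + ν) s := by
  classical
  intro x hx
  rcases Finset.mem_union.1 (Finsupp.support_add hx) with h1 | h1
  · exact h x h1
  · exact h' x h1

theorem Base.Sup.smul {μ : Pt →₀ ℝ} {s : P} (h : b.Sup μ s) (c : ℝ) : b.Sup (c • μ) s :=
  fun x hx => h x (Finsupp.support_smul hx)

theorem CLA_sup_mono (top : b.Top) {μ : Pt →₀ ℝ} {s s' : P} (h : b.Sup μ s) (hs : s' ≤ s) :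
    b.Sup μ s' :=
  fun x hx => top.mem_mono _ _ _ (h x hx) hs

theorem CLA_ev_zero (e : Nm P Pt) (s : P) : EV e 0 0 s :=
  ⟨fun _ => 0, fun x hx => by simp at hx, by simp⟩

theorem CLA_tot_finset (top : b.Top) {e : Nm P Pt} {s : P} (he : b.CF e s) (Z : Finset Pt) :
    (∀ x ∈ Z, b.mem x s) → ∃ s' ≤ s, ∀ x ∈ Z, ∃ t, e x t s' := by
  classical
  refine Finset.induction_on Z (fun _ => ⟨s, le_rfl, fun x hx => by simp at hx⟩) ?_
  intro y Z _ ih hZ
  obtain ⟨s', hs', h⟩ := ih fun x hx => hZ x (Finset.mem_insert_of_mem hx)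
  obtain ⟨s'', hs'', t, ht⟩ := he.tot s' hs' y
    (top.mem_mono _ _ _ (hZ y (Finset.mem_insert_self _ _)) hs')
  refine ⟨s'', hs''.trans hs', fun x hx => ?_⟩
  rcases Finset.mem_insert.1 hx with rfl | hx
  · exact ⟨t, ht⟩
  · obtain ⟨t', ht'⟩ := h x hx
    exact ⟨t', he.mono _ _ _ _ ht' hs''⟩

theorem CLA_tot_one (top : b.Top) {e : Nm P Pt} {s : P} (he : b.CF e s) {μ : Pt →₀ ℝ}
    (hμ : b.Sup μ s) : ∃ s' ≤ s, ∃ t, EV e μ t s' := by
  classical
  obtain ⟨s', hs', h⟩ := CLA_tot_finset top he μ.support hμ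
  choose! val hval using h
  exact ⟨s', hs', _, val, hval, rfl⟩

/-- Finitely many functions can be decided on a finite support. -/
theorem ev_tot (top : b.Top) {es : List (Nm P Pt)} {s : P} (he : ∀ e ∈ es, b.CF e s)
    {μ : Pt →₀ ℝ} (hμ : b.Sup μ s) : ∃ s' ≤ s, ∀ e ∈ es, ∃ t, EV e μ t s' := by
  induction es with
  | nil => exact ⟨s, le_rfl, fun e he => by simp at he⟩
  | cons f es ih =>
    obtain ⟨s', hs', h⟩ := ih fun e h => he e (List.mem_cons_of_mem _ h)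
    obtain ⟨s'', hs'', t, ht⟩ := CLA_tot_one top ((he f List.mem_cons_self).le hs')
      (CLA_sup_mono top hμ hs')
    refine ⟨s'', hs''.trans hs', fun e hmem => ?_⟩
    rcases List.mem_cons.1 hmem with rfl | hmem'
    · exact ⟨t, ht⟩
    · obtain ⟨t', ht'⟩ := h e hmem'
      exact ⟨t', ht'.mono (he e hmem) hs''⟩

variable (b) in
/-- Every functional `θ` can be replaced by one with the same values on `T` and with values on
`es` that are controlled by the values of `θ` on `T₀`. -/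
def DecF (es T T₀ : List (Nm P Pt)) (C : ℝ) (s : P) : Prop :=
  ∀ s' ≤ s, ∀ θ, b.Sup θ s' → ∀ B : ℝ, 0 ≤ B → (∀ e ∈ T₀, ∃ t, EV e θ t s' ∧ |t| ≤ B) →
    ∃ s'' ≤ s', ∃ θ', b.Sup θ' s'' ∧ (∀ e ∈ T, ∃ t, EV e θ t s'' ∧ EV e θ' t s'') ∧
      ∀ e ∈ es, ∃ t, EV e θ' t s'' ∧ |t| ≤ C * B

/-- A subspace of `ℝ^ι × ℝ` that meets the last axis trivially is the graph of a bounded
functional. -/
theorem CLA_bound {ι : Type} [Fintype ι] (V : Submodule ℝ ((ι → ℝ) × ℝ))
    (hV : ∀ a : ℝ, ((0 : ι → ℝ), a) ∈ V → a = 0) : ∃ C : ℕ, ∀ (v : ι → ℝ) (a B : ℝ), 0 ≤ B →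
      (v, a) ∈ V → (∀ i, |v i| ≤ B) → |a| ≤ C * B := by
  classical
  let F : V →ₗ[ℝ] (ι → ℝ) := (LinearMap.fst ℝ _ _).comp V.subtype
  have hF : LinearMap.ker F = ⊥ := by
    refine LinearMap.ker_eq_bot'.2 fun w hw => ?_
    obtain ⟨⟨v, a⟩, hw'⟩ := w
    have hv : v = 0 := hw
    subst hv
    have := hV a hw'
    subst this
    rfl
  obtain ⟨g, hg⟩ := F.exists_leftInverse_of_injective hF
  let φ : (ι → ℝ) →ₗ[ℝ] ℝ := ((LinearMap.snd ℝ _ _).comp V.subtype).comp g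
  obtain ⟨C, hC⟩ := exists_nat_ge (∑ i, |φ (Pi.single i 1)|)
  refine ⟨C, fun v a B hB hva hv => ?_⟩
  have h1 : φ v = a := by
    have : g (F ⟨(v, a), hva⟩) = ⟨(v, a), hva⟩ := LinearMap.congr_fun hg _
    have h2 : F ⟨(v, a), hva⟩ = v := rfl
    rw [h2] at this
    simp [φ, this]
  have h2 : φ v = ∑ i, v i * φ (Pi.single i 1) := by
    conv_lhs => rw [pi_eq_sum_univ' v, map_sum]
    refine Finset.sum_congr rfl fun i _ => ?_
    rw [map_smul, smul_eq_mul]
  calc |a| = |∑ i, v i * φ (Pi.single i 1)| := by rw [← h1, h2]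
    _ ≤ ∑ i, |v i * φ (Pi.single i 1)| := Finset.abs_sum_le_sum_abs _ _
    _ ≤ ∑ i, |φ (Pi.single i 1)| * B := by
        refine Finset.sum_le_sum fun i _ => ?_
        rw [abs_mul, mul_comm]
        exact mul_le_mul_of_nonneg_left (hv i) (abs_nonneg _)
    _ = (∑ i, |φ (Pi.single i 1)|) * B := by rw [Finset.sum_mul]
    _ ≤ _ := mul_le_mul_of_nonneg_right hC hB

/-- The decided value vectors of the functions `T i` and `e`. -/
def CLA_span {ι : Type} (T : ι → Nm P Pt) (e : Nm P Pt) (s : P) (hT : ∀ i, b.CF (T i) s)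
    (he : b.CF e s) : Submodule ℝ ((ι → ℝ) × ℝ) where
  carrier := {w | ∃ θ, b.Sup θ s ∧ (∀ i, EV (T i) θ (w.1 i) s) ∧ EV e θ w.2 s}
  add_mem' := by
    rintro w w' ⟨θ, h1, h2, h3⟩ ⟨θ', h1', h2', h3'⟩
    exact ⟨θ + θ', h1.add h1', fun i => (h2 i).add (hT i) (h2' i), h3.add he h3'⟩
  zero_mem' := ⟨0, fun x hx => by simp at hx, fun i => CLA_ev_zero _ _, CLA_ev_zero _ _⟩
  smul_mem' := by
    rintro c w ⟨θ, h1, h2, h3⟩
    exact ⟨c • θ, h1.smul c, fun i => (h2 i).smul c, h3.smul c⟩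

/-- If the common kernel of `T` is forced to lie in the kernel of `e`, then `e` is forced to be
bounded by `T` below a stronger condition. -/
theorem CLA_caseA (top : b.Top) {ι : Type} [Fintype ι] (T : ι → Nm P Pt) (e : Nm P Pt) (s : P)
    (hT : ∀ i, b.CF (T i) s) (he : b.CF e s)
    (hker : ∀ s' ≤ s, ∀ θ, b.Sup θ s' → (∀ i, EV (T i) θ 0 s') → ¬ EV e θ 1 s') :
    ∃ s₁ ≤ s, ∃ C : ℕ, ∀ s' ≤ s₁, ∀ θ, b.Sup θ s' → ∀ B : ℝ, 0 ≤ B →
      (∀ i, ∃ t, EV (T i) θ t s' ∧ |t| ≤ B) → ∀ t, EV e θ t s' → |t| ≤ C * B := by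
  classical
  let V : {s' // s' ≤ s} → Submodule ℝ ((ι → ℝ) × ℝ) := fun s' =>
    CLA_span T e s'.1 (fun i => (hT i).le s'.2) (he.le s'.2)
  have hmono : ∀ s₁ s₂ : {s' // s' ≤ s}, s₂.1 ≤ s₁.1 → V s₁ ≤ V s₂ := by
    rintro s₁ s₂ h w ⟨θ, h1, h2, h3⟩
    exact ⟨θ, CLA_sup_mono top h1 h, fun i => (h2 i).mono (hT i) h, h3.mono he h⟩
  have hbdd : BddAbove (Set.range fun s' => Module.finrank ℝ (V s')) := by
    refine ⟨Module.finrank ℝ ((ι → ℝ) × ℝ), ?_⟩
    rintro _ ⟨s', rfl⟩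
    exact Submodule.finrank_le _
  have hne : (Set.range fun s' => Module.finrank ℝ (V s')).Nonempty := ⟨_, ⟨s, le_rfl⟩, rfl⟩
  obtain ⟨s₁, hs₁⟩ := Nat.sSup_mem hne hbdd
  have hmax : ∀ s', Module.finrank ℝ (V s') ≤ Module.finrank ℝ (V s₁) := fun s' => by
    have := le_csSup hbdd (⟨s', rfl⟩ : _ ∈ Set.range fun s' => Module.finrank ℝ (V s'))
    rw [← hs₁] at this
    exact this
  obtain ⟨C, hC⟩ := CLA_bound (V s₁) (by
    rintro a ⟨θ, h1, h2, h3⟩
    by_contra ha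
    refine hker s₁.1 s₁.2 (a⁻¹ • θ) (h1.smul _) (fun i => ?_) ?_
    · simpa using (h2 i).smul a⁻¹
    · simpa [inv_mul_cancel₀ ha] using h3.smul a⁻¹)
  refine ⟨s₁.1, s₁.2, C, fun s' hs' θ hθ B hB hTB t ht => ?_⟩
  choose v hv hvB using hTB
  have heq : V s₁ = V ⟨s', hs'.trans s₁.2⟩ :=
    Submodule.eq_of_le_of_finrank_le (hmono _ _ hs') (hmax _)
  refine hC v t B hB ?_ hvB
  rw [heq]
  exact ⟨θ, hθ, hv, ht⟩

theorem la_lemma (top : b.Top) (es : List (Nm P Pt)) : ∀ (E : Set (Nm P Pt)) (s : P),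
    (∀ e ∈ es, b.CF e s) → (∀ e ∈ E, b.CF e s) → ∃ s' ≤ s, ∃ (T₀ : List (Nm P Pt)) (C : ℕ),
      (∀ e ∈ T₀, e ∈ E) ∧ ∀ T : List (Nm P Pt), (∀ e ∈ T, e ∈ E) → DecF b es T T₀ C s' := by
  classical
  induction es with
  | nil =>
    intro E s _ hE
    refine ⟨s, le_rfl, [], 0, fun e h => by simp at h, fun T hT s' hs' θ hθ B _ _ => ?_⟩
    obtain ⟨s'', hs'', h⟩ := ev_tot top (es := T) (fun e h => (hE e (hT e h)).le hs') hθ
    refine ⟨s'', hs'', θ, CLA_sup_mono top hθ hs'', fun e he => ?_, fun e he => by simp at he⟩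
    obtain ⟨t, ht⟩ := h e he
    exact ⟨t, ht, ht⟩
  | cons e es ih =>
    intro E s hes hE
    have he : b.CF e s := hes e List.mem_cons_self
    have hes' : ∀ f ∈ es, b.CF f s := fun f h => hes f (List.mem_cons_of_mem _ h)
    by_cases hB : ∀ s₁ ≤ s, ∀ T : List (Nm P Pt), (∀ f ∈ T, f ∈ E) → ∃ s' ≤ s₁, ∃ θ₀,
        b.Sup θ₀ s' ∧ (∀ f ∈ T, EV f θ₀ 0 s') ∧ EV e θ₀ 1 s'
    · have hE' : ∀ f ∈ insert e E, b.CF f s := by
        rintro f (rfl | hf)
        · exact he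
        · exact hE f hf
      obtain ⟨s₂, hs₂, T₀, C, hT₀, hdec⟩ := ih (insert e E) s hes' hE'
      refine ⟨s₂, hs₂, T₀.filter (fun f => f ∈ E), C, fun f hf => by
        simpa using (List.mem_filter.1 hf).2, fun T hT s' hs' θ hθ B hB0 hθB => ?_⟩
      have hs's : s' ≤ s := hs'.trans hs₂
      obtain ⟨s₃, hs₃, θ₀, hθ₀, hθ₀T, hθ₀e⟩ := hB s' hs's (T ++ T₀.filter (fun f => f ∈ E)) (by
        intro f hf
        rcases List.mem_append.1 hf with hf | hf
        · exact hT f hf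
        · simpa using (List.mem_filter.1 hf).2)
      have hs₃s : s₃ ≤ s := hs₃.trans hs's
      obtain ⟨s₄, hs₄, hdecT⟩ := ev_tot top (es := e :: T) (s := s₃) (μ := θ) (by
        intro f hf
        rcases List.mem_cons.1 hf with rfl | hf
        · exact he.le hs₃s
        · exact (hE f (hT f hf)).le hs₃s) (CLA_sup_mono top hθ hs₃)
      have hs₄s : s₄ ≤ s := hs₄.trans hs₃s
      obtain ⟨a, ha⟩ := hdecT e List.mem_cons_self
      have hsame : ∀ f ∈ T ++ T₀.filter (fun f => f ∈ E), f ∈ E → ∀ t, EV f θ t s₄ →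
          EV f (θ + (-a) • θ₀) t s₄ := by
        intro f hf hfE t ht
        have := ht.add ((hE f hfE).le hs₄s) (((hθ₀T f hf).mono (hE f hfE) hs₄).smul (-a))
        simpa using this
      have he0 : EV e (θ + (-a) • θ₀) 0 s₄ := by
        have := ha.add (he.le hs₄s) ((hθ₀e.mono he hs₄).smul (-a))
        simpa using this
      obtain ⟨s₅, hs₅, θ', hθ', hT', hes''⟩ := hdec (e :: T) (by
          intro f hf
          rcases List.mem_cons.1 hf with rfl | hf
          · exact Set.mem_insert _ _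
          · exact Set.mem_insert_of_mem _ (hT f hf))
        s₄ ((hs₄.trans hs₃).trans hs') (θ + (-a) • θ₀)
        ((CLA_sup_mono top hθ (hs₄.trans hs₃)).add ((CLA_sup_mono top hθ₀ hs₄).smul _)) B hB0 (by
          intro f hf
          by_cases hfE : f ∈ E
          · have hf' : f ∈ T₀.filter (fun f => f ∈ E) := List.mem_filter.2 ⟨hf, by simpa⟩
            obtain ⟨t, ht, htB⟩ := hθB f hf'
            exact ⟨t, hsame f (List.mem_append_right _ hf') hfE t
              (ht.mono (hE f hfE) (hs₄.trans hs₃)), htB⟩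
          · rcases hT₀ f hf with rfl | h
            · exact ⟨0, he0, by simpa using hB0⟩
            · exact absurd h hfE)
      have hs₅s : s₅ ≤ s := hs₅.trans hs₄s
      refine ⟨s₅, hs₅.trans (hs₄.trans hs₃), θ', hθ', fun f hf => ?_, fun f hf => ?_⟩
      · obtain ⟨t, ht⟩ := hdecT f (List.mem_cons_of_mem _ hf)
        obtain ⟨t', ht1, ht2⟩ := hT' f (List.mem_cons_of_mem _ hf)
        have hf' := hE f (hT f hf)
        have : t = t' := EV.unique (hf'.le hs₅s)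
          ((hsame f (List.mem_append_left _ hf) (hT f hf) t ht).mono hf' hs₅) ht1
        subst this
        exact ⟨t, ht.mono hf' hs₅, ht2⟩
      · rcases List.mem_cons.1 hf with rfl | hf
        · obtain ⟨t', ht1, ht2⟩ := hT' f List.mem_cons_self
          have : 0 = t' := EV.unique (he.le hs₅s) (he0.mono he hs₅) ht1
          subst this
          exact ⟨0, ht2, by simpa using mul_nonneg (Nat.cast_nonneg C) hB0⟩
        · exact hes'' f hf
    · push Not at hB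
      obtain ⟨s₁, hs₁, T₁, hT₁, hker⟩ := hB
      obtain ⟨s₂, hs₂, C₁, hC₁⟩ := CLA_caseA top (fun i : Fin T₁.length => T₁.get i) e s₁
        (fun i => (hE _ (hT₁ _ (List.get_mem _ _))).le hs₁) (he.le hs₁) (by
          intro s' hs' θ hθ h
          refine hker s' hs' θ hθ fun f hf => ?_
          obtain ⟨i, rfl⟩ := List.mem_iff_get.1 hf
          exact h i)
      have hs₂s : s₂ ≤ s := hs₂.trans hs₁
      obtain ⟨s₃, hs₃, T₀, C, hT₀, hdec⟩ := ih E s₂ (fun f h => (hes' f h).le hs₂s)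
        (fun f h => (hE f h).le hs₂s)
      refine ⟨s₃, hs₃.trans hs₂s, T₀ ++ T₁, C + C₁, fun f hf => ?_,
        fun T hT s' hs' θ hθ B hB0 hθB => ?_⟩
      · rcases List.mem_append.1 hf with hf | hf
        · exact hT₀ f hf
        · exact hT₁ f hf
      obtain ⟨s₄, hs₄, θ', hθ', hT', hes''⟩ := hdec (T ++ T₁) (by
          intro f hf
          rcases List.mem_append.1 hf with hf | hf
          · exact hT f hf
          · exact hT₁ f hf) s' hs' θ hθ B hB0 (fun f hf => hθB f (List.mem_append_left _ hf))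
      have hs₄₂ : s₄ ≤ s₂ := (hs₄.trans hs').trans hs₃
      have hs₄s : s₄ ≤ s := hs₄₂.trans hs₂s
      obtain ⟨s₅, hs₅, t, ht⟩ := CLA_tot_one top (he.le hs₄s) hθ'
      have hCB : (0 : ℝ) ≤ C * B := mul_nonneg (Nat.cast_nonneg C) hB0
      have hCB₁ : (0 : ℝ) ≤ C₁ * B := mul_nonneg (Nat.cast_nonneg C₁) hB0
      refine ⟨s₅, hs₅.trans hs₄, θ', CLA_sup_mono top hθ' hs₅, fun f hf => ?_, fun f hf => ?_⟩
      · obtain ⟨t', ht1, ht2⟩ := hT' f (List.mem_append_left _ hf)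
        exact ⟨t', ht1.mono (hE f (hT f hf)) hs₅, ht2.mono (hE f (hT f hf)) hs₅⟩
      · rcases List.mem_cons.1 hf with rfl | hf
        · refine ⟨t, ht, ?_⟩
          have := hC₁ s₅ (hs₅.trans hs₄₂) θ' (CLA_sup_mono top hθ' hs₅) B hB0 (by
            intro i
            have hi : T₁.get i ∈ T₁ := List.get_mem _ _
            have hf' := hE _ (hT₁ _ hi)
            obtain ⟨u, hu, huB⟩ := hθB _ (List.mem_append_right _ hi)
            obtain ⟨u', hu1, hu2⟩ := hT' _ (List.mem_append_right _ hi)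
            have : u = u' := EV.unique (hf'.le hs₄s) (hu.mono hf' hs₄) hu1
            subst this
            exact ⟨u, hu2.mono hf' hs₅, huB⟩) t ht
          push_cast
          linarith
        · obtain ⟨t', ht1, ht2⟩ := hes'' f hf
          refine ⟨t', ht1.mono (hes' f hf) hs₅, ?_⟩
          push_cast
          linarith

end Pool.Agent.Work.MP_f50f0f_gt
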