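import Pool.Agent.Work.MP_f50f0f_gt.CTop
import Pool.Agent.Work.MP_f50f0f_gt.CLA

/-! The two closed sets of functionals cannot be separated. -/

namespace Pool.Agent.Work.MP_f50f0f_gt
open Function Set

/-- On a new fibre the signed averages of an old function tend to zero. -/
theorem theta_small {s₀ s : St} (hs : s ≤ s₀) {e : NN} (he : bs.CF e s₀) {k : Pt → ℝ}
    (hk : ∀ y ∈ s₀.Y, e y (k y) s₀) {x : LM} (hx : x.1 ∉ s₀.lab) (hO : ∀ O ∈ s₀.DO, x ∈ O)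
    (hP : x.1 ∈ s.P) (hsl : Slice s₀.I s.F x.1 x.2)
    (hacc : ∀ j a, nrm j a → ∀ s' ≤ s, s'.Acc (pt j a x.1) s₀.Y) {η : ℝ} (hη : 0 < η) :
    ∃ m₀, ∀ m ≥ m₀, ∀ s' ≤ s, ∀ t, EV e (theta m x.1) t s' → |t| ≤ η := by
  have hη' : 0 < η / 7 := by linarith
  obtain ⟨K, J, φ, hJ, hJI, hφ, hw⟩ := w2 he Subset.rfl hk hx hO hη'
  obtain ⟨K₁, hK₁⟩ := unif_G2 (φ := fun a => φ (a, 0))
    (hφ.comp (continuous_id.prodMk continuous_const)) hη'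
  refine ⟨max K K₁ + 1, fun m hm s' hs' t ht => ?_⟩
  obtain ⟨j, rfl⟩ : ∃ j, m = j + 1 := ⟨m - 1, by omega⟩
  have hmem : ∀ a, nrm (j + 1) a → pt (j + 1) a x.1 ∈ s.Y := fun a ha => pt_mem.2 ⟨ha, hP⟩
  obtain ⟨s'', hs'', k', hk'⟩ := decide_one (he.le (hs'.trans hs))
    (A := {y | ∃ a, nrm (j + 1) a ∧ y = pt (j + 1) a x.1})
    (by rintro _ ⟨a, ha, rfl⟩; exact St.Le.Y hs' (hmem a ha))
  have h1 : s'' ≤ s := hs''.trans hs'
  have h0 : s'' ≤ s₀ := h1.trans hs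
  have hev : EV e (theta (j + 1) x.1) _ s'' := ⟨k', fun y hy => hk' y (theta_supp hy), rfl⟩
  rw [EV.unique (he.le h0) (EV.mono he ht hs'') hev, theta_sum]
  have key : ∀ a, nrm (j + 1) a → |k' (pt (j + 1) a x.1) - φ (a, 0)| ≤ 3 * (η / 7) := by
    intro a ha
    obtain ⟨K₂, J₂, hJ₂, hb⟩ := nhds_box (x := (a, (0 : Om → D)))
      (hφ.continuousAt.preimage_mem_nhds (Metric.ball_mem_nhds _ hη'))
    obtain ⟨y, hy, hN, hv⟩ := val_acc (he.le h0) (St.Le.Y h1 (hmem a ha)) (St.Le.Y h0)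
      (fun s₃ hs₃ => hacc _ a ha s₃ (hs₃.trans h1)) (hk' _ ⟨a, ha, rfl⟩)
      (fun y hy => he.mono _ _ _ _ (hk y hy) h0) hη' K (J := J ∪ J₂ ∩ s₀.I)
      (hJ.union (hJ₂.inter_of_left _))
      ((union_subset hJI inter_subset_right).trans (St.Le.I h0))
    obtain ⟨hg, -, hyeq, hF⟩ := nbr_pt.1 hN
    have hFy : ∀ i ∈ J ∪ J₂ ∩ s₀.I, s₀.F i y = (x.2 i, 0) := by
      intro i hi
      have hiI : i ∈ s₀.I := union_subset hJI inter_subset_right hi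
      rw [← St.Le.F h0 i hiI y hy, hyeq, ← hF i hi (j + 1) le_rfl a ha,
        St.Le.F h1 i (St.Le.I hs hiI) _ (hmem a ha)]
      exact (hsl i hiI).2 (j + 1) (by omega) a ha
    have hya : y.a = a := by rw [hyeq]; rfl
    have hyh : y.h = ((j + 1 : ℕ) : ℕ∞) := by rw [hyeq]; rfl
    have h2 := hw y hy (by rw [hyh]; exact_mod_cast (by omega)) hg
      fun ξ hξ => by rw [hFy ξ (Or.inl hξ)]
    rw [hya] at h2
    have h3 := hb (a, fI s₀ y) (ag.refl _ _) (by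
      intro i hi
      have h4 : fI s₀ y i = 0 := by
        unfold fI
        split_ifs with h
        · rw [hFy i (Or.inr ⟨hi, h⟩)]
        · rfl
      simp only [h4, Pi.zero_apply, dist_self]
      positivity)
    rw [mem_preimage, Metric.mem_ball, Real.dist_eq] at h3
    rw [abs_le] at h2 ⊢
    rw [abs_lt] at h3 hv
    constructor <;> linarith [h2.1, h2.2, h3.1, h3.2, hv.1, hv.2]
  refine av_sg_small (F := fun a => k' (pt (j + 1) a x.1)) fun a a' ha ha' hag => ?_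
  have h2 := key a ha
  have h3 := key a' ha'
  have h4 := hK₁ a a' (hag.mono (by omega))
  rw [abs_le] at h2 h3 h4 ⊢
  constructor <;> linarith [h2.1, h2.2, h3.1, h3.2, h4.1, h4.2]

/-- Conditions together with countably many names of functions. -/
structure NsQ (p : St) where
  s : St
  E : Set NN
  le : s ≤ p
  cE : E.Countable
  cf : ∀ e ∈ E, bs.CF e s

instance (p : St) : Preorder (NsQ p) where
  le q' q := q'.s ≤ q.s ∧ q.E ⊆ q'.E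
  le_refl _ := ⟨le_rfl, Subset.rfl⟩
  le_trans _ _ _ h h' := ⟨h.1.trans h'.1, h'.2.trans h.2⟩

/-- Parameters of the reflected properties. -/
abbrev NsT : Type := List NN × List NN × ℕ × ℕ

/-- The parameters over `E`. -/
def nsPar (E : Set NN) : Set NsT := {t | (∀ e ∈ t.1, e ∈ E) ∧ ∀ e ∈ t.2.1, e ∈ E}

theorem ns_countable_list {α : Type*} {E : Set α} (hE : E.Countable) :
    {l : List α | ∀ e ∈ l, e ∈ E}.Countable := by
  have := hE.to_subtype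
  refine (countable_range (List.map (Subtype.val : E → α))).mono fun l hl => ?_
  exact ⟨l.attachWith _ hl, by simp⟩

theorem nsPar_countable {E : Set NN} (hE : E.Countable) : (nsPar E).Countable := by
  refine ((ns_countable_list hE).prod
    ((ns_countable_list hE).prod (countable_univ (α := ℕ × ℕ)))).mono fun t ht => ?_
  exact ⟨ht.1, ht.2, trivial⟩

/-- The reflected property. -/
def nsPhi {p : St} (U : (Pt →₀ ℝ) → St → Prop) (t : NsT) (y : Pt) (q : NsQ p) : Prop :=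
  ∃ es : List NN, (∀ e ∈ es, e ∈ q.E) ∧
    bs.InU U (Finsupp.single y 1) es (1 / ((t.2.2.2 : ℝ) + 1)) q.s ∧
    DecF bs es t.2.1 t.1 t.2.2.1 q.s

theorem ns_inU_mono {U : (Pt →₀ ℝ) → St → Prop} {μ : Pt →₀ ℝ} {es : List NN} {η η' : ℝ}
    {s s' : St} (h : bs.InU U μ es η s) (hs : s' ≤ s) (h0 : 0 < η') (hη : η' ≤ η) :
    bs.InU U μ es η' s' :=
  ⟨h0, fun e he => (h.2.1 e he).le hs, fun s'' hs'' ν hν hc => h.2.2 s'' (hs''.trans hs) ν hν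
    fun e he => by
      obtain ⟨t, t', h1, h2, h3⟩ := hc e he
      exact ⟨t, t', h1, h2, h3.trans_le hη⟩⟩

theorem ns_decF_mono {es T T₀ : List NN} {C : ℝ} {s s' : St} (h : DecF bs es T T₀ C s)
    (hs : s' ≤ s) : DecF bs es T T₀ C s' := fun s'' hs'' => h s'' (hs''.trans hs)

theorem ns_list_mem {α : Type*} {E : ℕ → Set α} (hE : Monotone E) (l : List α)
    (h : ∀ e ∈ l, ∃ n, e ∈ E n) : ∃ n, ∀ e ∈ l, e ∈ E n := by
  induction l with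
  | nil => exact ⟨0, by simp⟩
  | cons a l ih =>
    obtain ⟨n, hn⟩ := ih fun e he => h e (List.mem_cons_of_mem _ he)
    obtain ⟨m, hm⟩ := h a List.mem_cons_self
    refine ⟨max n m, fun e he => ?_⟩
    rcases List.mem_cons.1 he with rfl | he
    · exact hE (le_max_right _ _) hm
    · exact hE (le_max_left _ _) (hn e he)

theorem ns_sup_single {y : Pt} {s : St} (hy : y ∈ s.Y) : bs.Sup (Finsupp.single y 1) s := by
  intro z hz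
  obtain rfl : z = y := by simpa using Finsupp.support_single_subset hz
  exact hy

theorem ns_sup_mono {μ : Pt →₀ ℝ} {s s' : St} (h : bs.Sup μ s) (hs : s' ≤ s) : bs.Sup μ s' :=
  fun z hz => St.Le.Y hs (h z hz)

/-- The reflecting condition. -/
theorem ns_reflect (p : St) (U : (Pt →₀ ℝ) → St → Prop) : ∃ q : NsQ p,
    (∀ e ∈ q.E, ∀ y ∈ q.s.Y, ∃ t, e y t q.s) ∧
    (∀ s₁ ≤ q.s, s₁.I = q.s.I → ∀ x ∈ s₁.Y, x ∉ q.s.Y → s₁.Acc x q.s.Y) ∧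
    ∀ s₁ ≤ q.s, s₁.I = q.s.I → ∀ x ∈ s₁.Y, x ∉ q.s.Y → ∀ t ∈ nsPar q.E, ∀ q' ≤ q, q'.s ≤ s₁ →
      nsPhi U t x q' → s₁.Acc x {y | y ∈ q.s.Y ∧ nsPhi U t y q} := by
  obtain ⟨s, q, -, hs, hq, htight, hE, hrefl⟩ := reflect (Q := NsQ p) NsQ.s
    (fun _ _ h => And.left h)
    (fun q s => ∀ e ∈ q.E, ∃ n, e ∈ (s n).E)
    (by
      intro s hs
      obtain ⟨q, hq, ht⟩ := St.lim (fun n => (s n).s) fun n => (hs n).1
      refine ⟨⟨q, ⋃ n, (s n).E, (hq 0).trans (s 0).le, countable_iUnion fun n => (s n).cE, ?_⟩,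
        fun n => ⟨hq n, subset_iUnion (fun n => (s n).E) n⟩, ht, fun e he => mem_iUnion.1 he⟩
      intro e he
      obtain ⟨n, hn⟩ := mem_iUnion.1 he
      exact ((s n).cf e hn).le (hq n))
    (fun q => insert (fun _ _ => True)
      ((fun a : NN × Pt => fun _ q' => ∃ t, a.1 a.2 t q'.s) '' (q.E ×ˢ q.s.Y) ∪
        (fun t => fun l q' => nsPhi U t (l 0) q') '' nsPar q.E))
    (fun q => (((q.cE.prod q.s.cY).image _).union ((nsPar_countable q.cE).image _)).insert _)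
    (fun q q' (h : q'.s ≤ q.s ∧ q.E ⊆ q'.E) => insert_subset_insert (union_subset_union
      (image_mono (prod_mono h.2 (St.Le.Y h.1)))
      (image_mono fun t ht => ⟨fun e he => h.2 (ht.1 e he), fun e he => h.2 (ht.2 e he)⟩)))
    (by
      rintro q Φ (rfl | ⟨a, ha, rfl⟩ | ⟨t, -, rfl⟩) l q₁ q₂ h h'
      · trivial
      · obtain ⟨t, ht⟩ := h
        exact ⟨t, (q.cf _ ha.1).mono _ _ _ _ ht h'.1⟩
      · obtain ⟨es, h1, h2, h3⟩ := h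
        exact ⟨es, fun e he => h'.2 (h1 e he), ns_inU_mono h2 h'.1 h2.1 le_rfl,
          ns_decF_mono h3 h'.1⟩)
    ⟨p, ∅, le_rfl, countable_empty, fun _ h => h.elim⟩
  have hanti : Antitone s := antitone_nat_of_succ_le hs
  have hconv : ∀ s₁ ≤ q.s, s₁.I = q.s.I → ∀ x ∈ s₁.Y, ∀ s₂ ≤ s₁, ∀ y ∈ q.s.Y, ∀ K J, J ⊆ s₁.I →
      Nbr K J x s₂.F y q.s.F → Nbr K J x s₁.F y s₁.F := by
    intro s₁ h₁ hI x hx s₂ h₂ y hy K J hJ hN
    exact hN.congr (reg_of_mem hy) (fun i hi z hz => St.Le.F h₂ i (hJ hi) z (dn_subset hx hz))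
      fun i hi z hz => (St.Le.F h₁ i (hI ▸ hJ hi) z (dn_subset hy hz)).symm
  refine ⟨q, fun e he y hy => ?_, fun s₁ h₁ hI x hx hxn K J hJ hJI => ?_,
    fun s₁ h₁ hI x hx hxn t ht q' hq' h₂ hΦ K J hJ hJI => ?_⟩
  · obtain ⟨n, hn⟩ := hE e he
    obtain ⟨m, hm⟩ := htight.Y (fun n => (hq n).1) hy
    obtain ⟨s', hs', t, ht⟩ := (q.cf e he).tot q.s le_rfl y hy
    obtain ⟨l', -, h⟩ := hrefl (max n m) _
      (Or.inr (Or.inl ⟨(e, y), ⟨(hanti (le_max_left n m)).2 hn,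
        St.Le.Y (hanti (le_max_right n m)).1 hm⟩, rfl⟩))
      ⟨s', q.E, hs'.trans q.le, q.cE, fun e he => (q.cf e he).le hs'⟩ ⟨hs', Subset.rfl⟩ 0
      (fun _ => y) (by simp) ⟨t, ht⟩ 0 ∅ ∅ finite_empty (empty_subset _) finite_empty
    exact h
  · obtain ⟨l', h, -⟩ := hrefl 0 _ (Or.inl rfl)
      ⟨s₁, q.E, h₁.trans q.le, q.cE, fun e he => (q.cf e he).le h₁⟩ ⟨h₁, Subset.rfl⟩ 1
      (fun _ => x) (fun _ _ => ⟨hx, hxn⟩) trivial K J ∅ hJ (hI ▸ hJI) finite_empty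
    obtain ⟨h1, -, h2⟩ := h 0 one_pos
    exact ⟨l' 0, h1, hconv s₁ h₁ hI x hx s₁ le_rfl _ h1 K J hJI h2.1⟩
  · obtain ⟨m, hm⟩ := ns_list_mem (E := fun n => (s n).E) (fun a b hab => (hanti hab).2)
      (t.1 ++ t.2.1) fun e he => hE e ((List.mem_append.1 he).elim (ht.1 e) (ht.2 e))
    obtain ⟨l', h, h'⟩ := hrefl m _ (Or.inr (Or.inr ⟨t,
      ⟨fun e he => hm e (List.mem_append_left _ he),
        fun e he => hm e (List.mem_append_right _ he)⟩, rfl⟩)) q' hq' 1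
      (fun _ => x) (fun _ _ => ⟨St.Le.Y h₂ hx, hxn⟩) hΦ K J ∅ hJ (hI ▸ hJI) finite_empty
    obtain ⟨h1, -, h2⟩ := h 0 one_pos
    exact ⟨l' 0, ⟨h1, h'⟩, hconv s₁ h₁ hI x hx q'.s h₂ _ h1 K J hJI h2.1⟩

theorem bs_nstar : bs.NStar Dd Aa := by
  intro p U V hU hV hD hA
  obtain ⟨q, hdec, hacc0, hacc1⟩ := ns_reflect p U
  obtain ⟨x, -, hx, hO⟩ := q.s.exists_gen (fun _ => 0, fun _ => 0) 0 finite_empty q.s.cLab
  obtain ⟨s₁, h₁, hP₁, -, hI₁, hsl⟩ := q.s.addP hx hO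
  have hxP : x.1 ∈ s₁.P := by rw [hP₁]; exact mem_insert _ _
  have hnew : ∀ j a, pt j a x.1 ∉ q.s.Y := fun j a h => hx (St.g_mem h)
  have hroot : root x.1 ∈ s₁.Y := pt_mem.2 ⟨nrm_a0 0, hxP⟩
  obtain ⟨s₂, h₂, hsame, hcp⟩ := s₁.cp
    (𝒟 := (fun y => (y, q.s.Y)) '' s₁.Y ∪
      (fun t => (root x.1, {y | y ∈ q.s.Y ∧ nsPhi U t y q})) '' nsPar q.E)
    ((s₁.cY.image _).union ((nsPar_countable q.cE).image _))
    (by
      rintro d (⟨y, hy, rfl⟩ | ⟨t, -, rfl⟩)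
      · exact ⟨hy, St.Le.Y h₁⟩
      · exact ⟨hroot, fun y hy => St.Le.Y h₁ hy.1⟩)
  have h20 : s₂ ≤ q.s := h₂.trans h₁
  have hxP₂ : x.1 ∈ s₂.P := St.Le.P h₂ hxP
  -- the neighbourhood of the evaluation at the root inside `U`
  obtain ⟨s₃, h₃, hU₃⟩ := hD s₂ (h20.trans q.le) _ ⟨x.1, hxP₂, rfl⟩
  obtain ⟨s₄, h₄, es₁, η₁, hin₁⟩ := hU.2 s₃ (h₃.trans (h20.trans q.le)) _
    (ns_sup_single (St.Le.Y (h₃.trans h₂) hroot)) hU₃
  have h42 : s₄ ≤ s₂ := h₄.trans h₃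
  obtain ⟨N, hN⟩ := exists_nat_one_div_lt hin₁.1
  have hη : (0 : ℝ) < 1 / ((N : ℝ) + 1) := by positivity
  obtain ⟨s₅, h₅, T₀, C, hT₀, hdec₁⟩ := la_lemma bs_top es₁ q.E s₄ hin₁.2.1
    fun e he => (q.cf e he).le (h42.trans h20)
  have h52 : s₅ ≤ s₂ := h₅.trans h42
  have hB : (0 : ℝ) < 1 / ((N : ℝ) + 1) / ((C : ℝ) + 1) := by positivity
  have hCB : (C : ℝ) * (1 / ((N : ℝ) + 1) / ((C : ℝ) + 1)) < 1 / ((N : ℝ) + 1) := by
    rw [mul_div_assoc', div_lt_iff₀ (by positivity)]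
    nlinarith
  obtain ⟨m₀, hm₀⟩ := ns_list_mem
    (E := fun m₀ => {e : NN | ∀ m ≥ m₀, ∀ s' ≤ s₂, ∀ t, EV e (theta m x.1) t s' →
      |t| ≤ 1 / ((N : ℝ) + 1) / ((C : ℝ) + 1)})
    (fun a b hab e he m hm => he m (hab.trans hm)) T₀ (by
      intro e he
      choose! k hk using hdec e (hT₀ e he)
      exact theta_small h20 (q.cf e (hT₀ e he)) hk hx hO hxP₂ (hsame.F ▸ hsl)
        (fun j a ha => hcp _ (Or.inl ⟨_, pt_mem.2 ⟨ha, hxP⟩, rfl⟩)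
          (hacc0 s₁ h₁ hI₁ _ (pt_mem.2 ⟨ha, hxP⟩) (hnew j a))) hB)
  have hθ : bs.Sup (theta (m₀ + 1) x.1) s₁ := by
    intro z hz
    obtain ⟨a, ha, rfl⟩ := theta_supp hz
    exact pt_mem.2 ⟨ha, hxP⟩
  -- the neighbourhood of the perturbed evaluation inside `V`
  have hAa : Aa (Finsupp.single (root x.1) 1 + theta (m₀ + 1) x.1) s₅ :=
    ⟨x.1, St.Le.P h52 hxP₂, m₀ + 1, by omega, rfl⟩
  have h5p : s₅ ≤ p := h52.trans (h20.trans q.le)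
  obtain ⟨s₆, h₆, hV₆⟩ := hA s₅ h5p _ hAa
  obtain ⟨s₇, h₇, es₂, η₂, hin₂⟩ := hV.2 s₆ (h₆.trans h5p) _
    (ns_sup_mono (Aa_sup _ _ hAa) h₆) hV₆
  have h75 : s₇ ≤ s₅ := h₇.trans h₆
  obtain ⟨s₈, h₈, T₁, C₂, hT₁, hdec₂⟩ := la_lemma bs_top es₂ q.E s₇ hin₂.2.1
    fun e he => (q.cf e he).le (h75.trans (h52.trans h20))
  have h85 : s₈ ≤ s₅ := h₈.trans h75
  have h81 : s₈ ≤ s₁ := h85.trans (h52.trans h₂)
  have h80 : s₈ ≤ q.s := h81.trans h₁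
  -- reflection
  have hpar : ((T₀, T₁, C, N) : NsT) ∈ nsPar q.E := ⟨hT₀, hT₁⟩
  have hacc := hcp _ (Or.inr ⟨_, hpar, rfl⟩) (hacc1 s₁ h₁ hI₁ _ hroot (hnew 0 a0) _ hpar
    ⟨s₈, q.E ∪ {e | e ∈ es₁}, h80.trans q.le, q.cE.union (List.finite_toSet es₁).countable,
      fun e he => he.elim (fun he => (q.cf e he).le h80)
        fun he => (hin₁.2.1 e he).le (h85.trans h₅)⟩
    ⟨h80, subset_union_left⟩ h81
    ⟨es₁, fun e he => Or.inr he, ns_inU_mono hin₁ (h85.trans h₅) hη hN.le,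
      ns_decF_mono (hdec₁ T₁ hT₁) h85⟩)
  obtain ⟨s₉, h₉, y, ⟨hy, es₃, hes₃, hin₃, hdec₃⟩, hnear⟩ := near_many
    (fun e he => (hin₂.2.1 e he).le h₈) (St.Le.Y h81 hroot) (fun y hy => St.Le.Y h80 hy.1)
    (fun s' hs' => hacc s' (hs'.trans (h85.trans h52))) hin₂.1
  have h90 : s₉ ≤ q.s := h₉.trans h80
  have hcf : ∀ e ∈ T₀ ++ es₃ ++ es₂, bs.CF e s₉ := by
    intro e he
    rcases List.mem_append.1 he with he | he
    · exact (q.cf e ((List.mem_append.1 he).elim (hT₀ e) (hes₃ e))).le h90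
    · exact (hin₂.2.1 e he).le (h₉.trans h₈)
  obtain ⟨s₁₀, h₁₀, hevθ⟩ := ev_tot bs_top hcf (ns_sup_mono hθ (h₉.trans h81))
  have hX0 : s₁₀ ≤ q.s := h₁₀.trans h90
  have hX1 : s₁₀ ≤ s₁ := h₁₀.trans (h₉.trans h81)
  obtain ⟨s₁₁, h₁₁, θ₁, hθ₁, hT₁θ, hes₃θ⟩ := hdec₃ s₁₀ hX0 _ (ns_sup_mono hθ hX1) _ hB.le (by
    intro e he
    obtain ⟨t, ht⟩ := hevθ e (List.mem_append_left _ (List.mem_append_left _ he))
    exact ⟨t, ht, hm₀ e he (m₀ + 1) (by omega) s₁₀ (h₁₀.trans (h₉.trans (h85.trans h52))) t ht⟩)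
  have hY0 : s₁₁ ≤ q.s := h₁₁.trans hX0
  obtain ⟨s₁₂, h₁₂, θ₂, hθ₂, hes₃δ, hes₂θ⟩ := hdec₂ es₃ hes₃ s₁₁ (h₁₁.trans (h₁₀.trans h₉))
    (θ₁ + (-1 : ℝ) • theta (m₀ + 1) x.1) (hθ₁.add ((ns_sup_mono hθ (h₁₁.trans hX1)).smul _)) 0
    le_rfl (by
      intro e he
      obtain ⟨t, ht, ht'⟩ := hT₁θ e he
      exact ⟨_, EV.add ((q.cf e (hT₁ e he)).le hY0) ht' (ht.smul (-1)), by simp⟩)
  have hZ0 : s₁₂ ≤ q.s := h₁₂.trans hY0
  have hZX : s₁₂ ≤ s₁₀ := h₁₂.trans h₁₁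
  have hν : bs.Sup (Finsupp.single y 1 + (theta (m₀ + 1) x.1 + θ₂)) s₁₂ :=
    (ns_sup_single (St.Le.Y hZ0 hy)).add ((ns_sup_mono hθ (hZX.trans hX1)).add hθ₂)
  refine ⟨s₁₂, hZ0.trans q.le, _, hν, hin₃.2.2 s₁₂ hZ0 _ hν fun e he => ?_,
    hin₂.2.2 s₁₂ (hZX.trans (h₁₀.trans (h₉.trans h₈))) _ hν fun e he => ?_⟩
  · have hc := q.cf e (hes₃ e he)
    obtain ⟨ty, hty⟩ := hdec e (hes₃ e he) y hy
    have hty' := EV.single (hc.mono _ _ _ _ hty hZ0)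
    obtain ⟨tθ, htθ⟩ := hevθ e (List.mem_append_left _ (List.mem_append_right _ he))
    have htθ' := EV.mono hc htθ hZX
    obtain ⟨t₁, ht₁, hb₁⟩ := hes₃θ e he
    obtain ⟨t₂, ht₂, ht₂'⟩ := hes₃δ e he
    have h2 := EV.unique (hc.le hZ0) ht₂
      (EV.add (hc.le hZ0) (EV.mono hc ht₁ h₁₂) (htθ'.smul (-1)))
    refine ⟨ty, _, hty', EV.add (hc.le hZ0) hty' (EV.add (hc.le hZ0) htθ' ht₂'), ?_⟩
    have h3 : ty - (ty + (tθ + t₂)) = -t₁ := by rw [h2]; ring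
    rw [h3, abs_neg]
    exact hb₁.trans_lt hCB
  · have hc := (hin₂.2.1 e he).le (hZX.trans (h₁₀.trans (h₉.trans h₈)))
    obtain ⟨tr, ty, htr, hty, hlt⟩ := hnear e he
    have h9 : s₁₂ ≤ s₉ := hZX.trans h₁₀
    obtain ⟨tθ, htθ⟩ := hevθ e (List.mem_append_right _ he)
    have htθ' := EV.mono hc htθ hZX
    obtain ⟨t₂, ht₂, hb₂⟩ := hes₂θ e he
    have h2 : t₂ = 0 := by simpa using hb₂
    refine ⟨_, _, EV.add hc (EV.single (hc.mono _ _ _ _ htr h9)) htθ',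
      EV.add hc (EV.single (hc.mono _ _ _ _ hty h9)) (EV.add hc htθ' ht₂), ?_⟩
    have h3 : tr + tθ - (ty + (tθ + t₂)) = tr - ty := by rw [h2]; ring
    rwa [h3]

end Pool.Agent.Work.MP_f50f0f_gt
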