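import Pool.Agent.Work.MP_f50f0f_gt.CPl1

/-! Names for the generic space, its topology and its continuous real functions. -/

namespace Pool.Agent.Work.MP_f50f0f_gt
open Pool.Agent.Lib.ZFModel Name

variable {P Pt Nc : Type} [Preorder P] (b : Base P Pt Nc) (rN : ℝ → Name P) (xN : Pt → Name P)

omit [Preorder P] in
/-- The name of the space. -/
def spN : Name P := rName xN b.mem

/-- The relation given by a name of a function. -/
def valOf (f : Name P) : Nm P Pt := fun x t s => (LF P).app f (xN x) (rN t) s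

omit [Preorder P] in
/-- The name given by a relation. -/
def fN (e : Nm P Pt) : Name P :=
  rName (fun a : Pt × ℝ => pairN (xN a.1) (rN a.2)) fun a s => b.mem a.1 s ∧ e a.1 a.2 s

/-- `C` is a name for the set of continuous functions. -/
structure CN (C : Name P) : Prop where
  cf : ∀ f p, MemF f C p → b.CF (valOf rN xN f) p
  isFun : ∀ f p, MemF f C p → (LF P).isFun f (spN b xN) (realsN rN) p
  mem : ∀ e p, b.CF e p → MemF (fN b rN xN e) C p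

variable {b rN xN}

theorem mem_spN (top : b.Top) {x : Name P} {p : P} :
    MemF x (spN b xN) p ↔ ∀ q ≤ p, ∃ r ≤ q, ∃ y, b.mem y r ∧ EqF x (xN y) r :=
  memF_rName fun i p q h hq => top.mem_mono i p q h hq

theorem valOf_fN (top : b.Top) (hr : InjN rN) (hx : InjN xN) {e : Nm P Pt} {p : P} (he : b.CF e p)
    {x : Pt} {t : ℝ} {s : P} :
    valOf rN xN (fN b rN xN e) x t s ↔ ∀ q ≤ s, ∃ r ≤ q, b.mem x r ∧ e x t r := by
  refine (memF_rName (A := fun a : Pt × ℝ => pairN (xN a.1) (rN a.2))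
    (R := fun a s => b.mem a.1 s ∧ e a.1 a.2 s)
    fun i p q h hq => ⟨top.mem_mono _ _ _ h.1 hq, he.mono _ _ _ _ h.2 hq⟩).trans
    (forall₂_congr fun q _ => exists_congr fun r => and_congr_right fun _ => ⟨?_, ?_⟩)
  · rintro ⟨⟨a, u⟩, h, h'⟩
    obtain rfl := hx _ _ _ (pairN_inj1 h')
    obtain rfl := hr _ _ _ (pairN_inj2 h')
    exact h
  · exact fun h => ⟨(x, t), h, EqF.refl _ _⟩

namespace CPl3

variable (b rN xN) in
/-- `p` forces that `f` consists of pairs of a point and a real number. -/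
def Gr (f : Name P) (p : P) : Prop :=
  ∀ q ≤ p, ∀ z, MemF z f q → ∃ r ≤ q, ∃ a t, b.mem a r ∧ EqF z (pairN (xN a) (rN t)) r

variable (b xN) in
/-- `p` forces that `U` is a neighbourhood of each of its points. -/
def OpenX (U : Name P) (p : P) : Prop :=
  ∀ q ≤ p, ∀ a, MemF (xN a) U q → ∃ r ≤ q, ∃ n, b.Nb n a a r ∧
    ∀ r' ≤ r, ∀ y, b.Nb n a y r' → MemF (xN y) U r'

omit [Preorder P] in
variable (b rN xN) in
/-- The name of the product of the space and the real line. -/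
def prN : Name P := rName (fun a : Pt × ℝ => pairN (xN a.1) (rN a.2)) fun a s => b.mem a.1 s

variable (b xN) in
/-- `τ` is the name of the topology. -/
def TauN (τ : Name P) : Prop :=
  ∀ U p, MemF U τ p ↔ (LF P).sub U (spN b xN) p ∧ OpenX b xN U p

theorem xN_mem {a : Pt} {s : P} (h : b.mem a s) : MemF (xN a) (spN b xN) s := memF_rName_of h

theorem sub_prN (top : b.Top) {f : Name P} {p : P} :
    (LF P).sub f (prN b rN xN) p ↔ Gr b rN xN f p := by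
  have k : ∀ {z : Name P} {q : P}, MemF z (prN b rN xN) q ↔
      ∀ q' ≤ q, ∃ r ≤ q', ∃ a : Pt × ℝ, b.mem a.1 r ∧ EqF z (pairN (xN a.1) (rN a.2)) r :=
    memF_rName fun (i : Pt × ℝ) p q h hq => top.mem_mono i.1 p q h hq
  constructor
  · intro h q hq z hz
    obtain ⟨r, hr, a, h1, h2⟩ := k.1 (h z q hq hz) q le_rfl
    exact ⟨r, hr, a.1, a.2, h1, h2⟩
  · intro h z q hq hz
    refine k.2 fun q' hq' => ?_
    obtain ⟨r, hr, a, t, h1, h2⟩ := h q' (hq'.trans hq) z (MemF.mono hz hq')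
    exact ⟨r, hr, (a, t), h1, h2⟩

theorem Gr.dec {f : Name P} {p q : P} (h : Gr b rN xN f p) (hq : q ≤ p) {x y : Name P}
    (a : MemF (pairN x y) f q) : ∃ r ≤ q, ∃ c t, b.mem c r ∧ EqF x (xN c) r ∧ EqF y (rN t) r ∧
      valOf rN xN f c t r := by
  obtain ⟨r, hr, c, t, h1, h2⟩ := h q hq _ a
  exact ⟨r, hr, c, t, h1, pairN_inj1 h2, pairN_inj2 h2, (a.mono hr).congr_left h2⟩

theorem valOf_mono (f : Name P) (x : Pt) (t : ℝ) (s s' : P) (h : valOf rN xN f x t s)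
    (hs : s' ≤ s) : valOf rN xN f x t s' := MemF.mono h hs

theorem gr_of_isFun (top : b.Top) {f : Name P} {p : P}
    (h : (LF P).isFun f (spN b xN) (realsN rN) p) : Gr b rN xN f p := by
  intro q hq z hz
  obtain ⟨r, hr, x, h1⟩ := h.1 z q hq hz q le_rfl
  obtain ⟨r1, hr1, y, h2, h3, h4⟩ := h1 r le_rfl
  obtain ⟨r2, hr2, a, h5, h6⟩ := (mem_spN top).1 h2 r1 le_rfl
  obtain ⟨r3, hr3, t, h7⟩ := (mem_realsN rN).1 h3 r2 hr2
  exact ⟨r3, hr3.trans (hr2.trans (hr1.trans hr)), a, t, top.mem_mono _ _ _ h5 hr3,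
    (EqF.mono h4 (hr3.trans hr2)).trans (pair_congr (h6.mono hr3) h7)⟩

theorem isFun_of (top : b.Top) (hx : InjN xN) {f : Name P} {p : P} (g : Gr b rN xN f p)
    (h : b.CF (valOf rN xN f) p) : (LF P).isFun f (spN b xN) (realsN rN) p := by
  refine ⟨fun z q hq hz q' hq' => ?_, fun x q hq hz q' hq' => ?_,
    fun x y y' q hq h1 q' hq' h2 => EqF.reg fun q1 hq1 => ?_⟩
  · obtain ⟨r, hr, a, t, h1, h2⟩ := g q' (hq'.trans hq) z (MemF.mono hz hq')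
    exact ⟨r, hr, xN a, fun w hw => ⟨w, le_rfl, rN t, xN_mem (top.mem_mono _ _ _ h1 hw),
      rN_mem rN t w, h2.mono hw⟩⟩
  · obtain ⟨r, hr, a, h1, h2⟩ := (mem_spN top).1 hz q' hq'
    obtain ⟨w, hw, t, h3⟩ := h.tot r (hr.trans (hq'.trans hq)) a h1
    exact ⟨w, hw.trans hr, rN t,
      MemF.congr_left h3 (pair_congr (h2.mono hw).symm (EqF.refl _ _))⟩
  · obtain ⟨r, hr, a, t, -, h3, h4, h5⟩ :=
      g.dec (hq1.trans (hq'.trans hq)) (MemF.mono h1 (hq1.trans hq'))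
    obtain ⟨w, hw, a', t', -, h6, h7, h8⟩ :=
      g.dec (hr.trans (hq1.trans (hq'.trans hq))) (MemF.mono h2 (hr.trans hq1))
    obtain rfl := hx _ _ _ ((h3.mono hw).symm.trans h6)
    obtain rfl := h.fn w (hw.trans (hr.trans (hq1.trans (hq'.trans hq)))) a t t'
      (valOf_mono _ _ _ _ _ h5 hw) h8
    exact ⟨w, hw.trans hr, (h4.mono hw).trans h7.symm⟩

theorem cf_reg (top : b.Top) (f : Name P) (p : P)
    (h : ∀ q ≤ p, ∃ r ≤ q, b.CF (valOf rN xN f) r) : b.CF (valOf rN xN f) p := by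
  refine ⟨valOf_mono f, fun s hs x h1 => ?_, fun s hs x t t' h1 h2 => ?_,
    fun s hs x t h1 h2 η hη => ?_⟩ <;> obtain ⟨r, hr, c⟩ := h s hs
  · obtain ⟨w, hw, h2⟩ := c.tot r le_rfl x (top.mem_mono _ _ _ h1 hr)
    exact ⟨w, hw.trans hr, h2⟩
  · exact c.fn r le_rfl x t t' (valOf_mono _ _ _ _ _ h1 hr) (valOf_mono _ _ _ _ _ h2 hr)
  · obtain ⟨w, hw, h3⟩ := c.cont r le_rfl x t (top.mem_mono _ _ _ h1 hr)
      (valOf_mono _ _ _ _ _ h2 hr) η hη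
    exact ⟨w, hw.trans hr, h3⟩

theorem cf_congr (f g : Name P) (p : P) (e : EqF f g p) (h : b.CF (valOf rN xN f) p) :
    b.CF (valOf rN xN g) p := by
  have k : ∀ {s x t}, s ≤ p → valOf rN xN g x t s → valOf rN xN f x t s := fun hs a =>
    MemF.congr_right a (e.mono hs).symm
  refine ⟨valOf_mono g, fun s hs x h1 => ?_,
    fun s hs x t t' h1 h2 => h.fn s hs x t t' (k hs h1) (k hs h2), fun s hs x t h1 h2 η hη => ?_⟩
  · obtain ⟨w, hw, t, h2⟩ := h.tot s hs x h1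
    exact ⟨w, hw, t, MemF.congr_right h2 (e.mono (hw.trans hs))⟩
  · obtain ⟨w, hw, n, h3, h4⟩ := h.cont s hs x t h1 (k hs h2) η hη
    exact ⟨w, hw, n, h3, fun s' hs' y t' a c =>
      h4 s' hs' y t' a (k (hs'.trans (hw.trans hs)) c)⟩

theorem gr_fN (top : b.Top) {e : Nm P Pt} {p : P} (he : b.CF e p) :
    Gr b rN xN (fN b rN xN e) p := by
  intro q _ z hz
  obtain ⟨r, hr, a, h1, h2⟩ := (memF_rName (A := fun a : Pt × ℝ => pairN (xN a.1) (rN a.2))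
    (R := fun a s => b.mem a.1 s ∧ e a.1 a.2 s)
    fun i p q h hq => ⟨top.mem_mono _ _ _ h.1 hq, he.mono _ _ _ _ h.2 hq⟩).1 hz q le_rfl
  exact ⟨r, hr, a.1, a.2, h1.1, h2⟩

theorem val_fN (top : b.Top) (hr : InjN rN) (hx : InjN xN) {e : Nm P Pt} {p : P} (he : b.CF e p)
    {x : Pt} {t : ℝ} {s : P} (h1 : b.mem x s) (h2 : e x t s) : valOf rN xN (fN b rN xN e) x t s :=
  (valOf_fN top hr hx he).2 fun q hq =>
    ⟨q, le_rfl, top.mem_mono _ _ _ h1 hq, he.mono _ _ _ _ h2 hq⟩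

theorem cf_fN (top : b.Top) (hr : InjN rN) (hx : InjN xN) {e : Nm P Pt} {p : P} (he : b.CF e p) :
    b.CF (valOf rN xN (fN b rN xN e)) p := by
  refine ⟨valOf_mono _, fun s hs x h1 => ?_, fun s hs x t t' h1 h2 => ?_,
    fun s hs x t h1 h2 η hη => ?_⟩
  · obtain ⟨w, hw, t, h2⟩ := he.tot s hs x h1
    exact ⟨w, hw, t, val_fN top hr hx he (top.mem_mono _ _ _ h1 hw) h2⟩
  · obtain ⟨r, a, -, h3⟩ := (valOf_fN top hr hx he).1 h1 s le_rfl
    obtain ⟨w, c, -, h4⟩ := (valOf_fN top hr hx he).1 h2 r a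
    exact he.fn w (c.trans (a.trans hs)) x t t' (he.mono _ _ _ _ h3 c) h4
  · obtain ⟨r, a, h3, h4⟩ := (valOf_fN top hr hx he).1 h2 s le_rfl
    obtain ⟨w, c, n, h5, h6⟩ := he.cont r (a.trans hs) x t h3 h4 η hη
    refine ⟨w, c.trans a, n, h5, fun s' hs' y t' h7 h8 => ?_⟩
    obtain ⟨u, d, -, h9⟩ := (valOf_fN top hr hx he).1 h8 s' le_rfl
    exact h6 u (d.trans hs') y t' (top.Nb_mono _ _ _ _ _ h7 d) h9

theorem exists_tau : ∃ τ, TauN b xN τ := by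
  refine exists_pow _ _ (fun U p q h hq r hr => h r (hr.trans hq)) (fun U p h q hq a ha => ?_)
    fun U V p e h q hq a ha => ?_
  · obtain ⟨r, hr, h1⟩ := h q hq
    obtain ⟨w, hw, h2⟩ := h1 r le_rfl a (ha.mono hr)
    exact ⟨w, hw.trans hr, h2⟩
  · obtain ⟨r, hr, n, h1, h2⟩ := h q hq a (ha.congr_right (e.mono hq).symm)
    exact ⟨r, hr, n, h1, fun w hw y h3 =>
      (h2 w hw y h3).congr_right (e.mono (hw.trans (hr.trans hq)))⟩

variable {τ ρ : Name P}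

theorem isCont_of (top : b.Top) (hx : InjN xN) (hρ : RhoN rN ρ) (hτ : TauN b xN τ) {f : Name P}
    {p : P} (g : Gr b rN xN f p) (h : b.CF (valOf rN xN f) p) :
    (LF P).isCont f (spN b xN) τ (realsN rN) ρ p := by
  refine ⟨isFun_of top hx g h, fun V U q hq hV q' hq' e => (hτ U q').2
    ⟨fun x r hr h1 => (mem_spN top).2 fun w hw => ?_, fun r hr a h1 => ?_⟩⟩
  · obtain ⟨w1, a1, y, -, h2⟩ := (e x r hr).1 h1 w hw
    obtain ⟨w2, a2, c, t, h3, h4, -⟩ :=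
      g.dec (a1.trans (hw.trans (hr.trans (hq'.trans hq)))) h2
    exact ⟨w2, a2.trans a1, c, h3, h4⟩
  · have rp : r ≤ p := hr.trans (hq'.trans hq)
    obtain ⟨r1, a1, y, h2, h3⟩ := (e _ r hr).1 h1 r le_rfl
    obtain ⟨r2, a2, c, t, h4, h5, h6, h7⟩ := g.dec (a1.trans rp) h3
    obtain rfl := hx _ _ _ h5
    obtain ⟨r3, a3, ε, hε, h8⟩ := ((hρ V q).1 hV).2 r2 (a2.trans (a1.trans (hr.trans hq'))) t
      ((MemF.mono h2 a2).congr_left h6)
    have b3 : r3 ≤ r := a3.trans (a2.trans a1)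
    obtain ⟨r4, a4, n, h9, h10⟩ := h.cont r3 (b3.trans rp) a t (top.mem_mono _ _ _ h4 a3)
      (valOf_mono _ _ _ _ _ h7 a3) ε hε
    refine ⟨r4, a4.trans b3, n, h9, fun w hw z h11 =>
      (e _ w (hw.trans (a4.trans (b3.trans hr)))).2 fun w1 hw1 => ?_⟩
    obtain ⟨w2, hw2, t', h12⟩ := h.tot w1 (hw1.trans (hw.trans (a4.trans (b3.trans rp)))) z
      (top.mem_mono _ _ _ (top.Nb_mem _ _ _ _ h11).2 hw1)
    have b2 : w2 ≤ r4 := hw2.trans (hw1.trans hw)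
    exact ⟨w2, hw2, rN t', (h8 t' (h10 w2 b2 z t'
      (top.Nb_mono _ _ _ _ _ h11 (hw2.trans hw1)) h12)).mono (b2.trans a4), h12⟩

theorem cf_of_isCont (top : b.Top) (hr : InjN rN) (hx : InjN xN) (hρ : RhoN rN ρ)
    (hτ : TauN b xN τ) {f : Name P} {p : P} (h : (LF P).isCont f (spN b xN) τ (realsN rN) ρ p) :
    b.CF (valOf rN xN f) p := by
  have g := gr_of_isFun top h.1
  have fn : ∀ s ≤ p, ∀ x t t', valOf rN xN f x t s → valOf rN xN f x t' s → t = t' :=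
    fun s hs x t t' h1 h2 => hr _ _ _ (h.1.2.2 _ _ _ s hs h1 s le_rfl h2)
  refine ⟨valOf_mono f, fun s hs x h1 => ?_, fn, fun s hs x t h1 h2 η hη => ?_⟩
  · obtain ⟨r, a1, y, h2⟩ := h.1.2.1 _ s hs (xN_mem h1) s le_rfl
    obtain ⟨w, a2, c, t, -, h3, -, h4⟩ := g.dec (a1.trans hs) h2
    obtain rfl := hx _ _ _ h3
    exact ⟨w, a2.trans a1, t, h4⟩
  · have k : ∀ {z : Name P} {q : P},
        MemF z (rName xN fun y s => ∃ t', |t' - t| < η ∧ valOf rN xN f y t' s) q ↔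
        ∀ q' ≤ q, ∃ r ≤ q', ∃ y, (∃ t', |t' - t| < η ∧ valOf rN xN f y t' r) ∧ EqF z (xN y) r :=
      memF_rName fun i p q ⟨t', a, c⟩ hq => ⟨t', a, valOf_mono _ _ _ _ _ c hq⟩
    have o := (hτ _ s).1 (h.2 (ivN rN t η)
      (rName xN fun y s => ∃ t', |t' - t| < η ∧ valOf rN xN f y t' s) s hs (hρ.iv hr t η s) s
      le_rfl fun z r a1 => k.trans (forall₂_congr fun q a2 => ⟨?_, ?_⟩))
    · obtain ⟨r, a1, n, h3, h4⟩ := o.2 s le_rfl x (memF_rName_of ⟨t, by simpa using hη, h2⟩)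
      refine ⟨r, a1, n, h3, fun w a2 y t' h5 h6 => ?_⟩
      obtain ⟨u, a3, y', ⟨t'', h7, h8⟩, h9⟩ := k.1 (h4 w a2 y h5) w le_rfl
      obtain rfl := hx _ _ _ h9
      rwa [fn u (a3.trans (a2.trans (a1.trans hs))) y t' t'' (valOf_mono _ _ _ _ _ h6 a3) h8]
    · rintro ⟨w, a3, y, ⟨t', h3, h4⟩, h5⟩
      exact ⟨w, a3, rN t', (mem_ivN hr).2 h3,
        MemF.congr_left h4 (pair_congr h5.symm (EqF.refl _ _))⟩
    · rintro ⟨w, a3, y, h3, h4⟩
      obtain ⟨u, a4, c, t', -, h5, h6, h7⟩ := g.dec (a3.trans (a2.trans (a1.trans hs))) h4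
      exact ⟨u, a4.trans a3, c, ⟨t', (mem_ivN hr).1 ((MemF.mono h3 a4).congr_left h6), h7⟩, h5⟩

theorem isTop (top : b.Top) (hx : InjN xN) (hτ : TauN b xN τ) (p : P) :
    (LF P).isTop (spN b xN) τ p := by
  refine ⟨fun U q _ h => ((hτ U q).1 h).1, (hτ _ p).2 ⟨fun x q _ h => h, fun q _ a h => ?_⟩,
    fun U V W q _ hU q1 a1 hV q2 a2 e => (hτ W q2).2 ⟨fun x r a3 h => ?_, fun r a3 a h => ?_⟩,
    fun S W q _ hS q1 a1 e => (hτ W q1).2
      ⟨fun x r a2 h => MemF.reg fun w a3 => ?_, fun r a2 a h => ?_⟩⟩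
  · obtain ⟨r, hr, y, h1, h2⟩ := (mem_spN top).1 h q le_rfl
    obtain rfl := hx _ _ _ h2
    obtain ⟨n, h3⟩ := top.Nb_ex a r h1
    exact ⟨r, hr, n, h3, fun w _ y h4 => xN_mem (top.Nb_mem _ _ _ _ h4).2⟩
  · exact ((hτ U q).1 hU).1 x r (a3.trans (a2.trans a1)) ((e x r a3).1 h).1
  · obtain ⟨h1, h2⟩ := (e _ r a3).1 h
    obtain ⟨r1, b1, n, h3, h4⟩ := ((hτ U q).1 hU).2 r (a3.trans (a2.trans a1)) a h1
    obtain ⟨r2, b2, n', h5, h6⟩ := ((hτ V q1).1 hV).2 r1 (b1.trans (a3.trans a2)) a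
      (MemF.mono h2 b1)
    obtain ⟨m, h7, h8⟩ := top.Nb_meet n n' a r2 (top.Nb_mono _ _ _ _ _ h3 b2) h5
    exact ⟨r2, b2.trans b1, m, h7, fun w hw y h9 =>
      (e _ w (hw.trans (b2.trans (b1.trans a3)))).2
        ⟨h4 w (hw.trans b2) y (h8 w hw y h9).1, h6 w hw y (h8 w hw y h9).2⟩⟩
  · obtain ⟨u, a4, U, h1, h2⟩ := (e x r a2).1 h w a3
    exact ⟨u, a4, ((hτ U u).1 (hS U u (a4.trans (a3.trans (a2.trans a1))) h1)).1 x u le_rfl h2⟩
  · obtain ⟨u, a4, U, h1, h2⟩ := (e _ r a2).1 h r le_rfl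
    obtain ⟨u1, a5, n, h3, h4⟩ :=
      ((hτ U u).1 (hS U u (a4.trans (a2.trans a1)) h1)).2 u le_rfl a h2
    exact ⟨u1, a5.trans a4, n, h3, fun w hw y h5 =>
      (e _ w (hw.trans (a5.trans (a4.trans a2)))).2 fun w1 hw1 =>
        ⟨w1, le_rfl, U, MemF.mono h1 (hw1.trans (hw.trans a5)), (h4 w hw y h5).mono hw1⟩⟩

theorem isT1 (top : b.Top) (hx : InjN xN) (hτ : TauN b xN τ) (p : P) :
    (LF P).isT1 (spN b xN) τ p := by
  refine fun x s q _ h q1 a1 e => ⟨fun z r a2 h1 => MemF.congr_left (MemF.mono h (a2.trans a1))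
    (EqF.symm ((e z r a2).1 h1)), fun r a2 => ?_⟩
  obtain ⟨r1, a3, a, -, h2⟩ := (mem_spN top).1 h r (a2.trans a1)
  have k : ∀ {z : Name P} {q : P}, MemF z (rName xN fun y s => b.mem y s ∧ y ≠ a) q ↔
      ∀ q' ≤ q, ∃ r ≤ q', ∃ y, (b.mem y r ∧ y ≠ a) ∧ EqF z (xN y) r :=
    memF_rName fun i p q h hq => ⟨top.mem_mono _ _ _ h.1 hq, h.2⟩
  have sub : ∀ z w, MemF z (rName xN fun y s => b.mem y s ∧ y ≠ a) w → MemF z (spN b xN) w :=
    fun z w h3 => (mem_spN top).2 fun u hu => by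
      obtain ⟨u1, a4, y, h4, h5⟩ := k.1 h3 u hu
      exact ⟨u1, a4, y, h4.1, h5⟩
  refine ⟨r1, a3, rName xN fun y s => b.mem y s ∧ y ≠ a,
    (hτ _ r1).2 ⟨fun z w _ h3 => sub z w h3, fun w _ y h3 => ?_⟩,
    fun z w a4 => ⟨fun h3 => ⟨sub z w h3, fun u a5 h4 => ?_⟩, fun h3 => k.2 fun u a5 => ?_⟩⟩
  · obtain ⟨u, a4, y', h4, h5⟩ := k.1 h3 w le_rfl
    obtain rfl := hx _ _ _ h5
    obtain ⟨n, h6, h7⟩ := top.t1 y a u h4.2 h4.1
    exact ⟨u, a4, n, h6, fun u1 a5 z h8 =>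
      memF_rName_of ⟨(top.Nb_mem _ _ _ _ h8).2, fun c => h7 u1 a5 (c ▸ h8)⟩⟩
  · obtain ⟨u1, a6, y, h5, h6⟩ := k.1 h3 u a5
    have h7 : EqF z x u := (e z u (a5.trans (a4.trans (a3.trans a2)))).1 h4
    exact h5.2 (hx _ _ _ (h6.symm.trans ((h7.mono a6).trans
      (h2.mono (a6.trans (a5.trans a4))))))
  · obtain ⟨u1, a6, y, h4, h5⟩ := (mem_spN top).1 h3.1 u a5
    refine ⟨u1, a6, y, ⟨h4, ?_⟩, h5⟩
    rintro rfl
    exact h3.2 u1 (a6.trans a5) ((e z u1 (a6.trans (a5.trans (a4.trans (a3.trans a2))))).2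
      (h5.trans (h2.mono (a6.trans (a5.trans a4))).symm))

theorem isTych (top : b.Top) (hr : InjN rN) (hx : InjN xN) (hρ : RhoN rN ρ) (hτ : TauN b xN τ)
    (p : P) : (LF P).isTychonoff (spN b xN) τ (realsN rN) ρ (rN 0) (rN 1) p := by
  refine ⟨isTop top hx hτ p, isT1 top hx hτ p, fun C x q _ hC q1 a1 h1 q2 a2 h2 q3 a3 => ?_⟩
  obtain ⟨r1, b1, U, hU, e⟩ := hC.2 q3 (a3.trans (a2.trans a1))
  obtain ⟨r2, b2, a, h3, h4⟩ := (mem_spN top).1 h1 r1 (b1.trans (a3.trans a2))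
  have h5 : MemF x U r2 := (e x r2 b2).2 ⟨MemF.mono h1 (b2.trans (b1.trans (a3.trans a2))),
    fun w hw => h2 w (hw.trans (b2.trans (b1.trans a3)))⟩
  obtain ⟨r3, b3, n, h6, h7⟩ := ((hτ U r1).1 hU).2 r2 b2 a (h5.congr_left h4)
  obtain ⟨f, h8, h9, h10⟩ := top.cr n a r3 h6
  refine ⟨r3, b3.trans (b2.trans b1), fN b rN xN f,
    isCont_of top hx hρ hτ (gr_fN top h8) (cf_fN top hr hx h8),
    MemF.congr_left (val_fN top hr hx h8 (top.mem_mono _ _ _ h3 b3) h9)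
      (pair_congr (h4.mono b3).symm (EqF.refl _ _)), fun y w hw h11 => MemF.reg fun u hu => ?_⟩
  obtain ⟨u1, c1, c, h12, h13⟩ := (mem_spN top).1
    (hC.1 y w (hw.trans (b3.trans (b2.trans (b1.trans (a3.trans (a2.trans a1)))))) h11) u hu
  have c2 : u1 ≤ r3 := c1.trans (hu.trans hw)
  refine ⟨u1, c1, MemF.congr_left (val_fN top hr hx h8 h12 (h10 u1 c2 c h12 fun h14 => ?_))
    (pair_congr h13.symm (EqF.refl _ _))⟩
  exact ((e y u1 (c2.trans (b3.trans b2))).1 ((h7 u1 c2 c h14).congr_left h13.symm)).2 u1 le_rfl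
    (MemF.mono h11 (c1.trans hu))

end CPl3

theorem exists_XC (top : b.Top) (hr : InjN rN) (hx : InjN xN) {ρ : Name P} (hρ : RhoN rN ρ) :
    ∃ τ C : Name P, (∀ p, (LF P).isTychonoff (spN b xN) τ (realsN rN) ρ (rN 0) (rN 1) p) ∧
      (∀ p, (LF P).isC C (spN b xN) τ (realsN rN) ρ p) ∧ CN b rN xN C := by
  obtain ⟨τ, hτ⟩ := CPl3.exists_tau (b := b) (xN := xN)
  obtain ⟨C, hC⟩ := exists_pow (CPl3.prN b rN xN) (fun f p => b.CF (valOf rN xN f) p)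
    (fun _ _ _ h hq => h.le hq) (CPl3.cf_reg top) CPl3.cf_congr
  simp only [CPl3.sub_prN top] at hC
  exact ⟨τ, C, CPl3.isTych top hr hx hρ hτ, fun p f q _ => (hC f q).trans
    ⟨fun h => CPl3.isCont_of top hx hρ hτ h.1 h.2,
      fun h => ⟨CPl3.gr_of_isFun top h.1, CPl3.cf_of_isCont top hr hx hρ hτ h⟩⟩,
    fun f p h => ((hC f p).1 h).2,
    fun f p h => CPl3.isFun_of top hx ((hC f p).1 h).1 ((hC f p).1 h).2,
    fun e p h => (hC _ p).2 ⟨CPl3.gr_fN top h, CPl3.cf_fN top hr hx h⟩⟩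

end Pool.Agent.Work.MP_f50f0f_gt
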