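import Pool.Agent.Work.MP_f50f0f_gt.CPl2
import Pool.Agent.Work.MP_f50f0f_gt.CPl3

/-! The name of the span of the point evaluations. -/

namespace Pool.Agent.Work.MP_f50f0f_gt
open Pool.Agent.Lib.ZFModel Name

variable {P Pt Nc : Type} [Preorder P] (b : Base P Pt Nc) (rN : ℝ → Name P) (xN : Pt → Name P)

/-- The name of the functional given by `μ`. -/
def psiN (C : Name P) (μ : Pt →₀ ℝ) : Name P :=
  rName (fun a : C.Idx × ℝ => pairN (C.ch a.1) (rN a.2))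
    fun a s => s ≤ C.cond a.1 ∧ EV (valOf rN xN (C.ch a.1)) μ a.2 s

/-- The name of the span. -/
def lpN (C : Name P) : Name P := rName (psiN rN xN C) b.Sup

variable {b rN xN}

theorem cpl5_mono {f : Name P} {μ : Pt →₀ ℝ} {t : ℝ} {s s' : P} (h : EV (valOf rN xN f) μ t s)
    (hs : s' ≤ s) : EV (valOf rN xN f) μ t s' :=
  let ⟨val, h1, h2⟩ := h; ⟨val, fun x hx => MemF.mono (h1 x hx) hs, h2⟩

theorem cpl5_congr {f g : Name P} {μ : Pt →₀ ℝ} {t : ℝ} {s : P} (h : EV (valOf rN xN f) μ t s)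
    (e : EqF f g s) : EV (valOf rN xN g) μ t s :=
  let ⟨val, h1, h2⟩ := h; ⟨val, fun x hx => MemF.congr_right (h1 x hx) e, h2⟩

theorem cpl5_uniq {e : Nm P Pt} {μ : Pt →₀ ℝ} {t t' : ℝ} {s : P} (he : b.CF e s) (h : EV e μ t s)
    (h' : EV e μ t' s) : t = t' := by
  obtain ⟨v, h1, rfl⟩ := h
  obtain ⟨v', h2, rfl⟩ := h'
  exact Finsupp.sum_congr fun x hx => by rw [he.fn s le_rfl x _ _ (h1 x hx) (h2 x hx)]

theorem cpl5_ex (top : b.Top) {e : Nm P Pt} {μ : Pt →₀ ℝ} {s : P} (he : b.CF e s)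
    (h : b.Sup μ s) : ∃ r ≤ s, ∃ t, EV e μ t r := by
  classical
  have key : ∀ Z : Finset Pt, (∀ x ∈ Z, b.mem x s) →
      ∃ r ≤ s, ∃ v : Pt → ℝ, ∀ x ∈ Z, e x (v x) r := by
    intro Z
    induction Z using Finset.induction_on with
    | empty => exact fun _ => ⟨s, le_rfl, fun _ => 0, by simp⟩
    | insert a Z _ ih =>
      intro hZ
      obtain ⟨r, hr, v, hv⟩ := ih fun x hx => hZ x (Finset.mem_insert_of_mem hx)
      obtain ⟨r', hr', t, ht⟩ :=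
        he.tot r hr a (top.mem_mono _ _ _ (hZ a (Finset.mem_insert_self _ _)) hr)
      refine ⟨r', hr'.trans hr, Function.update v a t, fun x hx => ?_⟩
      by_cases c : x = a
      · rwa [c, Function.update_self]
      · rw [Function.update_of_ne c]
        exact he.mono _ _ _ _ (hv x ((Finset.mem_insert.1 hx).resolve_left c)) hr'
  obtain ⟨r, hr, v, hv⟩ := key μ.support h
  exact ⟨r, hr, _, v, hv, rfl⟩

theorem cpl5_add {e : Nm P Pt} {μ : Pt →₀ ℝ} {y u : ℝ} {s : P} {a : Pt} (he : b.CF e s)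
    (h : EV e μ y s) (ha : e a u s) (c : ℝ) : EV e (Finsupp.single a c + μ) (y + c * u) s := by
  classical
  obtain ⟨v, h1, rfl⟩ := h
  refine ⟨Function.update v a u, fun x hx => ?_, ?_⟩
  · by_cases d : x = a
    · rwa [d, Function.update_self]
    · rw [Function.update_of_ne d]
      exact h1 x (by simpa [Finsupp.single_eq_of_ne d] using hx)
  · rw [Finsupp.sum_add_index' (fun _ => zero_mul _) fun _ _ _ => add_mul _ _ _,
      Finsupp.sum_single_index (zero_mul _), Function.update_self, add_comm]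
    congr 1
    refine Finsupp.sum_congr fun x hx => ?_
    by_cases d : x = a
    · subst d
      rw [Function.update_self, he.fn s le_rfl x _ _ (h1 x hx) ha]
    · rw [Function.update_of_ne d]

theorem cpl5_mem {C z : Name P} {μ : Pt →₀ ℝ} {s : P} (h : MemF z (psiN rN xN C μ) s) :
    ∀ q ≤ s, ∃ r ≤ q, ∃ f t, MemF f C r ∧ EqF z (pairN f (rN t)) r ∧ EV (valOf rN xN f) μ t r := by
  intro q hq
  obtain ⟨r, hr, a, h1, h2⟩ :=
    (memF_rName fun _ _ _ h hq => ⟨hq.trans h.1, cpl5_mono h.2 hq⟩).1 h q hq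
  exact ⟨r, hr, _, _, memF_ch C a.1 h1.1, h2, h1.2⟩

theorem cpl5_app {C f y : Name P} {μ : Pt →₀ ℝ} {s : P} (h : (LF P).app (psiN rN xN C μ) f y s) :
    ∀ q ≤ s, ∃ r ≤ q, ∃ t, MemF f C r ∧ EqF y (rN t) r ∧ EV (valOf rN xN f) μ t r := by
  intro q hq
  obtain ⟨r, hr, g, t, h1, h2, h3⟩ := cpl5_mem h q hq
  exact ⟨r, hr, t, h1.congr_left (pairN_inj1 h2).symm, pairN_inj2 h2,
    cpl5_congr h3 (pairN_inj1 h2).symm⟩

theorem app_psiN (hr : InjN rN) {C f : Name P} {μ : Pt →₀ ℝ} {t : ℝ} {s : P} (hf : MemF f C s) :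
    (LF P).app (psiN rN xN C μ) f (rN t) s ↔ ∀ q ≤ s, ∃ r ≤ q, EV (valOf rN xN f) μ t r := by
  refine ⟨fun h q hq => ?_, fun h => MemF.reg fun q hq => ?_⟩
  · obtain ⟨r, h0, t', -, h1, h2⟩ := cpl5_app h q hq
    exact ⟨r, h0, hr _ _ _ h1 ▸ h2⟩
  · obtain ⟨r, h0, h1⟩ := h q hq
    obtain ⟨r', h2, j, h3, h4⟩ := hf r (h0.trans hq)
    refine ⟨r', h2.trans h0, MemF.congr_left ?_ (pair_congr h4.symm (EqF.refl _ _))⟩
    exact memF_rName_of (i := (j, t)) ⟨h3, cpl5_congr (cpl5_mono h1 h2) h4⟩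

theorem cpl5_isFun (top : b.Top) (hr : InjN rN) {C : Name P} (hC : CN b rN xN C) {μ : Pt →₀ ℝ}
    {p : P} (h : b.Sup μ p) : (LF P).isFun (psiN rN xN C μ) C (realsN rN) p := by
  refine ⟨fun z q _ hz q' hq' => ?_, fun f q hq hf q' hq' => ?_,
    fun f y y' q _ h1 q' hq' h2 => EqF.reg fun s hs => ?_⟩
  · obtain ⟨r, h0, f, t, h1, h2, -⟩ := cpl5_mem hz q' hq'
    exact ⟨r, h0, f, fun s hs => ⟨s, le_rfl, rN t, h1.mono hs, rN_mem rN t s, h2.mono hs⟩⟩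
  · obtain ⟨r, h0, t, h1⟩ := cpl5_ex top (hC.cf f q' (MemF.mono hf hq'))
      fun x hx => top.mem_mono _ _ _ (h x hx) (hq'.trans hq)
    exact ⟨r, h0, rN t, (app_psiN hr (MemF.mono hf (h0.trans hq'))).2
      fun s hs => ⟨s, le_rfl, cpl5_mono h1 hs⟩⟩
  · obtain ⟨r, h0, t, -, a, c⟩ := cpl5_app h1 s (hs.trans hq')
    obtain ⟨r', h3, t', d, a', c'⟩ := cpl5_app h2 r (h0.trans hs)
    obtain rfl := cpl5_uniq (hC.cf f r' d) (cpl5_mono c h3) c'
    exact ⟨r', h3.trans h0, (a.mono h3).trans a'.symm⟩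

theorem cpl5_fun_mono {f A B : Name P} {p q : P} (h : (LF P).isFun f A B p) (hq : q ≤ p) :
    (LF P).isFun f A B q :=
  Fo.mono (φ := LS.isFun 0 1 2 3) (v := cons B (cons A fun _ => f)) h hq

theorem cpl5_fun_reg {f A B : Name P} {p : P} (h : ∀ q ≤ p, ∃ r ≤ q, (LF P).isFun f A B r) :
    (LF P).isFun f A B p :=
  Fo.reg (φ := LS.isFun 0 1 2 3) (v := cons B (cons A fun _ => f)) h

theorem cpl5_fun_congr {f g A B : Name P} {p : P} (h : (LF P).isFun f A B p) (e : EqF f g p) :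
    (LF P).isFun g A B p :=
  Fo.congr (φ := LS.isFun 0 1 2 3) (v := cons B (cons A fun _ => f))
    (w := cons B (cons A fun _ => g))
    (fun i => match i with
      | 0 => EqF.refl _ _
      | 1 => EqF.refl _ _
      | _ + 2 => e) h

theorem cpl5_lp (top : b.Top) {C ψ : Name P} {p : P} (h : MemF ψ (lpN b rN xN C) p) :
    ∀ q ≤ p, ∃ r ≤ q, ∃ μ, b.Sup μ r ∧ EqF ψ (psiN rN xN C μ) r :=
  (memF_rName fun _ _ _ h hq x hx => top.mem_mono _ _ _ (h x hx) hq).1 h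

theorem lpN_isFun (top : b.Top) (hr : InjN rN) {C : Name P} (hC : CN b rN xN C) (ψ : Name P) (p : P)
    (h : MemF ψ (lpN b rN xN C) p) : (LF P).isFun ψ C (realsN rN) p :=
  cpl5_fun_reg fun q hq =>
    let ⟨r, h0, _, h1, h2⟩ := cpl5_lp top h q hq
    ⟨r, h0, cpl5_fun_congr (cpl5_isFun top hr hC h1) h2.symm⟩

/-- two real functions with the same values are equal -/
theorem cpl5_ext {ψ χ C : Name P} {p : P} (h : (LF P).isFun ψ C (realsN rN) p)
    (h' : (LF P).isFun χ C (realsN rN) p)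
    (e : ∀ q ≤ p, ∀ f t, MemF f C q → (LF P).app ψ f (rN t) q → ∃ r ≤ q, (LF P).app χ f (rN t) r) :
    EqF ψ χ p := by
  have dec : ∀ {g : Name P}, (LF P).isFun g C (realsN rN) p → ∀ q ≤ p, ∀ z, MemF z g q →
      ∃ r ≤ q, ∃ f t, MemF f C r ∧ EqF z (pairN f (rN t)) r := by
    intro g hg q hq z hz
    obtain ⟨r, a, f, c⟩ := hg.1 z q hq hz q le_rfl
    obtain ⟨r', a', y, c1, c2, c3⟩ := c r le_rfl
    obtain ⟨r'', a'', t, d⟩ := (mem_realsN rN).1 c2 r' le_rfl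
    exact ⟨r'', a''.trans (a'.trans a), f, t, MemF.mono c1 a'',
      (EqF.mono c3 a'').trans (pair_congr (EqF.refl _ _) d)⟩
  refine eqF_iff.2 ⟨fun i q hq hc => MemF.reg fun s hs => ?_,
    fun i q hq hc => MemF.reg fun s hs => ?_⟩
  · obtain ⟨r, a, f, t, c, d⟩ := dec h s (hs.trans hq) _ (memF_ch ψ i (hs.trans hc))
    obtain ⟨r', a', c'⟩ := e r (a.trans (hs.trans hq)) f t c
      ((memF_ch ψ i (a.trans (hs.trans hc))).congr_left d)
    exact ⟨r', a'.trans a, MemF.congr_left c' (d.mono a').symm⟩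
  · obtain ⟨r, a, f, t, c, d⟩ := dec h' s (hs.trans hq) _ (memF_ch χ i (hs.trans hc))
    have hr := a.trans (hs.trans hq)
    obtain ⟨r₁, a₁, y, c₁⟩ := h.2.1 f r hr c r le_rfl
    obtain ⟨r₂, a₂, g, t', -, d₂⟩ := dec h r₁ (a₁.trans hr) _ c₁
    have c₂ : (LF P).app ψ f (rN t') r₂ :=
      (MemF.mono c₁ a₂).congr_left (pair_congr (EqF.refl _ _) (pairN_inj2 d₂))
    obtain ⟨r₃, a₃, c₃⟩ := e r₂ (a₂.trans (a₁.trans hr)) f t' (c.mono (a₂.trans a₁)) c₂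
    have a₄ := a₃.trans (a₂.trans a₁)
    have d₃ : EqF (rN t') (rN t) r₃ := h'.2.2 f _ _ r₃ (a₄.trans hr) c₃ r₃ le_rfl
      ((memF_ch χ i (a₄.trans (a.trans (hs.trans hc)))).congr_left (d.mono a₄))
    exact ⟨r₃, a₄.trans a, (MemF.mono c₂ a₃).congr_left
      ((pair_congr (EqF.refl _ _) d₃).trans (d.mono a₄).symm)⟩

theorem isLp_forced (top : b.Top) (hr : InjN rN) (hx : InjN xN) {C : Name P} (hC : CN b rN xN C)
    (p : P) : (LF P).isLp (lpN b rN xN C) C (spN b xN) (realsN rN) (opN rN (· + ·))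
      (opN rN (· * ·)) (rN 0) p := by
  classical
  have sup0 : ∀ s, b.Sup 0 s := fun s x h => by simp at h
  refine ⟨⟨fun ψ q _ h1 q' hq' h2 => ?_,
    fun ψ c x χ q₁ _ h1 q₂ a₂ h2 q₃ a₃ h3 q₄ a₄ h4 q₅ a₅ h5 => MemF.reg fun s hs => ?_⟩,
    fun S q _ hS z s hs hz => MemF.reg fun s' hs' => ?_⟩
  · refine MemF.congr_left (memF_rName_of (sup0 q'))
      (cpl5_ext (cpl5_isFun top hr hC (sup0 q')) (cpl5_fun_mono h1 hq') fun r h0 f t hf h3 => ?_)
    obtain ⟨r', a, v, -, rfl⟩ := (app_psiN hr hf).1 h3 r le_rfl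
    exact ⟨r, le_rfl, h2 f r h0 hf⟩
  · have b₄ := hs.trans a₅
    have b₃ := b₄.trans a₄
    obtain ⟨r₁, c₁, μ, d₁, e₁⟩ := cpl5_lp top h1 s ((b₃.trans a₃).trans a₂)
    obtain ⟨r₂, c₂, c₀, e₂⟩ := (mem_realsN rN).1 h2 r₁ (c₁.trans (b₃.trans a₃))
    obtain ⟨r, c₃, x₀, d₃, e₃⟩ := (mem_spN top).1 h3 r₂ (c₂.trans (c₁.trans b₃))
    have hrs := c₃.trans (c₂.trans c₁)
    have dμ : b.Sup μ r := fun y hy => top.mem_mono _ _ _ (d₁ y hy) (c₃.trans c₂)
    have dν : b.Sup (Finsupp.single x₀ c₀ + μ) r := fun y hy => by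
      by_cases d : y = x₀
      · rwa [d]
      · exact dμ y (by simpa [Finsupp.single_eq_of_ne d] using hy)
    refine ⟨r, hrs, MemF.congr_left (memF_rName_of dν) (cpl5_ext (cpl5_isFun top hr hC dν)
      (cpl5_fun_mono h4 (hrs.trans b₄)) fun u hu f t hf h6 => ?_)⟩
    obtain ⟨u₁, f₁, g₁⟩ := (app_psiN hr hf).1 h6 u le_rfl
    have cf := hC.cf f u hf
    obtain ⟨u₂, f₂, y, g₂⟩ := cpl5_ex top (cf.le f₁)
      fun y hy => top.mem_mono _ _ _ (dμ y hy) (f₁.trans hu)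
    obtain ⟨u₃, f₃, w, g₃⟩ := cf.tot u₂ (f₂.trans f₁) x₀
      (top.mem_mono _ _ _ d₃ (f₂.trans (f₁.trans hu)))
    have f₄ := f₃.trans (f₂.trans f₁)
    have f₅ := f₄.trans hu
    obtain rfl := cpl5_uniq (cf.le f₄) (cpl5_mono g₁ (f₃.trans f₂))
      (cpl5_add (cf.le f₄) (cpl5_mono g₂ f₃) g₃ c₀)
    refine ⟨u₃, f₄, h5 f (rN y) (rN w) (rN (c₀ * w)) _ u₃ (f₅.trans (hrs.trans hs)) ?_ u₃ le_rfl ?_
      u₃ le_rfl ?_ u₃ le_rfl ?_⟩
    · exact MemF.congr_right ((app_psiN hr (hf.mono f₄)).2 fun v hv =>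
        ⟨v, le_rfl, cpl5_mono g₂ (hv.trans f₃)⟩) (e₁.mono (f₅.trans (c₃.trans c₂))).symm
    · exact MemF.congr_left g₃ (pair_congr (e₃.mono f₅).symm (EqF.refl _ _))
    · exact (val_opN rN).2 fun v hv => ⟨v, le_rfl, c₀, w, e₂.mono (hv.trans (f₅.trans c₃)),
        EqF.refl _ _, EqF.refl _ _⟩
    · exact (val_opN rN).2 fun v _ => ⟨v, le_rfl, y, _, EqF.refl _ _, EqF.refl _ _, EqF.refl _ _⟩
  · have key : ∀ μ : Pt →₀ ℝ, ∀ r ≤ q, b.Sup μ r → MemF (psiN rN xN C μ) S r := by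
      intro μ
      induction μ using Finsupp.induction with
      | zero =>
        intro r h0 h1
        exact hS.1 _ r h0 (cpl5_isFun top hr hC h1) r le_rfl fun f u _ hf =>
          (app_psiN hr hf).2 fun v _ => ⟨v, le_rfl, fun _ => 0, by simp, by simp⟩
      | single_add a c μ ha hc ih =>
        intro r h0 h1
        have ma : b.mem a r := h1 a (by simpa [Finsupp.notMem_support_iff.1 ha] using hc)
        have dμ : b.Sup μ r := fun y hy => h1 y (by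
          have d : y ≠ a := fun d => ha (d ▸ hy)
          simpa [Finsupp.single_eq_of_ne d] using hy)
        refine hS.2 _ (rN c) (xN a) _ r h0 (ih r h0 dμ) r le_rfl (rN_mem rN c r) r le_rfl
          (memF_rName_of ma) r le_rfl (cpl5_isFun top hr hC h1) r le_rfl
          fun g y u w t v₁ _ g₁ v₂ a₂ g₂ v₃ a₃ g₃ v₄ a₄ g₄ => MemF.reg fun v hv => ?_
        have b₃ := hv.trans a₄
        obtain ⟨w₁, c₁, y₀, m₁, e₁, d₁⟩ := cpl5_app g₁ v ((b₃.trans a₃).trans a₂)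
        obtain ⟨w₂, c₂, c', u₀, e₂, e₃, e₄⟩ := (val_opN rN).1 g₃ w₁ (c₁.trans b₃)
        obtain ⟨w₃, c₃, y₁, w₀, e₅, e₆, e₇⟩ := (val_opN rN).1 g₄ w₂ (c₂.trans (c₁.trans hv))
        obtain rfl := hr _ _ _ e₂
        obtain rfl := hr _ _ _ ((e₁.mono (c₃.trans c₂)).symm.trans e₅)
        obtain rfl := hr _ _ _ ((e₄.mono c₃).symm.trans e₆)
        have c₄ := c₃.trans (c₂.trans c₁)
        have m := m₁.mono (c₃.trans c₂)
        have d := cpl5_add (hC.cf g w₃ m) (cpl5_mono d₁ (c₃.trans c₂))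
          ((MemF.mono g₂ (c₄.trans (b₃.trans a₃))).congr_left
            (pair_congr (EqF.refl _ _) (e₃.mono c₃))) c
        exact ⟨w₃, c₄, MemF.congr_left ((app_psiN hr m).2 fun v' hv' =>
          ⟨v', le_rfl, cpl5_mono d hv'⟩) (pair_congr (EqF.refl _ _) e₇.symm)⟩
    obtain ⟨r, a, μ, h1, h2⟩ := cpl5_lp top hz s' hs'
    exact ⟨r, a, (key μ r (a.trans (hs'.trans hs)) h1).congr_left h2.symm⟩

end Pool.Agent.Work.MP_f50f0f_gt
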