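import Pool.Agent.Work.MP_f50f0f_gt.CPl4
import Pool.Agent.Work.MP_f50f0f_gt.CPl5

/-! The span is forced to be non-normal; the whole sentence is forced. -/

namespace Pool.Agent.Work.MP_f50f0f_gt
open Pool.Agent.Lib.ZFModel Name

variable {P Pt Nc : Type} [Preorder P] {b : Base P Pt Nc} {rN : ℝ → Name P} {xN : Pt → Name P}
  {Dd Aa : (Pt →₀ ℝ) → P → Prop}

variable (b) in
/-- `s` forces that a basic neighbourhood of `μ` misses the family `X`. -/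
def SepX (X : (Pt →₀ ℝ) → P → Prop) (μ : Pt →₀ ℝ) (s : P) : Prop :=
  ∃ es, ∃ η : ℝ, 0 < η ∧ (∀ e ∈ es, b.CF e s) ∧ ∀ s' ≤ s, ∀ ν, X ν s' → ¬ Close es η μ ν s'

theorem SepX.mono {X : (Pt →₀ ℝ) → P → Prop} {μ : Pt →₀ ℝ} {s s' : P} (h : SepX b X μ s)
    (hs : s' ≤ s) : SepX b X μ s' :=
  let ⟨es, η, h1, h2, h3⟩ := h
  ⟨es, η, h1, fun e he => (h2 e he).le hs, fun r hr => h3 r (hr.trans hs)⟩

theorem cpl6_list {α : Type*} (l : List α) {R : α → P → Prop} {s : P}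
    (hm : ∀ a ∈ l, ∀ r ≤ s, ∀ r' ≤ r, R a r → R a r') (h : ∀ a ∈ l, ∀ q ≤ s, ∃ r ≤ q, R a r) :
    ∃ r ≤ s, ∀ a ∈ l, R a r := by
  induction l with
  | nil => exact ⟨s, le_rfl, by simp⟩
  | cons a l ih =>
    obtain ⟨r, hr, h1⟩ := ih (fun x hx => hm x (List.mem_cons_of_mem _ hx))
      fun x hx => h x (List.mem_cons_of_mem _ hx)
    obtain ⟨r', hr', h2⟩ := h a List.mem_cons_self r hr
    refine ⟨r', hr'.trans hr, fun x hx => ?_⟩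
    rcases List.mem_cons.1 hx with rfl | hx
    · exact h2
    · exact hm x (List.mem_cons_of_mem _ hx) r hr r' hr' (h1 x hx)

theorem cpl6_mono {e : Nm P Pt} {p : P} (he : b.CF e p) {μ : Pt →₀ ℝ} {t : ℝ} {s s' : P}
    (h : EV e μ t s) (hs : s' ≤ s) : EV e μ t s' :=
  let ⟨val, h1, h2⟩ := h; ⟨val, fun x hx => he.mono _ _ _ _ (h1 x hx) hs, h2⟩

theorem cpl6_sup (top : b.Top) {μ : Pt →₀ ℝ} {s s' : P} (h : b.Sup μ s) (hs : s' ≤ s) :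
    b.Sup μ s' := fun x hx => top.mem_mono _ _ _ (h x hx) hs

section
variable (top : b.Top) (hr : InjN rN) (hx : InjN xN) {C : Name P} (hC : CN b rN xN C)
  {e : Nm P Pt} {μ μ' : Pt →₀ ℝ} {t : ℝ} {s : P}
include top hr hx

theorem cpl6_fwd (he : b.CF e s) (hμ : b.Sup μ s) (h : EV e μ t s) :
    EV (valOf rN xN (fN b rN xN e)) μ t s :=
  let ⟨val, h1, h2⟩ := h; ⟨val, fun x h3 => CPl3.val_fN top hr hx he (hμ x h3) (h1 x h3), h2⟩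

include hC

theorem cpl6_app (he : b.CF e s) (hμ : b.Sup μ s) (h : EV e μ t s) :
    (LF P).app (psiN rN xN C μ) (fN b rN xN e) (rN t) s :=
  (app_psiN hr (hC.mem e s he)).2 fun q hq =>
    ⟨q, le_rfl, cpl5_mono (cpl6_fwd top hr hx he hμ h) hq⟩

theorem cpl6_ev (he : b.CF e s) (hμ : b.Sup μ s)
    (h : (LF P).app (psiN rN xN C μ) (fN b rN xN e) (rN t) s) : ∃ r ≤ s, EV e μ t r := by
  obtain ⟨r, h1, h2⟩ := (app_psiN hr (hC.mem e s he)).1 h s le_rfl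
  obtain ⟨r', h3, t', h4⟩ := cpl5_ex top (he.le h1) (cpl6_sup top hμ h1)
  have h5 := he.le (h3.trans h1)
  obtain rfl := cpl5_uniq (CPl3.cf_fN top hr hx h5) (cpl5_mono h2 h3)
    (cpl6_fwd top hr hx h5 (cpl6_sup top hμ (h3.trans h1)) h4)
  exact ⟨r', h3.trans h1, h4⟩

theorem cpl6_congr {X : (Pt →₀ ℝ) → P → Prop} (hX : ∀ ν s s', X ν s → s' ≤ s → X ν s')
    (hμ : b.Sup μ s) (hμ' : b.Sup μ' s) (he : EqF (psiN rN xN C μ) (psiN rN xN C μ') s)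
    (h : SepX b X μ s) : SepX b X μ' s := by
  obtain ⟨es, η, h1, h2, h3⟩ := h
  refine ⟨es, η, h1, h2, fun s' hs' ν hν hc => ?_⟩
  obtain ⟨r, h4, h5⟩ := cpl6_list es (s := s')
    (R := fun e r => ∃ t t', EV e μ t r ∧ EV e ν t' r ∧ |t - t'| < η)
    (fun e he r _ r' hr' ⟨t, t', a1, a2, a3⟩ =>
      ⟨t, t', cpl6_mono (h2 e he) a1 hr', cpl6_mono (h2 e he) a2 hr', a3⟩) fun e hee q hq => by
      obtain ⟨t, t', a1, a2, a3⟩ := hc e hee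
      have a4 := hq.trans hs'
      obtain ⟨r, a5, a6⟩ := cpl6_ev top hr hx hC ((h2 e hee).le a4) (cpl6_sup top hμ a4)
        (MemF.congr_right (cpl6_app top hr hx hC ((h2 e hee).le a4) (cpl6_sup top hμ' a4)
          (cpl6_mono (h2 e hee) a1 hq)) (he.mono a4).symm)
      exact ⟨r, a5, t, t', a6, cpl6_mono (h2 e hee) a2 (a5.trans hq), a3⟩
  exact h3 r (h4.trans hs') ν (hX _ _ _ hν h4) h5

end

variable (b rN xN) in
/-- The name of the closure of the family `X`. -/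
def clN (C : Name P) (X : (Pt →₀ ℝ) → P → Prop) : Name P :=
  rName (psiN rN xN C) fun μ s => b.Sup μ s ∧ ∀ s' ≤ s, ¬ SepX b X μ s'

theorem mem_clN (top : b.Top) {C x : Name P} {X : (Pt →₀ ℝ) → P → Prop} {p : P} :
    MemF x (clN b rN xN C X) p ↔ ∀ q ≤ p, ∃ r ≤ q, ∃ μ,
      (b.Sup μ r ∧ ∀ s' ≤ r, ¬ SepX b X μ s') ∧ EqF x (psiN rN xN C μ) r :=
  memF_rName fun _ _ _ h hq => ⟨cpl6_sup top h.1 hq, fun s hs => h.2 s (hs.trans hq)⟩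

theorem cpl6_lp {C x : Name P} {μ : Pt →₀ ℝ} {s : P} (h : b.Sup μ s)
    (e : EqF x (psiN rN xN C μ) s) : MemF x (lpN b rN xN C) s :=
  (memF_rName_of (A := psiN rN xN C) (R := b.Sup) h).congr_left e.symm

theorem clN_closed (top : b.Top) (hr : InjN rN) (hx : InjN xN) {C lam : Name P}
    (hC : CN b rN xN C) (hl : PwN rN (lpN b rN xN C) C lam) {X : (Pt →₀ ℝ) → P → Prop}
    (hX : ∀ ν s s', X ν s → s' ≤ s → X ν s') (p : P) :
    (LF P).isClosedIn (lpN b rN xN C) lam (clN b rN xN C X) p := by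
  let O : Name P := rName (psiN rN xN C) fun μ s => b.Sup μ s ∧ SepX b X μ s
  have hO : ∀ {x : Name P} {p : P}, MemF x O p ↔ ∀ q ≤ p, ∃ r ≤ q, ∃ μ,
      (b.Sup μ r ∧ SepX b X μ r) ∧ EqF x (psiN rN xN C μ) r :=
    memF_rName fun _ _ _ h hq => ⟨cpl6_sup top h.1 hq, h.2.mono hq⟩
  have hO' : ∀ {x : Name P} {μ : Pt →₀ ℝ} {s : P}, b.Sup μ s → SepX b X μ s →
      EqF x (psiN rN xN C μ) s → MemF x O s := fun h1 h2 h3 => hO.2 fun q hq =>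
    ⟨q, le_rfl, _, ⟨cpl6_sup top h1 hq, h2.mono hq⟩, h3.mono hq⟩
  have hsub : ∀ x q, MemF x O q → MemF x (lpN b rN xN C) q := fun x q h => MemF.reg fun q' hq' =>
    let ⟨r, h1, _, h2, h3⟩ := hO.1 h q' hq'; ⟨r, h1, cpl6_lp h2.1 h3⟩
  refine ⟨fun x q _ h => MemF.reg fun q' hq' => ?_, fun q _ => ⟨q, le_rfl, O,
    (hl O q).2 ⟨fun x q' _ => hsub x q', fun q₁ _ f hf => ?_⟩,
    fun x q₁ _ => ⟨fun h => ⟨hsub x q₁ h, fun q₂ h₂ h' => ?_⟩, fun h => MemF.reg fun q₂ h₂ => ?_⟩⟩⟩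
  · obtain ⟨r, h1, _, h2, h3⟩ := (mem_clN top).1 h q' hq'
    exact ⟨r, h1, cpl6_lp h2.1 h3⟩
  · obtain ⟨r, h1, μ, ⟨h2, es, η, h3, h4, h5⟩, h6⟩ := hO.1 hf q₁ le_rfl
    obtain ⟨r₁, h7, h8⟩ := cpl6_list es (s := r) (R := fun e r => ∃ t, EV e μ t r)
      (fun e he r _ r' hr' ⟨t, a⟩ => ⟨t, cpl6_mono (h4 e he) a hr'⟩)
      fun e he q hq => cpl5_ex top ((h4 e he).le hq) (cpl6_sup top h2 hq)
    refine ⟨r₁, h7.trans h1, es.map (fN b rN xN), η / 2, by linarith, fun x hx' => ?_,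
      fun r' hr' g hg hc => MemF.reg fun q' hq' => ?_⟩
    · obtain ⟨e, he, rfl⟩ := List.mem_map.1 hx'
      obtain ⟨t, ht⟩ := h8 e he
      exact ⟨hC.mem e r₁ ((h4 e he).le h7), t, MemF.congr_right (cpl6_app top hr hx hC
        ((h4 e he).le h7) (cpl6_sup top h2 h7) ht) (h6.mono h7).symm⟩
    obtain ⟨r₂, a1, ν, a2, a3⟩ := cpl5_lp top hg q' hq'
    have a4 : r₂ ≤ r := a1.trans (hq'.trans (hr'.trans h7))
    obtain ⟨r₃, a5, a6⟩ := cpl6_list es (s := r₂)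
      (R := fun e r => ∃ t t', EV e μ t r ∧ EV e ν t' r ∧ |t - t'| < η / 2)
      (fun e he r _ r' hr' ⟨t, t', a1, a2, a3⟩ =>
        ⟨t, t', cpl6_mono (h4 e he) a1 hr', cpl6_mono (h4 e he) a2 hr', a3⟩) fun e he q hq => by
        obtain ⟨t, t', b1, b2, b3⟩ := hc _ (List.mem_map_of_mem he)
        have b4 := hq.trans a4
        have b5 := hq.trans (a1.trans hq')
        obtain ⟨w, b6, b7⟩ := cpl6_ev top hr hx hC ((h4 e he).le b4) (cpl6_sup top h2 b4)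
          (MemF.congr_right (MemF.mono b1 b5) (h6.mono b4))
        obtain ⟨w', b8, b9⟩ := cpl6_ev top hr hx hC ((h4 e he).le (b6.trans b4))
          (cpl6_sup top a2 (b6.trans hq))
          (MemF.congr_right (MemF.mono b2 (b6.trans b5)) (a3.mono (b6.trans hq)))
        exact ⟨w', b8.trans b6, t, t', cpl6_mono (h4 e he) b7 b8, b9, b3⟩
    refine ⟨r₃, a5.trans a1, hO' (cpl6_sup top a2 a5) ⟨es, η / 2, by linarith,
      fun e he => (h4 e he).le (a5.trans a4), fun s hs ν' b1 b2 => ?_⟩ (a3.mono a5)⟩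
    have b3 := hs.trans (a5.trans a4)
    refine h5 s b3 ν' b1 fun e he => ?_
    obtain ⟨t, t', b4, b5, b6⟩ := a6 e he
    obtain ⟨u, u', b7, b8, b9⟩ := b2 e he
    obtain rfl := cpl5_uniq ((h4 e he).le b3) (cpl6_mono (h4 e he) b5 hs) b7
    refine ⟨t, u', cpl6_mono (h4 e he) b4 hs, b8, ?_⟩
    rw [abs_lt] at b6 b9 ⊢
    constructor <;> linarith [b6.1, b6.2, b9.1, b9.2]
  · obtain ⟨r, h1, μ', ⟨h2, h3⟩, h4⟩ := (mem_clN top).1 h' q₂ le_rfl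
    obtain ⟨r', h5, μ, ⟨h6, h7⟩, h8⟩ := hO.1 h r (h1.trans h₂)
    exact h3 r' h5 (cpl6_congr top hr hx hC hX h6 (cpl6_sup top h2 h5)
      (h8.symm.trans (h4.mono h5)) h7)
  · obtain ⟨r, h1, μ, h2, h3⟩ := cpl5_lp top h.1 q₂ h₂
    by_cases h4 : ∃ s ≤ r, SepX b X μ s
    · obtain ⟨s, h5, h6⟩ := h4
      exact ⟨s, h5.trans h1, hO' (cpl6_sup top h2 h5) h6 (h3.mono h5)⟩
    · exact absurd ((mem_clN top).2 fun w hw => ⟨w, le_rfl, μ, ⟨cpl6_sup top h2 hw,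
        fun s hs h5 => h4 ⟨s, hs.trans hw, h5⟩⟩, h3.mono hw⟩) (h.2 r (h1.trans h₂))

theorem clN_mem (top : b.Top) {C : Name P} {X : (Pt →₀ ℝ) → P → Prop}
    (hX : ∀ ν s s', X ν s → s' ≤ s → X ν s') {ν : Pt →₀ ℝ} {s : P} (h : b.Sup ν s) (h' : X ν s) :
    MemF (psiN rN xN C ν) (clN b rN xN C X) s := by
  refine (mem_clN top).2 fun q hq => ⟨q, le_rfl, ν, ⟨cpl6_sup top h hq, ?_⟩, EqF.refl _ _⟩
  rintro s' hs' ⟨es, η, h1, h2, h3⟩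
  obtain ⟨r, h4, h5⟩ := cpl6_list es (s := s') (R := fun e r => ∃ t, EV e ν t r)
    (fun e he r _ r' hr' ⟨t, a⟩ => ⟨t, cpl6_mono (h2 e he) a hr'⟩)
    fun e he w hw => cpl5_ex top ((h2 e he).le hw) (cpl6_sup top h (hw.trans (hs'.trans hq)))
  exact h3 r h4 ν (hX _ _ _ h' (h4.trans (hs'.trans hq))) fun e he =>
    let ⟨t, ht⟩ := h5 e he; ⟨t, t, ht, ht, by simpa using h1⟩

theorem cpl6_open (hr : InjN rN) {C lam U : Name P} (hC : CN b rN xN C)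
    (hl : PwN rN (lpN b rN xN C) C lam) {p : P} (hU : MemF U lam p) :
    b.OpenL (fun μ s => MemF (psiN rN xN C μ) U s) p := by
  refine ⟨fun μ s s' h hs => h.mono hs, fun s hs μ _ h => ?_⟩
  obtain ⟨r, h1, l, ε, h2, h3, h4⟩ := ((hl U p).1 hU).2 s hs _ h
  refine ⟨r, h1, l.map (valOf rN xN), ε, h2, fun e he => ?_, fun s' hs' ν h5 h6 =>
    h4 s' hs' _ (cpl6_lp h5 (EqF.refl _ _)) fun x hx => ?_⟩
  · obtain ⟨x, hx, rfl⟩ := List.mem_map.1 he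
    exact hC.cf x r (h3 x hx).1
  · obtain ⟨t, t', a1, a2, a3⟩ := h6 _ (List.mem_map_of_mem hx)
    have a4 := (h3 x hx).1.mono hs'
    exact ⟨t, t', (app_psiN hr a4).2 fun q hq => ⟨q, le_rfl, cpl5_mono a1 hq⟩,
      (app_psiN hr a4).2 fun q hq => ⟨q, le_rfl, cpl5_mono a2 hq⟩, a3⟩

theorem notNormal_forced (h : b.Sp Dd Aa) (hr : InjN rN) (hx : InjN xN) {C lam : Name P}
    (hC : CN b rN xN C) (hl : PwN rN (lpN b rN xN C) C lam) (p : P) :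
    (LF P).neg ((LF P).isNormalSp (lpN b rN xN C) lam) p := by
  intro q _ hn
  obtain ⟨r, -, U, hU⟩ := hn (clN b rN xN C Dd) (clN b rN xN C Aa) q le_rfl
    (clN_closed h.top hr hx hC hl h.Dd_mono q) q le_rfl
    (clN_closed h.top hr hx hC hl h.Aa_mono q) q le_rfl (by
      intro x q₁ _ h1 q₂ h₂ h2
      obtain ⟨r, a1, μ, ⟨a2, a3⟩, a4⟩ := (mem_clN h.top).1 h1 q₂ h₂
      obtain ⟨r', a5, μ', ⟨a6, a7⟩, a8⟩ := (mem_clN h.top).1 h2 r a1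
      obtain ⟨s, a9, es, η, b1, b2, b3 | b3⟩ := h.sep r' μ (cpl6_sup h.top a2 a5)
      · exact a3 s (a9.trans a5) ⟨es, η, b1, b2, b3⟩
      · exact a7 s a9 (cpl6_congr h.top hr hx hC h.Aa_mono (cpl6_sup h.top a2 (a9.trans a5))
          (cpl6_sup h.top a6 a9) (((a4.mono a5).symm.trans a8).mono a9) ⟨es, η, b1, b2, b3⟩))
    q le_rfl
  obtain ⟨r', -, V, h1, h2, h3, h4, h5⟩ := hU r le_rfl
  obtain ⟨s, hs, ν, -, h6, h7⟩ := h.nstar r' _ _ (cpl6_open hr hC hl h1) (cpl6_open hr hC hl h2)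
    (fun s hs ν hν => ⟨s, le_rfl, h3 _ s hs (clN_mem h.top h.Dd_mono (h.Dd_sup _ _ hν) hν)⟩)
    fun s hs ν hν => ⟨s, le_rfl, h4 _ s hs (clN_mem h.top h.Aa_mono (h.Aa_sup _ _ hν) hν)⟩
  exact h5 _ s hs h6 s le_rfl h7

theorem plumb (h : b.Sp Dd Aa) (p₀ : P) :
    ∃ (M : Type 1) (E : M → M → Prop), IsZFC E ∧ Counter E := by
  obtain ⟨rN, hr⟩ := exists_injN (P := P) ℝ
  obtain ⟨xN, hx⟩ := exists_injN (P := P) Pt
  obtain ⟨ρ, hρ⟩ := exists_rho hr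
  obtain ⟨τ, C, h1, h2, hC⟩ := exists_XC h.top hr hx hρ
  obtain ⟨π, hπ⟩ := exists_pw hr C (spN b xN) hC.isFun
  obtain ⟨lam, hl⟩ := exists_pw hr (lpN b rN xN C) C (lpN_isFun h.top hr hC)
  have ex : ∀ {f : Name P → P → Prop} (x : Name P), (∀ p, f x p) → ∀ p, (LF P).ex f p :=
    fun x hx p q _ => ⟨q, le_rfl, x, hx q⟩
  refine transfer p₀ (ex (realsN rN) (ex (opN rN (· + ·)) (ex (opN rN (· * ·)) (ex (ltN rN)
    (ex (rN 0) (ex (rN 1) (ex ρ (ex (spN b xN) (ex τ (ex C (ex π (ex (lpN b rN xN C) (ex lam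
    fun p => ?_)))))))))))) p₀)
  exact ⟨isReals_forced hr h.sigma p, hρ.isOrderTop hr p, h1 p, h2 p, hπ.isPw hr hρ hC.isFun p,
    closedSep_forced h.top h.hstar hr hx hC hπ p, isLp_forced h.top hr hx hC p,
    hl.isPw hr hρ (lpN_isFun h.top hr hC) p, notNormal_forced h hr hx hC hl p⟩

end Pool.Agent.Work.MP_f50f0f_gt
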