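import Pool.Agent.Work.MP_f50f0f_gt.CH3
import Pool.Agent.Work.MP_f50f0f_gt.CNstar
import Pool.Agent.Work.MP_f50f0f_gt.CPl6

/-! The model. -/

namespace Pool.Agent.Work.MP_f50f0f_gt
open Pool.Agent.Lib.ZFModel

theorem bs_sp : bs.Sp Dd Aa where
  sigma s hs := let ⟨q, hq, _⟩ := St.lim s hs; ⟨q, hq⟩
  top := bs_top
  hstar := bs_hstar
  Dd_sup := Dd_sup
  Aa_sup := Aa_sup
  Dd_mono _ _ _ := fun ⟨c, hc, h⟩ hs => ⟨c, hs.P hc, h⟩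
  Aa_mono _ _ _ := fun ⟨c, hc, h⟩ hs => ⟨c, hs.P hc, h⟩
  sep := bs_sep
  nstar := bs_nstar

theorem main : ∃ (M : Type 1) (E : M → M → Prop), IsZFC E ∧ Counter E := plumb bs_sp St.triv

end Pool.Agent.Work.MP_f50f0f_gt
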