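import Pool.Agent.Work.MP_f50f0f_gt.CFo
import Pool.Agent.Work.MP_f50f0f_gt.CIface
import Mathlib.Algebra.Order.Archimedean.Real.Basic
import Mathlib.SetTheory.Cardinal.Order
import Mathlib.Data.Rat.Encodable

/-! Names for the real line and for sets of subsets. -/

namespace Pool.Agent.Work.MP_f50f0f_gt
open Pool.Agent.Lib.ZFModel Name

variable {P : Type} [Preorder P]

/-- Different indices give names that are never forced to be equal. -/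
def InjN {A : Type} (n : A → Name P) : Prop := ∀ x y p, EqF (n x) (n y) p → x = y

section ord
variable {T : Type} [LinearOrder T] [WellFoundedLT T]

omit [Preorder P] in
/-- Names of ordinals. -/
noncomputable def CPl1_oN : T → Name P :=
  wellFounded_lt.fix fun i IH => rName (fun j : Set.Iio i => IH j.1 j.2) fun _ _ => True

omit [Preorder P] in
theorem CPl1_oN_eq (i : T) :
    (CPl1_oN i : Name P) = rName (fun j : Set.Iio i => CPl1_oN j.1) fun _ _ => True := by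
  rw [CPl1_oN, WellFounded.fix_eq]

theorem CPl1_oN_lt {j : T} : ∀ i < j, ∀ p : P, ¬ EqF (CPl1_oN i) (CPl1_oN j) p := by
  induction j using WellFoundedLT.induction with
  | ind j ih =>
    intro i hi p h
    rw [CPl1_oN_eq j] at h
    have h1 := (eqF_iff.1 h).2 ⟨(⟨i, hi⟩, p), trivial⟩ p le_rfl le_rfl
    have h3 : MemF (CPl1_oN i) (rName (fun j : Set.Iio i => CPl1_oN j.1) fun _ _ => True) p :=
      CPl1_oN_eq (P := P) i ▸ h1
    obtain ⟨r, -, k, -, h2⟩ := h3 p le_rfl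
    exact ih i hi k.1.1.1 k.1.1.2 r h2.symm

end ord

theorem exists_injN (A : Type) : ∃ n : A → Name P, InjN n := by
  obtain ⟨_, _⟩ := exists_wellFoundedLT A
  refine ⟨CPl1_oN, fun i j p h => ?_⟩
  rcases lt_trichotomy i j with h1 | h1 | h1
  · exact absurd h (CPl1_oN_lt i h1 p)
  · exact h1
  · exact absurd h.symm (CPl1_oN_lt j h1 p)

/-- A name for the set of all subsets of `A` with the property `Φ`. -/
theorem exists_pow (A : Name P) (Φ : Name P → P → Prop)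
    (mono : ∀ U p q, Φ U p → q ≤ p → Φ U q)
    (reg : ∀ U p, (∀ q ≤ p, ∃ r ≤ q, Φ U r) → Φ U p)
    (congr : ∀ U V p, EqF U V p → Φ U p → Φ V p) :
    ∃ T : Name P, ∀ U p, MemF U T p ↔ (LF P).sub U A p ∧ Φ U p := by
  let sN : Set (A.Idx × P) → Name P := fun S => rName A.ch fun i q => (i, q) ∈ S
  refine ⟨rName sN fun S q => (LF P).sub (sN S) A q ∧ Φ (sN S) q, fun U p => ?_⟩
  refine (memF_rName fun S p q h hq =>
    ⟨fun x r hr => h.1 x r (hr.trans hq), mono _ _ _ h.2 hq⟩).trans ⟨fun h => ⟨?_, ?_⟩, ?_⟩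
  · intro x q hq hx
    refine MemF.reg fun q' hq' => ?_
    obtain ⟨r, hr, S, h1, h2⟩ := h q' (hq'.trans hq)
    exact ⟨r, hr, h1.1 x r le_rfl ((MemF.mono hx (hr.trans hq')).congr_right h2)⟩
  · refine reg U p fun q hq => ?_
    obtain ⟨r, hr, S, h1, h2⟩ := h q hq
    exact ⟨r, hr, congr _ _ _ h2.symm h1.2⟩
  · rintro ⟨h1, h2⟩ q hq
    have e : EqF U (sN {a | MemF (A.ch a.1) U a.2}) q := by
      refine eqF_iff.2 ⟨fun j q' hq' hc q'' hq'' => ?_, fun j q' _ hc => MemF.mono j.2 hc⟩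
      have h3 := memF_ch U j hc
      obtain ⟨r, hr, i, -, h4⟩ := h1 _ q' (hq'.trans hq) h3 q'' hq''
      exact ⟨r, hr, ⟨(i, r), (h3.mono (hr.trans hq'')).congr_left h4⟩, le_rfl, h4⟩
    exact ⟨q, le_rfl, _, ⟨fun x r hr hx => h1 x r (hr.trans hq)
      (MemF.congr_right hx (e.mono hr).symm), congr _ _ _ e (mono _ _ _ h2 hq)⟩, e⟩

theorem CPl1_gen (sigma : ∀ s : ℕ → P, (∀ n, s (n + 1) ≤ s n) → ∃ q, ∀ n, q ≤ s n)
    (D : ℚ → P → Prop) (mono : ∀ u p q, D u p → q ≤ p → D u q)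
    (dense : ∀ u p, ∃ q ≤ p, D u q) (p : P) : ∃ q ≤ p, ∀ u, D u q := by
  obtain ⟨e, he⟩ := exists_surjective_nat ℚ
  choose f h1 h2 using dense
  let s : ℕ → P := fun n => Nat.rec p (fun n q => f (e n) q) n
  obtain ⟨q, hq⟩ := sigma s fun n => h1 _ _
  refine ⟨q, hq 0, fun u => ?_⟩
  obtain ⟨n, rfl⟩ := he u
  exact mono _ _ _ (h2 _ _) (hq (n + 1))

section reals
variable (rN : ℝ → Name P)

omit [Preorder P] in
def realsN : Name P := rName rN fun _ _ => True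
omit [Preorder P] in
def opN (f : ℝ → ℝ → ℝ) : Name P :=
  rName (fun a : ℝ × ℝ => pairN (pairN (rN a.1) (rN a.2)) (rN (f a.1 a.2))) fun _ _ => True
omit [Preorder P] in
def ltN : Name P := rName (fun a : ℝ × ℝ => pairN (rN a.1) (rN a.2)) fun a _ => a.1 < a.2
omit [Preorder P] in
/-- The name of the interval with centre `t` and radius `ε`. -/
def ivN (t ε : ℝ) : Name P := rName rN fun t' _ => |t' - t| < ε

/-- `p` forces that `U` is an open set of reals. -/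
def OpenR (U : Name P) (p : P) : Prop :=
  ∀ q ≤ p, ∀ t, MemF (rN t) U q → ∃ r ≤ q, ∃ ε : ℝ, 0 < ε ∧ ∀ t', |t' - t| < ε → MemF (rN t') U r

theorem mem_realsN {x : Name P} {p : P} :
    MemF x (realsN rN) p ↔ ∀ q ≤ p, ∃ r ≤ q, ∃ t, EqF x (rN t) r :=
  (memF_rName fun _ _ _ _ _ => trivial).trans (forall₂_congr fun _ _ => exists_congr fun _ =>
    and_congr_right fun _ => exists_congr fun _ => and_iff_right trivial)

theorem rN_mem (t : ℝ) (p : P) : MemF (rN t) (realsN rN) p := memF_rName_of trivial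

theorem val_opN {f : ℝ → ℝ → ℝ} {x y z : Name P} {p : P} :
    (LF P).val (opN rN f) x y z p ↔
      ∀ q ≤ p, ∃ r ≤ q, ∃ s t, EqF x (rN s) r ∧ EqF y (rN t) r ∧ EqF z (rN (f s t)) r :=
  (memF_rName fun _ _ _ _ _ => trivial).trans (forall₂_congr fun _ _ => exists_congr fun _ =>
    and_congr_right fun _ => ⟨fun ⟨a, _, h⟩ => ⟨a.1, a.2, pairN_inj1 (pairN_inj1 h),
      pairN_inj2 (pairN_inj1 h), pairN_inj2 h⟩,
      fun ⟨s, t, h1, h2, h3⟩ => ⟨(s, t), trivial, pair_congr (pair_congr h1 h2) h3⟩⟩)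

theorem app_ltN {x y : Name P} {p : P} :
    (LF P).app (ltN rN) x y p ↔
      ∀ q ≤ p, ∃ r ≤ q, ∃ s t, s < t ∧ EqF x (rN s) r ∧ EqF y (rN t) r :=
  (memF_rName fun _ _ _ h _ => h).trans (forall₂_congr fun _ _ => exists_congr fun _ =>
    and_congr_right fun _ => ⟨fun ⟨a, h0, h⟩ => ⟨a.1, a.2, h0, pairN_inj1 h, pairN_inj2 h⟩,
      fun ⟨s, t, h0, h1, h2⟩ => ⟨(s, t), h0, pair_congr h1 h2⟩⟩)

variable {rN}

theorem CPl1_val {f : ℝ → ℝ → ℝ} {x y z : Name P} {p : P} {s t : ℝ} (hx : EqF x (rN s) p)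
    (hy : EqF y (rN t) p) (hz : EqF z (rN (f s t)) p) : (LF P).val (opN rN f) x y z p :=
  (val_opN rN).2 fun q hq => ⟨q, le_rfl, s, t, hx.mono hq, hy.mono hq, hz.mono hq⟩

theorem CPl1_val_eq (hr : InjN rN) {f : ℝ → ℝ → ℝ} {x y z : Name P} {p q : P} {s t : ℝ}
    (h : (LF P).val (opN rN f) x y z p) (hq : q ≤ p) (hx : EqF x (rN s) q)
    (hy : EqF y (rN t) q) : EqF z (rN (f s t)) q := by
  refine EqF.reg fun q' hq' => ?_
  obtain ⟨r, h0, s', t', h1, h2, h3⟩ := (val_opN rN).1 h q' (hq'.trans hq)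
  obtain rfl := hr _ _ _ (h1.symm.trans (hx.mono (h0.trans hq')))
  obtain rfl := hr _ _ _ (h2.symm.trans (hy.mono (h0.trans hq')))
  exact ⟨r, h0, h3⟩

theorem CPl1_app {x y : Name P} {p : P} {s t : ℝ} (hx : EqF x (rN s) p)
    (hy : EqF y (rN t) p) (h : s < t) : (LF P).app (ltN rN) x y p :=
  (app_ltN rN).2 fun q hq => ⟨q, le_rfl, s, t, h, hx.mono hq, hy.mono hq⟩

theorem CPl1_lt (hr : InjN rN) {x y : Name P} {p q : P} {s t : ℝ}
    (h : (LF P).app (ltN rN) x y p) (hq : q ≤ p) (hx : EqF x (rN s) q) (hy : EqF y (rN t) q) :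
    s < t := by
  obtain ⟨r, h0, s', t', h1, h2, h3⟩ := (app_ltN rN).1 h q hq
  obtain rfl := hr _ _ _ (h2.symm.trans (hx.mono h0))
  obtain rfl := hr _ _ _ (h3.symm.trans (hy.mono h0))
  exact h1

theorem mem_ivN (hr : InjN rN) {t ε t' : ℝ} {p : P} :
    MemF (rN t') (ivN rN t ε) p ↔ |t' - t| < ε := by
  refine ⟨fun h => ?_, fun h => memF_rName_of h⟩
  obtain ⟨r, -, s, h1, h2⟩ := (memF_rName fun _ _ _ h _ => h).1 h p le_rfl
  rwa [hr _ _ _ h2]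

theorem CPl1_mon (hr : InjN rN) {f : ℝ → ℝ → ℝ} {e : ℝ} (comm : ∀ s t, f s t = f t s)
    (assoc : ∀ s t u, f (f s t) u = f s (f t u)) (one : ∀ s, f s e = s) (p : P) :
    (LF P).isCommMon (realsN rN) (opN rN f) (rN e) p := by
  refine ⟨fun q _ => ⟨q, le_rfl,
    rName (fun a : ℝ × ℝ => pairN (rN a.1) (rN a.2)) fun _ _ => True, ?_, ?_, ?_, ?_⟩,
    rN_mem _ _ _, ?_, ?_, ?_⟩
  · intro x q1 _
    refine (memF_rName fun _ _ _ _ _ => trivial).trans ⟨fun h q2 h2 => ?_, fun h q2 h2 => ?_⟩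
    · obtain ⟨r, h3, a, -, h4⟩ := h q2 h2
      exact ⟨r, h3, rN a.1, fun q3 h5 =>
        ⟨q3, le_rfl, rN a.2, rN_mem _ _ _, rN_mem _ _ _, h4.mono h5⟩⟩
    · obtain ⟨r, h3, a, h4⟩ := h q2 h2
      obtain ⟨r1, h5, b, ha, hb, h6⟩ := h4 r le_rfl
      obtain ⟨r2, h7, s, hs⟩ := (mem_realsN rN).1 ha r1 le_rfl
      obtain ⟨r3, h8, t, ht⟩ := (mem_realsN rN).1 hb r2 h7
      exact ⟨r3, h8.trans (h7.trans (h5.trans h3)), (s, t), trivial,
        (EqF.mono h6 (h8.trans h7)).trans (pair_congr (hs.mono h8) ht)⟩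
  · intro x q1 _ h q2 h2
    obtain ⟨r, h3, a, -, h4⟩ := (memF_rName fun _ _ _ _ _ => trivial).1 h q2 h2
    exact ⟨r, h3, pairN (rN a.1) (rN a.2), fun q3 h5 => ⟨q3, le_rfl, rN (f a.1 a.2),
      memF_rName_of (A := fun a : ℝ × ℝ => pairN (rN a.1) (rN a.2)) trivial, rN_mem _ _ _,
      h4.mono h5⟩⟩
  · intro x q1 _ h q2 h2
    obtain ⟨r, h3, a, -, h4⟩ := (memF_rName fun _ _ _ _ _ => trivial).1 h q2 h2
    exact ⟨r, h3, rN (f a.1 a.2), MemF.congr_left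
      (CPl1_val (f := f) (EqF.refl _ _) (EqF.refl _ _) (EqF.refl _ _))
      (pair_congr h4.symm (EqF.refl _ _))⟩
  · intro x y y' q1 _ h q2 h2 h'
    refine EqF.reg fun q3 h3 => ?_
    obtain ⟨r, h4, a, -, h5⟩ := (memF_rName fun _ _ _ _ _ => trivial).1 h q3 (h3.trans h2)
    have h6 : (LF P).val (opN rN f) (rN a.1) (rN a.2) y' r :=
      MemF.congr_left (MemF.mono h' (h4.trans h3)) (pair_congr (pairN_inj1 h5) (EqF.refl _ _))
    exact ⟨r, h4, (pairN_inj2 h5).trans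
      (CPl1_val_eq hr h6 le_rfl (EqF.refl _ _) (EqF.refl _ _)).symm⟩
  · intro x y t q _ h
    refine (val_opN rN).2 fun q1 h1 => ?_
    obtain ⟨r, h2, a, b, ha, hb, hc⟩ := (val_opN rN).1 h q1 h1
    exact ⟨r, h2, b, a, hb, ha, comm a b ▸ hc⟩
  · intro x y w s t u q1 _ k1 q2 h2 k2 q3 h3 k3
    refine MemF.reg fun q4 h4 => ?_
    obtain ⟨r, h5, a, b, ha, hb, hc⟩ := (val_opN rN).1 k1 q4 (h4.trans (h3.trans h2))
    obtain ⟨r', h6, b', c, hb', hw, ht⟩ := (val_opN rN).1 k3 r (h5.trans h4)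
    obtain rfl := hr _ _ _ (hb'.symm.trans (hb.mono h6))
    have hu := CPl1_val_eq hr k2 (h6.trans (h5.trans (h4.trans h3))) (hc.mono h6) hw
    exact ⟨r', h6.trans h5, CPl1_val (ha.mono h6) ht (assoc _ _ _ ▸ hu)⟩
  · intro x q _ h
    refine MemF.reg fun q1 h1 => ?_
    obtain ⟨r, h2, a, ha⟩ := (mem_realsN rN).1 h q1 h1
    exact ⟨r, h2, CPl1_val ha (EqF.refl _ _) ((one a).symm ▸ ha)⟩

theorem CPl1_ub (hr : InjN rN) {S b : Name P} {p q : P} {s t : ℝ}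
    (h : (LF P).isUB (realsN rN) (ltN rN) S b p) (hq : q ≤ p) (hb : EqF b (rN s) q)
    (ht : MemF (rN t) S q) : t ≤ s :=
  not_lt.1 fun hlt => h.2 (rN t) q hq ht q le_rfl (CPl1_app hb (EqF.refl _ _) hlt)

theorem isReals_forced (hr : InjN rN)
    (sigma : ∀ s : ℕ → P, (∀ n, s (n + 1) ≤ s n) → ∃ q, ∀ n, q ≤ s n) (p : P) :
    (LF P).isReals (realsN rN) (opN rN (· + ·)) (opN rN (· * ·)) (ltN rN) (rN 0) (rN 1) p := by
  refine ⟨CPl1_mon hr add_comm add_assoc add_zero p, CPl1_mon hr mul_comm mul_assoc mul_one p,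
    fun q _ h => zero_ne_one (hr _ _ _ h), ?_, ?_, ?_, ?_, ?_, ?_, ?_, ?_, ?_, ?_⟩
  · intro x q _ h q1 h1
    obtain ⟨r, h2, a, ha⟩ := (mem_realsN rN).1 h q1 h1
    exact ⟨r, h2, rN (-a), CPl1_val ha (EqF.refl _ _)
      (by rw [add_neg_cancel]; exact EqF.refl _ _)⟩
  · intro x q _ h q1 h1 h0 q2 h2
    obtain ⟨r, h3, a, ha⟩ := (mem_realsN rN).1 h q2 (h2.trans h1)
    have a0 : a ≠ 0 := fun e => h0 r (h3.trans h2) (e ▸ ha)
    exact ⟨r, h3, rN a⁻¹, CPl1_val ha (EqF.refl _ _)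
      (by rw [mul_inv_cancel₀ a0]; exact EqF.refl _ _)⟩
  · intro x y w s t u v q1 _ k1 q2 h2 k2 q3 h3 k3 q4 h4 k4
    refine MemF.reg fun q5 h5 => ?_
    obtain ⟨r, h6, b, c, hb, hc, hs⟩ := (val_opN rN).1 k1 q5 (h5.trans (h4.trans (h3.trans h2)))
    obtain ⟨r', h7, a, b', ha, hb', ht⟩ := (val_opN rN).1 k2 r
      (h6.trans (h5.trans (h4.trans h3)))
    obtain rfl := hr _ _ _ (hb'.symm.trans (hb.mono h7))
    have hu := CPl1_val_eq hr k3 (h7.trans (h6.trans (h5.trans h4))) ha (hc.mono h7)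
    have hv := CPl1_val_eq hr k4 (h7.trans (h6.trans h5)) ht hu
    exact ⟨r', h7.trans h6, CPl1_val ha (hs.mono h7) (by rw [mul_add]; exact hv)⟩
  · intro x q _ h q1 h1
    obtain ⟨r, h2, a, -, h3⟩ := (memF_rName fun _ _ _ h _ => h).1 h q1 h1
    exact ⟨r, h2, rN a.1, fun q2 h4 =>
      ⟨q2, le_rfl, rN a.2, rN_mem _ _ _, rN_mem _ _ _, h3.mono h4⟩⟩
  · intro x q _ h
    obtain ⟨r, -, a, b, h1, ha, hb⟩ := (app_ltN rN).1 h q le_rfl
    exact h1.ne (hr _ _ _ (ha.symm.trans hb))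
  · intro x y w q1 _ k1 q2 h2 k2
    refine MemF.reg fun q3 h3 => ?_
    obtain ⟨r, h4, a, b, h5, ha, hb⟩ := (app_ltN rN).1 k1 q3 (h3.trans h2)
    obtain ⟨r', h6, b', c, h7, hb', hc⟩ := (app_ltN rN).1 k2 r (h4.trans h3)
    obtain rfl := hr _ _ _ (hb'.symm.trans (hb.mono h6))
    exact ⟨r', h6.trans h4, CPl1_app (ha.mono h6) hc (h5.trans h7)⟩
  · intro x y q1 _ k1 q2 h2 k2 q3 h3
    obtain ⟨r, h4, a, ha⟩ := (mem_realsN rN).1 k1 q3 (h3.trans h2)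
    obtain ⟨r', h5, b, hb⟩ := (mem_realsN rN).1 k2 r (h4.trans h3)
    refine ⟨r', h5.trans h4, ?_⟩
    rcases lt_trichotomy a b with h | rfl | h
    · exact Or.inl (CPl1_app (ha.mono h5) hb h)
    · exact Or.inr fun q4 h6 => ⟨q4, le_rfl, Or.inl (((ha.mono h5).trans hb.symm).mono h6)⟩
    · exact Or.inr fun q4 h6 => ⟨q4, le_rfl,
        Or.inr (CPl1_app (hb.mono h6) (ha.mono (h6.trans h5)) h)⟩
  · intro x y w s t q1 _ k1 q2 h2 k2 q3 h3 k3
    refine MemF.reg fun q4 h4 => ?_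
    obtain ⟨r, h5, a, c, ha, hc, hs⟩ := (val_opN rN).1 k2 q4 (h4.trans h3)
    obtain ⟨r', h6, b, c', hb, hc', ht⟩ := (val_opN rN).1 k3 r (h5.trans h4)
    obtain rfl := hr _ _ _ (hc'.symm.trans (hc.mono h6))
    have h7 := CPl1_lt hr k1 (h6.trans (h5.trans (h4.trans (h3.trans h2)))) (ha.mono h6) hb
    exact ⟨r', h6.trans h5, CPl1_app (hs.mono h6) ht (add_lt_add_left h7 _)⟩
  · intro x y t q1 _ k1 q2 h2 k2 q3 h3 k3
    refine MemF.reg fun q4 h4 => ?_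
    obtain ⟨r, h5, a, b, ha, hb, ht⟩ := (val_opN rN).1 k3 q4 h4
    have h6 := CPl1_lt hr k1 (h5.trans (h4.trans (h3.trans h2))) (EqF.refl _ _) ha
    have h7 := CPl1_lt hr k2 (h5.trans (h4.trans h3)) (EqF.refl _ _) hb
    exact ⟨r, h5, CPl1_app (EqF.refl _ _) ht (mul_pos h6 h7)⟩
  · intro S q1 _ k1 q2 h2 k2 q3 h3 k3 q4 h4
    obtain ⟨r1, a1, x, hx⟩ := k2 q4 (h4.trans h3)
    obtain ⟨r2, a2, t0, ht0⟩ := (mem_realsN rN).1
      (k1 x r1 (a1.trans (h4.trans (h3.trans h2))) hx) r1 le_rfl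
    obtain ⟨r3, a3, b, hb⟩ := k3 r2 (a2.trans (a1.trans h4))
    obtain ⟨r4, a4, b0, hb0⟩ := (mem_realsN rN).1 hb.1 r3 le_rfl
    obtain ⟨r, a5, hD⟩ := CPl1_gen sigma
      (fun u r => (∃ t : ℝ, u < t ∧ MemF (rN t) S r) ∨
        ∀ r' ≤ r, ∀ t : ℝ, u < t → ¬ MemF (rN t) S r')
      (fun u p q h hq => h.imp (fun ⟨t, h1, h2⟩ => ⟨t, h1, h2.mono hq⟩)
        fun h r' hr' => h r' (hr'.trans hq))
      (fun u p => by
        by_cases h : ∃ r' ≤ p, ∃ t : ℝ, u < t ∧ MemF (rN t) S r'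
        · obtain ⟨r', h1, h2⟩ := h
          exact ⟨r', h1, Or.inl h2⟩
        · exact ⟨p, le_rfl, Or.inr fun r' h1 t h2 h3 => h ⟨r', h1, t, h2, h3⟩⟩) r4
    let B : Set ℝ := {t | ∃ r' ≤ r, MemF (rN t) S r'}
    have bne : B.Nonempty := ⟨t0, r, le_rfl,
      ((MemF.mono hx a2).congr_left ht0).mono (a5.trans (a4.trans a3))⟩
    have bdd : BddAbove B := ⟨b0, fun t ⟨r', h1, h2⟩ =>
      CPl1_ub hr hb (h1.trans (a5.trans a4)) (hb0.mono (h1.trans a5)) h2⟩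
    refine ⟨r, a5.trans (a4.trans (a3.trans (a2.trans a1))), rN (sSup B),
      ⟨rN_mem _ _ _, fun y q5 h5 hy q6 h6 hl => ?_⟩, fun c q5 h5 hc q6 h6 hl => ?_⟩
    · obtain ⟨r', h7, s, t, h8, hs, ht⟩ := (app_ltN rN).1 hl q6 le_rfl
      obtain rfl := hr _ _ _ hs
      exact h8.not_ge (le_csSup bdd ⟨r', h7.trans (h6.trans h5),
        (MemF.mono hy (h7.trans h6)).congr_left ht⟩)
    · obtain ⟨r', h7, s, t, h8, hs, ht⟩ := (app_ltN rN).1 hl q6 le_rfl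
      obtain rfl := hr _ _ _ ht
      obtain ⟨u, h9, h10⟩ := exists_rat_btwn h8
      obtain ⟨t', ⟨r'', h11, h12⟩, h13⟩ := exists_lt_of_lt_csSup bne h10
      obtain ⟨t'', h14, h15⟩ := (hD u).resolve_right fun h => h r'' h11 t' h13 h12
      exact (h9.trans h14).not_ge
        (CPl1_ub hr hc (h7.trans h6) hs (h15.mono (h7.trans (h6.trans h5))))

/-- `ρ` is a name for the topology of the real line. -/
def RhoN (rN : ℝ → Name P) (ρ : Name P) : Prop :=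
  ∀ U p, MemF U ρ p ↔ (LF P).sub U (realsN rN) p ∧ OpenR rN U p

theorem exists_rho (hr : InjN rN) : ∃ ρ, RhoN rN ρ := by
  refine exists_pow (realsN rN) (OpenR rN) (fun U p q h hq r hr => h r (hr.trans hq))
    (fun U p h q hq t ht => ?_) fun U V p e h q hq t ht => ?_
  · obtain ⟨r, h1, h2⟩ := h q hq
    obtain ⟨r', h3, h4⟩ := h2 r le_rfl t (ht.mono h1)
    exact ⟨r', h3.trans h1, h4⟩
  · obtain ⟨r, h1, ε, h2, h3⟩ := h q hq t (ht.congr_right (e.mono hq).symm)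
    exact ⟨r, h1, ε, h2, fun t' h4 => (h3 t' h4).congr_right (e.mono (h1.trans hq))⟩

theorem RhoN.isOrderTop (hr : InjN rN) {ρ : Name P} (h : RhoN rN ρ) (p : P) :
    (LF P).isOrderTop (realsN rN) (ltN rN) ρ p := by
  intro U q _
  refine (h U q).trans (and_congr_right fun hs => ⟨fun ho => ?_, fun ho => ?_⟩)
  · intro x q1 h1 hx q2 h2
    obtain ⟨r, h3, t, ht⟩ := (mem_realsN rN).1 (hs x q1 h1 hx) q2 h2
    obtain ⟨r', h4, ε, h5, h6⟩ := ho r (h3.trans (h2.trans h1)) t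
      ((MemF.mono hx (h3.trans h2)).congr_left ht)
    refine ⟨r', h4.trans h3, rN (t - ε), fun q3 h7 => ⟨q3, le_rfl, rN (t + ε),
      CPl1_app (EqF.refl _ _) (ht.mono (h7.trans h4)) (sub_lt_self _ h5),
      CPl1_app (ht.mono (h7.trans h4)) (EqF.refl _ _) (lt_add_of_pos_right _ h5),
      fun y q4 h8 k1 q5 h9 k2 => MemF.reg fun q6 h10 => ?_⟩⟩
    obtain ⟨r2, h11, s, t', h12, hs', ht'⟩ := (app_ltN rN).1 k1 q6 (h10.trans h9)
    obtain rfl := hr _ _ _ hs'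
    have h13 := CPl1_lt hr k2 (h11.trans h10) ht' (EqF.refl _ _)
    exact ⟨r2, h11, ((h6 t' (abs_sub_lt_iff.2 ⟨sub_lt_iff_lt_add'.2 h13,
      sub_lt_comm.1 h12⟩)).mono (h11.trans (h10.trans (h9.trans (h8.trans h7))))).congr_left
      ht'.symm⟩
  · intro q1 h1 t ht
    obtain ⟨r1, a1, a, h2⟩ := ho (rN t) q1 h1 ht q1 le_rfl
    obtain ⟨r2, a2, b, k1, k2, k3⟩ := h2 r1 le_rfl
    obtain ⟨r3, a3, s1, t1, l1, hs1, ht1⟩ := (app_ltN rN).1 k1 r2 le_rfl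
    obtain rfl := hr _ _ _ ht1
    obtain ⟨r4, a4, t2, s2, l2, ht2, hs2⟩ := (app_ltN rN).1 k2 r3 a3
    obtain rfl := hr _ _ _ ht2
    refine ⟨r4, a4.trans (a3.trans (a2.trans a1)), min (t - s1) (s2 - t),
      lt_min (sub_pos.2 l1) (sub_pos.2 l2), fun t' h3 => ?_⟩
    obtain ⟨h4, h5⟩ := abs_sub_lt_iff.1 h3
    exact k3 (rN t') r4 (a4.trans a3) (CPl1_app (hs1.mono a4) (EqF.refl _ _)
      ((sub_lt_sub_iff_left t).1 (h5.trans_le (min_le_left _ _)))) r4 le_rfl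
      (CPl1_app (EqF.refl _ _) hs2 ((sub_lt_sub_iff_right t).1 (h4.trans_le (min_le_right _ _))))

theorem RhoN.iv (hr : InjN rN) {ρ : Name P} (h : RhoN rN ρ) (t ε : ℝ) (p : P) :
    MemF (ivN rN t ε) ρ p := by
  refine (h _ p).2 ⟨fun x q _ hx => (mem_realsN rN).2 fun q1 h1 => ?_, fun q _ t' ht => ?_⟩
  · obtain ⟨r, h2, s, -, h3⟩ := (memF_rName fun _ _ _ h _ => h).1 hx q1 h1
    exact ⟨r, h2, s, h3⟩
  · have h1 := (mem_ivN hr).1 ht
    exact ⟨q, le_rfl, ε - |t' - t|, sub_pos.2 h1, fun s hs => (mem_ivN hr).2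
      ((abs_sub_le s t' t).trans_lt (lt_sub_iff_add_lt.1 hs))⟩

end reals

end Pool.Agent.Work.MP_f50f0f_gt
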