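import Pool.Agent.Work.MP_f50f0f_gt.CPl1

/-! Names for the topology of pointwise convergence. -/

namespace Pool.Agent.Work.MP_f50f0f_gt
open Pool.Agent.Lib.ZFModel Name

variable {P : Type} [Preorder P]

/-- `p` forces that `U` is open in the topology of pointwise convergence on the set `A` of real
functions on `X`. -/
def PwO (rN : ℝ → Name P) (A X U : Name P) (p : P) : Prop :=
  ∀ q ≤ p, ∀ f, MemF f U q → ∃ r ≤ q, ∃ (l : List (Name P)) (ε : ℝ), 0 < ε ∧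
    (∀ x ∈ l, MemF x X r ∧ ∃ t, (LF P).app f x (rN t) r) ∧
    ∀ r' ≤ r, ∀ g, MemF g A r' →
      (∀ x ∈ l, ∃ t t', (LF P).app f x (rN t) r' ∧ (LF P).app g x (rN t') r' ∧ |t - t'| < ε) →
      MemF g U r'

/-- `π` is a name for the topology of pointwise convergence. -/
def PwN (rN : ℝ → Name P) (A X π : Name P) : Prop :=
  ∀ U p, MemF U π p ↔ (LF P).sub U A p ∧ PwO rN A X U p

variable {rN : ℝ → Name P}

theorem CPl2_fn {f X R x y y' : Name P} {p q : P} (hf : (LF P).isFun f X R p) (hq : q ≤ p)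
    (h : MemF (pairN x y) f q) (h' : MemF (pairN x y') f q) : EqF y y' q :=
  hf.2.2 x y y' q hq h q le_rfl h'

theorem CPl2_val {f X x : Name P} {p q : P} (hf : (LF P).isFun f X (realsN rN) p) (hq : q ≤ p)
    (hx : MemF x X q) : ∃ r ≤ q, ∃ t, MemF (pairN x (rN t)) f r := by
  obtain ⟨r, hr, y, hy⟩ := hf.2.1 x q hq hx q le_rfl
  obtain ⟨r1, hr1, x', h1⟩ := hf.1 (pairN x y) r (hr.trans hq) hy r le_rfl
  obtain ⟨r2, hr2, y', -, h2, h3⟩ := h1 r1 le_rfl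
  obtain ⟨r3, hr3, t, h4⟩ := (mem_realsN rN).1 h2 r2 le_rfl
  refine ⟨r3, hr3.trans (hr2.trans (hr1.trans hr)), t, ?_⟩
  exact (MemF.mono hy (hr3.trans (hr2.trans hr1))).congr_left
    (pair_congr (EqF.refl _ _) (((pairN_inj2 h3).mono hr3).trans h4))

theorem CPl2_vals {f X : Name P} {p : P} (hf : (LF P).isFun f X (realsN rN) p)
    (l : List (Name P)) : ∀ q ≤ p, (∀ x ∈ l, MemF x X q) →
      ∃ r ≤ q, ∀ x ∈ l, ∃ t, MemF (pairN x (rN t)) f r := by
  induction l with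
  | nil => exact fun q _ _ => ⟨q, le_rfl, fun x hx => absurd hx List.not_mem_nil⟩
  | cons a l ih =>
    intro q hq hl
    obtain ⟨r, hr, t, ht⟩ := CPl2_val hf hq (hl a List.mem_cons_self)
    obtain ⟨r', hr', h⟩ := ih r (hr.trans hq) fun x hx =>
      (hl x (List.mem_cons_of_mem a hx)).mono hr
    refine ⟨r', hr'.trans hr, fun x hx => ?_⟩
    rcases List.mem_cons.1 hx with rfl | hx
    · exact ⟨t, ht.mono hr'⟩
    · exact h x hx

theorem CPl2_box {ρ X F f : Name P} {p : P} (hρ : RhoN rN ρ)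
    (hf : (LF P).isFun f X (realsN rN) p)
    (hF : ∀ z, ∀ s ≤ p, MemF z F s → ∀ s1 ≤ s, ∃ s2 ≤ s1, ∃ x, ∀ s3 ≤ s2, ∃ s4 ≤ s3, ∃ V,
      MemF x X s4 ∧ MemF V ρ s4 ∧ EqF z (pairN x V) s4)
    (hb : (LF P).inBox F f p) (l0 : List (Name P)) : ∀ q ≤ p, (∀ y ∈ l0, MemF y F q) →
      ∃ r ≤ q, ∃ (l : List (Name P)) (ε : ℝ), 0 < ε ∧
        (∀ x ∈ l, MemF x X r ∧ ∃ t, MemF (pairN x (rN t)) f r) ∧
        ∀ y ∈ l0, ∃ x ∈ l, ∃ V t, EqF y (pairN x V) r ∧ MemF (pairN x (rN t)) f r ∧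
          ∀ t', |t' - t| < ε → MemF (rN t') V r := by
  induction l0 with
  | nil =>
    exact fun q _ _ => ⟨q, le_rfl, [], 1, one_pos, fun x hx => absurd hx List.not_mem_nil,
      fun x hx => absurd hx List.not_mem_nil⟩
  | cons a l0 ih =>
    intro q hq hl
    have ha := hl a List.mem_cons_self
    obtain ⟨s2, hs2, x, h1⟩ := hF a q hq ha q le_rfl
    obtain ⟨s4, hs4, V, hx, hV, he⟩ := h1 s2 le_rfl
    have hs4q : s4 ≤ q := hs4.trans hs2
    obtain ⟨s5, hs5, t, ht⟩ := CPl2_val hf (hs4q.trans hq) hx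
    have hs5p : s5 ≤ p := hs5.trans (hs4q.trans hq)
    have htV : MemF (rN t) V s5 :=
      hb x V (rN t) s5 hs5p (((ha.mono hs4q).congr_left he).mono hs5) s5 le_rfl ht
    obtain ⟨s6, hs6, ε, hε, hint⟩ := ((hρ V s4).1 hV).2 s5 hs5 t htV
    have hs6q : s6 ≤ q := hs6.trans (hs5.trans hs4q)
    obtain ⟨r, hr, l, ε', hε', h2, h3⟩ := ih s6 (hs6q.trans hq) fun y hy =>
      (hl y (List.mem_cons_of_mem a hy)).mono hs6q
    have hr5 : r ≤ s5 := hr.trans hs6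
    refine ⟨r, hr.trans hs6q, x :: l, min ε ε', lt_min hε hε', fun z hz => ?_, fun y hy => ?_⟩
    · rcases List.mem_cons.1 hz with rfl | hz
      · exact ⟨hx.mono (hr5.trans hs5), t, ht.mono hr5⟩
      · exact h2 z hz
    · rcases List.mem_cons.1 hy with rfl | hy
      · exact ⟨x, List.mem_cons_self, V, t, EqF.mono he (hr5.trans hs5), ht.mono hr5,
          fun t' ht' => (hint t' (ht'.trans_le (min_le_left _ _))).mono hr⟩
      · obtain ⟨z, hz, W, u, h4, h5, h6⟩ := h3 y hy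
        exact ⟨z, List.mem_cons_of_mem x hz, W, u, h4, h5,
          fun t' ht' => h6 t' (ht'.trans_le (min_le_right _ _))⟩

theorem exists_pw (hr : InjN rN) (A X : Name P)
    (hA : ∀ f p, MemF f A p → (LF P).isFun f X (realsN rN) p) : ∃ π, PwN rN A X π := by
  refine exists_pow A (PwO rN A X) (fun U p q h hq r hr => h r (hr.trans hq)) ?_ ?_
  · intro U p h q hq f hf
    obtain ⟨r, hr, h1⟩ := h q hq
    obtain ⟨s, hs, h2⟩ := h1 r le_rfl f (hf.mono hr)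
    exact ⟨s, hs.trans hr, h2⟩
  · intro U V p he h q hq f hf
    obtain ⟨r, hr, l, ε, hε, h1, h2⟩ := h q hq f (hf.congr_right (he.mono hq).symm)
    exact ⟨r, hr, l, ε, hε, h1, fun r' hr' g hg h3 =>
      (h2 r' hr' g hg h3).congr_right (he.mono (hr'.trans (hr.trans hq)))⟩

theorem PwN.isPw (hr : InjN rN) {ρ A X π : Name P} (hρ : RhoN rN ρ)
    (hA : ∀ f p, MemF f A p → (LF P).isFun f X (realsN rN) p) (h : PwN rN A X π) (p : P) :
    (LF P).isPw A X ρ π p := by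
  intro U q _
  refine (h U q).trans (and_congr_right fun hsub => ⟨?_, ?_⟩)
  · intro hU f q1 hq1 hf q2 hq2
    have hff := hA f q1 (hsub f q1 hq1 hf)
    obtain ⟨r, hr1, l, ε, hε, h1, h2⟩ := hU q2 (hq2.trans hq1) f (MemF.mono hf hq2)
    have hrq1 : r ≤ q1 := hr1.trans hq2
    have hex : ∀ x, ∃ t, x ∈ l → MemF (pairN x (rN t)) f r := by
      intro x
      by_cases hx : x ∈ l
      · obtain ⟨t, ht⟩ := (h1 x hx).2
        exact ⟨t, fun _ => ht⟩
      · exact ⟨0, fun hx' => absurd hx' hx⟩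
    choose t ht using hex
    have hmem : ∀ z s, MemF z (setN (l.map fun x => pairN x (ivN rN (t x) ε))) s →
        ∀ s1 ≤ s, ∃ s2 ≤ s1, ∃ x ∈ l, EqF z (pairN x (ivN rN (t x) ε)) s2 := by
      intro z s hz s1 hs1
      obtain ⟨s2, hs2, y, hy, he⟩ := memF_setN.1 hz s1 hs1
      obtain ⟨x, hx, rfl⟩ := List.mem_map.1 hy
      exact ⟨s2, hs2, x, hx, he⟩
    refine ⟨r, hr1, setN (l.map fun x => pairN x (ivN rN (t x) ε)),
      fun s _ => ⟨s, le_rfl, _, EqF.refl _ _⟩, ?_, ?_, ?_⟩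
    · intro z s hs hz s1 hs1
      obtain ⟨s2, hs2, x, hx, he⟩ := hmem z s hz s1 hs1
      exact ⟨s2, hs2, x, fun s3 hs3 => ⟨s3, le_rfl, _,
        (h1 x hx).1.mono (hs3.trans (hs2.trans (hs1.trans hs))), hρ.iv hr (t x) ε s3,
        he.mono hs3⟩⟩
    · intro x V y s hs hxV s1 hs1 hxy
      refine MemF.reg fun s2 hs2 => ?_
      obtain ⟨s3, hs3, x0, hx0, he⟩ := hmem _ s hxV s2 (hs2.trans hs1)
      have hs3r : s3 ≤ r := hs3.trans (hs2.trans (hs1.trans hs))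
      have e1 : EqF (rN (t x0)) y s3 := CPl2_fn hff (hs3r.trans hrq1) ((ht x0 hx0).mono hs3r)
        ((MemF.mono hxy (hs3.trans hs2)).congr_left (pair_congr (pairN_inj1 he) (EqF.refl _ _)))
      have e2 : MemF (rN (t x0)) (ivN rN (t x0) ε) s3 := (mem_ivN hr).2 (by simpa using hε)
      exact ⟨s3, hs3, (e2.congr_left e1).congr_right (pairN_inj2 he).symm⟩
    · intro g s hs hg s1 hs1 hb
      refine MemF.reg fun s2 hs2 => ?_
      have hs2r : s2 ≤ r := hs2.trans (hs1.trans hs)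
      obtain ⟨s3, hs3, h3⟩ := CPl2_vals (hA g s hg) l s2 (hs2.trans hs1) fun x hx =>
        (h1 x hx).1.mono hs2r
      refine ⟨s3, hs3, h2 s3 (hs3.trans hs2r) g (MemF.mono hg (hs3.trans (hs2.trans hs1)))
        fun x hx => ?_⟩
      obtain ⟨t', ht'⟩ := h3 x hx
      refine ⟨t x, t', (ht x hx).mono (hs3.trans hs2r), ht', ?_⟩
      rw [abs_sub_comm]
      refine (mem_ivN hr).1 (hb x (ivN rN (t x) ε) (rN t') s3 (hs3.trans hs2) ?_ s3 le_rfl ht')
      exact memF_setN.2 fun s4 _ => ⟨s4, le_rfl, _, List.mem_map.2 ⟨x, hx, rfl⟩, EqF.refl _ _⟩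
  · intro hU q1 hq1 f hf
    have hff := hA f q1 (hsub f q1 hq1 hf)
    obtain ⟨r, hr1, F, hfin, hF, hb, hlast⟩ := hU f q1 hq1 hf q1 le_rfl
    obtain ⟨r1, hr2, l0, he0⟩ := hfin r le_rfl
    have hffr : (LF P).isFun f X (realsN rN) r := hA f r (hsub f r (hr1.trans hq1) (hf.mono hr1))
    obtain ⟨r2, hr3, l, ε, hε, h1, h2⟩ := CPl2_box hρ hffr hF hb l0 r1 hr2 fun y hy =>
      (memF_setN.2 fun s _ => ⟨s, le_rfl, y, hy, EqF.refl _ _⟩).congr_right he0.symm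
    refine ⟨r2, hr3.trans (hr2.trans hr1), l, ε, hε, h1, fun r' hr' g hg h3 => ?_⟩
    have hr'r : r' ≤ r := hr'.trans (hr3.trans hr2)
    refine hlast g r' hr'r hg r' le_rfl ?_
    intro x V y s hs hxV s1 hs1 hxy
    refine MemF.reg fun s2 hs2 => ?_
    obtain ⟨s3, hs3, y0, hy0, he⟩ := memF_setN.1
      (MemF.congr_right hxV (he0.mono (hs.trans (hr'.trans hr3)))) s2 (hs2.trans hs1)
    have hs3r' : s3 ≤ r' := hs3.trans (hs2.trans (hs1.trans hs))
    obtain ⟨x0, hx0, V0, t, h4, h5, h6⟩ := h2 y0 hy0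
    have he1 := he.trans (h4.mono (hs3r'.trans hr'))
    obtain ⟨t1, t2, h7, h8, h9⟩ := h3 x0 hx0
    have e0 : t = t1 := hr t t1 r' (CPl2_fn hffr hr'r (h5.mono hr') h7)
    subst e0
    have e1 : EqF (rN t2) y s3 := CPl2_fn (hA g r' hg) hs3r' (MemF.mono h8 hs3r')
      ((MemF.mono hxy (hs3.trans hs2)).congr_left (pair_congr (pairN_inj1 he1) (EqF.refl _ _)))
    have e2 := (h6 t2 (by rwa [abs_sub_comm])).mono (hs3r'.trans hr')
    exact ⟨s3, hs3, (e2.congr_left e1).congr_right (pairN_inj2 he1).symm⟩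

end Pool.Agent.Work.MP_f50f0f_gt
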