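import Pool.Agent.Work.MP_f50f0f_gt.CPl2
import Pool.Agent.Work.MP_f50f0f_gt.CPl3

/-! Closed subspaces of the function space are forced to be separable. -/

namespace Pool.Agent.Work.MP_f50f0f_gt
open Pool.Agent.Lib.ZFModel Name

variable {P Pt Nc : Type} [Preorder P] {b : Base P Pt Nc} {rN : ℝ → Name P} {xN : Pt → Name P}

/-- A countable family of names gives a name for a countable set. -/
theorem isCountable_rName {ι : Type} [Countable ι] (A : ι → Name P) (p : P) :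
    (LF P).isCountable (rName A fun _ _ => True) p := by
  classical
  obtain ⟨c, hc⟩ := Countable.exists_injective_nat ι
  let R : ι → P → Prop := fun i s => ∀ j, c j < c i → ∀ r ≤ s, ¬ EqF (A i) (A j) r
  have hR : ∀ i p q, R i p → q ≤ p → R i q := fun i p q h hq j hj r hr => h j hj r (hr.trans hq)
  let F : Name P := rName (fun i => pairN (A i) (natN (c i))) R
  have hF : ∀ {z : Name P} {s : P}, MemF z F s →
      ∀ q ≤ s, ∃ r ≤ q, ∃ i, R i r ∧ EqF z (pairN (A i) (natN (c i))) r :=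
    fun h => (memF_rName hR).1 h
  refine fun q _ => ⟨q, le_rfl, omegaN, fun q1 _ => ⟨q1, le_rfl, F, EqF.refl _ _, ⟨?_, ?_, ?_⟩, ?_⟩⟩
  · intro z s _ hz s1 hs1
    obtain ⟨r, hr, i, -, h⟩ := hF hz s1 hs1
    exact ⟨r, hr, A i, fun r1 hr1 => ⟨r1, le_rfl, natN (c i), memF_rName_of trivial,
      memF_rName_of trivial, h.mono hr1⟩⟩
  · intro x s _ hx s1 hs1
    have hex : ∃ n, ∃ r ≤ s1, ∃ i, c i = n ∧ EqF x (A i) r := by
      obtain ⟨r, hr, i, -, h⟩ := (memF_rName fun _ _ _ _ _ => trivial).1 hx s1 hs1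
      exact ⟨_, r, hr, i, rfl, h⟩
    obtain ⟨r, hr, i, hi, h⟩ := Nat.find_spec hex
    have hRi : R i r := fun j hj r' hr' h' =>
      Nat.find_min hex (hi ▸ hj) ⟨r', hr'.trans hr, j, rfl, (h.mono hr').trans h'⟩
    exact ⟨r, hr, natN (c i), (memF_rName_of (A := fun i => pairN (A i) (natN (c i))) hRi).congr_left
      (pair_congr h.symm (EqF.refl _ _))⟩
  · intro x y y' s _ h1 s1 hs1 h2
    refine EqF.reg fun s2 hs2 => ?_
    obtain ⟨r, hr, i, hi, e1⟩ := hF h1 s2 (hs2.trans hs1)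
    obtain ⟨r', hr', j, hj, e2⟩ := hF h2 r (hr.trans hs2)
    have e3 : EqF (A i) (A j) r' := ((pairN_inj1 e1).mono hr').symm.trans (pairN_inj1 e2)
    have e4 : c i = c j := by
      rcases lt_trichotomy (c i) (c j) with h | h | h
      · exact absurd e3.symm (hj i h r' le_rfl)
      · exact h
      · exact absurd e3 (hi j h r' hr')
    exact ⟨r', hr'.trans hr, ((pairN_inj2 e1).mono hr').trans (e4 ▸ (pairN_inj2 e2).symm)⟩
  · intro x x' y s _ h1 s1 hs1 h2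
    refine EqF.reg fun s2 hs2 => ?_
    obtain ⟨r, hr, i, -, e1⟩ := hF h1 s2 (hs2.trans hs1)
    obtain ⟨r', hr', j, -, e2⟩ := hF h2 r (hr.trans hs2)
    obtain rfl : i = j := hc (natN_inj (((pairN_inj2 e1).mono hr').symm.trans (pairN_inj2 e2)))
    exact ⟨r', hr'.trans hr, ((pairN_inj1 e1).mono hr').trans (pairN_inj1 e2).symm⟩

/-- Finitely many names of points can be decided. -/
theorem CPl4_pts (top : b.Top) (l : List (Name P)) {s : P} (h : ∀ x ∈ l, MemF x (spN b xN) s) :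
    ∃ r ≤ s, ∃ Z : Finset Pt, (∀ y ∈ Z, b.mem y r) ∧ ∀ x ∈ l, ∃ y ∈ Z, EqF x (xN y) r := by
  classical
  induction l with
  | nil => exact ⟨s, le_rfl, ∅, by simp, by simp⟩
  | cons a l ih =>
    obtain ⟨r, hr, Z, h1, h2⟩ := ih fun x hx => h x (List.mem_cons_of_mem _ hx)
    obtain ⟨r', hr', y, h3, h4⟩ := (mem_spN top).1 (h a List.mem_cons_self) r hr
    refine ⟨r', hr'.trans hr, insert y Z, fun z hz => ?_, fun x hx => ?_⟩
    · rcases Finset.mem_insert.1 hz with rfl | hz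
      · exact h3
      · exact top.mem_mono _ _ _ (h1 z hz) hr'
    · rcases List.mem_cons.1 hx with rfl | hx
      · exact ⟨y, Finset.mem_insert_self _ _, h4⟩
      · obtain ⟨z, hz, h5⟩ := h2 x hx
        exact ⟨z, Finset.mem_insert_of_mem hz, h5.mono hr'⟩

/-- Closeness on decided points in terms of names. -/
theorem CPl4_near (top : b.Top) (hr : InjN rN) (hx : InjN xN) {L : Nm P Pt} {p s : P}
    (hL : b.CF L p) {g : Name P} {Z : Finset Pt} {ε : ℝ} (hn : Near L (valOf rN xN g) Z ε s)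
    {x : Name P} {y : Pt} (hy : y ∈ Z) (hm : b.mem y s) (he : EqF x (xN y) s) :
    ∃ t t', (LF P).app (fN b rN xN L) x (rN t) s ∧ (LF P).app g x (rN t') s ∧ |t - t'| < ε := by
  obtain ⟨t, t', h1, h2, h3⟩ := hn y hy
  have h4 : valOf rN xN (fN b rN xN L) y t s := (valOf_fN top hr hx hL).2 fun q hq =>
    ⟨q, le_rfl, top.mem_mono _ _ _ hm hq, hL.mono _ _ _ _ h1 hq⟩
  exact ⟨t, t', MemF.congr_left h4 (pair_congr he.symm (EqF.refl _ _)),
    MemF.congr_left h2 (pair_congr he.symm (EqF.refl _ _)), h3⟩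

theorem closedSep_forced (top : b.Top) (hs : b.HStar) (hr : InjN rN) (hx : InjN xN)
    {C π : Name P} (hC : CN b rN xN C) (hπ : PwN rN C (spN b xN) π) (p : P) :
    (LF P).closedSep C π p := by
  intro S q _ hcl q' hq'
  have hSC : ∀ f, ∀ s ≤ q, MemF f S s → MemF f C s := hcl.1
  obtain ⟨r0, hr0, U0, hU0, hU0'⟩ := hcl.2 q' hq'
  replace hU0' : ∀ x, ∀ s ≤ r0, (MemF x U0 s ↔ MemF x C s ∧ ∀ s' ≤ s, ¬ MemF x S s') := hU0'
  obtain ⟨p', hp', 𝓛, hcount, H1, H2⟩ := hs r0 (fun e s => ∃ f, MemF f S s ∧ e = valOf rN xN f)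
    (fun e s s' ⟨f, h1, h2⟩ h => ⟨f, h1.mono h, h2⟩)
    (fun e s h ⟨f, h1, h2⟩ => h2 ▸ hC.cf f s (hSC f s (h.trans (hr0.trans hq')) h1))
  have := hcount.to_subtype
  have key : ∀ L ∈ 𝓛, MemF (fN b rN xN L) S p' := by
    intro L hL
    refine MemF.reg fun s hs => ?_
    by_contra hn
    have h1 : MemF (fN b rN xN L) U0 s := (hU0' _ s (hs.trans hp')).2
      ⟨hC.mem L s ((H1 L hL).1.le hs), fun s' hs' h => hn ⟨s', hs', h⟩⟩
    obtain ⟨r, hrs, l, ε, hε, h2, h3⟩ := ((hπ U0 r0).1 hU0).2 s (hs.trans hp') _ h1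
    obtain ⟨r', hr', Z, h4, h5⟩ := CPl4_pts top l fun x hx => (h2 x hx).1
    obtain ⟨s', hs', e, ⟨g, hg, rfl⟩, h6⟩ := (H1 L hL).2 r' (hr'.trans (hrs.trans hs)) Z h4 ε hε
    have h7 : s' ≤ r0 := hs'.trans (hr'.trans (hrs.trans (hs.trans hp')))
    have h8 : MemF g U0 s' := h3 s' (hs'.trans hr') g (hSC g s' (h7.trans (hr0.trans hq')) hg)
      fun x hxl => by
        obtain ⟨y, hy, h9⟩ := h5 x hxl
        exact CPl4_near top hr hx (H1 L hL).1 h6 hy (top.mem_mono _ _ _ (h4 y hy) hs')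
          (h9.mono hs')
    exact ((hU0' g s' h7).1 h8).2 s' le_rfl hg
  refine ⟨p', hp'.trans hr0, rName (fun L : 𝓛 => fN b rN xN L.1) fun _ _ => True,
    isCountable_rName _ _, ?_, ?_⟩
  · intro x s hs hxD
    refine MemF.reg fun s1 hs1 => ?_
    obtain ⟨r, hr1, L, -, h⟩ := (memF_rName fun _ _ _ _ _ => trivial).1 hxD s1 hs1
    exact ⟨r, hr1, ((key L.1 L.2).mono (hr1.trans (hs1.trans hs))).congr_left h.symm⟩
  · intro U r1 hr1 hU r2 hr2 hex s hs2
    obtain ⟨r, hrs, f, hfU, hfS⟩ := hex s hs2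
    have h0 : r ≤ r1 := hrs.trans (hs2.trans hr2)
    obtain ⟨r3, hr3, l, ε, hε, h2, h3⟩ := ((hπ U r1).1 hU).2 r h0 f hfU
    obtain ⟨r', hr', Z, h4, h5⟩ := CPl4_pts top l fun x hx => (h2 x hx).1
    have h1 : r' ≤ p' := hr'.trans (hr3.trans (h0.trans hr1))
    obtain ⟨s', hs', L, hL, h6⟩ := H2 r' h1 _ ⟨f, MemF.mono hfS (hr'.trans hr3), rfl⟩ Z h4 ε hε
    refine ⟨s', hs'.trans (hr'.trans (hr3.trans hrs)), fN b rN xN L,
      h3 s' (hs'.trans hr') _ (hC.mem L s' ((H1 L hL).1.le (hs'.trans h1))) fun x hxl => ?_,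
      memF_rName_of (A := fun L : 𝓛 => fN b rN xN L.1) (i := ⟨L, hL⟩) trivial⟩
    obtain ⟨y, hy, h9⟩ := h5 x hxl
    obtain ⟨t, t', a1, a2, a3⟩ := CPl4_near top hr hx (H1 L hL).1 h6 hy
      (top.mem_mono _ _ _ (h4 y hy) hs') (h9.mono hs')
    exact ⟨t', t, a2, a1, by rwa [abs_sub_comm]⟩

end Pool.Agent.Work.MP_f50f0f_gt
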