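import Pool.Agent.Work.MP_f50f0f_gt.CAv
import Mathlib.Data.ENat.Basic

/-! Points, coordinate functions, neighbourhoods and dense open sets of coordinate functions. -/

namespace Pool.Agent.Work.MP_f50f0f_gt
open Function Set

/-- Points: a height, a branch of the binary tree and a label. -/
@[ext] structure Pt where
  h : ℕ∞
  a : G2
  g : Lb

/-- Values of a coordinate function: a marker and a point of the square. -/
abbrev Vl : Type := ℕ × D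
/-- Coordinate functions. -/
abbrev Co : Type := Pt → Vl

def pt (j : ℕ) (a : G2) (c : Lb) : Pt := ⟨j, a, c⟩
def root (c : Lb) : Pt := pt 0 a0 c

/-- Admissible coordinate functions. -/
def Good (u : Co) : Prop :=
  (∀ y, IsRat (u y).2) ∧ ∀ c, (u (root c)).1 ≠ 0 → ∀ j, 1 ≤ j → Con j fun a => (u (pt j a c)).2

theorem good_zero : Good 0 := ⟨fun _ => isRat_zero, fun _ h => absurd rfl h⟩

/-- The points with labels in `P` (fibres) and `B` (points of infinite height). -/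
def pts (P B : Set Lb) (ab : Lb → G2) : Set Pt :=
  {y | (∃ j : ℕ, y.h = j ∧ nrm j y.a ∧ y.g ∈ P) ∨ (y.h = ⊤ ∧ y.g ∈ B ∧ y.a = ab y.g)}

theorem pt_mem {P B : Set Lb} {ab : Lb → G2} {j : ℕ} {a : G2} {c : Lb} :
    pt j a c ∈ pts P B ab ↔ nrm j a ∧ c ∈ P := by
  constructor
  · rintro (⟨j', h1, h2, h3⟩ | ⟨h1, -⟩)
    · obtain rfl : j = j' := by simpa [pt] using h1
      exact ⟨h2, h3⟩
    · simp [pt] at h1
  · exact fun h => Or.inl ⟨j, rfl, h.1, h.2⟩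

theorem top_mem {P B : Set Lb} {ab : Lb → G2} {a : G2} {c : Lb} :
    (⟨⊤, a, c⟩ : Pt) ∈ pts P B ab ↔ c ∈ B ∧ a = ab c := by
  constructor
  · rintro (⟨j', h1, -⟩ | ⟨-, h1⟩)
    · simp at h1
    · exact h1
  · exact fun h => Or.inr ⟨rfl, h⟩

theorem pts_cases {P B : Set Lb} {ab : Lb → G2} {y : Pt} (h : y ∈ pts P B ab) :
    (∃ j a c, y = pt j a c ∧ nrm j a ∧ c ∈ P) ∨ ∃ c ∈ B, y = ⟨⊤, ab c, c⟩ := by
  obtain ⟨h', a, c⟩ := y
  rcases h with ⟨j, h1, h2, h3⟩ | ⟨h1, h2, h3⟩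
  · exact Or.inl ⟨j, a, c, by simp only at h1; rw [h1]; rfl, h2, h3⟩
  · exact Or.inr ⟨c, h2, by simp only at h1 h3; rw [h1, h3]⟩

theorem countable_pts {P B : Set Lb} (hP : P.Countable) (hB : B.Countable) (ab : Lb → G2) :
    (pts P B ab).Countable := by
  have h1 : (⋃ j : ℕ, Set.image2 (pt j) {a | nrm j a} P).Countable :=
    countable_iUnion fun j => (finite_nrm j).countable.image2 hP _
  refine (h1.union (hB.image fun c => (⟨⊤, ab c, c⟩ : Pt))).mono fun y hy => ?_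
  rcases pts_cases hy with ⟨j, a, c, rfl, h2, h3⟩ | ⟨c, hc, rfl⟩
  · exact Or.inl (mem_iUnion.2 ⟨j, a, h2, c, h3, rfl⟩)
  · exact Or.inr ⟨c, hc, rfl⟩

/-- Points of finite height sit at nodes. -/
def Reg (x : Pt) : Prop := ∀ j : ℕ, x.h = j → nrm j x.a

theorem CPts_cases (x : Pt) : x.h = ⊤ ∨ ∃ j : ℕ, x.h = j := by
  rcases eq_or_ne x.h ⊤ with h | h
  · exact Or.inl h
  · exact Or.inr ⟨x.h.toNat, (ENat.natCast_toNat h).symm⟩

theorem CPts_eq_pt {x : Pt} {j : ℕ} (h : x.h = j) : x = pt j x.a x.g := Pt.ext h rfl rfl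

theorem CPts_reg_top {x : Pt} (h : x.h = ⊤) : Reg x := fun j hj =>
  absurd (h.symm.trans hj) (ENat.top_ne_natCast j)

theorem CPts_reg_pt {j : ℕ} {a : G2} {c : Lb} (h : nrm j a) : Reg (pt j a c) := by
  intro j' hj'
  obtain rfl : j = j' := by simpa [pt] using hj'
  exact h

theorem reg_of_mem {P B : Set Lb} {ab : Lb → G2} {y : Pt} (h : y ∈ pts P B ab) : Reg y := by
  rcases pts_cases h with ⟨j, a, c, rfl, h2, -⟩ | ⟨c, -, rfl⟩
  · exact CPts_reg_pt h2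
  · exact CPts_reg_top rfl

/-- The points that the neighbourhoods of `x` look at. -/
def dn (x : Pt) : Set Pt :=
  {y | (x.h = ⊤ ∧ y = x) ∨ ∃ (j : ℕ) (a : G2), (j : ℕ∞) ≤ x.h ∧ x.h ≠ ⊤ ∧ nrm j a ∧ y = pt j a x.g}

theorem CPts_dn_top {x : Pt} (h : x.h = ⊤) : dn x = {x} := by
  ext y
  constructor
  · rintro (⟨-, h1⟩ | ⟨j, a, -, h1, -⟩)
    · exact h1
    · exact absurd h h1
  · exact fun h1 => Or.inl ⟨h, h1⟩

theorem CPts_dn_fin {x y : Pt} {j : ℕ} (h : x.h = j) :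
    y ∈ dn x ↔ ∃ j' a, j' ≤ j ∧ nrm j' a ∧ y = pt j' a x.g := by
  constructor
  · rintro (⟨h1, -⟩ | ⟨j', a, h1, -, h2, h3⟩)
    · exact absurd (h1.symm.trans h) (ENat.top_ne_natCast j)
    · rw [h] at h1
      exact ⟨j', a, Nat.cast_le.1 h1, h2, h3⟩
  · rintro ⟨j', a, h1, h2, h3⟩
    exact Or.inr ⟨j', a, by rw [h]; exact Nat.cast_le.2 h1, by rw [h]; exact ENat.natCast_ne_top j,
      h2, h3⟩

theorem finite_dn (x : Pt) : (dn x).Finite := by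
  rcases CPts_cases x with hx | ⟨j, hx⟩
  · rw [CPts_dn_top hx]
    exact finite_singleton x
  · refine ((finite_le_nat j).biUnion fun j' _ =>
      (finite_nrm j').image fun a => pt j' a x.g).subset fun y hy => ?_
    obtain ⟨j', a, h1, h2, rfl⟩ := (CPts_dn_fin hx).1 hy
    exact mem_biUnion h1 ⟨a, h2, rfl⟩

theorem mem_dn_self {x : Pt} (h : Reg x) : x ∈ dn x := by
  rcases CPts_cases x with hx | ⟨j, hx⟩
  · exact Or.inl ⟨hx, rfl⟩
  · exact (CPts_dn_fin hx).2 ⟨j, x.a, le_rfl, h j hx, CPts_eq_pt hx⟩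

theorem dn_subset {P B : Set Lb} {ab : Lb → G2} {y : Pt} (h : y ∈ pts P B ab) :
    dn y ⊆ pts P B ab := by
  intro z hz
  rcases pts_cases h with ⟨j, a, c, rfl, -, h3⟩ | ⟨c, -, rfl⟩
  · obtain ⟨j', a', -, h2, rfl⟩ := (CPts_dn_fin (j := j) rfl).1 hz
    exact pt_mem.2 ⟨h2, h3⟩
  · rw [CPts_dn_top rfl] at hz
    rw [hz]
    exact h

theorem dn_g {x y : Pt} (h : y ∈ dn x) : y.g = x.g := by
  rcases h with ⟨-, rfl⟩ | ⟨j, a, -, -, -, rfl⟩ <;> rfl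

theorem dn_trans {x y : Pt} (h : y ∈ dn x) : dn y ⊆ dn x := by
  rcases h with ⟨-, rfl⟩ | ⟨j, a, h1, h2, -, rfl⟩
  · exact Subset.rfl
  · intro z hz
    obtain ⟨j', a', h3, h4, rfl⟩ := (CPts_dn_fin (j := j) rfl).1 hz
    exact Or.inr ⟨j', a', le_trans (Nat.cast_le.2 h3) h1, h2, h4, rfl⟩

theorem reg_of_dn {x y : Pt} (h : y ∈ dn x) : Reg y := by
  rcases h with ⟨h1, rfl⟩ | ⟨j, a, -, -, h3, rfl⟩
  · exact CPts_reg_top h1
  · exact CPts_reg_pt h3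

/-- The markers and the points of the square at `y`. -/
def mkr {ι : Type*} (F : ι → Co) (y : Pt) : ι → ℕ := fun i => (F i y).1
def fv {ι : Type*} (F : ι → Co) (y : Pt) : ι → D := fun i => (F i y).2

/-- The point `y`, with coordinates `F'`, is in the neighbourhood of resolution `(K, J)` of the
point `x` with coordinates `F`. -/
def Nbr {ι : Type*} (K : ℕ) (J : Set ι) (x : Pt) (F : ι → Co) (y : Pt) (F' : ι → Co) : Prop :=
  ag K x.g y.g ∧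
  ((∃ j : ℕ, x.h = j ∧ y.h = j ∧ nrm j x.a ∧ y.a = x.a ∧
      ∀ i ∈ J, ∀ j' ≤ j, ∀ a, nrm j' a → F i (pt j' a x.g) = F' i (pt j' a y.g)) ∨
    (x.h = ⊤ ∧ (K : ℕ∞) ≤ y.h ∧ ag K x.a y.a ∧ (∀ i ∈ J, mkr F x i = mkr F' y i) ∧
      box K J (fv F x) (fv F' y)))

/-- Neighbours of the same height. -/
def Sim {ι : Type*} (K : ℕ) (J : Set ι) (x : Pt) (F : ι → Co) (y : Pt) (F' : ι → Co) : Prop :=
  Nbr K J x F y F' ∧ y.h = x.h

section nbr
variable {ι : Type*} {K K' : ℕ} {J J' : Set ι} {x y z : Pt} {F F' F'' G G' : ι → Co}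

theorem CPts_nbr_fin {j : ℕ} (h : x.h = j) : Nbr K J x F y F' ↔
    ag K x.g y.g ∧ y.h = j ∧ nrm j x.a ∧ y.a = x.a ∧
      ∀ i ∈ J, ∀ j' ≤ j, ∀ a, nrm j' a → F i (pt j' a x.g) = F' i (pt j' a y.g) := by
  constructor
  · rintro ⟨h1, ⟨j', h2, h3⟩ | ⟨h2, -⟩⟩
    · obtain rfl : j = j' := Nat.cast_injective (h.symm.trans h2)
      exact ⟨h1, h3⟩
    · exact absurd (h2.symm.trans h) (ENat.top_ne_natCast j)
  · exact fun h' => ⟨h'.1, Or.inl ⟨j, h, h'.2⟩⟩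

theorem CPts_val (h : Nbr K J x F y F') :
    (∀ i ∈ J, mkr F x i = mkr F' y i) ∧ box K J (fv F x) (fv F' y) := by
  obtain ⟨-, ⟨j, h2, h3, h4, h5, h6⟩ | ⟨-, -, -, h2⟩⟩ := h
  · have key : ∀ i ∈ J, F i x = F' i y := by
      intro i hi
      have := h6 i hi j le_rfl x.a h4
      rwa [← CPts_eq_pt h2, ← h5, ← CPts_eq_pt h3] at this
    refine ⟨fun i hi => congrArg Prod.fst (key i hi), fun i hi => ?_⟩
    simp only [fv]
    rw [key i hi, dist_self]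
    exact Nat.one_div_pos_of_nat
  · exact h2

theorem nbr_pt {j : ℕ} {a : G2} {c : Lb} : Nbr K J (pt j a c) F y F' ↔
    ag K c y.g ∧ nrm j a ∧ y = pt j a y.g ∧
      ∀ i ∈ J, ∀ j' ≤ j, ∀ a, nrm j' a → F i (pt j' a c) = F' i (pt j' a y.g) := by
  rw [CPts_nbr_fin (j := j) rfl]
  constructor
  · rintro ⟨h1, h2, h3, h4, h5⟩
    refine ⟨h1, h3, ?_, h5⟩
    rw [CPts_eq_pt h2, h4]
    rfl
  · rintro ⟨h1, h2, h3, h4⟩
    exact ⟨h1, by rw [h3]; rfl, h2, by rw [h3]; rfl, h4⟩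

theorem nbr_top (h : x.h = ⊤) : Nbr K J x F y F' ↔ ag K x.g y.g ∧ (K : ℕ∞) ≤ y.h ∧ ag K x.a y.a ∧
    (∀ i ∈ J, mkr F x i = mkr F' y i) ∧ box K J (fv F x) (fv F' y) := by
  constructor
  · rintro ⟨h1, ⟨j, h2, -⟩ | ⟨-, h2⟩⟩
    · rw [h] at h2
      exact absurd h2 (ENat.top_ne_natCast j)
    · exact ⟨h1, h2⟩
  · exact fun h' => ⟨h'.1, Or.inr ⟨h, h'.2⟩⟩

theorem Nbr.refl (h : Reg x) (K : ℕ) (J : Set ι) (F : ι → Co) : Nbr K J x F x F := by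
  rcases CPts_cases x with hx | ⟨j, hx⟩
  · refine (nbr_top hx).2 ⟨ag.refl _ _, by rw [hx]; exact le_top, ag.refl _ _, fun _ _ => rfl,
      fun i _ => ?_⟩
    rw [dist_self]
    exact Nat.one_div_pos_of_nat
  · exact (CPts_nbr_fin hx).2 ⟨ag.refl _ _, hx, h j hx, rfl, fun _ _ _ _ _ _ => rfl⟩

theorem Nbr.mono (h : Nbr K J x F y F') (hK : K' ≤ K) (hJ : J' ⊆ J) : Nbr K' J' x F y F' := by
  obtain ⟨h1, ⟨j, h2, h3, h4, h5, h6⟩ | ⟨h2, h3, h4, h5, h6⟩⟩ := h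
  · exact ⟨h1.mono hK, Or.inl ⟨j, h2, h3, h4, h5, fun i hi => h6 i (hJ hi)⟩⟩
  · exact ⟨h1.mono hK, Or.inr ⟨h2, le_trans (Nat.cast_le.2 hK) h3, h4.mono hK,
      fun i hi => h5 i (hJ hi), fun i hi => (h6 i (hJ hi)).trans_le (Nat.one_div_le_one_div hK)⟩⟩

theorem Nbr.congr (h : Nbr K J x F y F') (hy : Reg y) (h1 : ∀ i ∈ J, ∀ z ∈ dn x, F i z = G i z)
    (h2 : ∀ i ∈ J, ∀ z ∈ dn y, F' i z = G' i z) : Nbr K J x G y G' := by
  obtain ⟨h3, ⟨j, h4, h5, h6, h7, h8⟩ | ⟨h4, h5, h6, h7, h8⟩⟩ := h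
  · refine ⟨h3, Or.inl ⟨j, h4, h5, h6, h7, fun i hi j' hj' a ha => ?_⟩⟩
    rw [← h1 i hi _ ((CPts_dn_fin h4).2 ⟨j', a, hj', ha, rfl⟩),
      ← h2 i hi _ ((CPts_dn_fin h5).2 ⟨j', a, hj', ha, rfl⟩)]
    exact h8 i hi j' hj' a ha
  · have hx : x ∈ dn x := Or.inl ⟨h4, rfl⟩
    refine ⟨h3, Or.inr ⟨h4, h5, h6, fun i hi => ?_, fun i hi => ?_⟩⟩
    · have := h7 i hi
      simp only [mkr] at this ⊢
      rwa [← h1 i hi x hx, ← h2 i hi y (mem_dn_self hy)]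
    · have := h8 i hi
      simp only [fv] at this ⊢
      rwa [← h1 i hi x hx, ← h2 i hi y (mem_dn_self hy)]

theorem Nbr.union (h : Nbr K J x F y F') (h' : Nbr K J' x F y F') : Nbr K (J ∪ J') x F y F' := by
  rcases CPts_cases x with hx | ⟨j, hx⟩
  · rw [nbr_top hx] at h h' ⊢
    exact ⟨h.1, h.2.1, h.2.2.1, fun i hi => hi.elim (h.2.2.2.1 i) (h'.2.2.2.1 i),
      fun i hi => hi.elim (h.2.2.2.2 i) (h'.2.2.2.2 i)⟩
  · rw [CPts_nbr_fin hx] at h h' ⊢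
    exact ⟨h.1, h.2.1, h.2.2.1, h.2.2.2.1, fun i hi => hi.elim (h.2.2.2.2 i) (h'.2.2.2.2 i)⟩

theorem Nbr.comp {κ : Type*} {e : κ → ι} {J₁ : Set κ} :
    Nbr K J₁ x (fun i => F (e i)) y (fun i => F' (e i)) ↔ Nbr K (e '' J₁) x F y F' := by
  simp only [Nbr, box, forall_mem_image]
  rfl

theorem Nbr.trans (h : Nbr (2 * K + 1) J x F y F') (h' : Nbr (2 * K + 1) J y F' z F'') :
    Nbr K J x F z F'' := by
  have hK : K ≤ 2 * K + 1 := by omega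
  rcases CPts_cases x with hx | ⟨j, hx⟩
  · rw [nbr_top hx] at h ⊢
    obtain ⟨h1, h2, h3, h4, h5⟩ := h
    have hv := CPts_val h'
    refine ⟨(h1.trans h'.1).mono hK, ?_, ?_, fun i hi => (h4 i hi).trans (hv.1 i hi),
      fun i hi => ?_⟩
    · obtain ⟨-, ⟨j, h6, h7, -⟩ | ⟨-, h6, -⟩⟩ := h'
      · rw [h7, ← h6]
        exact le_trans (Nat.cast_le.2 hK) h2
      · exact le_trans (Nat.cast_le.2 hK) h6
    · obtain ⟨-, ⟨j, -, -, -, h6, -⟩ | ⟨-, -, h6, -⟩⟩ := h'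
      · rw [h6]
        exact h3.mono hK
      · exact (h3.trans h6).mono hK
    · refine (dist_triangle _ (fv F' y i) _).trans_lt ((add_lt_add (h5 i hi) (hv.2 i hi)).trans_le
        (le_of_eq ?_))
      push_cast
      field_simp
      ring
  · rw [CPts_nbr_fin hx] at h ⊢
    obtain ⟨h1, h2, h3, h4, h5⟩ := h
    obtain ⟨h6, h7, -, h8, h9⟩ := (CPts_nbr_fin h2).1 h'
    exact ⟨(h1.trans h6).mono hK, h7, h3, h8.trans h4,
      fun i hi j' hj' a ha => (h5 i hi j' hj' a ha).trans (h9 i hi j' hj' a ha)⟩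

/-- Neighbourhoods are open. -/
theorem Nbr.int (hJ : J.Finite) (h : Nbr K J x F y F') :
    ∃ K', ∀ z (F'' : ι → Co), Nbr K' J y F' z F'' → Nbr K J x F z F'' := by
  rcases CPts_cases x with hx | ⟨j, hx⟩
  · obtain ⟨h1, h2, h3, h4, h5⟩ := (nbr_top hx).1 h
    have key : ∀ᶠ K' : ℕ in Filter.atTop, ∀ i ∈ J,
        dist (fv F x i) (fv F' y i) + 1 / ((K' : ℝ) + 1) < 1 / ((K : ℝ) + 1) := by
      rw [Filter.eventually_all_finite hJ]
      intro i hi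
      have ht := (tendsto_one_div_add_atTop_nhds_zero_nat (𝕜 := ℝ)).const_add
        (dist (fv F x i) (fv F' y i))
      rw [add_zero] at ht
      exact ht.eventually (gt_mem_nhds (h5 i hi))
    obtain ⟨K', hK', hK⟩ := (key.and (Filter.eventually_ge_atTop K)).exists
    refine ⟨K', fun z F'' h' => (nbr_top hx).2 ?_⟩
    have hv := CPts_val h'
    refine ⟨h1.trans (h'.1.mono hK), ?_, ?_, fun i hi => (h4 i hi).trans (hv.1 i hi),
      fun i hi => ?_⟩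
    · obtain ⟨-, ⟨j, h6, h7, -⟩ | ⟨-, h6, -⟩⟩ := h'
      · rw [h7, ← h6]
        exact h2
      · exact le_trans (Nat.cast_le.2 hK) h6
    · obtain ⟨-, ⟨j, -, -, -, h6, -⟩ | ⟨-, -, h6, -⟩⟩ := h'
      · rw [h6]
        exact h3
      · exact h3.trans (h6.mono hK)
    · have := dist_triangle (fv F x i) (fv F' y i) (fv F'' z i)
      linarith [hK' i hi, hv.2 i hi]
  · refine ⟨K, fun z F'' h' => ?_⟩
    rw [CPts_nbr_fin hx] at h ⊢
    obtain ⟨h1, h2, h3, h4, h5⟩ := h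
    obtain ⟨h6, h7, -, h8, h9⟩ := (CPts_nbr_fin h2).1 h'
    exact ⟨h1.trans h6, h7, h3, h8.trans h4,
      fun i hi j' hj' a ha => (h5 i hi j' hj' a ha).trans (h9 i hi j' hj' a ha)⟩

/-- A neighbour has the same markers, and close points of the square. -/
theorem Nbr.val (h : Nbr K J x F y F') :
    (∀ i ∈ J, mkr F x i = mkr F' y i) ∧ box K J (fv F x) (fv F' y) := by
  exact CPts_val h

theorem Sim.symm (h : Sim K J x F y F') : Sim K J y F' x F := by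
  obtain ⟨⟨h1, ⟨j, h2, h3, h4, h5, h6⟩ | ⟨h2, -, h4, h5, h6⟩⟩, h7⟩ := h
  · exact ⟨⟨h1.symm, Or.inl ⟨j, h3, h2, h5 ▸ h4, h5.symm,
      fun i hi j' hj' a ha => (h6 i hi j' hj' a ha).symm⟩⟩, h7.symm⟩
  · refine ⟨⟨h1.symm, Or.inr ⟨h7.trans h2, by rw [h2]; exact le_top, h4.symm,
      fun i hi => (h5 i hi).symm, fun i hi => ?_⟩⟩, h7.symm⟩
    rw [dist_comm]
    exact h6 i hi

theorem Sim.mono (h : Sim K J x F y F') (hK : K' ≤ K) (hJ : J' ⊆ J) : Sim K' J' x F y F' :=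
  ⟨h.1.mono hK hJ, h.2⟩

theorem Sim.trans (h : Sim (2 * K + 1) J x F y F') (h' : Sim (2 * K + 1) J y F' z F'') :
    Sim K J x F z F'' := ⟨h.1.trans h'.1, h'.2.trans h.2⟩

/-- The point over the label of `z` that corresponds to `x`. -/
def tr (z x : Pt) : Pt := if x.h = ⊤ then z else ⟨x.h, x.a, z.g⟩

theorem Sim.tr (h : Sim K J x F y F') (hz : z ∈ dn x) :
    tr y z ∈ dn y ∧ Sim K J z F (tr y z) F' := by
  rcases CPts_cases x with hx | ⟨j, hx⟩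
  · rw [CPts_dn_top hx] at hz
    obtain rfl : z = x := hz
    have : MP_f50f0f_gt.tr y z = y := if_pos hx
    rw [this]
    exact ⟨Or.inl ⟨h.2.trans hx, rfl⟩, h⟩
  · obtain ⟨j', a, h1, h2, rfl⟩ := (CPts_dn_fin hx).1 hz
    have : MP_f50f0f_gt.tr y (pt j' a x.g) = pt j' a y.g := if_neg (ENat.natCast_ne_top j')
    rw [this]
    obtain ⟨h3, h4, -, -, h5⟩ := (CPts_nbr_fin hx).1 h.1
    exact ⟨(CPts_dn_fin h4).2 ⟨j', a, h1, h2, rfl⟩, nbr_pt.2 ⟨h3, h2, rfl,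
      fun i hi j'' hj'' a' ha' => h5 i hi j'' (hj''.trans h1) a' ha'⟩, rfl⟩

/-- The values that a neighbourhood of a point of finite height looks at are rational. -/
def RatOn (J : Set ι) (x : Pt) (F : ι → Co) : Prop :=
  Reg x ∧ (x.h ≠ ⊤ → ∀ i ∈ J, ∀ z ∈ dn x, IsRat (F i z).2)

theorem cc_sim {A : Type*} {S : Set A} (z : A → Pt) (F : A → ι → Co) (K : ℕ) (hJ : J.Finite)
    (hS : ∀ κ ∈ S, RatOn J (z κ) (F κ)) :
    CC S fun κ κ' => Sim K J (z κ) (F κ) (z κ') (F κ') := by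
  refine (CC.sigma (fun κ => (z κ).h)
    (R := fun κ κ' => Sim K J (z κ) (F κ) (z κ') (F κ')) fun n => ?_).mono fun _ _ _ _ h => h.2
  induction n using ENat.recTopCoe with
  | top =>
    refine ((CC.ag K fun κ => (z κ).g).and ((CC.ag K fun κ => (z κ).a).and
      ((CC.finite hJ (R := fun i κ κ' => mkr (F κ) (z κ) i = mkr (F κ') (z κ') i) fun i _ =>
        CC.eq countable_univ _ fun _ _ => mem_univ _).and
      (CC.finite hJ (R := fun i κ κ' =>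
          dist (fv (F κ) (z κ) i) (fv (F κ') (z κ') i) < 1 / ((K : ℝ) + 1)) fun i _ =>
        CC.dist _ Nat.one_div_pos_of_nat)))).mono ?_
    rintro κ ⟨-, hκ⟩ κ' ⟨-, hκ'⟩ ⟨h1, h2, h3, h4⟩
    have e1 : (z κ).h = ⊤ := hκ
    have e2 : (z κ').h = ⊤ := hκ'
    exact ⟨(nbr_top e1).2 ⟨h1, by rw [e2]; exact le_top, h2, h3, h4⟩, e2.trans e1.symm⟩
  | coe j =>
    have hT : ((univ : Set ℕ) ×ˢ {d | IsRat d}).Countable := countable_univ.prod countable_isRat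
    refine ((CC.ag K fun κ => (z κ).g).and
      ((CC.eq (finite_nrm j).countable (fun κ => (z κ).a) fun κ hκ => (hS κ hκ.1).1 j hκ.2).and
      (CC.finite hJ (R := fun i κ κ' => ∀ j' ∈ Iic j, ∀ a ∈ {a | nrm j' a},
          F κ i (pt j' a (z κ).g) = F κ' i (pt j' a (z κ').g)) fun i hi =>
        CC.finite (finite_Iic j) fun j' hj' => CC.finite (finite_nrm j') fun a ha =>
          CC.eq hT (fun κ => F κ i (pt j' a (z κ).g)) fun κ hκ => ⟨mem_univ _, ?_⟩))).mono ?_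
    · have e1 : (z κ).h = j := hκ.2
      exact (hS κ hκ.1).2 (by rw [e1]; exact ENat.natCast_ne_top j) i hi _
        ((CPts_dn_fin e1).2 ⟨j', a, hj', ha, rfl⟩)
    · rintro κ ⟨hκS, hκ⟩ κ' ⟨-, hκ'⟩ ⟨h1, h2, h3⟩
      have e1 : (z κ).h = j := hκ
      have e2 : (z κ').h = j := hκ'
      exact ⟨(CPts_nbr_fin e1).2 ⟨h1, e2, (hS κ hκS).1 j e1, h2.symm, h3⟩, e2.trans e1.symm⟩

end nbr

/-- Agreement of the first `k` coordinate functions on `Z`. -/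
def agE (k : ℕ) (Z : Set Pt) (E E' : ℕ → Co) : Prop := ∀ n < k, ∀ y ∈ Z, E n y = E' n y

/-- `G` is open, with supports in `Y`. -/
def Opn (Y : Set Pt) (k : ℕ) (G : Set (ℕ → Co)) : Prop :=
  ∀ E ∈ G, ∃ Z : Set Pt, Z.Finite ∧ Z ⊆ Y ∧ ∀ E', agE k Z E E' → E' ∈ G

/-- `G` is dense in the admissible sequences. -/
def Dns (k : ℕ) (G : Set (ℕ → Co)) : Prop :=
  ∀ E₀ : ℕ → Co, (∀ n, Good (E₀ n)) → ∀ Z : Set Pt, Z.Finite →
    ∃ E, (∀ n, Good (E n)) ∧ agE k Z E₀ E ∧ E ∈ G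

def Opn1 (Y : Set Pt) (H : Set Co) : Prop :=
  ∀ u ∈ H, ∃ Z : Set Pt, Z.Finite ∧ Z ⊆ Y ∧ ∀ u', EqOn u u' Z → u' ∈ H

def Dns1 (H : Set Co) : Prop :=
  ∀ u₀, Good u₀ → ∀ Z : Set Pt, Z.Finite → ∃ u, Good u ∧ EqOn u₀ u Z ∧ u ∈ H

/-- The limit of a sequence of finite conditions that exhausts the points. -/
theorem lim_cd {P B : Set Lb} {ab : Lb → G2} (u : ℕ → Co) (Z : ℕ → Set Pt) (hu : ∀ n, Good (u n))
    (hZ : ∀ n, Z n ⊆ Z (n + 1)) (he : ∀ n, EqOn (u n) (u (n + 1)) (Z n))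
    (hY : ∀ y ∈ pts P B ab, ∃ n, y ∈ Z n) :
    ∃ v, Good v ∧ ∀ n, EqOn (u n) v (Z n ∩ pts P B ab) := by
  classical
  have hmono : Monotone Z := monotone_nat_of_le_succ hZ
  have hle : ∀ n m, n ≤ m → EqOn (u n) (u m) (Z n) := by
    intro n m h
    induction m, h using Nat.le_induction with
    | base => exact fun _ _ => rfl
    | succ m h ih => exact fun y hy => (ih hy).trans (he m (hmono h hy))
  choose N hN using hY
  let v : Co := fun y => if h : y ∈ pts P B ab then u (N y h) y else 0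
  have hv : ∀ n, EqOn (u n) v (Z n ∩ pts P B ab) := by
    rintro n y ⟨h1, h2⟩
    have : v y = u (N y h2) y := dif_pos h2
    rw [this, hle n _ (le_max_left n (N y h2)) h1, hle _ _ (le_max_right n (N y h2)) (hN y h2)]
  refine ⟨v, ⟨fun y => ?_, fun c hc j hj => ?_⟩, hv⟩
  · by_cases h : y ∈ pts P B ab
    · rw [← hv _ ⟨hN y h, h⟩]
      exact (hu _).1 y
    · rw [show v y = 0 from dif_neg h]
      exact isRat_zero
  · have hr : root c ∈ pts P B ab := by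
      by_contra h
      exact hc (by rw [show v (root c) = 0 from dif_neg h]; rfl)
    have hP : c ∈ P := (pt_mem.1 hr).2
    have key : ∀ᶠ n : ℕ in Filter.atTop, ∀ a ∈ {a | nrm j a}, pt j a c ∈ Z n := by
      rw [Filter.eventually_all_finite (finite_nrm j)]
      intro a ha
      exact (Filter.eventually_ge_atTop _).mono fun n hn =>
        hmono hn (hN _ (pt_mem.2 ⟨ha, hP⟩))
    obtain ⟨n, h1, h2⟩ := (key.and (Filter.eventually_ge_atTop (N _ hr))).exists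
    refine ((hu n).2 c ?_ j hj).congr fun a ha => ?_
    · rwa [hv n ⟨hmono h2 (hN _ hr), hr⟩]
    · rw [hv n ⟨h1 a ha, pt_mem.2 ⟨ha, hP⟩⟩]

theorem exists_u {P B : Set Lb} {ab : Lb → G2} (hP : P.Countable) (hB : B.Countable)
    {ℋ : Set (Set Co)} (hc : ℋ.Countable) (h : ∀ H ∈ ℋ, Opn1 (pts P B ab) H ∧ Dns1 H)
    {u₀ : Co} (hu : Good u₀) {Z : Set Pt} (hZ : Z.Finite) :
    ∃ u, Good u ∧ EqOn u₀ u (Z ∩ pts P B ab) ∧ ∀ H ∈ ℋ, u ∈ H := by
  let Q := {q : Co × Set Pt // Good q.1 ∧ q.2.Finite}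
  let _ : Preorder Q :=
    { le := fun q' q => q.1.2 ⊆ q'.1.2 ∧ EqOn q.1.1 q'.1.1 q.1.2
      lt := fun q' q => (q.1.2 ⊆ q'.1.2 ∧ EqOn q.1.1 q'.1.1 q.1.2) ∧
        ¬ (q'.1.2 ⊆ q.1.2 ∧ EqOn q'.1.1 q.1.1 q'.1.2)
      lt_iff_le_not_ge := fun _ _ => Iff.rfl
      le_refl := fun q => ⟨Subset.rfl, fun _ _ => rfl⟩
      le_trans := fun q₁ q₂ q₃ h h' =>
        ⟨h'.1.trans h.1, fun y hy => (h'.2 hy).trans (h.2 (h'.1 hy))⟩ }
  have _ := hc.to_subtype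
  have _ := (countable_pts hP hB ab).to_subtype
  let R : ℋ ⊕ pts P B ab → Q → Prop := Sum.elim
    (fun H q => ∀ u', EqOn q.1.1 u' (q.1.2 ∩ pts P B ab) → u' ∈ H.1) fun y q => y.1 ∈ q.1.2
  obtain ⟨s, h0, h1, h2⟩ := exists_seq R (by
    rintro (H | y) q
    · obtain ⟨u, h3, h4, h5⟩ := (h H H.2).2 q.1.1 q.2.1 q.1.2 q.2.2
      obtain ⟨Z', h6, h7, h8⟩ := (h H H.2).1 u h5
      exact ⟨⟨(u, q.1.2 ∪ Z'), h3, q.2.2.union h6⟩, ⟨subset_union_left, h4⟩,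
        fun u' hu' => h8 u' fun y hy => hu' ⟨Or.inr hy, h7 hy⟩⟩
    · exact ⟨⟨(q.1.1, insert y.1 q.1.2), q.2.1, q.2.2.insert _⟩,
        ⟨subset_insert _ _, fun _ _ => rfl⟩, mem_insert _ _⟩) ⟨(u₀, Z), hu, hZ⟩
  obtain ⟨v, h3, h4⟩ := lim_cd (P := P) (B := B) (ab := ab) (fun n => (s n).1.1)
    (fun n => (s n).1.2) (fun n => (s n).2.1) (fun n => (h1 n).1) (fun n => (h1 n).2)
    fun y hy => h2 (Sum.inr ⟨y, hy⟩)
  refine ⟨v, h3, ?_, fun H hH => ?_⟩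
  · have := h4 0
    rwa [h0] at this
  · obtain ⟨n, hn⟩ := h2 (Sum.inl ⟨H, hH⟩)
    exact hn v (h4 n)

/-- A coordinate function with prescribed markers over a set of labels. -/
theorem exists_mark {u₀ : Co} (hu : Good u₀) (A : Set Lb) (ν : Pt → ℕ) :
    ∃ u, Good u ∧ (∀ y, y.g ∉ A → u y = u₀ y) ∧ ∀ y, y.g ∈ A → (u y).1 = ν y := by
  classical
  let u : Co := fun y => if y.g ∈ A then (ν y, dfl y.h.toNat y.a) else u₀ y
  have h1 : ∀ y, y.g ∉ A → u y = u₀ y := fun y hy => if_neg hy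
  have h2 : ∀ y, y.g ∈ A → u y = (ν y, dfl y.h.toNat y.a) := fun y hy => if_pos hy
  refine ⟨u, ⟨fun y => ?_, fun c hc j hj => ?_⟩, h1, fun y hy => by rw [h2 y hy]⟩
  · by_cases hy : y.g ∈ A
    · rw [h2 y hy]
      exact isRat_dfl _ _
    · rw [h1 y hy]
      exact hu.1 y
  · by_cases hA : c ∈ A
    · refine (con_dfl hj).congr fun a _ => ?_
      rw [h2 (pt j a c) hA]
      rfl
    · rw [h1 (root c) hA] at hc
      refine (hu.2 c hc j hj).congr fun a _ => ?_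
      rw [h1 (pt j a c) hA]

/-- The marker part of a coordinate function. -/
def mo (u : Co) : Co := fun y => ((u y).1, 0)

/-- A sequence of coordinate functions with the marker part of `u` in front. -/
def Wu (u : Co) (V : ℕ → Co) : ℕ → Co
  | 0 => mo u
  | n + 1 => V n

theorem nbr_Wu {K : ℕ} {x y : Pt} {u u' : Co} {V V' : ℕ → Co}
    (h : Nbr (K + 1) (Iio (K + 1)) x (Wu u V) y (Wu u' V')) : Nbr K (Iio K) x V y V' := by
  refine (Nbr.comp (e := Nat.succ) (F := Wu u V) (F' := Wu u' V')).2 (h.mono (Nat.le_succ K) ?_)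
  rintro _ ⟨n, hn, rfl⟩
  exact Nat.succ_lt_succ hn

theorem nbr_Wu_of {K : ℕ} {x y : Pt} {u u' : Co} {V V' : ℕ → Co}
    (h : Nbr K (Iio K) x V y V')
    (h' : Nbr K univ x (fun _ : Unit => mo u) y fun _ => mo u') :
    Nbr K (Iio K) x (Wu u V) y (Wu u' V') := by
  have h1 := (Nbr.comp (e := Nat.succ) (F := Wu u V) (F' := Wu u' V')).1 h
  have h2 := (Nbr.comp (e := fun _ : Unit => 0) (F := Wu u V) (F' := Wu u' V')).1 h'
  refine (h2.union h1).mono le_rfl fun n hn => ?_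
  cases n with
  | zero => exact Or.inl ⟨(), mem_univ _, rfl⟩
  | succ n => exact Or.inr ⟨n, Nat.lt_of_succ_lt hn, rfl⟩

end Pool.Agent.Work.MP_f50f0f_gt
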