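import Pool.Agent.Work.MP_f50f0f_gt.CPts
import Pool.Agent.Work.MP_f50f0f_gt.CIface
import Mathlib.Analysis.Real.Cardinality

/-! The forcing: countable approximations of the generic space. -/

namespace Pool.Agent.Work.MP_f50f0f_gt
open Function Set

/-- Indices of coordinates. -/
def Om : Type := ℝ

instance : Uncountable Om := inferInstanceAs (Uncountable ℝ)

/-- A promise: a dense open set of `k`-tuples of coordinate functions that all tuples of distinct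
coordinates outside `I` have to meet. -/
structure Prom where
  Y : Set Pt
  I : Set Om
  k : ℕ
  G : Set (ℕ → Co)

open Classical in
noncomputable def mix (T : Set ℕ) (A E : ℕ → Co) : ℕ → Co := fun n => if n ∈ T then A n else E n

/-- All sections of the promise at existing coordinates are dense. -/
def Her (p : Prom) (I : Set Om) (F : Om → Co) : Prop :=
  ∀ (T : Set ℕ) (ξ : ℕ → Om), (∀ n ∈ T, n < p.k ∧ ξ n ∈ I ∧ ξ n ∉ p.I) → InjOn ξ T →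
    Dns p.k {E | mix T (fun n => F (ξ n)) E ∈ p.G}

/-- Labels with markers. -/
abbrev LM : Type := Lb × (Om → ℕ)

def agD (K : ℕ) (J : Set Om) (x x' : LM) : Prop := ag K x.1 x'.1 ∧ ∀ ξ ∈ J, x.2 ξ = x'.2 ξ

def OpnD (O : Set LM) : Prop :=
  ∀ x ∈ O, ∃ (K : ℕ) (J : Set Om), J.Finite ∧ ∀ x', agD K J x x' → x' ∈ O

def DnsD (O : Set LM) : Prop :=
  ∀ (x : LM) (K : ℕ) (J : Set Om), J.Finite → ∃ x' ∈ O, agD K J x x'

/-- The fibre `c` has marker `0` at the root, markers `v` on the levels `1, …, j` and the point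
`0` of the square, for the coordinates in `J`. -/
def Slice {ι : Type*} (J : Set ι) (F : ι → Co) (c : Lb) (v : ι → ℕ) : Prop :=
  ∀ i ∈ J, F i (root c) = 0 ∧ ∀ j, 1 ≤ j → ∀ a, nrm j a → F i (pt j a c) = (v i, 0)

theorem cst_her {p : Prom} {I : Set Om} {F F' : Om → Co} (hO : Opn p.Y p.k p.G) (h : Her p I F)
    (hF : ∀ ξ ∈ I, ∀ y ∈ p.Y, F' ξ y = F ξ y) : Her p I F' := by
  intro T ξ hT hi E₀ h0 Z hZ
  obtain ⟨E, h1, h2, h3⟩ := h T ξ hT hi E₀ h0 Z hZ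
  obtain ⟨Z', -, h4, h5⟩ := hO _ h3
  refine ⟨E, h1, h2, h5 _ fun n _ y hy => ?_⟩
  unfold mix
  split_ifs with hn
  · exact (hF _ (hT n hn).2.1 y (h4 hy)).symm
  · rfl

theorem cst_slice {J : Set Om} {F F' : Om → Co} {c : Lb} {v : Om → ℕ} (h : Slice J F c v)
    (hF : ∀ ξ ∈ J, ∀ j a, nrm j a → F' ξ (pt j a c) = F ξ (pt j a c)) : Slice J F' c v :=
  fun i hi => ⟨(hF i hi 0 a0 (nrm_a0 0)).trans (h i hi).1,
    fun j hj a ha => (hF i hi j a ha).trans ((h i hi).2 j hj a ha)⟩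

theorem agD.trans {K K' : ℕ} {J J' : Set Om} {x y z : LM} (h : agD K J x y) (h' : agD K' J' y z)
    (hK : K ≤ K') (hJ : J ⊆ J') : agD K J x z :=
  ⟨h.1.trans (h'.1.mono hK), fun ξ hξ => (h.2 ξ hξ).trans (h'.2 ξ (hJ hξ))⟩

/-- Cylinders of labels with markers. -/
structure CstQ where
  x : LM
  K : ℕ
  J : Set Om
  fin : J.Finite

instance : Preorder CstQ where
  le q' q := q.K ≤ q'.K ∧ q.J ⊆ q'.J ∧ agD q.K q.J q.x q'.x
  le_refl _ := ⟨le_rfl, Subset.rfl, ag.refl _ _, fun _ _ => rfl⟩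
  le_trans _ _ _ h h' := ⟨h'.1.trans h.1, h'.2.1.trans h.2.1, h'.2.2.trans h.2.2 h'.1 h'.2.1⟩

theorem cst_glue {α β : Type} (z : β) (A : ℕ → Set α) (f : ℕ → α → β)
    (h : ∀ n m, n ≤ m → ∀ a ∈ A n, f m a = f n a) : ∃ g : α → β, ∀ n, ∀ a ∈ A n, g a = f n a := by
  classical
  refine ⟨fun a => if h : ∃ n, a ∈ A n then f h.choose a else z, fun n a ha => ?_⟩
  have k : ∃ n, a ∈ A n := ⟨n, ha⟩
  simp only [dif_pos k]
  exact (h _ _ (le_max_left _ n) a k.choose_spec).symm.trans (h _ _ (le_max_right _ n) a ha)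

theorem cst_baire {𝒪 : Set (Set LM)} (hc : 𝒪.Countable) (h : ∀ O ∈ 𝒪, OpnD O ∧ DnsD O) (x₀ : LM)
    (K : ℕ) {J : Set Om} (hJ : J.Finite) : ∃ x, agD K J x₀ x ∧ ∀ O ∈ 𝒪, x ∈ O := by
  have := hc.to_subtype
  obtain ⟨s, h0, h1, h2⟩ := exists_seq (Q := CstQ)
    (fun (O : 𝒪) q => ∀ x', agD q.K q.J q.x x' → x' ∈ O.1) (fun O q => by
      obtain ⟨x', k1, k2⟩ := (h _ O.2).2 q.x q.K q.J q.fin
      obtain ⟨K', J', k3, k4⟩ := (h _ O.2).1 x' k1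
      exact ⟨⟨x', max q.K K', q.J ∪ J', q.fin.union k3⟩, ⟨le_max_left _ _, subset_union_left, k2⟩,
        fun y hy => k4 y ⟨hy.1.mono (le_max_right _ _), fun ξ hξ => hy.2 ξ (Or.inr hξ)⟩⟩)
    ⟨x₀, K, J, hJ⟩
  have an := antitone_nat_of_succ_le h1
  obtain ⟨g, hg⟩ := cst_glue 0 (fun n => Iio (s n).K) (fun n => (s n).x.1)
    fun n m hnm a ha => ((an hnm).2.2.1 a ha).symm
  obtain ⟨v, hv⟩ := cst_glue 0 (fun n => (s n).J) (fun n => (s n).x.2)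
    fun n m hnm a ha => ((an hnm).2.2.2 a ha).symm
  have k : ∀ n, agD (s n).K (s n).J (s n).x (g, v) := fun n =>
    ⟨fun a ha => (hg n a ha).symm, fun a ha => (hv n a ha).symm⟩
  refine ⟨(g, v), by simpa only [h0] using k 0, fun O hO => ?_⟩
  obtain ⟨n, hn⟩ := h2 ⟨O, hO⟩
  exact hn _ (k n)

/-- Conditions. -/
structure St where
  P : Set Lb
  B : Set Lb
  ab : Lb → G2
  I : Set Om
  F : Om → Co
  Pr : Set Prom
  DO : Set (Set LM)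
  cP : P.Countable
  cB : B.Countable
  cI : I.Countable
  cPr : Pr.Countable
  cDO : DO.Countable
  disj : ∀ c ∈ P, c ∉ B
  rat : ∀ ξ ∈ I, ∀ c ∈ P, ∀ j a, nrm j a → IsRat (F ξ (pt j a c)).2
  con : ∀ ξ ∈ I, ∀ c ∈ P, (F ξ (root c)).1 ≠ 0 → ∀ j, 1 ≤ j → Con j fun a => (F ξ (pt j a c)).2
  pr : ∀ p ∈ Pr, p.Y ⊆ pts P B ab ∧ Opn p.Y p.k p.G ∧ Her p I F
  dO : ∀ O ∈ DO, OpnD O ∧ DnsD O

namespace St

def Y (s : St) : Set Pt := pts s.P s.B s.ab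

/-- The labels used by `s`. -/
def lab (s : St) : Set Lb := s.P ∪ s.B

/-- `s'` extends `s`. -/
structure Le (s' s : St) : Prop where
  P : s.P ⊆ s'.P
  B : s.B ⊆ s'.B
  ab : ∀ b ∈ s.B, s'.ab b = s.ab b
  I : s.I ⊆ s'.I
  F : ∀ ξ ∈ s.I, ∀ y ∈ s.Y, s'.F ξ y = s.F ξ y
  Pr : s.Pr ⊆ s'.Pr
  DO : s.DO ⊆ s'.DO
  newP : ∀ c ∈ s'.P, c ∉ s.P → ∃ v, (∀ O ∈ s.DO, (c, v) ∈ O) ∧ Slice s.I s'.F c v
  newB : ∀ b ∈ s'.B, b ∉ s.B → ∃ v, (∀ O ∈ s.DO, (b, v) ∈ O) ∧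
    ∀ ξ ∈ s.I, (s'.F ξ ⟨⊤, s'.ab b, b⟩).1 = v ξ
  newI : ∀ ξ ∈ s'.I, ξ ∉ s.I → ∀ y ∈ s.Y, IsRat (s'.F ξ y).2

theorem Le.Y {s' s : St} (h : Le s' s) : s.Y ⊆ s'.Y := by
  rintro y (⟨j, h1, h2, h3⟩ | ⟨h1, h2, h3⟩)
  · exact Or.inl ⟨j, h1, h2, h.P h3⟩
  · exact Or.inr ⟨h1, h.B h2, h3.trans (h.ab _ h2).symm⟩

theorem Le.trans {s'' s' s : St} (h' : Le s'' s') (h : Le s' s) : Le s'' s := by
  refine ⟨h.P.trans h'.P, h.B.trans h'.B, fun b hb => (h'.ab b (h.B hb)).trans (h.ab b hb),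
    h.I.trans h'.I, fun ξ hξ y hy => (h'.F ξ (h.I hξ) y (h.Y hy)).trans (h.F ξ hξ y hy),
    h.Pr.trans h'.Pr, h.DO.trans h'.DO, fun c hc hn => ?_, fun b hb hn => ?_,
    fun ξ hξ hn y hy => ?_⟩
  · by_cases k : c ∈ s'.P
    · obtain ⟨v, h1, h2⟩ := h.newP c k hn
      exact ⟨v, h1, cst_slice h2 fun ξ hξ j a ha => h'.F ξ (h.I hξ) _ (pt_mem.2 ⟨ha, k⟩)⟩
    · obtain ⟨v, h1, h2⟩ := h'.newP c hc k
      exact ⟨v, fun O hO => h1 O (h.DO hO), fun ξ hξ => h2 ξ (h.I hξ)⟩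
  · by_cases k : b ∈ s'.B
    · obtain ⟨v, h1, h2⟩ := h.newB b k hn
      refine ⟨v, h1, fun ξ hξ => ?_⟩
      rw [h'.ab b k, h'.F ξ (h.I hξ) _ (top_mem.2 ⟨k, rfl⟩), h2 ξ hξ]
    · obtain ⟨v, h1, h2⟩ := h'.newB b hb k
      exact ⟨v, fun O hO => h1 O (h.DO hO), fun ξ hξ => h2 ξ (h.I hξ)⟩
  · by_cases k : ξ ∈ s'.I
    · rw [h'.F ξ k y (h.Y hy)]
      exact h.newI ξ k hn y hy
    · exact h'.newI ξ hξ k y (h.Y hy)

instance : Preorder St where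
  le := Le
  le_refl _ := ⟨Subset.rfl, Subset.rfl, fun _ _ => rfl, Subset.rfl, fun _ _ _ _ => rfl, Subset.rfl,
    Subset.rfl, fun _ h h' => absurd h h', fun _ h h' => absurd h h', fun _ h h' => absurd h h'⟩
  le_trans _ _ _ := Le.trans

theorem le_def {s' s : St} : s' ≤ s ↔ Le s' s := Iff.rfl

/-- The trivial condition. -/
def triv : St where
  P := ∅
  B := ∅
  ab _ := a0
  I := ∅
  F _ := 0
  Pr := ∅
  DO := ∅
  cP := countable_empty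
  cB := countable_empty
  cI := countable_empty
  cPr := countable_empty
  cDO := countable_empty
  disj _ h := h.elim
  rat _ h := h.elim
  con _ h := h.elim
  pr _ h := h.elim
  dO _ h := h.elim

theorem cY (s : St) : s.Y.Countable := countable_pts s.cP s.cB s.ab

theorem cLab (s : St) : s.lab.Countable := s.cP.union s.cB

theorem g_mem {s : St} {y : Pt} (h : y ∈ s.Y) : y.g ∈ s.lab := by
  rcases h with ⟨_, _, _, h⟩ | ⟨_, h, _⟩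
  · exact Or.inl h
  · exact Or.inr h

/-- A new point has a new label. -/
theorem new_lab {s' s : St} (h : s' ≤ s) {y : Pt} (hy : y ∈ s'.Y) (hn : y ∉ s.Y) : y.g ∉ s.lab := by
  rintro (k | k) <;> rcases hy with ⟨j, h1, h2, h3⟩ | ⟨h1, h2, h3⟩
  · exact hn (Or.inl ⟨j, h1, h2, k⟩)
  · exact s'.disj _ (h.P k) h2
  · exact s'.disj _ h3 (h.B k)
  · exact hn (Or.inr ⟨h1, k, h3.trans (h.ab _ k)⟩)

theorem ratOn {s : St} {J : Set Om} (hJ : J ⊆ s.I) {y : Pt} (hy : y ∈ s.Y) : RatOn J y s.F := by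
  refine ⟨reg_of_mem hy, fun h i hi z hz => ?_⟩
  have k := dn_subset hy hz
  rcases hz with ⟨h1, -⟩ | ⟨j, a, -, -, h1, rfl⟩
  · exact absurd h1 h
  · exact s.rat i (hJ hi) _ (pt_mem.1 k).2 j a h1

theorem nbr_le {s' s : St} (h : s' ≤ s) {K : ℕ} {J : Set Om} (hJ : J ⊆ s.I) {x y : Pt}
    (hx : x ∈ s.Y) (hy : y ∈ s.Y) : Nbr K J x s'.F y s'.F ↔ Nbr K J x s.F y s.F := by
  have a := fun i (hi : i ∈ J) z (hz : z ∈ dn x) => h.F i (hJ hi) z (dn_subset hx hz)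
  have b := fun i (hi : i ∈ J) z (hz : z ∈ dn y) => h.F i (hJ hi) z (dn_subset hy hz)
  exact ⟨fun k => k.congr (reg_of_mem hy) a b, fun k => k.congr (reg_of_mem hy)
    (fun i hi z hz => (a i hi z hz).symm) fun i hi z hz => (b i hi z hz).symm⟩

/-- `s'` has the same points and coordinates as `s`. -/
structure Same (s' s : St) : Prop where
  P : s'.P = s.P
  B : s'.B = s.B
  ab : s'.ab = s.ab
  I : s'.I = s.I
  F : s'.F = s.F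

theorem Same.Y {s' s : St} (h : Same s' s) : s'.Y = s.Y := by
  unfold St.Y; rw [h.P, h.B, h.ab]

/-- `q` has no other points and coordinates than the conditions `s n`. -/
structure Tight (q : St) (s : ℕ → St) : Prop where
  P : ∀ c ∈ q.P, ∃ n, c ∈ (s n).P
  B : ∀ c ∈ q.B, ∃ n, c ∈ (s n).B
  I : ∀ ξ ∈ q.I, ∃ n, ξ ∈ (s n).I

theorem Tight.Y {q : St} {s : ℕ → St} (h : Tight q s) (hq : ∀ n, q ≤ s n) {y : Pt} (hy : y ∈ q.Y) :
    ∃ n, y ∈ (s n).Y := by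
  rcases hy with ⟨j, h1, h2, h3⟩ | ⟨h1, h2, h3⟩
  · obtain ⟨n, hn⟩ := h.P _ h3
    exact ⟨n, Or.inl ⟨j, h1, h2, hn⟩⟩
  · obtain ⟨n, hn⟩ := h.B _ h2
    exact ⟨n, Or.inr ⟨h1, hn, h3.trans ((hq n).ab _ hn)⟩⟩

theorem lim (s : ℕ → St) (hs : ∀ n, s (n + 1) ≤ s n) : ∃ q, (∀ n, q ≤ s n) ∧ Tight q s := by
  have an := antitone_nat_of_succ_le hs
  have l : ∀ n m, s (max n m) ≤ s n := fun n m => an (le_max_left n m)
  have r : ∀ n m, s (max n m) ≤ s m := fun n m => an (le_max_right n m)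
  obtain ⟨ab, hab⟩ := cst_glue a0 (fun n => (s n).B) (fun n => (s n).ab)
    fun n m h => (an h).ab
  obtain ⟨F, hF⟩ := cst_glue (0 : Vl) (fun n => (s n).I ×ˢ (s n).Y) (fun n t => (s n).F t.1 t.2)
    fun n m h t ht => (an h).F _ ht.1 _ ht.2
  replace hF : ∀ n, ∀ ξ ∈ (s n).I, ∀ y ∈ (s n).Y, F (ξ, y) = (s n).F ξ y :=
    fun n ξ hξ y hy => hF n (ξ, y) ⟨hξ, hy⟩
  refine ⟨⟨⋃ n, (s n).P, ⋃ n, (s n).B, ab, ⋃ n, (s n).I, fun ξ y => F (ξ, y), ⋃ n, (s n).Pr,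
    ⋃ n, (s n).DO, countable_iUnion fun n => (s n).cP, countable_iUnion fun n => (s n).cB,
    countable_iUnion fun n => (s n).cI, countable_iUnion fun n => (s n).cPr,
    countable_iUnion fun n => (s n).cDO, ?_, ?_, ?_, ?_, ?_⟩, fun n => ⟨fun _ h => mem_iUnion.2 ⟨n, h⟩,
    fun _ h => mem_iUnion.2 ⟨n, h⟩, hab n, fun _ h => mem_iUnion.2 ⟨n, h⟩, hF n,
    fun _ h => mem_iUnion.2 ⟨n, h⟩, fun _ h => mem_iUnion.2 ⟨n, h⟩, ?_, ?_, ?_⟩, fun _ => mem_iUnion.1, fun _ => mem_iUnion.1, fun _ => mem_iUnion.1⟩ <;>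
  simp only [mem_iUnion]
  · rintro c ⟨n, hn⟩ ⟨m, hm⟩
    exact (s (max n m)).disj c ((l n m).P hn) ((r n m).B hm)
  · rintro ξ ⟨n, hn⟩ c ⟨m, hm⟩ j a ha
    rw [hF _ ξ ((l n m).I hn) _ (pt_mem.2 ⟨ha, (r n m).P hm⟩)]
    exact (s _).rat ξ ((l n m).I hn) c ((r n m).P hm) j a ha
  · rintro ξ ⟨n, hn⟩ c ⟨m, hm⟩ h0 j hj
    have k := fun j a ha => hF _ ξ ((l n m).I hn) _ (pt_mem.2 ⟨(ha : nrm j a), (r n m).P hm⟩)
    exact ((s _).con ξ ((l n m).I hn) c ((r n m).P hm) (by rwa [root, ← k 0 a0 (nrm_a0 0)]) j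
      hj).congr fun a ha => by rw [k j a ha]
  · rintro p ⟨n, hn⟩
    obtain ⟨h1, h2, -⟩ := (s n).pr p hn
    refine ⟨fun y hy => ?_, h2, fun T ξ hT => ?_⟩
    · rcases h1 hy with ⟨j, k1, k2, k3⟩ | ⟨k1, k2, k3⟩
      · exact Or.inl ⟨j, k1, k2, mem_iUnion.2 ⟨n, k3⟩⟩
      · exact Or.inr ⟨k1, mem_iUnion.2 ⟨n, k2⟩, k3.trans (hab n _ k2).symm⟩
    · choose! N hN using fun i hi => mem_iUnion.1 (hT i hi).2.1
      obtain ⟨m, hm⟩ := (((finite_Iio p.k).subset fun i hi => (hT i hi).1).image N).bddAbove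
      obtain ⟨k1, -, k3⟩ := (s (max n m)).pr p ((l n m).Pr hn)
      exact cst_her h2 k3 (fun ξ hξ y hy => hF _ ξ hξ y (k1 hy)) T ξ fun i hi =>
        ⟨(hT i hi).1, (an (le_max_of_le_right (hm ⟨i, hi, rfl⟩))).I (hN i hi), (hT i hi).2.2⟩
  · rintro O ⟨n, hn⟩
    exact (s n).dO O hn
  · rintro c ⟨m, hm⟩ hn
    obtain ⟨v, h1, h2⟩ := (l n m).newP c ((r n m).P hm) hn
    exact ⟨v, h1, cst_slice h2 fun ξ hξ j a ha =>
      hF _ ξ ((l n m).I hξ) _ (pt_mem.2 ⟨ha, (r n m).P hm⟩)⟩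
  · rintro b ⟨m, hm⟩ hn
    obtain ⟨v, h1, h2⟩ := (l n m).newB b ((r n m).B hm) hn
    refine ⟨v, h1, fun ξ hξ => ?_⟩
    rw [hab _ b ((r n m).B hm), hF _ ξ ((l n m).I hξ) _ (top_mem.2 ⟨(r n m).B hm, rfl⟩), h2 ξ hξ]
  · rintro ξ ⟨m, hm⟩ hn y hy
    rw [hF _ ξ ((r n m).I hm) y ((l n m).Y hy)]
    exact (l n m).newI ξ ((r n m).I hm) hn y hy

/-- Adding promises. -/
theorem addPr (s : St) {𝒢 : Set (ℕ × Set (ℕ → Co))} (hc : 𝒢.Countable)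
    (h : ∀ p ∈ 𝒢, Opn s.Y p.1 p.2 ∧ Dns p.1 p.2) : ∃ s' ≤ s, Same s' s ∧
      ∀ p ∈ 𝒢, ∀ s'' ≤ s', ∀ e : ℕ → Om, InjOn e (Iio p.1) →
        (∀ n < p.1, e n ∈ s''.I ∧ e n ∉ s.I) → (fun n => s''.F (e n)) ∈ p.2 := by
  refine ⟨{ s with
    Pr := s.Pr ∪ (fun p => ⟨s.Y, s.I, p.1, p.2⟩) '' 𝒢
    cPr := s.cPr.union (hc.image _)
    pr := ?_ }, { (le_def.1 (le_refl s)) with Pr := subset_union_left }, ⟨rfl, rfl, rfl, rfl, rfl⟩,
    fun p hp s'' hs e he h' => ?_⟩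
  · rintro _ (k | ⟨p, hp, rfl⟩)
    · exact s.pr _ k
    · refine ⟨Subset.rfl, (h p hp).1, fun T ξ hT _ => ?_⟩
      have : ∀ E, mix T (fun n => s.F (ξ n)) E = E := fun E => funext fun n =>
        if_neg fun hn => (hT n hn).2.2 (hT n hn).2.1
      simp only [this]
      exact (h p hp).2
  · obtain ⟨-, h1, h2⟩ := s''.pr _ (hs.Pr (Or.inr ⟨p, hp, rfl⟩))
    obtain ⟨E, -, -, h3⟩ := h2 (Iio p.1) e (fun n hn => ⟨hn, h' n hn⟩) he 0 (fun _ => good_zero) ∅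
      finite_empty
    obtain ⟨Z, -, -, h4⟩ := h1 _ h3
    exact h4 _ fun n hn y _ => congrFun (if_pos hn) y

theorem addDO (s : St) {𝒪 : Set (Set LM)} (hc : 𝒪.Countable) (h : ∀ O ∈ 𝒪, OpnD O ∧ DnsD O) :
    ∃ s' ≤ s, Same s' s ∧ 𝒪 ⊆ s'.DO :=
  ⟨{ s with
    DO := s.DO ∪ 𝒪
    cDO := s.cDO.union hc
    dO := fun O hO => hO.elim (s.dO O) (h O) },
    { (le_def.1 (le_refl s)) with DO := subset_union_left }, ⟨rfl, rfl, rfl, rfl, rfl⟩,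
    subset_union_right⟩

/-- Generic labels. -/
theorem exists_gen (s : St) (x₀ : LM) (K : ℕ) {J : Set Om} (hJ : J.Finite) {A : Set Lb}
    (hA : A.Countable) : ∃ x, agD K J x₀ x ∧ x.1 ∉ A ∧ ∀ O ∈ s.DO, x ∈ O := by
  obtain ⟨x, h1, h2⟩ := cst_baire (s.cDO.union (hA.image fun c => {x : LM | x.1 ≠ c})) (by
    rintro _ (k | ⟨c, -, rfl⟩)
    · exact s.dO _ k
    · refine ⟨fun x hx => ?_, fun x K J _ => ?_⟩
      · obtain ⟨K, hK⟩ := exists_not_ag hx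
        exact ⟨K, ∅, finite_empty, fun x' h e => hK K le_rfl (e ▸ h.1)⟩
      · obtain ⟨g, k1, k2⟩ := exists_avoid (finite_singleton c) x.1 K
        exact ⟨(g, x.2), fun e => k2 c rfl (e ▸ ag.refl _ _), k1, fun _ _ => rfl⟩) x₀ K hJ
  exact ⟨x, h1, fun h => h2 _ (Or.inr ⟨_, h, rfl⟩) rfl, fun O hO => h2 O (Or.inl hO)⟩

theorem addP (s : St) {x : LM} (hx : x.1 ∉ s.lab) (hO : ∀ O ∈ s.DO, x ∈ O) :
    ∃ s' ≤ s, s'.P = insert x.1 s.P ∧ s'.B = s.B ∧ s'.I = s.I ∧ Slice s.I s'.F x.1 x.2 := by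
  classical
  let F : Om → Co := fun ξ y => if y.g = x.1 then (if y.h = 0 then 0 else (x.2 ξ, 0)) else s.F ξ y
  have old : ∀ ξ y, y.g ∈ s.lab → F ξ y = s.F ξ y := fun ξ y hy =>
    if_neg fun e : y.g = x.1 => hx (e ▸ hy)
  have sl : Slice s.I F x.1 x.2 := fun ξ _ => ⟨by simp [F, root, pt], fun j hj a _ => by
    simp [F, pt, Nat.one_le_iff_ne_zero.1 hj]⟩
  refine ⟨{ s with
    P := insert x.1 s.P
    F := F
    cP := s.cP.insert _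
    disj := ?_
    rat := ?_
    con := ?_
    pr := fun p hp => ⟨fun y hy => ?_, (s.pr p hp).2.1, cst_her (s.pr p hp).2.1 (s.pr p hp).2.2
      fun ξ _ y hy => old ξ y (g_mem ((s.pr p hp).1 hy))⟩ },
    { (le_def.1 (le_refl s)) with
      P := subset_insert _ _
      F := fun ξ _ y hy => old ξ y (g_mem hy)
      newP := ?_
      newB := fun _ h h' => absurd h h'
      newI := fun _ h h' => absurd h h' }, rfl, rfl, rfl, sl⟩
  · rintro c (rfl | hc)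
    · exact fun h => hx (Or.inr h)
    · exact s.disj c hc
  · rintro ξ hξ c (rfl | hc) j a ha
    · simp only [F, pt, if_true]
      split_ifs <;> exact isRat_zero
    · rw [old ξ _ (Or.inl hc)]
      exact s.rat ξ hξ c hc j a ha
  · rintro ξ hξ c (rfl | hc) h0 j hj
    · exact absurd (congrArg Prod.fst (sl ξ hξ).1) h0
    · rw [old ξ _ (Or.inl hc)] at h0
      exact (s.con ξ hξ c hc h0 j hj).congr fun a _ => by rw [old ξ _ (Or.inl hc)]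
  · exact ((s.pr p hp).1 hy).imp_left fun ⟨j, h1, h2, h3⟩ => ⟨j, h1, h2, Or.inr h3⟩
  · rintro c (rfl | hc) hn
    · exact ⟨x.2, hO, sl⟩
    · exact absurd hc hn

theorem addB (s : St) {x : LM} (hx : x.1 ∉ s.lab) (hO : ∀ O ∈ s.DO, x ∈ O) (a : G2) (f : Om → D) :
    ∃ s' ≤ s, s'.P = s.P ∧ s'.B = insert x.1 s.B ∧ s'.I = s.I ∧ s'.ab x.1 = a ∧
      ∀ ξ ∈ s.I, s'.F ξ ⟨⊤, a, x.1⟩ = (x.2 ξ, f ξ) := by
  classical
  let F : Om → Co := fun ξ y => if y.g = x.1 then (x.2 ξ, f ξ) else s.F ξ y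
  have old : ∀ ξ y, y.g ∈ s.lab → F ξ y = s.F ξ y := fun ξ y hy =>
    if_neg fun e : y.g = x.1 => hx (e ▸ hy)
  have hab : ∀ b ∈ s.B, update s.ab x.1 a b = s.ab b := fun b hb =>
    update_of_ne (fun e : b = x.1 => hx (Or.inr (e ▸ hb))) _ _
  refine ⟨{ s with
    B := insert x.1 s.B
    ab := update s.ab x.1 a
    F := F
    cB := s.cB.insert _
    disj := ?_
    rat := fun ξ hξ c hc j a ha => ?_
    con := fun ξ hξ c hc h0 j hj => ?_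
    pr := fun p hp => ⟨fun y hy => ?_, (s.pr p hp).2.1, cst_her (s.pr p hp).2.1 (s.pr p hp).2.2
      fun ξ _ y hy => old ξ y (g_mem ((s.pr p hp).1 hy))⟩ },
    { (le_def.1 (le_refl s)) with
      B := subset_insert _ _
      ab := hab
      F := fun ξ _ y hy => old ξ y (g_mem hy)
      newP := fun _ h h' => absurd h h'
      newB := ?_
      newI := fun _ h h' => absurd h h' }, rfl, rfl, rfl, update_self x.1 a s.ab,
      fun _ _ => if_pos rfl⟩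
  · rintro c hc (rfl | h)
    · exact hx (Or.inl hc)
    · exact s.disj c hc h
  · rw [old ξ _ (Or.inl hc)]
    exact s.rat ξ hξ c hc j a ha
  · rw [old ξ _ (Or.inl hc)] at h0
    exact (s.con ξ hξ c hc h0 j hj).congr fun a _ => by rw [old ξ _ (Or.inl hc)]
  · exact ((s.pr p hp).1 hy).imp_right fun ⟨h1, h2, h3⟩ =>
      ⟨h1, Or.inr h2, h3.trans (hab _ h2).symm⟩
  · rintro c (rfl | hc) hn
    · exact ⟨x.2, hO, fun ξ _ => congrArg Prod.fst (if_pos rfl)⟩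
    · exact absurd hc hn

/-- A dense set of fibres that are trivial for all existing coordinates. -/
theorem addSlices (s : St) : ∃ s' ≤ s, s'.I = s.I ∧
    ∀ (x₀ : LM) (K : ℕ) (J : Set Om), J.Finite → J ⊆ s.I → ∀ X : Set Lb, X.Finite →
      ∃ x : LM, x.1 ∈ s'.P ∧ x.1 ∉ X ∧ agD K J x₀ x ∧ Slice s.I s'.F x.1 x.2 := by
  have := (countable_ofPred_finite_subset s.cI).to_subtype
  choose T _ hT hr using fun t : ℕ × {J | J.Finite ∧ J ⊆ s.I} =>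
    CC.reps (S := univ) (R := agD t.1 t.2.1) ((CC.ag t.1 Prod.fst).and (CC.finite t.2.2.1
      fun ξ _ => CC.eq countable_univ (fun x : LM => x.2 ξ) fun _ _ => trivial))
  have := fun t => (hT t).to_subtype
  obtain ⟨u, -, h1, h2⟩ := exists_seq (Q := {q : St // q ≤ s ∧ q.I = s.I})
    (fun (i : Σ t, T t) q => ∃ x : LM, x.1 ∈ q.1.P ∧ agD i.1.1 i.1.2.1 i.2.1 x ∧
      Slice s.I q.1.F x.1 x.2) (fun i q => by
      obtain ⟨x, k1, k2, k3⟩ := q.1.exists_gen i.2.1 i.1.1 i.1.2.2.1 q.1.cLab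
      obtain ⟨q', k4, k5, -, k6, k7⟩ := q.1.addP k2 k3
      exact ⟨⟨q', k4.trans q.2.1, k6.trans q.2.2⟩, k4, x, k5 ▸ mem_insert _ _, k1,
        fun ξ hξ => k7 ξ (q.2.2.symm.subset hξ)⟩)
    ⟨s, le_rfl, rfl⟩
  obtain ⟨q, h3, h4⟩ := lim (fun n => (u n).1) h1
  have hq := (h3 0).trans (u 0).2.1
  refine ⟨q, hq, Subset.antisymm (fun ξ hξ => ?_) hq.I, fun x₀ K J hJ hJ' X hX => ?_⟩
  · obtain ⟨n, hn⟩ := h4.I ξ hξ
    exact (u n).2.2 ▸ hn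
  · obtain ⟨g, k1, k2⟩ := exists_avoid hX x₀.1 K
    obtain ⟨r, k3, k4⟩ := hr (K + 1, ⟨J, hJ, hJ'⟩) (g, x₀.2) trivial
    obtain ⟨n, x, k5, k6, k7⟩ := h2 ⟨_, r, k3⟩
    have k8 : ag (K + 1) g x.1 := k4.1.symm.trans k6.1
    exact ⟨x, (h3 n).P k5, fun h => k2 _ h k8, ⟨k1.trans (k8.mono K.le_succ), fun ξ hξ =>
      (k4.2 ξ hξ).symm.trans (k6.2 ξ hξ)⟩, cst_slice k7 fun ξ hξ j a ha =>
      (h3 n).F ξ ((u n).2.2.symm.subset hξ) _ (pt_mem.2 ⟨ha, k5⟩)⟩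

end St

/-- Dense open sets of labels given by cylinders. -/
theorem slabDO {en : ℕ → Om} (hen : Injective en) (Φ : ℕ → Lb → (ℕ → ℕ) → Prop)
    (h : ∀ K₀ g₀ w₀, ∃ K₁ ≥ K₀, ∃ g₁ w₁, ag K₀ g₀ g₁ ∧ ag K₀ w₀ w₁ ∧ Φ K₁ g₁ w₁) :
    OpnD {x | ∃ K₁ g₁ w₁, Φ K₁ g₁ w₁ ∧ ag K₁ g₁ x.1 ∧ ag K₁ w₁ fun n => x.2 (en n)} ∧
    DnsD {x | ∃ K₁ g₁ w₁, Φ K₁ g₁ w₁ ∧ ag K₁ g₁ x.1 ∧ ag K₁ w₁ fun n => x.2 (en n)} := by
  refine ⟨fun x ⟨K, g, w, h1, h2, h3⟩ => ⟨K, en '' Iio K, (finite_Iio K).image _, fun x' h' =>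
    ⟨K, g, w, h1, h2.trans h'.1, h3.trans fun n hn => h'.2 _ ⟨n, hn, rfl⟩⟩⟩, fun x K J hJ => ?_⟩
  obtain ⟨m, hm⟩ := (hJ.preimage hen.injOn).bddAbove
  obtain ⟨K₁, -, g, w, h1, h2, h3⟩ := h (max K (m + 1)) x.1 fun n => x.2 (en n)
  refine ⟨(g, extend en w x.2), ⟨K₁, g, w, h3, ag.refl _ _, fun n _ => (hen.extend_apply _ _ n).symm⟩,
    h1.mono (le_max_left _ _), fun ξ hξ => ?_⟩
  by_cases k : ∃ n, en n = ξ
  · obtain ⟨n, rfl⟩ := k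
    exact (h2 n (lt_max_of_lt_right (Nat.lt_succ_of_le (hm hξ)))).trans
      (hen.extend_apply _ _ n).symm
  · exact (extend_apply' _ _ _ k).symm

/-- The points and neighbourhoods of the generic space. -/
def bs : Base St Pt (ℕ × Set Om) where
  mem x s := x ∈ s.Y
  Nb n x y s := x ∈ s.Y ∧ y ∈ s.Y ∧ n.2.Finite ∧ n.2 ⊆ s.I ∧ Nbr n.1 n.2 x s.F y s.F

end Pool.Agent.Work.MP_f50f0f_gt
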