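import Pool.Agent.Work.MP_f50f0f_gt.CCont
import Mathlib.LinearAlgebra.Finsupp.LinearCombination
import Mathlib.Analysis.SpecificLimits.Basic

/-! The topology of the generic space and the two closed sets of functionals. -/

namespace Pool.Agent.Work.MP_f50f0f_gt
open Function Set Filter

theorem CTop_left {s' s : St} (h : s' ≤ s) {K : ℕ} {J : Set Om} (hJ : J ⊆ s.I) {x z : Pt}
    (hx : x ∈ s.Y) (hz : Reg z) {G : Om → Co} : Nbr K J x s'.F z G ↔ Nbr K J x s.F z G :=
  ⟨fun a => a.congr hz (fun i hi w hw => h.F i (hJ hi) w (dn_subset hx hw)) fun _ _ _ _ => rfl,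
    fun a => a.congr hz (fun i hi w hw => (h.F i (hJ hi) w (dn_subset hx hw)).symm)
      fun _ _ _ _ => rfl⟩

/-- The cells of resolution `K`. -/
def CTop_cell (K : ℕ) (x y : Pt) : Prop :=
  min x.h K = min y.h K ∧ ag K x.a y.a ∧ ag K x.g y.g

theorem CTop_cell.symm {K : ℕ} {x y : Pt} (h : CTop_cell K x y) : CTop_cell K y x :=
  ⟨h.1.symm, h.2.1.symm, h.2.2.symm⟩

theorem CTop_cell.trans {K : ℕ} {x y z : Pt} (h : CTop_cell K x y) (h' : CTop_cell K y z) :
    CTop_cell K x z := ⟨h.1.trans h'.1, h.2.1.trans h'.2.1, h.2.2.trans h'.2.2⟩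

theorem CTop_cell.zero {K : ℕ} {x y : Pt} (h : CTop_cell K x y) (hK : 1 ≤ K) :
    x.h = 0 ↔ y.h = 0 := by
  have h0 : (K : ℕ∞) ≠ 0 := by exact_mod_cast (by omega)
  have := congrArg (· = 0) h.1
  simpa [min_eq_zero, h0] using this

theorem CTop_of_nbr {ι : Type*} {K : ℕ} {J : Set ι} {x y : Pt} {F F' : ι → Co}
    (h : Nbr K J x F y F') : CTop_cell K x y := by
  obtain ⟨h1, ⟨j, h2, h3, -, h4, -⟩ | ⟨h2, h3, h4, -⟩⟩ := h
  · exact ⟨by rw [h2, h3], by rw [h4]; exact ag.refl _ _, h1⟩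
  · exact ⟨by rw [h2, min_eq_right h3, min_eq_right le_top], h4, h1⟩

theorem CTop_sepc {x y : Pt} (h : x ≠ y) : ∀ᶠ K in atTop, ¬ CTop_cell K x y := by
  have key : ∀ x y : Pt, x.h < y.h → ∀ᶠ K in atTop, ¬ CTop_cell K x y := by
    intro x y h
    obtain ⟨j, hj⟩ := ENat.ne_top_iff_exists.1 h.ne_top
    filter_upwards [eventually_gt_atTop j] with K hK e
    have h1 : x.h < K := by rw [← hj]; exact_mod_cast hK
    exact (lt_min h h1).ne ((min_eq_left h1.le).symm.trans e.1)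
  rcases lt_trichotomy x.h y.h with h1 | h1 | h1
  · exact key x y h1
  · by_cases h2 : x.a = y.a
    · obtain ⟨K, hK⟩ := exists_not_ag fun e => h (Pt.ext h1 h2 e)
      exact eventually_atTop.2 ⟨K, fun K' a e => hK K' a e.2.2⟩
    · obtain ⟨K, hK⟩ := exists_not_ag h2
      exact eventually_atTop.2 ⟨K, fun K' a e => hK K' a e.2.1⟩
  · exact (key y x h1).mono fun K a e => a e.symm

/-- The name of a function that is computed from the condition. -/
def CTop_nm (p : St) (val : St → Pt → ℝ) : NN := fun x t s => s ≤ p ∧ x ∈ s.Y ∧ t = val s x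

theorem CTop_ev {p s : St} {val : St → Pt → ℝ} {μ : Pt →₀ ℝ} {t : ℝ}
    (h : EV (CTop_nm p val) μ t s) : t = Finsupp.linearCombination ℝ (val s) μ := by
  obtain ⟨v, hv, rfl⟩ := h
  exact Finsupp.sum_congr fun x hx => by rw [(hv x hx).2.2]; rfl

theorem CTop_close {p s : St} {val : St → Pt → ℝ} {μ ν : Pt →₀ ℝ} {es : List NN} {η : ℝ}
    (h : Close es η μ ν s) (he : CTop_nm p val ∈ es) :
    |Finsupp.linearCombination ℝ (val s) μ - Finsupp.linearCombination ℝ (val s) ν| < η := by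
  obtain ⟨t, t', h1, h2, h3⟩ := h _ he
  rwa [CTop_ev h1, CTop_ev h2] at h3

theorem CTop_small {η : ℝ} (hη : 0 < η) : ∀ᶠ K : ℕ in atTop, 1 / ((K : ℝ) + 1) ≤ η :=
  tendsto_one_div_add_atTop_nhds_zero_nat.eventually (ge_mem_nhds hη)

open Classical in
theorem CTop_cf_cell (p : St) (K : ℕ) (x : Pt) :
    bs.CF (CTop_nm p fun _ y => if CTop_cell K x y then 1 else 0) p :=
  cf_local p _ (fun _ _ _ _ _ _ => rfl) fun s _ y _ η hη =>
    ⟨K, ∅, finite_empty, empty_subset _, fun s' _ z _ h => by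
      rw [if_congr (show CTop_cell K x z ↔ CTop_cell K x y from
        ⟨fun a => a.trans (CTop_of_nbr h).symm, fun a => a.trans (CTop_of_nbr h)⟩) rfl rfl]
      simpa using hη⟩

theorem CTop_cf_mark {p : St} {ξ : Om} (hξ : ξ ∈ p.I) :
    bs.CF (CTop_nm p fun s y => if y.h = 0 ∧ (s.F ξ y).1 ≠ 0 then 1 else 0) p :=
  cf_local p _ (fun s hs s' hs' x hx => by rw [hs'.F ξ (hs.I hξ) x hx]) fun s hs y _ η hη =>
    ⟨1, {ξ}, finite_singleton _, singleton_subset_iff.2 (hs.I hξ), fun s' _ z _ h => by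
      have h1 : (s'.F ξ y).1 = (s'.F ξ z).1 := h.val.1 ξ rfl
      simp only [(CTop_of_nbr h).zero le_rfl, h1]
      simpa using hη⟩

theorem CTop_cf_co {p : St} {ξ : Om} (hξ : ξ ∈ p.I) (π : D → ℝ)
    (hπ : ∀ d d', |π d - π d'| ≤ dist d d') :
    bs.CF (CTop_nm p fun s y => if y.h = 0 then 0 else π (s.F ξ y).2) p := by
  refine cf_local p _ (fun s hs s' hs' x hx => by rw [hs'.F ξ (hs.I hξ) x hx])
    fun s hs y _ η hη => ?_
  obtain ⟨K, h1, h2⟩ := ((CTop_small hη).and (eventually_ge_atTop 1)).exists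
  refine ⟨K, {ξ}, finite_singleton _, singleton_subset_iff.2 (hs.I hξ), fun s' _ z _ h => ?_⟩
  simp only [(CTop_of_nbr h).zero h2]
  split_ifs
  · simpa using hη
  · rw [abs_sub_comm]
    exact ((hπ _ _).trans_lt (h.val.2 ξ rfl)).trans_le h1

theorem CTop_cr_fin {K : ℕ} {J : Set Om} {x : Pt} {s : St} (h : bs.Nb (K, J) x x s) {j : ℕ}
    (hj : x.h = j) : ∃ e, bs.CF e s ∧ e x 0 s ∧
      ∀ s' ≤ s, ∀ y, bs.mem y s' → ¬ bs.Nb (K, J) x y s' → e y 1 s' := by
  classical
  obtain ⟨hx, -, hJ, hI, hxx⟩ := h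
  refine ⟨CTop_nm s fun s' y => if Nbr K J x s'.F y s'.F then 0 else 1, cf_local s _
    (fun s' hs' s'' hs'' y hy => if_congr
      (St.nbr_le hs'' (hI.trans hs'.I) (hs'.Y hx) hy) rfl rfl) fun s' hs' y hy η hη => ?_,
    ⟨le_rfl, hx, (if_pos hxx).symm⟩, fun s' hs' y hy hn =>
      ⟨hs', hy, (if_neg fun a => hn ⟨hs'.Y hx, hy, hJ, hI.trans hs'.I, a⟩).symm⟩⟩
  refine ⟨max K (j + 1), J, hJ, hI.trans hs'.I, fun s'' _ z _ hz => ?_⟩
  rw [if_congr (show Nbr K J x s''.F z s''.F ↔ Nbr K J x s''.F y s''.F from ?_) rfl rfl]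
  · simpa using hη
  have top : ∀ {w : Pt}, Nbr K J x s''.F w s''.F → w.h = j ∧ nrm j x.a ∧ w.a = x.a ∧
      ∀ i ∈ J, ∀ j' ≤ j, ∀ a, nrm j' a → s''.F i (pt j' a x.g) = s''.F i (pt j' a w.g) := by
    rintro w ⟨-, ⟨j', h1, h2⟩ | ⟨h1, -⟩⟩
    · obtain rfl : j = j' := by exact_mod_cast hj.symm.trans h1
      exact h2
    · exact absurd (hj.symm.trans h1) (ENat.coe_ne_top j)
  obtain ⟨g1, ⟨l, g2, g3, -, g4, g5⟩ | ⟨g2, g3, -⟩⟩ := hz
  · have g6 := g1.mono (le_max_left K (j + 1))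
    constructor
    · intro a
      obtain ⟨a1, a2, a3, a4⟩ := top a
      obtain rfl : j = l := by exact_mod_cast a1.symm.trans g3
      exact ⟨a.1.trans g6.symm, .inl ⟨j, hj, g2, a2, g4.symm.trans a3, fun i hi j' hj' b hb =>
        (a4 i hi j' hj' b hb).trans (g5 i hi j' hj' b hb).symm⟩⟩
    · intro a
      obtain ⟨a1, a2, a3, a4⟩ := top a
      obtain rfl : j = l := by exact_mod_cast a1.symm.trans g2
      exact ⟨a.1.trans g6, .inl ⟨j, hj, g3, a2, g4.trans a3, fun i hi j' hj' b hb =>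
        (a4 i hi j' hj' b hb).trans (g5 i hi j' hj' b hb)⟩⟩
  · refine iff_of_false (fun a => ?_) fun a => ENat.coe_ne_top j ((top a).1.symm.trans g2)
    rw [(top a).1] at g3
    have : max K (j + 1) ≤ j := by exact_mod_cast g3
    omega

theorem CTop_cr_top {K : ℕ} {J : Set Om} {x : Pt} {s : St} (h : bs.Nb (K, J) x x s)
    (hj : x.h = ⊤) : ∃ e, bs.CF e s ∧ e x 0 s ∧
      ∀ s' ≤ s, ∀ y, bs.mem y s' → ¬ bs.Nb (K, J) x y s' → e y 1 s' := by
  classical
  obtain ⟨hx, -, hJ, hI, hxx⟩ := h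
  lift J to Finset Om using hJ
  refine ⟨CTop_nm s fun s' y => if CTop_cell K x y ∧ ∀ i ∈ J, mkr s.F x i = mkr s'.F y i then
    min 1 (((K : ℝ) + 1) * ∑ i ∈ J, dist (fv s.F x i) (fv s'.F y i)) else 1, cf_local s _
    (fun s' hs' s'' hs'' y hy => ?_) fun s' hs' y hy η hη => ?_,
    ⟨le_rfl, hx, ?_⟩, fun s' hs' y hy hn => ⟨hs', hy, ?_⟩⟩
  · have e : ∀ i ∈ J, s''.F i y = s'.F i y := fun i hi => hs''.F i (hs'.I (hI hi)) y hy
    refine if_congr (and_congr_right fun _ => forall₂_congr fun i hi => ?_) ?_ rfl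
    · simp only [mkr, e i hi]
    · rw [Finset.sum_congr rfl fun i hi => by simp only [fv, e i hi]; rfl]
      rfl
  · obtain ⟨K', h1, h2⟩ := ((CTop_small (show 0 < η / (((K : ℝ) + 1) * (J.card + 1)) by
      positivity)).and (eventually_ge_atTop K)).exists
    refine ⟨K', J, J.finite_toSet, hI.trans hs'.I, fun s'' _ z _ hz => ?_⟩
    have c := CTop_of_nbr (hz.mono h2 Subset.rfl)
    have e : (CTop_cell K x z ∧ ∀ i ∈ J, mkr s.F x i = mkr s''.F z i) ↔
        CTop_cell K x y ∧ ∀ i ∈ J, mkr s.F x i = mkr s''.F y i :=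
      and_congr ⟨fun a => a.trans c.symm, fun a => a.trans c⟩
        (forall₂_congr fun i hi => by rw [hz.val.1 i hi])
    simp only [e]
    split_ifs
    swap
    · simpa using hη
    refine (abs_min_sub_min_le_max _ _ _ _).trans_lt (max_lt (by simpa using hη) ?_)
    rw [← mul_sub, ← Finset.sum_sub_distrib, abs_mul, abs_of_pos (by positivity)]
    have h3 : |∑ i ∈ J, (dist (fv s.F x i) (fv s''.F z i) - dist (fv s.F x i) (fv s''.F y i))| ≤
        J.card * (η / (((K : ℝ) + 1) * (J.card + 1))) := by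
      refine (Finset.abs_sum_le_sum_abs _ _).trans ?_
      rw [← nsmul_eq_mul]
      refine Finset.sum_le_card_nsmul _ _ _ fun i hi => ?_
      rw [dist_comm _ (fv s''.F z i), dist_comm _ (fv s''.F y i)]
      refine (abs_dist_sub_le _ _ _).trans ?_
      rw [dist_comm]
      exact (hz.val.2 i hi).le.trans h1
    refine (mul_le_mul_of_nonneg_left h3 (by positivity)).trans_lt ?_
    rw [← mul_div_assoc, ← mul_div_assoc, div_lt_iff₀ (by positivity)]
    nlinarith [show 0 < η * ((K : ℝ) + 1) by positivity]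
  · simp only [CTop_of_nbr hxx, true_and, implies_true, if_true, dist_self, Finset.sum_const_zero,
      mul_zero, min_eq_right zero_le_one]
  · simp only
    split_ifs with h1
    swap
    · rfl
    refine (min_eq_left (not_lt.1 fun h2 => hn ⟨hs'.Y hx, hy, J.finite_toSet, hI.trans hs'.I,
      (CTop_left hs' hI hx (reg_of_mem hy)).2 ((nbr_top hj).2
        ⟨h1.1.2.2, ?_, h1.1.2.1, h1.2, fun i hi => ?_⟩)⟩)).symm
    · have := h1.1.1
      rw [hj, min_eq_right le_top] at this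
      exact this.le.trans (min_le_left _ _)
    · rw [lt_div_iff₀' (by positivity)]
      exact (mul_le_mul_of_nonneg_left (Finset.single_le_sum (f := fun i =>
        dist (fv s.F x i) (fv s'.F y i)) (fun _ _ => dist_nonneg) hi) (by positivity)).trans_lt h2

theorem bs_top : bs.Top := by
  refine ⟨fun x s s' h hs => hs.Y h, fun n x y s s' ⟨a, b, c, d, e⟩ hs =>
      ⟨hs.Y a, hs.Y b, c, d.trans hs.I, (St.nbr_le hs d a b).2 e⟩,
    fun n x y s h => ⟨h.1, h.2.1⟩,
    fun n x y s ⟨a, _, c, d, _⟩ => ⟨a, a, c, d, Nbr.refl (reg_of_mem a) _ _ _⟩,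
    fun x s h => ⟨(0, ∅), h, h, finite_empty, empty_subset _, Nbr.refl (reg_of_mem h) _ _ _⟩,
    fun n n' x s ⟨a, _, c, d, _⟩ ⟨_, _, c', d', _⟩ => ⟨(max n.1 n'.1, n.2 ∪ n'.2),
      ⟨a, a, c.union c', union_subset d d', Nbr.refl (reg_of_mem a) _ _ _⟩,
      fun s' hs y ⟨e, f, _, _, g⟩ =>
        ⟨⟨e, f, c, d.trans hs.I, g.mono (le_max_left _ _) subset_union_left⟩,
          e, f, c', d'.trans hs.I, g.mono (le_max_right _ _) subset_union_right⟩⟩,
    fun n x y s ⟨a, b, c, d, e⟩ => ?_,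
    fun n x y s s' ⟨a, _, c, d, _⟩ b hs e => ⟨a, b, c, d, (St.nbr_le hs d a b).1 e.2.2.2.2⟩,
    fun x y s h hx => ?_, fun n x s h => ?_⟩
  · obtain ⟨K, hK⟩ := e.int c
    exact ⟨(K, n.2), ⟨b, b, c, d, Nbr.refl (reg_of_mem b) _ _ _⟩, fun s' hs z ⟨_, f, _, _, g⟩ =>
      ⟨hs.Y a, f, c, d.trans hs.I, (CTop_left hs d a (reg_of_mem f)).2
        (hK z _ ((CTop_left hs d b (reg_of_mem f)).1 g))⟩⟩
  · obtain ⟨K, hK⟩ := (CTop_sepc h).exists
    exact ⟨(K, ∅), ⟨hx, hx, finite_empty, empty_subset _, Nbr.refl (reg_of_mem hx) _ _ _⟩,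
      fun s' _ a => hK (CTop_of_nbr a.2.2.2.2)⟩
  · by_cases hj : x.h = ⊤
    · exact CTop_cr_top h hj
    · obtain ⟨j, e⟩ := ENat.ne_top_iff_exists.1 hj
      exact CTop_cr_fin h e.symm

/-- The signed average over level `m` of the fibre `c`. -/
noncomputable def theta (m : ℕ) (c : Lb) : Pt →₀ ℝ :=
  av m fun a => Finsupp.single (pt m a c) (sg m a)

/-- The evaluations at the roots. -/
def Dd (ν : Pt →₀ ℝ) (s : St) : Prop := ∃ c ∈ s.P, ν = Finsupp.single (root c) 1

/-- The perturbed evaluations at the roots. -/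
def Aa (ν : Pt →₀ ℝ) (s : St) : Prop :=
  ∃ c ∈ s.P, ∃ m, 1 ≤ m ∧ ν = Finsupp.single (root c) 1 + theta m c

theorem theta_supp {m : ℕ} {c : Lb} {x : Pt} (h : x ∈ (theta m c).support) :
    ∃ a, nrm m a ∧ x = pt m a c := by
  refine (Finsupp.mem_supported ℝ _).1 (av_mem
    (Finsupp.supported ℝ ℝ {x | ∃ a, nrm m a ∧ x = pt m a c}) fun a ha => ?_) h
  exact Finsupp.single_mem_supported ℝ _ ⟨a, ha, rfl⟩

theorem theta_sum (m : ℕ) (c : Lb) (val : Pt → ℝ) :
    ((theta m c).sum fun x r => r * val x) = av m fun a => sg m a * val (pt m a c) := by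
  simpa [theta, Finsupp.linearCombination_apply] using
    av_map (Finsupp.linearCombination ℝ val) m fun a => Finsupp.single (pt m a c) (sg m a)

theorem Dd_sup (ν : Pt →₀ ℝ) (s : St) (h : Dd ν s) : bs.Sup ν s := by
  obtain ⟨c, hc, rfl⟩ := h
  intro x hx
  obtain rfl := Finset.mem_singleton.1 (Finsupp.support_single_subset hx)
  exact pt_mem.2 ⟨nrm_a0 0, hc⟩

theorem Aa_sup (ν : Pt →₀ ℝ) (s : St) (h : Aa ν s) : bs.Sup ν s := by
  classical
  obtain ⟨c, hc, m, -, rfl⟩ := h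
  intro x hx
  rcases Finset.mem_union.1 (Finsupp.support_add hx) with h | h
  · exact Dd_sup _ s ⟨c, hc, rfl⟩ x h
  · obtain ⟨a, ha, rfl⟩ := theta_supp h
    exact pt_mem.2 ⟨ha, hc⟩

theorem bs_sep : bs.SepP Dd Aa := by
  classical
  intro s μ hμ
  by_cases h : ∃ c, μ = Finsupp.single (root c) 1
  · obtain ⟨c, rfl⟩ := h
    obtain ⟨u, hu, -, hu1⟩ := exists_mark good_zero univ fun _ => 1
    obtain ⟨s', hs', ξ, -, hξ, e⟩ := s.addCoord' hu (finite_singleton (root c))
    have hc : root c ∈ s.Y := hμ _ (by simp)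
    have c1 := CTop_cf_co hξ (fun d => d.1) fun d d' => le_max_left _ (dist d.2 d'.2)
    have c2 := CTop_cf_co hξ (fun d => d.2) fun d d' => le_max_right (dist d.1 d'.1) _
    refine ⟨s', hs', [_, _, _], 1 / 20, by norm_num,
      List.forall_mem_cons.2 ⟨CTop_cf_mark hξ, List.forall_mem_cons.2
        ⟨c1, List.forall_mem_singleton.2 c2⟩⟩, .inr ?_⟩
    rintro s'' hs'' _ ⟨c', hc', m, hm, rfl⟩ hcl
    have th : ∀ val : Pt → ℝ, Finsupp.linearCombination ℝ val (theta m c') =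
        av m fun a => sg m a * val (pt m a c') := fun val => theta_sum m c' val
    have hm0 : ∀ a, (pt m a c').h ≠ 0 := fun a => by
      simp only [pt]
      exact_mod_cast (by omega)
    have r0 : ∀ c, (root c).h = 0 := fun _ => rfl
    have h0 := CTop_close hcl List.mem_cons_self
    have h1 := CTop_close hcl (List.mem_cons_of_mem _ List.mem_cons_self)
    have h2 := CTop_close hcl (List.mem_cons_of_mem _ (List.mem_cons_of_mem _ List.mem_cons_self))
    have h3 : (s''.F ξ (root c)).1 = 1 := by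
      rw [hs''.F ξ hξ _ (hs'.Y hc), ← e ⟨rfl, hc⟩, hu1 _ trivial]
    simp only [map_add, Finsupp.linearCombination_single, th, hm0, r0, h3, if_true, if_false,
      false_and, true_and, mul_zero, av_const, smul_eq_mul, one_mul, add_zero, zero_add, zero_sub,
      abs_neg, ne_eq, one_ne_zero, not_false_eq_true] at h0 h1 h2
    have h4 : (s''.F ξ (root c')).1 ≠ 0 := fun a => by norm_num [a] at h0
    rcases s''.con ξ (hs''.I hξ) c' hc' h4 m hm with h5 | h5
    exacts [h5.not_gt h1, h5.not_gt h2]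
  · have ev : ∀ᶠ K : ℕ in atTop, ∀ x ∈ μ.support, (∀ y ∈ μ.support, x ≠ y → ¬ CTop_cell K x y) ∧
        1 / ((K : ℝ) + 1) ≤ |μ x| ∧ (μ x ≠ 1 → 1 / ((K : ℝ) + 1) ≤ |μ x - 1|) := by
      refine (eventually_all_finset _).2 fun x hx => ((eventually_all_finset _).2 fun y _ =>
        eventually_imp_distrib_left.2 CTop_sepc).and ((CTop_small (abs_pos.2
          (Finsupp.mem_support_iff.1 hx))).and (eventually_imp_distrib_left.2 fun a =>
            CTop_small (abs_pos.2 (sub_ne_zero.2 a))))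
    obtain ⟨K, hK, hK1⟩ := (ev.and (eventually_ge_atTop 1)).exists
    refine ⟨s, le_rfl, (CTop_nm s fun _ y => if CTop_cell 0 (root 0) y then 1 else 0) ::
      μ.support.toList.map fun x => CTop_nm s fun _ y => if CTop_cell K x y then 1 else 0,
      1 / ((K : ℝ) + 1), by positivity, List.forall_mem_cons.2 ⟨CTop_cf_cell _ _ _,
        List.forall_mem_map.2 fun x _ => CTop_cf_cell _ _ _⟩, .inl ?_⟩
    rintro s'' hs'' _ ⟨c, hc, rfl⟩ hcl
    have key : ∀ x ∈ μ.support, CTop_cell K x (root c) ∧ μ x = 1 := by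
      intro x hx
      have h1 := CTop_close hcl (List.mem_cons_of_mem _
        (List.mem_map_of_mem (Finset.mem_toList.2 hx)))
      rw [Finsupp.linearCombination_single, Finsupp.linearCombination_apply,
        Finsupp.sum_eq_single x (fun y hy hyx => by
          rw [if_neg ((hK x hx).1 y (Finsupp.mem_support_iff.2 hy) hyx.symm), smul_zero])
          (fun _ => zero_smul _ _), if_pos ⟨rfl, ag.refl _ _, ag.refl _ _⟩] at h1
      simp only [smul_eq_mul, mul_one, one_mul] at h1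
      split_ifs at h1 with h2
      · exact ⟨h2, by_contra fun a => ((hK x hx).2.2 a).not_gt h1⟩
      · rw [sub_zero] at h1
        exact ((hK x hx).2.1.not_gt h1).elim
    rcases μ.support.eq_empty_or_nonempty with h0 | ⟨x, hx⟩
    · have h1 := CTop_close hcl List.mem_cons_self
      rw [Finsupp.support_eq_empty.1 h0, map_zero, Finsupp.linearCombination_single,
        if_pos ⟨by simp, fun _ a => absurd a (Nat.not_lt_zero _),
          fun _ a => absurd a (Nat.not_lt_zero _)⟩, lt_div_iff₀ (by positivity)] at h1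
      simp only [smul_eq_mul, mul_one, zero_sub, abs_neg, abs_one, one_mul] at h1
      linarith [(Nat.cast_nonneg K : (0 : ℝ) ≤ K)]
    · have h0 : x.h = 0 := ((key x hx).1.zero hK1).2 rfl
      have h1 : root x.g = x := Pt.ext h0.symm (nrm_zero (reg_of_mem (hμ x hx) 0 h0)).symm rfl
      refine h ⟨x.g, ?_⟩
      rw [h1, ← (key x hx).2]
      refine Finsupp.support_subset_singleton.1 fun y hy => Finset.mem_singleton.2 ?_
      exact by_contra fun a => (hK y hy).1 x hx a ((key y hy).1.trans (key x hx).1.symm)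

end Pool.Agent.Work.MP_f50f0f_gt
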