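import Pool.Agent.Work.MP_f50f0f_gt.Basic

/-!
Closed subsets of `L_p(X)` are `G_δ` when closed subspaces of `C_p(X)` are separable.
-/

namespace Pool.Agent.Work.MP_f50f0f_gt

open Set Filter Topology TopologicalSpace

variable {X : Type*} [TopologicalSpace X]

lemma exists_bump [T35Space X] (x : X) {K : Set X} (hK : IsClosed K) (hx : x ∉ K) :
    ∃ f : C(X, ℝ), f x = 1 ∧ ∀ y ∈ K, f y = 0 := by
  obtain ⟨f, hf, h0, h1⟩ := CompletelyRegularSpace.completely_regular x K hK hx
  refine ⟨⟨fun y => 1 - (f y : ℝ), by fun_prop⟩, by simp [h0], fun y hy => ?_⟩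
  simp [h1 hy]

lemma exists_bump_finset [T35Space X] (S : Finset X) (x : X) :
    ∃ f : C(X, ℝ), f x = 1 ∧ ∀ y ∈ S, y ≠ x → f y = 0 := by
  obtain ⟨f, h1, h0⟩ := exists_bump x (K := (S : Set X) \ {x})
    (S.finite_toSet.subset sdiff_subset).isClosed (by simp)
  exact ⟨f, h1, fun y hy hyx => h0 y ⟨hy, hyx⟩⟩

/-- The functional attached to finitely many points and weights. -/
noncomputable def comb {n : ℕ} (y : Fin n → X) (μ : Fin n → ℝ) : Lp X :=
  ⟨fun f => ∑ i, μ i * f (y i), ∑ i, Finsupp.single (y i) (μ i), by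
    funext f
    beta_reduce
    rw [← Finsupp.sum_finsetSum_index (by simp) (by intros; ring)]
    simp⟩

lemma continuous_comb {n : ℕ} :
    Continuous fun p : (Fin n → X) × (Fin n → ℝ) => comb p.1 p.2 := by
  refine Continuous.subtype_mk (continuous_pi fun f => ?_) _
  fun_prop

/-- A multiplicative piece of a functional is a multiple of a point evaluation. -/
lemma exists_point [T35Space X] [Nonempty X] (ψ : Lp X) (w : C(X, ℝ))
    (h : ∀ f g : C(X, ℝ), ψ.1 (w * (f * g)) * ψ.1 w = ψ.1 (w * f) * ψ.1 (w * g)) :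
    ∃ y : X, (ψ.1 w ≠ 0 → w y ≠ 0) ∧ ∀ f : C(X, ℝ), ψ.1 (w * f) = ψ.1 w * f y := by
  classical
  obtain ⟨_, a, rfl⟩ := ψ
  simp only [Finsupp.sum, ContinuousMap.mul_apply] at h ⊢
  by_cases h0 : ∀ y ∈ a.support, w y = 0
  · refine ⟨Classical.arbitrary X, fun hne => (hne ?_).elim, fun f => ?_⟩
    · exact Finset.sum_eq_zero fun y hy => by rw [h0 y hy, mul_zero]
    · rw [Finset.sum_eq_zero fun y hy => by rw [h0 y hy, zero_mul, mul_zero],
        Finset.sum_eq_zero fun y hy => by rw [h0 y hy, mul_zero], zero_mul]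
  push Not at h0
  obtain ⟨y, hy, hwy⟩ := h0
  have huniq : ∀ z ∈ a.support, z ≠ y → w z = 0 := by
    intro z hz hzy
    obtain ⟨f, f1, f0⟩ := exists_bump_finset a.support y
    obtain ⟨g, g1, g0⟩ := exists_bump_finset a.support z
    have h1 := h f g
    rw [Finset.sum_eq_zero (s := a.support) (f := fun x => a x * (w x * (f x * g x))) (fun x hx => by
      by_cases hxy : x = y
      · rw [g0 x hx (hxy ▸ hzy.symm)]; ring
      · rw [f0 x hx hxy]; ring), zero_mul,
      Finset.sum_eq_single y (fun x hx hxy => by rw [f0 x hx hxy]; ring) (fun h => (h hy).elim),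
      Finset.sum_eq_single z (fun x hx hxz => by rw [g0 x hx hxz]; ring) (fun h => (h hz).elim),
      f1, g1] at h1
    have ay := Finsupp.mem_support_iff.1 hy
    have az := Finsupp.mem_support_iff.1 hz
    by_contra hwz
    exact (mul_ne_zero (mul_ne_zero ay (mul_ne_zero hwy one_ne_zero))
      (mul_ne_zero az (mul_ne_zero hwz one_ne_zero))) h1.symm
  refine ⟨y, fun _ => hwy, fun f => ?_⟩
  rw [Finset.sum_eq_single y (fun x hx hxy => by rw [huniq x hx hxy]; ring) (fun h => (h hy).elim),
    Finset.sum_eq_single y (fun x hx hxy => by rw [huniq x hx hxy]; ring) (fun h => (h hy).elim)]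
  ring

/-- A bump on the line. -/
noncomputable def bump (t : ℝ) : ℝ := max 0 (min 1 (2 - 2 * |t|))

lemma continuous_bump : Continuous bump := by unfold bump; fun_prop

lemma bump_eq_one {t : ℝ} (h : |t| < 1 / 2) : bump t = 1 := by
  rw [bump, min_eq_left (by linarith), max_eq_right zero_le_one]

lemma abs_lt_of_bump {t : ℝ} (h : bump t ≠ 0) : |t| < 1 := by
  by_contra hc
  exact h (max_eq_left ((min_le_right _ _).trans (by linarith)))

/-- The bumps attached to a function. -/
noncomputable def wfun (d : Cp X) (i : ℕ) : C(X, ℝ) :=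
  ⟨fun x => bump (d.1 x - 3 * i), continuous_bump.comp (d.2.sub continuous_const)⟩

lemma wfun_disjoint (d : Cp X) {i j : ℕ} (hij : i ≠ j) (x : X) (h : wfun d i x ≠ 0) :
    wfun d j x = 0 := by
  by_contra h'
  have h1 := abs_lt.1 (abs_lt_of_bump h)
  have h2 := abs_lt.1 (abs_lt_of_bump h')
  rcases lt_or_gt_of_ne hij with hl | hl
  · have : (i : ℝ) + 1 ≤ j := by exact_mod_cast hl
    linarith
  · have : (j : ℝ) + 1 ≤ i := by exact_mod_cast hl
    linarith

/-- Functionals that split along the bumps into multiples of point evaluations. -/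
def splitSet (d : Cp X) (n : ℕ) : Set (Lp X) :=
  {ψ | (∀ f : C(X, ℝ), ψ.1 f = ∑ i : Fin n, ψ.1 (wfun d i * f)) ∧
    ∀ (i : Fin n) (f g : C(X, ℝ)), ψ.1 (wfun d i * (f * g)) * ψ.1 (wfun d i) =
      ψ.1 (wfun d i * f) * ψ.1 (wfun d i * g)}

lemma isClosed_splitSet (d : Cp X) (n : ℕ) : IsClosed (splitSet d n) := by
  refine IsClosed.inter ?_ ?_
  · change IsClosed {ψ : Lp X | ∀ f : C(X, ℝ), ψ.1 f = ∑ i : Fin n, ψ.1 (wfun d i * f)}
    simp only [ofPred_forall]
    exact isClosed_iInter fun f => isClosed_eq (continuous_evalLp _)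
      (continuous_finsetSum _ fun i _ => continuous_evalLp _)
  · change IsClosed {ψ : Lp X | ∀ (i : Fin n) (f g : C(X, ℝ)),
      ψ.1 (wfun d i * (f * g)) * ψ.1 (wfun d i) = ψ.1 (wfun d i * f) * ψ.1 (wfun d i * g)}
    simp only [ofPred_forall]
    exact isClosed_iInter fun i => isClosed_iInter fun f => isClosed_iInter fun g =>
      isClosed_eq ((continuous_evalLp _).mul (continuous_evalLp _))
        ((continuous_evalLp _).mul (continuous_evalLp _))

lemma exists_comb (φ : Lp X) : ∃ (n : ℕ) (x : Fin n → X) (c : Fin n → ℝ),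
    Function.Injective x ∧ (∀ i, c i ≠ 0) ∧ φ = comb x c := by
  obtain ⟨_, a, rfl⟩ := φ
  let e := a.support.equivFin.symm
  refine ⟨a.support.card, fun i => (e i).1, fun i => a (e i).1,
    Subtype.val_injective.comp e.injective, fun i => Finsupp.mem_support_iff.1 (e i).2, ?_⟩
  apply Subtype.ext
  funext f
  simp only [comb, Finsupp.sum]
  rw [← Finset.sum_coe_sort]
  exact (e.sum_comp fun z : a.support => a z.1 * f z.1).symm

theorem isGδ_of_isClosed [T35Space X] (H : Hyp X) {A : Set (Lp X)} (hA : IsClosed A) : IsGδ A := by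
  classical
  rcases isEmpty_or_nonempty X with hX | hX
  · have : Subsingleton (Lp X) := ⟨fun φ ψ => by
      obtain ⟨_, a, rfl⟩ := φ
      obtain ⟨_, b, rfl⟩ := ψ
      rw [Subsingleton.elim a b]⟩
    exact (isOpen_discrete A).isGδ
  obtain ⟨D, hD, -, hD'⟩ := exists_dense H (isClosed_univ (X := Cp X))
  let toC : Cp X → C(X, ℝ) := fun h => ⟨h.1, h.2⟩
  let J := D × Σ n : ℕ, countableBasis (Fin n → ℝ)
  let F : J → Set (Cp X) := fun j => {h | ∀ ψ ∈ A, ψ ∈ splitSet j.1.1 j.2.1 →
    (fun i : Fin j.2.1 => ψ.1 (wfun j.1.1 i)) ∈ j.2.2.1 →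
      ∏ i : Fin j.2.1, ψ.1 (wfun j.1.1 i * toC h) = 0}
  have hcont : ∀ (ψ : Lp X) (j : J),
      Continuous fun h : Cp X => ∏ i : Fin j.2.1, ψ.1 (wfun j.1.1 i * toC h) := fun ψ j =>
    continuous_finsetProd _ fun i _ => continuous_apply_family ψ _ fun x =>
      continuous_const.mul (continuous_evalCp x)
  have hF : ∀ j, IsClosed (F j) := fun j => by
    simp only [F, ofPred_forall]
    exact isClosed_iInter fun ψ => isClosed_iInter fun _ => isClosed_iInter fun _ =>
      isClosed_iInter fun _ => isClosed_eq (hcont ψ j) continuous_const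
  choose E hE hEF hE' using fun j => exists_dense H (hF j)
  have : Countable D := hD.to_subtype
  have : ∀ n, Countable (countableBasis (Fin n → ℝ)) :=
    fun n => (countable_countableBasis _).to_subtype
  have : ∀ j, Countable (E j) := fun j => (hE j).to_subtype
  have key : A = ⋂ k : Σ j : J, E j, ((splitSet k.1.1.1 k.1.2.1)ᶜ ∪
      (fun ψ : Lp X => ((fun i : Fin k.1.2.1 => ψ.1 (wfun k.1.1.1 i)),
        ∏ i : Fin k.1.2.1, ψ.1 (wfun k.1.1.1 i * toC k.2.1))) ⁻¹'
          {p | p.1 ∉ k.1.2.2.1 ∨ p.2 = 0}) := by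
    ext φ
    simp only [mem_iInter, mem_union, mem_compl_iff, mem_preimage, mem_ofPred_eq]
    constructor
    · intro hφ k
      by_cases h1 : φ ∈ splitSet k.1.1.1 k.1.2.1
      · by_cases h2 : (fun i : Fin k.1.2.1 => φ.1 (wfun k.1.1.1 i)) ∈ k.1.2.2.1
        · exact Or.inr (Or.inr (hEF k.1 k.2.2 φ hφ h1 h2))
        · exact Or.inr (Or.inl h2)
      · exact Or.inl h1
    · intro hφ
      by_contra hφA
      obtain ⟨n, x, c, hx, hc, rfl⟩ := exists_comb φ
      -- a function in `D` separating the points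
      choose b b1 b0 using fun i => exists_bump_finset (Finset.univ.image x) (x i)
      have b0' : ∀ i j, j ≠ i → b i (x j) = 0 := fun i j hji =>
        b0 i _ (Finset.mem_image_of_mem _ (Finset.mem_univ j)) (hx.ne hji)
      let f₀ : C(X, ℝ) := ∑ i : Fin n, (3 * (i : ℝ)) • b i
      have hf₀ : ∀ j, f₀ (x j) = 3 * (j : ℝ) := fun j => by
        simp only [f₀, ContinuousMap.sum_apply, ContinuousMap.smul_apply, smul_eq_mul]
        rw [Finset.sum_eq_single j (fun i _ hij => by rw [b0' i j hij.symm, mul_zero])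
          (by simp), b1, mul_one]
      obtain ⟨d, hd, hdx⟩ := hD' ⟨f₀, f₀.2⟩ (mem_univ _)
        (⋂ j : Fin n, {h : Cp X | |h.1 (x j) - 3 * (j : ℕ)| < 1 / 2})
        (isOpen_iInter_of_finite fun j =>
          isOpen_lt ((continuous_evalCp _).sub continuous_const).abs continuous_const)
        (mem_iInter.2 fun j => by simp [hf₀])
      have w1 : ∀ j : Fin n, wfun d j (x j) = 1 := fun j => bump_eq_one (mem_iInter.1 hdx j)
      have w0 : ∀ i j : Fin n, j ≠ i → wfun d i (x j) = 0 := fun i j hji =>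
        wfun_disjoint d (fun h => hji (Fin.ext h)) _ (by rw [w1]; exact one_ne_zero)
      have hval : ∀ (i : Fin n) (f : C(X, ℝ)), (comb x c).1 (wfun d i * f) = c i * f (x i) :=
        fun i f => by
          simp only [comb, ContinuousMap.mul_apply]
          rw [Finset.sum_eq_single i (fun j _ hji => by rw [w0 i j hji]; ring) (by simp), w1,
            one_mul]
      have hval1 : ∀ i : Fin n, (comb x c).1 (wfun d i) = c i := fun i => by
        have := hval i 1
        simpa using this
      have hsplit : comb x c ∈ splitSet d n := by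
        refine ⟨fun f => ?_, fun i f g => ?_⟩
        · simp only [hval]; rfl
        · simp only [hval, hval1, ContinuousMap.mul_apply]; ring
      -- a box around the data
      have hnb : (fun p : (Fin n → X) × (Fin n → ℝ) => comb p.1 p.2) ⁻¹' Aᶜ ∈ 𝓝 (x, c) :=
        continuous_comb.continuousAt.preimage_mem_nhds (hA.isOpen_compl.mem_nhds hφA)
      obtain ⟨U, hU, V, hV, hUV⟩ := mem_nhds_prod_iff.1 hnb
      obtain ⟨U', hU', hxU', hU'U⟩ : ∃ U' : Fin n → Set X, (∀ i, IsOpen (U' i)) ∧
          (∀ i, x i ∈ U' i) ∧ univ.pi U' ⊆ U := by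
        obtain ⟨W, hWU, hW, hxW⟩ := mem_nhds_iff.1 hU
        obtain ⟨u, hu, hu'⟩ := isOpen_pi_iff'.1 hW x hxW
        exact ⟨u, fun i => (hu i).1, fun i => (hu i).2, hu'.trans hWU⟩
      obtain ⟨B, hB, hcB, hBV⟩ := (isBasis_countableBasis (Fin n → ℝ)).mem_nhds_iff.1 hV
      choose g g1 g0 using fun i => exists_bump (x i) (hU' i).isClosed_compl (by simp [hxU' i])
      let f : C(X, ℝ) := ∑ i : Fin n, wfun d i * g i
      have hf : ∀ (i : Fin n) (y : X), wfun d i y ≠ 0 → f y = wfun d i y * g i y := fun i y hy => by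
        simp only [f, ContinuousMap.sum_apply, ContinuousMap.mul_apply]
        exact Finset.sum_eq_single i (fun j _ hji => by
          rw [wfun_disjoint d (fun h => hji (Fin.ext h).symm) y hy, zero_mul]) (by simp)
      let j : J := (⟨d, hd⟩, ⟨n, ⟨B, hB⟩⟩)
      have hfF : (⟨f, f.2⟩ : Cp X) ∈ F j := by
        intro ψ hψ hψs hψB
        by_contra hne
        choose y hy hy' using fun i : Fin n => exists_point ψ (wfun d i) (hψs.2 i)
        have hne' : ∀ i : Fin n, ψ.1 (wfun d i * f) ≠ 0 := fun i =>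
          Finset.prod_ne_zero_iff.1 hne i (Finset.mem_univ i)
        have hyU : ∀ i, y i ∈ U' i := fun i => by
          have h1 := hne' i
          rw [hy' i f] at h1
          have h2 := hy i (left_ne_zero_of_mul h1)
          have h3 := right_ne_zero_of_mul h1
          rw [hf i _ h2] at h3
          by_contra hc'
          exact right_ne_zero_of_mul h3 (g0 i _ hc')
        have hψe : ψ = comb y fun i => ψ.1 (wfun d i) := by
          apply Subtype.ext
          funext f'
          rw [hψs.1 f']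
          exact Finset.sum_congr rfl fun i _ => hy' i f'
        have : (y, fun i : Fin n => ψ.1 (wfun d i)) ∈ U ×ˢ V :=
          ⟨hU'U fun i _ => hyU i, hBV hψB⟩
        have h4 : (comb y fun i => ψ.1 (wfun d i)) ∈ A := by rw [← hψe]; exact hψ
        exact hUV this h4
      obtain ⟨e, he, he'⟩ := hE' j _ hfF
        {h | ∏ i : Fin n, (comb x c).1 (wfun d i * toC h) ≠ 0}
        (isOpen_ne_fun (hcont (comb x c) j) continuous_const) (by
          simp only [mem_ofPred_eq, hval]
          refine Finset.prod_ne_zero_iff.2 fun i _ => mul_ne_zero (hc i) ?_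
          change f (x i) ≠ 0
          rw [hf i _ (by rw [w1]; exact one_ne_zero), w1, g1]
          norm_num)
      rcases hφ ⟨j, ⟨e, he⟩⟩ with h | h | h
      · exact h hsplit
      · refine h ?_
        simpa only [j, hval1] using hcB
      · exact he' h
  rw [key]
  refine IsGδ.iInter fun k => IsGδ.union (isClosed_splitSet _ _).isOpen_compl.isGδ ?_
  refine IsGδ.preimage ?_ (IsClosed.isGδ ?_)
  · exact (continuous_pi fun i => continuous_evalLp _).prodMk
      (continuous_finsetProd _ fun i _ => continuous_evalLp _)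
  · exact ((isOpen_of_mem_countableBasis k.1.2.2.2).preimage continuous_fst).isClosed_compl.union
      (isClosed_eq continuous_snd continuous_const)

end Pool.Agent.Work.MP_f50f0f_gt
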