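import Pool.Agent.Work.MP_f50f0f_gt.Basic

/-!
The zero-dimensional case.
-/

namespace Pool.Agent.Work.MP_f50f0f_gt

open Set Filter Topology TopologicalSpace

variable {X : Type*} [TopologicalSpace X]

lemma open_eq_iUnion_clopen (H : Hyp X) (hz : IsTopologicalBasis {s : Set X | IsClopen s})
    {U : Set X} (hU : IsOpen U) : ∃ C : ℕ → Set X, (∀ n, IsClopen (C n)) ∧ ⋃ n, C n = U := by
  classical
  let F : Set (Cp X) := {h | (∀ x, h.1 x = 0 ∨ h.1 x = 1) ∧ ∀ x, x ∉ U → h.1 x = 0}
  have hF : IsClosed F := by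
    refine IsClosed.inter ?_ ?_
    · change IsClosed {h : Cp X | ∀ x, h.1 x = 0 ∨ h.1 x = 1}
      simp only [ofPred_forall]
      exact isClosed_iInter fun x => (isClosed_eq (continuous_evalCp x) continuous_const).union
        (isClosed_eq (continuous_evalCp x) continuous_const)
    · change IsClosed {h : Cp X | ∀ x, x ∉ U → h.1 x = 0}
      simp only [ofPred_forall]
      exact isClosed_iInter fun x => isClosed_iInter fun _ =>
        isClosed_eq (continuous_evalCp x) continuous_const
  obtain ⟨D, hD, hDF, hD'⟩ := exists_dense H hF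
  have h0 : (⟨0, continuous_zero⟩ : Cp X) ∈ F := ⟨fun _ => Or.inl rfl, fun _ _ => rfl⟩
  obtain ⟨e, he⟩ := (hD.insert ⟨0, continuous_zero⟩).exists_eq_range (insert_nonempty _ _)
  have heF : ∀ n, e n ∈ F := fun n => by
    have : e n ∈ insert (⟨0, continuous_zero⟩ : Cp X) D := he ▸ mem_range_self n
    rcases this with h | h
    · exact h ▸ h0
    · exact hDF h
  refine ⟨fun n => {x | (e n).1 x ≠ 0}, fun n => ⟨?_, isOpen_ne_fun (e n).2 continuous_const⟩, ?_⟩
  · have : {x | (e n).1 x ≠ 0} = {x | (e n).1 x = 1} := by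
      ext x
      rcases (heF n).1 x with h | h <;> simp [h]
    beta_reduce
    rw [this]
    exact isClosed_eq (e n).2 continuous_const
  · ext x
    simp only [mem_iUnion, mem_ofPred_eq]
    constructor
    · rintro ⟨n, hn⟩
      by_contra hx
      exact hn ((heF n).2 x hx)
    · intro hx
      obtain ⟨C, hC, hxC, hCU⟩ := hz.exists_subset_of_mem_open hx hU
      have hc : Continuous (C.indicator fun _ => (1 : ℝ)) :=
        IsClopen.continuous_indicator hC continuous_const
      obtain ⟨d, hd, hdx⟩ := hD' ⟨_, hc⟩ ⟨fun y => by by_cases hy : y ∈ C <;> simp [hy],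
        fun y hy => indicator_of_notMem (fun h => hy (hCU h)) (fun _ => (1 : ℝ))⟩ {h | h.1 x ≠ 0}
        (isOpen_ne_fun (continuous_evalCp x) continuous_const) (by simp [hxC])
      have : d ∈ range e := he ▸ mem_insert_of_mem _ hd
      obtain ⟨n, rfl⟩ := this
      exact ⟨n, hdx⟩

/-- Every countable open cover is refined by a locally constant index function. -/
def Ultra (X : Type*) [TopologicalSpace X] : Prop :=
  ∀ U : ℕ → Set X, (∀ m, IsOpen (U m)) → (∀ x, ∃ m, x ∈ U m) →
    ∃ N : X → ℕ, IsLocallyConstant N ∧ ∀ x, x ∈ U (N x)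

lemma ultra_of_hyp (H : Hyp X) (hz : IsTopologicalBasis {s : Set X | IsClopen s}) : Ultra X := by
  classical
  intro U hU hcov
  choose C hC hCU using fun m => open_eq_iUnion_clopen H hz (hU m)
  let V : ℕ → Set X := fun k => C k.unpair.1 k.unpair.2
  have hV : ∀ x, ∃ k, x ∈ V k := fun x => by
    obtain ⟨m, hm⟩ := hcov x
    rw [← hCU m] at hm
    obtain ⟨n, hn⟩ := mem_iUnion.1 hm
    exact ⟨Nat.pair m n, by simpa [V] using hn⟩
  have hlc : IsLocallyConstant fun x => Nat.find (hV x) := by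
    rw [IsLocallyConstant.iff_isOpen_fiber]
    intro k
    have : (fun x => Nat.find (hV x)) ⁻¹' {k} = V k ∩ ⋂ j ∈ Finset.range k, (V j)ᶜ := by
      ext x
      simp [Nat.find_eq_iff]
    rw [this]
    exact (hC _ _).isOpen.inter (isOpen_biInter_finset fun j _ => (hC _ _).compl.isOpen)
  refine ⟨fun x => (Nat.find (hV x)).unpair.1, hlc.comp fun k => k.unpair.1, fun x => ?_⟩
  rw [← hCU]
  exact mem_iUnion.2 ⟨_, Nat.find_spec (hV x)⟩

/-- The sign attached to a Boolean digit. -/
def sgZ (b : Bool) : ℝ := if b then 1 else -1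

lemma abs_sg (b : Bool) : |sgZ b| = 1 := by cases b <;> simp [sgZ]

lemma exists_digits (hX : Ultra X) (f : X → ℝ) (hf : Continuous f) (hb : ∀ x, |f x| ≤ 1) :
    ∃ s : ℕ → X → Bool, (∀ m, Continuous (s m)) ∧
      ∀ x, f x = ∑' m, sgZ (s m x) * (1 / 3 * (2 / 3) ^ m) := by
  have step : ∀ (m : ℕ) (g : {g : X → ℝ // Continuous g ∧ ∀ x, |g x| ≤ (2 / 3) ^ m}),
      ∃ s : X → Bool, Continuous s ∧
        ∀ x, |g.1 x - sgZ (s x) * (1 / 3 * (2 / 3) ^ m)| ≤ (2 / 3) ^ (m + 1) := by
    intro m g
    have hc : (0 : ℝ) < (2 / 3) ^ m := by positivity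
    obtain ⟨N, hN, hN'⟩ := hX (fun j => if j = 0 then {x | g.1 x < 1 / 3 * (2 / 3) ^ m}
      else {x | -(1 / 3 * (2 / 3) ^ m) < g.1 x}) (fun j => by
        split_ifs
        · exact isOpen_lt g.2.1 continuous_const
        · exact isOpen_lt continuous_const g.2.1) (fun x => by
        by_cases h : g.1 x < 1 / 3 * (2 / 3) ^ m
        · exact ⟨0, by simpa using h⟩
        · refine ⟨1, ?_⟩
          simp only [one_ne_zero, if_false, mem_ofPred_eq]
          linarith)
    refine ⟨fun x => decide (N x ≠ 0), (hN.comp fun j => decide (j ≠ 0)).continuous, fun x => ?_⟩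
    have h1 := hN' x
    have h2 := abs_le.1 (g.2.2 x)
    rw [pow_succ, abs_le]
    by_cases h : N x = 0
    · simp only [h, if_true, mem_ofPred_eq] at h1
      simp only [h, sgZ, ne_eq, not_true_eq_false, decide_false, Bool.false_eq_true, if_false]
      constructor <;> linarith
    · simp only [h, if_false, mem_ofPred_eq] at h1
      simp only [h, sgZ, ne_eq, not_false_eq_true, decide_true, if_true]
      constructor <;> linarith
  choose σ hσ hσ' using step
  have csg : Continuous sgZ := continuous_of_discreteTopology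
  let g : (m : ℕ) → {g : X → ℝ // Continuous g ∧ ∀ x, |g x| ≤ (2 / 3) ^ m} := fun m =>
    Nat.rec ⟨f, hf, by simpa using hb⟩ (fun m g =>
      ⟨fun x => g.1 x - sgZ (σ m g x) * (1 / 3 * (2 / 3) ^ m),
        g.2.1.sub ((csg.comp (hσ m g)).mul continuous_const), hσ' m g⟩) m
  refine ⟨fun m => σ m (g m), fun m => hσ m (g m), fun x => ?_⟩
  have hsum : Summable fun m => sgZ (σ m (g m) x) * (1 / 3 * (2 / 3 : ℝ) ^ m) := by
    refine Summable.of_norm_bounded (g := fun m => 1 / 3 * (2 / 3 : ℝ) ^ m)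
      ((summable_geometric_of_lt_one (by norm_num) (by norm_num)).mul_left _) fun m => ?_
    rw [norm_mul, Real.norm_eq_abs, abs_sg, one_mul, Real.norm_of_nonneg (by positivity)]
  have hpart : ∀ m, ∑ j ∈ Finset.range m, sgZ (σ j (g j) x) * (1 / 3 * (2 / 3 : ℝ) ^ j) =
      f x - (g m).1 x := fun m => by
    induction m with
    | zero => simp [g]
    | succ m ih =>
      rw [Finset.sum_range_succ, ih]
      have : (g (m + 1)).1 x = (g m).1 x - sgZ (σ m (g m) x) * (1 / 3 * (2 / 3) ^ m) := rfl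
      rw [this]
      ring
  have hlim : Tendsto (fun m => f x - (g m).1 x) atTop (𝓝 (f x - 0)) := by
    refine tendsto_const_nhds.sub (squeeze_zero_norm (fun m => (g m).2.2 x) ?_)
    exact tendsto_pow_atTop_nhds_zero_of_lt_one (by norm_num) (by norm_num)
  have := hsum.hasSum.tendsto_sum_nat
  simp only [hpart] at this
  rw [sub_zero] at hlim
  exact tendsto_nhds_unique hlim this

/-- A curve through which every finite family of continuous functions on an `Ultra` space
factors. -/
lemma exists_universal_curve : ∃ P : ℝ → ℕ → ℝ, Continuous P ∧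
    ∀ (X : Type*) [TopologicalSpace X], Ultra X → ∀ (f : ℕ → C(X, ℝ)) (w : C(X, ℝ)),
      (∀ i x, |f i x| ≤ w x) → ∃ h : X → ℝ, Continuous h ∧ ∀ x i, P (h x) i = f i x := by
  have csg : Continuous sgZ := continuous_of_discreteTopology
  let Q : C(ℕ → Bool, ℕ → ℝ) :=
    ⟨fun d i => ∑' m, sgZ (d (Nat.pair i m)) * (1 / 3 * (2 / 3) ^ m), continuous_pi fun i =>
      continuous_tsum (u := fun m => 1 / 3 * (2 / 3 : ℝ) ^ m)
        (fun m => (csg.comp (continuous_apply _)).mul continuous_const)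
        ((summable_geometric_of_lt_one (by norm_num) (by norm_num)).mul_left _) fun m d => by
          rw [norm_mul, Real.norm_eq_abs, abs_sg, one_mul, Real.norm_of_nonneg (by positivity)]⟩
  let e : (ℕ → Bool) → ℝ := fun d => (cantorSetHomeomorphNatToBool.symm d).1
  have he : IsClosedEmbedding e :=
    isClosed_cantorSet.isClosedEmbedding_subtypeVal.comp
      cantorSetHomeomorphNatToBool.symm.isClosedEmbedding
  have he01 : ∀ d, e d ∈ Icc (0 : ℝ) 1 := fun d =>
    cantorSet_subset_unitInterval (cantorSetHomeomorphNatToBool.symm d).2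
  obtain ⟨P₀, hP₀⟩ := ContinuousMap.exists_extension' he Q
  let b : ℝ → ℝ := fun t => Real.arccos (Real.cos (Real.pi * t)) / Real.pi
  have hb : Continuous b := by
    have := Real.continuous_arccos
    fun_prop
  have hb' : ∀ (n : ℕ) (c : ℝ), c ∈ Icc (0 : ℝ) 1 → b (2 * n + c) = c := fun n c hc => by
    have e1 : Real.pi * (2 * n + c) = Real.pi * c + n * (2 * Real.pi) := by ring
    simp only [b]
    rw [e1, Real.cos_add_nat_mul_two_pi, Real.arccos_cos (mul_nonneg Real.pi_pos.le hc.1)
      (mul_le_of_le_one_right Real.pi_pos.le hc.2)]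
    field_simp
  refine ⟨fun t i => (t - b t) / 2 * P₀ (b t) i, continuous_pi fun i => by fun_prop, ?_⟩
  intro X _ hX f w hw
  obtain ⟨N, hN, hN'⟩ := hX (fun m => {x | w x < m}) (fun m => isOpen_lt w.2 continuous_const)
    fun x => exists_nat_gt (w x)
  have hNpos : ∀ x, (0 : ℝ) < N x := fun x =>
    lt_of_le_of_lt ((abs_nonneg _).trans (hw 0 x)) (hN' x)
  have hNc : Continuous fun x => (N x : ℝ) := (hN.comp fun n => (n : ℝ)).continuous
  choose s hs hs' using fun i => exists_digits hX (fun x => f i x / N x)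
    ((f i).continuous.div hNc fun x => (hNpos x).ne') fun x => by
      rw [abs_div, abs_of_pos (hNpos x), div_le_one (hNpos x)]
      exact (hw i x).trans (hN' x).le
  let d : X → ℕ → Bool := fun x n => s n.unpair.1 n.unpair.2 x
  have hd : Continuous d := continuous_pi fun n => hs _ _
  refine ⟨fun x => 2 * N x + e (d x), (continuous_const.mul hNc).add (he.continuous.comp hd),
    fun x i => ?_⟩
  simp only [hb' (N x) _ (he01 (d x))]
  have e1 : P₀ (e (d x)) = Q (d x) := congrFun hP₀ (d x)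
  have e2 : Q (d x) i = f i x / N x := by
    rw [hs' i x]
    simp [Q, d]
  rw [e1, e2]
  have := (hNpos x).ne'
  field_simp
  ring

theorem perfectlyNormal_of_ultra (H : Hyp X) (hX : Ultra X) : PerfectlyNormalSpace (Lp X) := by
  classical
  obtain ⟨P, hP, hP'⟩ := exists_universal_curve
  rw [perfectlyNormalSpace_iff_forall_isClosed_preimage_zero]
  intro A hA
  let G : ℕ → Cp X → C(X, ℝ) := fun i h =>
    ⟨fun x => P (h.1 x) i, (continuous_apply i).comp (hP.comp h.2)⟩
  let T : Lp X → Cp X → ℕ → ℝ := fun ψ h i => ψ.1 (G i h)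
  have hT1 : ∀ ψ, Continuous (T ψ) := fun ψ => continuous_pi fun i =>
    continuous_apply_family ψ (G i) fun x =>
      (continuous_apply i).comp (hP.comp (continuous_evalCp x))
  have hT2 : ∀ h, Continuous fun ψ => T ψ h := fun h => continuous_pi fun i =>
    continuous_evalLp _
  have hF : ∀ B : countableBasis (ℕ → ℝ), IsClosed {h : Cp X | ∀ ψ ∈ A, T ψ h ∉ B.1} :=
    fun B => by
      simp only [ofPred_forall]
      exact isClosed_iInter fun ψ => isClosed_iInter fun _ =>
        ((isOpen_of_mem_countableBasis B.2).preimage (hT1 ψ)).isClosed_compl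
  choose D hD hDF hD' using fun B => exists_dense H (hF B)
  let J := Σ B : countableBasis (ℕ → ℝ), D B
  have : Countable (countableBasis (ℕ → ℝ)) := (countable_countableBasis _).to_subtype
  have : ∀ B, Countable (D B) := fun B => (hD B).to_subtype
  let S : Lp X → J → ℕ → ℝ := fun ψ j => T ψ j.2.1
  have hS : Continuous S := continuous_pi fun j => hT2 _
  have hC : IsClosed {v : J → ℕ → ℝ | ∀ j, v j ∉ j.1.1} := by
    simp only [ofPred_forall]
    exact isClosed_iInter fun j =>
      ((isOpen_of_mem_countableBasis j.1.2).preimage (continuous_apply j)).isClosed_compl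
  have key : A = S ⁻¹' {v : J → ℕ → ℝ | ∀ j, v j ∉ j.1.1} := by
    ext φ
    refine ⟨fun hφ j => hDF j.1 j.2.2 φ hφ, fun hφ => ?_⟩
    by_contra hφA
    obtain ⟨O, hO, hOA⟩ := isOpen_induced_iff.1 hA.isOpen_compl
    have hφO : φ.1 ∈ O := by
      have : φ ∈ Subtype.val ⁻¹' O := hOA ▸ hφA
      exact this
    obtain ⟨I, u, hu, hI⟩ := isOpen_pi_iff.1 hO φ.1 hφO
    let f : ℕ → C(X, ℝ) := fun i => I.toList.getD i 0
    have hfI : ∀ g ∈ I, ∃ i < I.toList.length, f i = g := fun g hg => by
      obtain ⟨i, hi, e⟩ := List.getElem_of_mem (Finset.mem_toList.2 hg)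
      exact ⟨i, hi, by simp [f, List.getD_eq_getElem?_getD, List.getElem?_eq_getElem hi, e]⟩
    have hfI' : ∀ i < I.toList.length, f i ∈ I := fun i hi => by
      simp only [f, List.getD_eq_getElem?_getD, List.getElem?_eq_getElem hi, Option.getD_some]
      exact Finset.mem_toList.1 (List.getElem_mem hi)
    obtain ⟨h, hh, hh'⟩ := hP' X hX f (∑ g ∈ I, |g|) fun i x => by
      rw [ContinuousMap.sum_apply]
      by_cases hi : i < I.toList.length
      · exact Finset.single_le_sum (f := fun g : C(X, ℝ) => |g| x)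
          (fun g _ => abs_nonneg (g x)) (hfI' i hi)
      · have : f i = 0 := by
          simp [f, List.getD_eq_getElem?_getD, List.getElem?_eq_none (not_lt.1 hi)]
        rw [this]
        simpa using Finset.sum_nonneg fun (g : C(X, ℝ)) _ => abs_nonneg (g x)
    have hG : ∀ i, G i ⟨h, hh⟩ = f i := fun i => ContinuousMap.ext fun x => hh' x i
    let B₀ : Set (ℕ → ℝ) := ⋂ i ∈ Finset.range I.toList.length, {v | v i ∈ u (f i)}
    have hB₀ : IsOpen B₀ := isOpen_biInter_finset fun i hi =>
      (hu _ (hfI' i (Finset.mem_range.1 hi))).1.preimage (continuous_apply i)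
    have hφB₀ : T φ ⟨h, hh⟩ ∈ B₀ := by
      simp only [B₀, mem_iInter, mem_ofPred_eq, T, hG]
      exact fun i hi => (hu _ (hfI' i (Finset.mem_range.1 hi))).2
    obtain ⟨B, hB, hφB, hBB⟩ := (isBasis_countableBasis (ℕ → ℝ)).exists_subset_of_mem_open
      hφB₀ hB₀
    obtain ⟨d, hd, hd'⟩ := hD' ⟨B, hB⟩ ⟨h, hh⟩ (fun ψ hψ hψB => by
      have h1 := hBB hψB
      simp only [B₀, mem_iInter, mem_ofPred_eq, T, hG] at h1
      have h2 : ψ.1 ∈ O := hI fun g hg => by
        obtain ⟨i, hi, rfl⟩ := hfI g hg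
        exact h1 i (Finset.mem_range.2 hi)
      have h3 : ψ ∈ Aᶜ := hOA ▸ h2
      exact h3 hψ) (T φ ⁻¹' B) ((isOpen_of_mem_countableBasis hB).preimage (hT1 φ)) hφB
    exact hφ ⟨⟨B, hB⟩, ⟨d, hd⟩⟩ hd'
  obtain ⟨g, hg, hg'⟩ := perfectlyNormalSpace_iff_forall_isClosed_preimage_zero.1
    (inferInstance : PerfectlyNormalSpace (J → ℕ → ℝ)) _ hC
  exact ⟨g.comp ⟨S, hS⟩, by rw [key, hg]; rfl, fun ψ => hg' _⟩

end Pool.Agent.Work.MP_f50f0f_gt
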